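import Pool.Agent.Lib.MP_af3d17_cn.CountBasic

/-! # Counting zeros: sums and products -/

set_option autoImplicit false

namespace Pool.Agent.ZC

open Filter Topology Set
open Pool.Agent.ZP (pt Lam EE IsUpperZero IsOrdinateSeq)
open CB

/-- the count as a sum over the finite set of zeros -/
theorem cnt_eq_sum {f : ℂ → ℂ} {S : Set ℂ} (Z : Finset ℂ)
    (hZ : ∀ z, z ∈ Z ↔ z ∈ S ∧ analyticOrderAt f z ≠ 0)
    (htop : ∀ z ∈ Z, analyticOrderAt f z ≠ ⊤) : cnt f S = ∑ z ∈ Z, (analyticOrderAt f z).toNat := by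
  classical
  have h1 : zset f S = ((Z.biUnion fun z =>
      (Finset.range (analyticOrderAt f z).toNat).image (Prod.mk z) : Finset (ℂ × ℕ)) :
        Set (ℂ × ℕ)) := by
    ext ⟨s, j⟩
    rw [Finset.mem_coe, Finset.mem_biUnion, mem_zset]
    constructor
    · rintro ⟨hs, hj⟩
      have hj' : (j : ℕ∞) < analyticOrderAt f s := hj
      have hne : analyticOrderAt f s ≠ 0 := (zero_le.trans_lt hj').ne'
      have hsZ : s ∈ Z := (hZ s).2 ⟨hs, hne⟩
      refine ⟨s, hsZ, Finset.mem_image.2 ⟨j, Finset.mem_range.2 ?_, rfl⟩⟩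
      rw [← ENat.natCast_toNat (htop s hsZ)] at hj'
      exact_mod_cast hj'
    · rintro ⟨z, hz, hj⟩
      rw [Finset.mem_image] at hj
      obtain ⟨i, hi, he⟩ := hj
      rw [Finset.mem_range] at hi
      obtain ⟨rfl, rfl⟩ := Prod.mk.inj he
      refine ⟨((hZ z).1 hz).1, ?_⟩
      show (i : ℕ∞) < analyticOrderAt f z
      rw [← ENat.natCast_toNat (htop z hz)]
      exact_mod_cast hi
  unfold cnt
  rw [h1, ncard_coe_finset, Finset.card_biUnion]
  · refine Finset.sum_congr rfl fun z _ => ?_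
    rw [Finset.card_image_of_injective _ (Prod.mk_right_injective z), Finset.card_range]
  · intro z _ z' _ hne
    show Disjoint _ _
    rw [Finset.disjoint_left]
    rintro ⟨s, j⟩ h2 h3
    rw [Finset.mem_image] at h2 h3
    obtain ⟨i, -, he⟩ := h2
    obtain ⟨i', -, he'⟩ := h3
    exact hne ((Prod.mk.inj he).1.trans (Prod.mk.inj he').1.symm)

namespace CB

theorem order_prod {k : ℕ} (z : Fin k → ℂ) (s : ℂ) (T : Finset (Fin k)) :
    analyticOrderAt (fun w => ∏ i ∈ T, (w - z i)) s = ((T.filter fun i => z i = s).card : ℕ∞) := by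
  classical
  induction T using Finset.induction_on with
  | empty =>
    have h1 : analyticOrderAt (fun _ : ℂ => (1 : ℂ)) s = 0 := by
      rw [analyticOrderAt_eq_zero]
      right
      exact one_ne_zero
    simpa using h1
  | insert j T hj ih =>
    have e : (fun w => ∏ i ∈ insert j T, (w - z i)) = (fun w => w - z j) *
        fun w => ∏ i ∈ T, (w - z i) := by
      funext w
      rw [Finset.prod_insert hj]
      rfl
    rw [e, analyticOrderAt_mul (by fun_prop) (by fun_prop), ih, Finset.filter_insert]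
    by_cases h : z j = s
    · rw [if_pos h, Finset.card_insert_of_notMem (by
        intro h2
        exact hj (Finset.mem_filter.1 h2).1), ← h, analyticOrderAt_id_sub_const_self]
      push_cast
      exact add_comm _ _
    · rw [if_neg h, analyticOrderAt_id_sub_const_of_ne (Ne.symm h), zero_add]

theorem order_ne_top_of_finite {f : ℂ → ℂ} {S : Set ℂ} (h : (zset f S).Finite) {s : ℂ}
    (hs : s ∈ S) : analyticOrderAt f s ≠ ⊤ := by
  intro htop
  have h1 : range (Prod.mk s : ℕ → ℂ × ℕ) ⊆ zset f S := by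
    rintro _ ⟨j, rfl⟩
    refine ⟨hs, ?_⟩
    show (j : ℕ∞) < analyticOrderAt f s
    rw [htop]
    exact ENat.natCast_lt_top j
  exact (infinite_range_of_injective (Prod.mk_right_injective s)) (h.subset h1)

theorem exists_zeros {f : ℂ → ℂ} {S : Set ℂ} (h : (zset f S).Finite) :
    ∃ Z : Finset ℂ, ∀ z, z ∈ Z ↔ z ∈ S ∧ analyticOrderAt f z ≠ 0 := by
  classical
  refine ⟨h.toFinset.image Prod.fst, fun z => ?_⟩
  rw [Finset.mem_image]
  constructor
  · rintro ⟨p, hp, rfl⟩
    rw [Finite.mem_toFinset] at hp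
    exact ⟨hp.1, (zero_le.trans_lt hp.2).ne'⟩
  · rintro ⟨hz, hne⟩
    refine ⟨(z, 0), ?_, rfl⟩
    rw [Finite.mem_toFinset]
    refine ⟨hz, ?_⟩
    show ((0 : ℕ) : ℕ∞) < analyticOrderAt f z
    rw [Nat.cast_zero]
    exact pos_iff_ne_zero.2 hne

end CB

/-- the zeros in `S` of a product `∏ (s - z i) * g` -/
theorem cnt_prod {f g : ℂ → ℂ} {S : Set ℂ} {k : ℕ} {z : Fin k → ℂ}
    (hg : ∀ s ∈ S, AnalyticAt ℂ g s ∧ g s ≠ 0) (hz : ∀ i, z i ∈ S)
    (hf : ∀ s ∈ S, f =ᶠ[𝓝 s] fun w => (∏ i, (w - z i)) * g w) : cnt f S = k := by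
  classical
  have hord : ∀ s ∈ S, analyticOrderAt f s =
      (((Finset.univ : Finset (Fin k)).filter fun i => z i = s).card : ℕ∞) := by
    intro s hs
    have h1 : analyticOrderAt (fun w => (∏ i, (w - z i)) * g w) s =
        analyticOrderAt (fun w => ∏ i, (w - z i)) s + analyticOrderAt g s :=
      analyticOrderAt_mul (by fun_prop) (hg s hs).1
    have h2 : analyticOrderAt g s = 0 := by
      rw [analyticOrderAt_eq_zero]
      exact Or.inr (hg s hs).2
    rw [analyticOrderAt_congr (hf s hs), h1, h2, add_zero, order_prod]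
  rw [cnt_eq_sum (Finset.univ.image z)]
  · have h3 : ∀ s ∈ Finset.univ.image z, (analyticOrderAt f s).toNat =
        ((Finset.univ : Finset (Fin k)).filter fun i => z i = s).card := by
      intro s hs
      rw [Finset.mem_image] at hs
      obtain ⟨i, -, rfl⟩ := hs
      rw [hord _ (hz i), ENat.toNat_natCast]
    rw [Finset.sum_congr rfl h3, ← Finset.card_eq_sum_card_image, Finset.card_univ,
      Fintype.card_fin]
  · intro s
    rw [Finset.mem_image]
    constructor
    · rintro ⟨i, -, rfl⟩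
      refine ⟨hz i, ?_⟩
      rw [hord _ (hz i)]
      have : 0 < ((Finset.univ : Finset (Fin k)).filter fun j => z j = z i).card :=
        Finset.card_pos.2 ⟨i, Finset.mem_filter.2 ⟨Finset.mem_univ _, rfl⟩⟩
      exact_mod_cast this.ne'
    · rintro ⟨hs, hne⟩
      rw [hord _ hs] at hne
      have h4 : ((Finset.univ : Finset (Fin k)).filter fun i => z i = s).card ≠ 0 := by
        exact_mod_cast hne
      obtain ⟨i, hi⟩ := Finset.card_pos.1 (Nat.pos_of_ne_zero h4)
      exact ⟨i, Finset.mem_univ _, (Finset.mem_filter.1 hi).2⟩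
  · intro s hs
    rw [Finset.mem_image] at hs
    obtain ⟨i, -, rfl⟩ := hs
    rw [hord _ (hz i)]
    exact ENat.natCast_ne_top _

theorem cnt_mul {f g : ℂ → ℂ} {S : Set ℂ} (hf : ∀ s ∈ S, AnalyticAt ℂ f s)
    (hg : ∀ s ∈ S, AnalyticAt ℂ g s) (hfin : (zset f S).Finite) (hfin' : (zset g S).Finite) :
    cnt (fun s => f s * g s) S = cnt f S + cnt g S := by
  classical
  obtain ⟨Z, hZ⟩ := exists_zeros hfin
  obtain ⟨Z', hZ'⟩ := exists_zeros hfin'
  have hft : ∀ s ∈ S, analyticOrderAt f s ≠ ⊤ := fun s hs => order_ne_top_of_finite hfin hs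
  have hgt : ∀ s ∈ S, analyticOrderAt g s ≠ ⊤ := fun s hs => order_ne_top_of_finite hfin' hs
  have hm : ∀ s ∈ S, analyticOrderAt (fun s => f s * g s) s =
      analyticOrderAt f s + analyticOrderAt g s := fun s hs =>
    analyticOrderAt_mul (hf s hs) (hg s hs)
  rw [cnt_eq_sum Z hZ (fun z hz => hft z ((hZ z).1 hz).1),
    cnt_eq_sum Z' hZ' (fun z hz => hgt z ((hZ' z).1 hz).1), cnt_eq_sum (Z ∪ Z')]
  · have h1 : ∀ s ∈ Z ∪ Z', s ∈ S := by
      intro s hs
      rcases Finset.mem_union.1 hs with h | h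
      · exact ((hZ s).1 h).1
      · exact ((hZ' s).1 h).1
    have h2 : ∀ s ∈ Z ∪ Z', (analyticOrderAt (fun s => f s * g s) s).toNat =
        (analyticOrderAt f s).toNat + (analyticOrderAt g s).toNat := by
      intro s hs
      rw [hm s (h1 s hs), ENat.toNat_add (hft s (h1 s hs)) (hgt s (h1 s hs))]
    rw [Finset.sum_congr rfl h2, Finset.sum_add_distrib]
    congr 1
    · symm
      apply Finset.sum_subset Finset.subset_union_left
      intro s hs hs2
      by_contra h3
      apply hs2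
      rw [hZ]
      refine ⟨h1 s hs, fun h4 => h3 ?_⟩
      rw [h4]
      rfl
    · symm
      apply Finset.sum_subset Finset.subset_union_right
      intro s hs hs2
      by_contra h3
      apply hs2
      rw [hZ']
      refine ⟨h1 s hs, fun h4 => h3 ?_⟩
      rw [h4]
      rfl
  · intro s
    rw [Finset.mem_union, hZ, hZ']
    constructor
    · rintro (⟨h1, h2⟩ | ⟨h1, h2⟩)
      · refine ⟨h1, ?_⟩
        rw [hm s h1]
        intro h3
        exact h2 (add_eq_zero.1 h3).1
      · refine ⟨h1, ?_⟩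
        rw [hm s h1]
        intro h3
        exact h2 (add_eq_zero.1 h3).2
    · rintro ⟨h1, h2⟩
      rw [hm s h1] at h2
      by_cases h3 : analyticOrderAt f s = 0
      · right
        refine ⟨h1, fun h4 => h2 ?_⟩
        rw [h3, h4, add_zero]
      · exact Or.inl ⟨h1, h3⟩
  · intro s hs
    have h1 : s ∈ S := by
      rcases Finset.mem_union.1 hs with h | h
      · exact ((hZ s).1 h).1
      · exact ((hZ' s).1 h).1
    rw [hm s h1]
    exact WithTop.add_ne_top.2 ⟨hft s h1, hgt s h1⟩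

end Pool.Agent.ZC
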