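import Pool.Agent.Lib.MP_af3d17_cn.Defs

/-!
# Row R2: the integral of `1/(s-z)` around a rectangle
-/

set_option autoImplicit false

namespace Pool.Agent.ZC

open Filter Topology Set
open Pool.Agent.ZP (pt Lam EE IsUpperZero IsOrdinateSeq)

private theorem hasDerivAt_pt_left (y x : ℝ) : HasDerivAt (fun x : ℝ => pt x y) 1 x := by
  have h1 : (fun x : ℝ => pt x y) = fun x : ℝ => (x : ℂ) + (y : ℂ) * Complex.I := by
    funext x
    apply Complex.ext <;> simp
  rw [h1]
  simpa using (Complex.ofRealCLM.hasDerivAt (x := x)).add_const ((y : ℂ) * Complex.I)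

private theorem hasDerivAt_pt_right (x y : ℝ) :
    HasDerivAt (fun y : ℝ => pt x y) Complex.I y := by
  have h1 : (fun y : ℝ => pt x y) = fun y : ℝ => (x : ℂ) + (y : ℂ) * Complex.I := by
    funext y
    apply Complex.ext <;> simp
  rw [h1]
  simpa using ((Complex.ofRealCLM.hasDerivAt (x := y)).mul_const Complex.I).const_add (x : ℂ)

/-- one side of the rectangle: a branch of the logarithm -/
private theorem seg_inv {γ : ℝ → ℂ} {e u z : ℂ} {p q : ℝ} (hpq : p ≤ q)
    (hγ : ∀ t, HasDerivAt γ e t) (hu : u ≠ 0)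
    (hs : ∀ t ∈ Icc p q, u * (γ t - z) ∈ Complex.slitPlane) :
    e * ∫ t in p..q, (γ t - z)⁻¹ =
      Complex.log (u * (γ q - z)) - Complex.log (u * (γ p - z)) := by
  have hne : ∀ t ∈ Icc p q, γ t - z ≠ 0 := by
    intro t ht h
    have := hs t ht
    rw [h, mul_zero] at this
    exact Complex.zero_notMem_slitPlane this
  have hderiv : ∀ t ∈ uIcc p q,
      HasDerivAt (fun t => Complex.log (u * (γ t - z))) (e * (γ t - z)⁻¹) t := by
    intro t ht
    rw [uIcc_of_le hpq] at ht
    have h1 : HasDerivAt (fun t => u * (γ t - z)) (u * e) t :=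
      ((hγ t).sub_const z).const_mul u
    have h2 := h1.clog_real (hs t ht)
    convert h2 using 1
    have := hne t ht
    field_simp
  have hcont : ContinuousOn (fun t => e * (γ t - z)⁻¹) (uIcc p q) := by
    rw [uIcc_of_le hpq]
    refine continuousOn_const.mul (ContinuousOn.inv₀ ?_ hne)
    exact (continuous_iff_continuousAt.2 fun t => (hγ t).continuousAt).continuousOn.sub
      continuousOn_const
  rw [← intervalIntegral.integral_const_mul]
  exact intervalIntegral.integral_eq_sub_of_hasDerivAt hderiv hcont.intervalIntegrable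

/-- the change of the branch -/
private theorem log_sub_log_neg {w : ℂ} (h : 0 < w.im) :
    Complex.log w - Complex.log (-w) = Real.pi * Complex.I := by
  rw [Complex.log, Complex.log, norm_neg, Complex.arg_neg_eq_arg_sub_pi_of_im_pos h]
  push_cast
  ring

private theorem log_neg_sub_log {w : ℂ} (h : w.im < 0) :
    Complex.log (-w) - Complex.log w = Real.pi * Complex.I := by
  rw [Complex.log, Complex.log, norm_neg, Complex.arg_neg_eq_arg_add_pi_of_im_neg h]
  push_cast
  ring

/-- R2 -/
theorem rect_int_inv {a b c d : ℝ} {z : ℂ} (hz : z ∈ Rc a b c d) :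
    (∫ x in a..b, (pt x c - z)⁻¹) + Complex.I * (∫ y in c..d, (pt b y - z)⁻¹)
      - (∫ x in a..b, (pt x d - z)⁻¹) - Complex.I * (∫ y in c..d, (pt a y - z)⁻¹)
      = 2 * Real.pi * Complex.I := by
  obtain ⟨h1, h2, h3, h4⟩ := hz
  have hab : a ≤ b := by linarith
  have hcd : c ≤ d := by linarith
  have e1 := seg_inv (u := 1) (z := z) hab (fun t => hasDerivAt_pt_left c t) one_ne_zero (by
    intro t _
    rw [one_mul]
    refine Or.inr ?_
    simp only [Complex.sub_im, Pool.Agent.ZP.pt_im]
    exact sub_ne_zero.2 (ne_of_lt h3))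
  have e2 := seg_inv (u := 1) (z := z) hcd (fun t => hasDerivAt_pt_right b t) one_ne_zero (by
    intro t _
    rw [one_mul]
    refine Or.inl ?_
    simp only [Complex.sub_re, Pool.Agent.ZP.pt_re]
    linarith)
  have e3 := seg_inv (u := 1) (z := z) hab (fun t => hasDerivAt_pt_left d t) one_ne_zero (by
    intro t _
    rw [one_mul]
    refine Or.inr ?_
    simp only [Complex.sub_im, Pool.Agent.ZP.pt_im]
    exact sub_ne_zero.2 (ne_of_gt h4))
  have e4 := seg_inv (u := -1) (z := z) hcd (fun t => hasDerivAt_pt_right a t) (by norm_num) (by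
    intro t _
    refine Or.inl ?_
    simp only [Complex.sub_re, Pool.Agent.ZP.pt_re, neg_mul, one_mul, Complex.neg_re]
    linarith)
  rw [one_mul] at e1 e3
  rw [e1, e2, e3, e4]
  simp only [one_mul, neg_mul]
  have f1 := log_sub_log_neg (w := pt a d - z) (by
    simp only [Complex.sub_im, Pool.Agent.ZP.pt_im]
    linarith)
  have f2 := log_neg_sub_log (w := pt a c - z) (by
    simp only [Complex.sub_im, Pool.Agent.ZP.pt_im]
    linarith)
  linear_combination f1 + f2

end Pool.Agent.ZC
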