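import Pool.Agent.Lib.MP_af3d17_cn.RectFactor
import Pool.Agent.Lib.MP_af3d17_cn.RectInt
import Pool.Agent.Lib.MP_af3d17_cn.CountSum

/-!
# Row R3: the argument principle for rectangles
-/

set_option autoImplicit false

namespace Pool.Agent.ZC

open Filter Topology Set
open Pool.Agent.ZP (pt Lam EE IsUpperZero IsOrdinateSeq)

private theorem pt_eq (x y : ℝ) : pt x y = (x : ℂ) + (y : ℂ) * Complex.I := by
  apply Complex.ext <;> simp

private theorem continuous_pt_left (y : ℝ) : Continuous (fun x : ℝ => pt x y) := by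
  have h1 : (fun x : ℝ => pt x y) = fun x : ℝ => (x : ℂ) + (y : ℂ) * Complex.I :=
    funext fun x => pt_eq x y
  rw [h1]
  fun_prop

private theorem continuous_pt_right (x : ℝ) : Continuous (fun y : ℝ => pt x y) := by
  have h1 : (fun y : ℝ => pt x y) = fun y : ℝ => (x : ℂ) + (y : ℂ) * Complex.I :=
    funext fun y => pt_eq x y
  rw [h1]
  fun_prop

/-- the boundary integral -/
private noncomputable def bd (h : ℂ → ℂ) (a b c d : ℝ) : ℂ :=
  (∫ x in a..b, h (pt x c)) + Complex.I * (∫ y in c..d, h (pt b y))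
    - (∫ x in a..b, h (pt x d)) - Complex.I * (∫ y in c..d, h (pt a y))

private theorem bd_im (f : ℂ → ℂ) (a b c d : ℝ) :
    (bd (logDeriv f) a b c d).im = H f c a b + V f b c d - H f d a b - V f a c d := by
  simp only [bd, H, V, Complex.add_im, Complex.sub_im, Complex.mul_im, Complex.I_re,
    Complex.I_im, zero_mul, one_mul, zero_add]

/-- continuity on the four sides -/
private structure CB (h : ℂ → ℂ) (a b c d : ℝ) : Prop where
  bot : ContinuousOn (fun x => h (pt x c)) (Icc a b)
  top : ContinuousOn (fun x => h (pt x d)) (Icc a b)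
  left : ContinuousOn (fun y => h (pt a y)) (Icc c d)
  right : ContinuousOn (fun y => h (pt b y)) (Icc c d)

private theorem CB.of_cont {h : ℂ → ℂ} {a b c d : ℝ}
    (hb : ∀ x ∈ Icc a b, ContinuousAt h (pt x c)) (ht : ∀ x ∈ Icc a b, ContinuousAt h (pt x d))
    (hl : ∀ y ∈ Icc c d, ContinuousAt h (pt a y)) (hr : ∀ y ∈ Icc c d, ContinuousAt h (pt b y)) :
    CB h a b c d where
  bot := fun x hx => (ContinuousAt.comp (f := fun x : ℝ => pt x c) (g := h) (hb x hx)
    (continuous_pt_left c).continuousAt).continuousWithinAt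
  top := fun x hx => (ContinuousAt.comp (f := fun x : ℝ => pt x d) (g := h) (ht x hx)
    (continuous_pt_left d).continuousAt).continuousWithinAt
  left := fun x hx => (ContinuousAt.comp (f := fun y : ℝ => pt a y) (g := h) (hl x hx)
    (continuous_pt_right a).continuousAt).continuousWithinAt
  right := fun x hx => (ContinuousAt.comp (f := fun y : ℝ => pt b y) (g := h) (hr x hx)
    (continuous_pt_right b).continuousAt).continuousWithinAt

private theorem ii {h : ℝ → ℂ} {p q : ℝ} (hpq : p < q) (hc : ContinuousOn h (Icc p q)) :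
    IntervalIntegrable h MeasureTheory.volume p q := by
  rw [← uIcc_of_le hpq.le] at hc
  exact hc.intervalIntegrable

private theorem bd_add {h h' : ℂ → ℂ} {a b c d : ℝ} (hab : a < b) (hcd : c < d)
    (h1 : CB h a b c d) (h2 : CB h' a b c d) :
    bd (fun s => h s + h' s) a b c d = bd h a b c d + bd h' a b c d := by
  simp only [bd]
  rw [intervalIntegral.integral_add (ii hab h1.bot) (ii hab h2.bot),
    intervalIntegral.integral_add (ii hab h1.top) (ii hab h2.top),
    intervalIntegral.integral_add (ii hcd h1.left) (ii hcd h2.left),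
    intervalIntegral.integral_add (ii hcd h1.right) (ii hcd h2.right)]
  ring

private theorem bd_sub {h h' : ℂ → ℂ} {a b c d : ℝ} (hab : a < b) (hcd : c < d)
    (h1 : CB h a b c d) (h2 : CB h' a b c d) :
    bd (fun s => h s - h' s) a b c d = bd h a b c d - bd h' a b c d := by
  simp only [bd]
  rw [intervalIntegral.integral_sub (ii hab h1.bot) (ii hab h2.bot),
    intervalIntegral.integral_sub (ii hab h1.top) (ii hab h2.top),
    intervalIntegral.integral_sub (ii hcd h1.left) (ii hcd h2.left),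
    intervalIntegral.integral_sub (ii hcd h1.right) (ii hcd h2.right)]
  ring

private theorem bd_congr {h h' : ℂ → ℂ} {a b c d : ℝ} (hab : a < b) (hcd : c < d)
    (hb : ∀ x ∈ Icc a b, h (pt x c) = h' (pt x c)) (ht : ∀ x ∈ Icc a b, h (pt x d) = h' (pt x d))
    (hl : ∀ y ∈ Icc c d, h (pt a y) = h' (pt a y))
    (hr : ∀ y ∈ Icc c d, h (pt b y) = h' (pt b y)) :
    bd h a b c d = bd h' a b c d := by
  have e1 : (∫ x in a..b, h (pt x c)) = ∫ x in a..b, h' (pt x c) :=
    intervalIntegral.integral_congr (by rw [uIcc_of_le hab.le]; exact hb)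
  have e2 : (∫ x in a..b, h (pt x d)) = ∫ x in a..b, h' (pt x d) :=
    intervalIntegral.integral_congr (by rw [uIcc_of_le hab.le]; exact ht)
  have e3 : (∫ y in c..d, h (pt a y)) = ∫ y in c..d, h' (pt a y) :=
    intervalIntegral.integral_congr (by rw [uIcc_of_le hcd.le]; exact hl)
  have e4 : (∫ y in c..d, h (pt b y)) = ∫ y in c..d, h' (pt b y) :=
    intervalIntegral.integral_congr (by rw [uIcc_of_le hcd.le]; exact hr)
  rw [bd, bd, e1, e2, e3, e4]

/-- continuity of `1/(s-z)` on the sides, `z` inside -/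
private theorem cb_inv {a b c d : ℝ} {z : ℂ} (hz : z ∈ Rc a b c d) :
    CB (fun s => (s - z)⁻¹) a b c d := by
  obtain ⟨h1, h2, h3, h4⟩ := hz
  have key : ∀ s : ℂ, s ≠ z → ContinuousAt (fun s => (s - z)⁻¹) s := fun s hs =>
    (continuousAt_id.sub continuousAt_const).inv₀ (sub_ne_zero.2 hs)
  refine CB.of_cont ?_ ?_ ?_ ?_
  · intro x _
    refine key _ fun h => ?_
    have := congrArg Complex.im h
    simp only [Pool.Agent.ZP.pt_im] at this
    linarith
  · intro x _
    refine key _ fun h => ?_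
    have := congrArg Complex.im h
    simp only [Pool.Agent.ZP.pt_im] at this
    linarith
  · intro x _
    refine key _ fun h => ?_
    have := congrArg Complex.re h
    simp only [Pool.Agent.ZP.pt_re] at this
    linarith
  · intro x _
    refine key _ fun h => ?_
    have := congrArg Complex.re h
    simp only [Pool.Agent.ZP.pt_re] at this
    linarith

private theorem cb_sum {k : ℕ} {a b c d : ℝ} (z : Fin k → ℂ) (hz : ∀ i, z i ∈ Rc a b c d)
    (s : Finset (Fin k)) : CB (fun w => ∑ i ∈ s, (w - z i)⁻¹) a b c d where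
  bot := continuousOn_finsetSum s fun i _ => (cb_inv (hz i)).bot
  top := continuousOn_finsetSum s fun i _ => (cb_inv (hz i)).top
  left := continuousOn_finsetSum s fun i _ => (cb_inv (hz i)).left
  right := continuousOn_finsetSum s fun i _ => (cb_inv (hz i)).right

private theorem bd_sum {k : ℕ} {a b c d : ℝ} (hab : a < b) (hcd : c < d) (z : Fin k → ℂ)
    (hz : ∀ i, z i ∈ Rc a b c d) (s : Finset (Fin k)) :
    bd (fun w => ∑ i ∈ s, (w - z i)⁻¹) a b c d = s.card * (2 * Real.pi * Complex.I) := by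
  classical
  induction s using Finset.induction_on with
  | empty => simp [bd]
  | insert i s hi ih =>
    have h1 : (fun w => ∑ i ∈ insert i s, (w - z i)⁻¹) =
        fun w => (w - z i)⁻¹ + ∑ i ∈ s, (w - z i)⁻¹ := by
      funext w
      rw [Finset.sum_insert hi]
    rw [h1, bd_add hab hcd (cb_inv (hz i)) (cb_sum z hz s), ih, Finset.card_insert_of_notMem hi]
    have h2 : bd (fun w => (w - z i)⁻¹) a b c d = 2 * Real.pi * Complex.I := rect_int_inv (hz i)
    rw [h2]
    push_cast
    ring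

/-- Cauchy's theorem for a rectangle -/
private theorem bd_zero {h : ℂ → ℂ} {a b c d : ℝ} (hab : a < b) (hcd : c < d)
    (hd : DifferentiableOn ℂ h (Rcl a b c d)) : bd h a b c d = 0 := by
  have hcauchy := Complex.integral_boundary_rect_eq_zero_of_differentiableOn h
    (pt a c) (pt b d) (hd.mono (by
      intro s hs
      simp only [Pool.Agent.ZP.pt_re, Pool.Agent.ZP.pt_im, uIcc_of_le hab.le,
        uIcc_of_le hcd.le] at hs
      exact ⟨hs.1.1, hs.1.2, hs.2.1, hs.2.2⟩))
  simp only [Pool.Agent.ZP.pt_re, Pool.Agent.ZP.pt_im, ← pt_eq, smul_eq_mul] at hcauchy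
  rw [bd]
  linear_combination hcauchy

private theorem logDeriv_analyticAt {g : ℂ → ℂ} {s : ℂ} (hg : AnalyticAt ℂ g s) (h0 : g s ≠ 0) :
    AnalyticAt ℂ (logDeriv g) s := by
  have h1 : AnalyticAt ℂ (fun s => deriv g s / g s) s := hg.deriv.div hg h0
  exact h1

/-- continuity of the logarithmic derivative on the sides -/
private theorem cb_logDeriv {f : ℂ → ℂ} {a b c d : ℝ} (hab : a < b) (hcd : c < d)
    (hf : AnalyticOnNhd ℂ f (Rcl a b c d)) (h0 : BNe f a b c d) : CB (logDeriv f) a b c d :=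
  CB.of_cont
    (fun x hx => (logDeriv_analyticAt (hf _ ⟨hx.1, hx.2, le_rfl, hcd.le⟩) (h0.bot x hx)).continuousAt)
    (fun x hx => (logDeriv_analyticAt (hf _ ⟨hx.1, hx.2, hcd.le, le_rfl⟩) (h0.top x hx)).continuousAt)
    (fun y hy => (logDeriv_analyticAt (hf _ ⟨le_rfl, hab.le, hy.1, hy.2⟩) (h0.left y hy)).continuousAt)
    (fun y hy => (logDeriv_analyticAt (hf _ ⟨hab.le, le_rfl, hy.1, hy.2⟩) (h0.right y hy)).continuousAt)

/-- R3 -/
theorem arg_principle {f : ℂ → ℂ} {a b c d : ℝ} (hab : a < b) (hcd : c < d)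
    (hf : AnalyticOnNhd ℂ f (Rcl a b c d)) (h0 : BNe f a b c d) :
    2 * Real.pi * (cnt f (Rc a b c d) : ℝ) = H f c a b + V f b c d - H f d a b - V f a c d := by
  obtain ⟨k, z, g, hz, hg, hg0, hfg⟩ := rect_factor hab hcd hf h0
  have hsub : Rc a b c d ⊆ Rcl a b c d := fun s hs => ⟨hs.1.le, hs.2.1.le, hs.2.2.1.le, hs.2.2.2.le⟩
  have hcnt : cnt f (Rc a b c d) = k :=
    cnt_prod (g := g) (z := z) (fun s hs => ⟨hg s (hsub hs), hg0 s (hsub hs)⟩) hz
      (fun s hs => hfg s (hsub hs))
  have hlog : ∀ s ∈ Rcl a b c d, f s ≠ 0 →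
      logDeriv f s = (∑ i, (s - z i)⁻¹) + logDeriv g s := by
    intro s hs hfs
    have h1 : f s = (∏ i, (s - z i)) * g s := (hfg s hs).eq_of_nhds
    have h2 : ∏ i, (s - z i) ≠ 0 := by
      intro h
      rw [h1, h, zero_mul] at hfs
      exact hfs rfl
    have h3 : ∀ i ∈ Finset.univ, s - z i ≠ 0 := by
      intro i hi h
      exact h2 (Finset.prod_eq_zero hi h)
    have h4 : logDeriv f s = logDeriv (fun w => (∏ i, (w - z i)) * g w) s :=
      (logDeriv_congr_nhds (hfg s hs)).eq_of_nhds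
    have h5 : ∀ i, DifferentiableAt ℂ (fun w => w - z i) s := fun i => by fun_prop
    have h6 : DifferentiableAt ℂ (fun w => ∏ i, (w - z i)) s :=
      DifferentiableAt.fun_finsetProd fun i _ => h5 i
    have h7 := logDeriv_mul (f := fun w => ∏ i, (w - z i)) (g := g) s h2 (hg0 s hs) h6
      (hg s hs).differentiableAt
    rw [h4, h7]
    congr 1
    rw [logDeriv_prod (f := fun i w => w - z i) h3 (fun i _ => h5 i)]
    refine Finset.sum_congr rfl fun i _ => ?_
    rw [logDeriv_apply, deriv_sub_const, deriv_id'', one_div]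
  have hCg : CB (logDeriv g) a b c d := cb_logDeriv hab hcd hg
    { bot := fun x hx => hg0 _ ⟨hx.1, hx.2, le_rfl, hcd.le⟩
      top := fun x hx => hg0 _ ⟨hx.1, hx.2, hcd.le, le_rfl⟩
      left := fun y hy => hg0 _ ⟨le_rfl, hab.le, hy.1, hy.2⟩
      right := fun y hy => hg0 _ ⟨hab.le, le_rfl, hy.1, hy.2⟩ }
  have hbd : bd (logDeriv f) a b c d = k * (2 * Real.pi * Complex.I) := by
    rw [bd_congr (h' := fun s => (∑ i, (s - z i)⁻¹) + logDeriv g s) hab hcd
      (fun x hx => hlog _ ⟨hx.1, hx.2, le_rfl, hcd.le⟩ (h0.bot x hx))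
      (fun x hx => hlog _ ⟨hx.1, hx.2, hcd.le, le_rfl⟩ (h0.top x hx))
      (fun y hy => hlog _ ⟨le_rfl, hab.le, hy.1, hy.2⟩ (h0.left y hy))
      (fun y hy => hlog _ ⟨hab.le, le_rfl, hy.1, hy.2⟩ (h0.right y hy)),
      bd_add hab hcd (cb_sum z hz Finset.univ) hCg, bd_sum hab hcd z hz, bd_zero hab hcd
        (fun s hs => (logDeriv_analyticAt (hg s hs)
          (hg0 s hs)).differentiableAt.differentiableWithinAt)]
    simp
  rw [← bd_im, hbd, hcnt]
  simp
  ring

/-- R3b -/
theorem arg_principle_div {f g : ℂ → ℂ} {a b c d : ℝ} (hab : a < b) (hcd : c < d)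
    (hf : AnalyticOnNhd ℂ f (Rcl a b c d)) (hg : AnalyticOnNhd ℂ g (Rcl a b c d))
    (h0 : BNe f a b c d) (h1 : BNe g a b c d) :
    2 * Real.pi * ((cnt f (Rc a b c d) : ℝ) - cnt g (Rc a b c d))
      = H (fun s => f s / g s) c a b + V (fun s => f s / g s) b c d
        - H (fun s => f s / g s) d a b - V (fun s => f s / g s) a c d := by
  have e1 := arg_principle hab hcd hf h0
  have e2 := arg_principle hab hcd hg h1
  have hlog : ∀ s ∈ Rcl a b c d, f s ≠ 0 → g s ≠ 0 →
      logDeriv (fun s => f s / g s) s = logDeriv f s - logDeriv g s := fun s hs hfs hgs =>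
    logDeriv_div s hfs hgs (hf s hs).differentiableAt (hg s hs).differentiableAt
  have hbd : bd (logDeriv (fun s => f s / g s)) a b c d =
      bd (logDeriv f) a b c d - bd (logDeriv g) a b c d := by
    rw [bd_congr (h' := fun s => logDeriv f s - logDeriv g s) hab hcd
      (fun x hx => hlog _ ⟨hx.1, hx.2, le_rfl, hcd.le⟩ (h0.bot x hx) (h1.bot x hx))
      (fun x hx => hlog _ ⟨hx.1, hx.2, hcd.le, le_rfl⟩ (h0.top x hx) (h1.top x hx))
      (fun y hy => hlog _ ⟨le_rfl, hab.le, hy.1, hy.2⟩ (h0.left y hy) (h1.left y hy))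
      (fun y hy => hlog _ ⟨hab.le, le_rfl, hy.1, hy.2⟩ (h0.right y hy) (h1.right y hy)),
      bd_sub hab hcd (cb_logDeriv hab hcd hf h0) (cb_logDeriv hab hcd hg h1)]
  rw [← bd_im, hbd, Complex.sub_im, bd_im, bd_im]
  linarith

end Pool.Agent.ZC
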