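import Pool.Agent.Lib.MP_af3d17_cn.Defs

/-!
# Row PA2: the number of bad gaps
-/

set_option autoImplicit false

namespace Pool.Agent.ZC

open Filter Topology Set
open Pool.Agent.ZP (pt Lam EE IsUpperZero IsOrdinateSeq)

/-- a point lies in at most two closed gaps -/
private lemma pa2_two (P : Finset (ℝ × ℝ)) (hP : ∀ p ∈ P, p.1 < p.2)
    (hP2 : ∀ p ∈ P, ∀ q ∈ P, p ≠ q → p.2 ≤ q.1 ∨ q.2 ≤ p.1) (e : ℝ)
    [DecidablePred fun p : ℝ × ℝ => p.1 ≤ e ∧ e ≤ p.2] :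
    (P.filter (fun p => p.1 ≤ e ∧ e ≤ p.2)).card ≤ 2 := by
  classical
  have h1 : (P.filter (fun p => p.1 ≤ e ∧ e ≤ p.2)).card ≤ (Finset.univ : Finset Bool).card := by
    apply Finset.card_le_card_of_injOn (fun p => decide (p.2 = e))
    · intro p _
      exact Finset.mem_coe.mpr (Finset.mem_univ _)
    · intro p hp q hq hpq
      rw [Finset.mem_coe, Finset.mem_filter] at hp hq
      obtain ⟨hp1, hp2, hp3⟩ := hp
      obtain ⟨hq1, hq2, hq3⟩ := hq
      have hp4 := hP p hp1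
      have hq4 := hP q hq1
      by_contra hne
      simp only [decide_eq_decide] at hpq
      rcases hP2 p hp1 q hq1 hne with h | h
      · have h5 : p.2 = e := le_antisymm (by linarith) hp3
        have h6 := hpq.mp h5
        linarith
      · have h5 : q.2 = e := le_antisymm (by linarith) hq3
        have h6 := hpq.mpr h5
        linarith
  exact h1

/-- the total length of disjoint gaps in an interval -/
private lemma pa2_length (Q : Finset (ℝ × ℝ)) (hP : ∀ p ∈ Q, p.1 < p.2)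
    (hP2 : ∀ p ∈ Q, ∀ q ∈ Q, p ≠ q → p.2 ≤ q.1 ∨ q.2 ≤ p.1) {a b : ℝ} (hab : a ≤ b)
    (hQ : ∀ p ∈ Q, a ≤ p.1 ∧ p.2 ≤ b) : ∑ p ∈ Q, (p.2 - p.1) ≤ b - a := by
  classical
  have h1 : MeasureTheory.volume (⋃ p ∈ Q, Ioo p.1 p.2)
      = ∑ p ∈ Q, MeasureTheory.volume (Ioo p.1 p.2) := by
    apply MeasureTheory.measure_biUnion_finset
    · intro p hp q hq hne
      rw [Function.onFun, Set.disjoint_left]
      intro s hs hs'
      rcases hP2 p hp q hq hne with h | h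
      · linarith [hs.2, hs'.1]
      · linarith [hs.1, hs'.2]
    · intro p _
      exact measurableSet_Ioo
  have h2 : MeasureTheory.volume (⋃ p ∈ Q, Ioo p.1 p.2) ≤ MeasureTheory.volume (Icc a b) := by
    apply MeasureTheory.measure_mono
    intro s hs
    simp only [mem_iUnion] at hs
    obtain ⟨p, hp, hs⟩ := hs
    exact ⟨by linarith [(hQ p hp).1, hs.1], by linarith [(hQ p hp).2, hs.2]⟩
  rw [h1, Real.volume_Icc] at h2
  simp only [Real.volume_Ioo] at h2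
  rw [← ENNReal.ofReal_sum_of_nonneg (fun p hp => by linarith [hP p hp])] at h2
  rwa [ENNReal.ofReal_le_ofReal_iff (by linarith)] at h2

private lemma pa2_square (Q : Finset (ℝ × ℝ)) (hP : ∀ p ∈ Q, p.1 < p.2)
    (hP2 : ∀ p ∈ Q, ∀ q ∈ Q, p ≠ q → p.2 ≤ q.1 ∨ q.2 ≤ p.1) {a b : ℝ} (hab : a ≤ b)
    (hQ : ∀ p ∈ Q, a ≤ p.1 ∧ p.2 ≤ b) : ∑ p ∈ Q, (p.2 - p.1) ^ 2 ≤ (b - a) ^ 2 := by
  have h1 := pa2_length Q hP hP2 hab hQ
  have h0 : ∀ p ∈ Q, 0 ≤ p.2 - p.1 := fun p hp => by linarith [hP p hp]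
  calc ∑ p ∈ Q, (p.2 - p.1) ^ 2 ≤ ∑ p ∈ Q, (p.2 - p.1) * (b - a) := by
        apply Finset.sum_le_sum
        intro p hp
        rw [sq]
        apply mul_le_mul_of_nonneg_left _ (h0 p hp)
        exact (Finset.single_le_sum h0 hp).trans h1
    _ = (∑ p ∈ Q, (p.2 - p.1)) * (b - a) := by rw [Finset.sum_mul]
    _ ≤ (b - a) * (b - a) := mul_le_mul_of_nonneg_right h1 (by linarith)
    _ = (b - a) ^ 2 := by ring

open Classical in
/-- PA2 -/
theorem bad_count (O : Finset ℂ) (hO : ∀ ρ ∈ O, ρ.re ≠ 1 / 2 ∧ 1 ≤ od ρ) (P : Finset (ℝ × ℝ))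
    (hP : ∀ p ∈ P, p.1 < p.2) (hP2 : ∀ p ∈ P, ∀ q ∈ P, p ≠ q → p.2 ≤ q.1 ∨ q.2 ≤ p.1) :
    ((P.filter (fun p => ¬ GoodGap O p.1 p.2)).card : ℝ) ≤ 8 * ∑ ρ ∈ O, (od ρ : ℝ) := by
  set δ : ℂ → ℝ := fun ρ => |ρ.re - 1 / 2| with hδ
  have hδ0 : ∀ ρ ∈ O, 0 < δ ρ := fun ρ hρ => abs_pos.mpr (sub_ne_zero.mpr (hO ρ hρ).1)
  set Qe : ℝ → Finset (ℝ × ℝ) := fun e => P.filter (fun p => p.1 ≤ e ∧ e ≤ p.2) with hQe
  set B1 : Finset (ℝ × ℝ) := O.biUnion (fun ρ => Qe (ρ.im - δ ρ) ∪ Qe (ρ.im + δ ρ)) with hB1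
  set B2 : Finset (ℝ × ℝ) := P.filter (fun p =>
    1 < (p.2 - p.1) ^ 2 * ∑ ρ ∈ O.filter (fun ρ => Inside ρ p.1 p.2), (od ρ : ℝ) / (ρ.re - 1 / 2) ^ 2)
    with hB2
  have hsub : P.filter (fun p => ¬ GoodGap O p.1 p.2) ⊆ B1 ∪ B2 := by
    intro p hp
    rw [Finset.mem_filter] at hp
    obtain ⟨hp1, hp2⟩ := hp
    have hlt := hP p hp1
    rw [Finset.mem_union]
    by_cases hall : ∀ ρ ∈ O, Away ρ p.1 p.2 ∨ Inside ρ p.1 p.2
    · right
      rw [hB2, Finset.mem_filter]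
      refine ⟨hp1, ?_⟩
      have h1 : ¬ ∑ ρ ∈ O.filter (fun ρ => Inside ρ p.1 p.2), (od ρ : ℝ) / (ρ.re - 1 / 2) ^ 2
          ≤ 1 / (p.2 - p.1) ^ 2 := fun h => hp2 ⟨hall, h⟩
      rw [not_le] at h1
      have h2 : 0 < (p.2 - p.1) ^ 2 := by
        have : 0 < p.2 - p.1 := by linarith
        positivity
      rw [div_lt_iff₀ h2] at h1
      linarith
    · left
      push Not at hall
      obtain ⟨ρ, hρ, hna, hni⟩ := hall
      rw [hB1, Finset.mem_biUnion]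
      refine ⟨ρ, hρ, ?_⟩
      rw [Finset.mem_union, hQe, Finset.mem_filter, Finset.mem_filter]
      unfold Away at hna
      unfold Inside at hni
      push Not at hna
      have h1 : ρ.im - δ ρ ≤ p.2 := hna.1
      have h2 : p.1 ≤ ρ.im + δ ρ := hna.2
      by_cases h3 : ρ.im - δ ρ < p.1
      · right
        refine ⟨hp1, h2, ?_⟩
        by_contra h4
        rw [not_le] at h4
        exact hni ⟨h3, h4⟩
      · left
        exact ⟨hp1, not_lt.mp h3, h1⟩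
  -- first part
  have hc1 : (B1.card : ℝ) ≤ 4 * ∑ ρ ∈ O, (od ρ : ℝ) := by
    have h1 : B1.card ≤ ∑ ρ ∈ O, 4 := by
      refine Finset.card_biUnion_le.trans ?_
      apply Finset.sum_le_sum
      intro ρ _
      refine (Finset.card_union_le _ _).trans ?_
      have h2 := pa2_two P hP hP2 (ρ.im - δ ρ)
      have h3 := pa2_two P hP hP2 (ρ.im + δ ρ)
      exact Nat.add_le_add h2 h3
    calc (B1.card : ℝ) ≤ ((∑ ρ ∈ O, 4 : ℕ) : ℝ) := by exact_mod_cast h1
      _ = ∑ ρ ∈ O, (4 : ℝ) := by push_cast; rfl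
      _ ≤ ∑ ρ ∈ O, 4 * (od ρ : ℝ) := by
          apply Finset.sum_le_sum
          intro ρ hρ
          have h2 : (1 : ℝ) ≤ (od ρ : ℝ) := by exact_mod_cast (hO ρ hρ).2
          linarith
      _ = 4 * ∑ ρ ∈ O, (od ρ : ℝ) := by rw [Finset.mul_sum]
  -- second part
  have hc2 : (B2.card : ℝ) ≤ 4 * ∑ ρ ∈ O, (od ρ : ℝ) := by
    calc (B2.card : ℝ) = ∑ p ∈ B2, (1 : ℝ) := by simp
      _ ≤ ∑ p ∈ B2, (p.2 - p.1) ^ 2 *
            ∑ ρ ∈ O.filter (fun ρ => Inside ρ p.1 p.2), (od ρ : ℝ) / (ρ.re - 1 / 2) ^ 2 := by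
          apply Finset.sum_le_sum
          intro p hp
          rw [hB2, Finset.mem_filter] at hp
          exact hp.2.le
      _ = ∑ p ∈ B2, ∑ ρ ∈ O, (if Inside ρ p.1 p.2 then
            (od ρ : ℝ) / (ρ.re - 1 / 2) ^ 2 * (p.2 - p.1) ^ 2 else 0) := by
          apply Finset.sum_congr rfl
          intro p _
          rw [Finset.mul_sum, Finset.sum_filter]
          apply Finset.sum_congr rfl
          intro ρ _
          split_ifs
          · ring
          · rfl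
      _ = ∑ ρ ∈ O, ∑ p ∈ B2, (if Inside ρ p.1 p.2 then
            (od ρ : ℝ) / (ρ.re - 1 / 2) ^ 2 * (p.2 - p.1) ^ 2 else 0) := Finset.sum_comm
      _ = ∑ ρ ∈ O, (od ρ : ℝ) / (ρ.re - 1 / 2) ^ 2 *
            ∑ p ∈ B2.filter (fun p => Inside ρ p.1 p.2), (p.2 - p.1) ^ 2 := by
          apply Finset.sum_congr rfl
          intro ρ _
          rw [← Finset.sum_filter, Finset.mul_sum]
      _ ≤ ∑ ρ ∈ O, 4 * (od ρ : ℝ) := by
          apply Finset.sum_le_sum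
          intro ρ hρ
          have hd := hδ0 ρ hρ
          have hsq : (ρ.re - 1 / 2) ^ 2 = (δ ρ) ^ 2 := by rw [hδ]; exact (sq_abs _).symm
          have h1 : ∑ p ∈ B2.filter (fun p => Inside ρ p.1 p.2), (p.2 - p.1) ^ 2
              ≤ ((ρ.im + δ ρ) - (ρ.im - δ ρ)) ^ 2 := by
            apply pa2_square
            · intro p hp
              rw [Finset.mem_filter, hB2, Finset.mem_filter] at hp
              exact hP p hp.1.1
            · intro p hp q hq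
              rw [Finset.mem_filter, hB2, Finset.mem_filter] at hp hq
              exact hP2 p hp.1.1 q hq.1.1
            · linarith
            · intro p hp
              rw [Finset.mem_filter] at hp
              obtain ⟨_, h2, h3⟩ := hp
              exact ⟨h2.le, h3.le⟩
          rw [hsq]
          have h2 : 0 ≤ (od ρ : ℝ) / (δ ρ) ^ 2 := by positivity
          calc (od ρ : ℝ) / (δ ρ) ^ 2 * ∑ p ∈ B2.filter (fun p => Inside ρ p.1 p.2), (p.2 - p.1) ^ 2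
              ≤ (od ρ : ℝ) / (δ ρ) ^ 2 * ((ρ.im + δ ρ) - (ρ.im - δ ρ)) ^ 2 :=
                mul_le_mul_of_nonneg_left h1 h2
            _ = 4 * (od ρ : ℝ) := by
                field_simp
                ring
      _ = 4 * ∑ ρ ∈ O, (od ρ : ℝ) := by rw [Finset.mul_sum]
  calc ((P.filter (fun p => ¬ GoodGap O p.1 p.2)).card : ℝ) ≤ ((B1 ∪ B2).card : ℝ) := by
        exact_mod_cast Finset.card_le_card hsub
    _ ≤ ((B1.card + B2.card : ℕ) : ℝ) := by exact_mod_cast Finset.card_union_le _ _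
    _ = (B1.card : ℝ) + B2.card := by push_cast; rfl
    _ ≤ 8 * ∑ ρ ∈ O, (od ρ : ℝ) := by linarith

end Pool.Agent.ZC
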