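import Pool.Agent.Lib.MP_af3d17_cn.Defs

/-!
# MP_af3d17_nt: the mirror image in the critical line
-/

set_option autoImplicit false

namespace Pool.Agent.ZC

open Filter Topology Set
open Pool.Agent.ZP (pt Lam EE IsUpperZero IsOrdinateSeq)

private lemma analyticAt_zeta' {s : ℂ} (h1 : s ≠ 1) : AnalyticAt ℂ riemannZeta s := by
  have h2 : DifferentiableOn ℂ riemannZeta {1}ᶜ := fun s hs =>
    (differentiableAt_riemannZeta hs).differentiableWithinAt
  exact h2.analyticAt (isOpen_compl_singleton.mem_nhds h1)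

private lemma ne_one_of_im {s : ℂ} (h : s.im ≠ 0) : s ≠ 1 := by
  rintro rfl
  simp at h

private lemma iter_conj {f : ℂ → ℂ} (hf : ∀ s, f ((starRingEnd ℂ) s) = (starRingEnd ℂ) (f s)) :
    ∀ (n : ℕ) (s : ℂ), iteratedDeriv n f ((starRingEnd ℂ) s) =
      (starRingEnd ℂ) (iteratedDeriv n f s) := by
  intro n
  induction n with
  | zero =>
    intro s
    simp only [iteratedDeriv_zero]
    exact hf s
  | succ n ih =>
    intro s
    rw [iteratedDeriv_succ]
    have h1 : ((starRingEnd ℂ) ∘ iteratedDeriv n f ∘ (starRingEnd ℂ)) = iteratedDeriv n f := by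
      funext z
      simp only [Function.comp_apply]
      rw [ih, Complex.conj_conj]
    have := congrFun (deriv_conj_conj (f := iteratedDeriv n f)) ((starRingEnd ℂ) s)
    rw [h1] at this
    rw [this]
    simp only [Function.comp_apply, Complex.conj_conj]

private lemma order_conj {f : ℂ → ℂ} (hf : ∀ s, f ((starRingEnd ℂ) s) = (starRingEnd ℂ) (f s))
    {s : ℂ} (h1 : AnalyticAt ℂ f s) (h2 : AnalyticAt ℂ f ((starRingEnd ℂ) s)) :
    analyticOrderAt f ((starRingEnd ℂ) s) = analyticOrderAt f s := by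
  refine ENat.eq_of_forall_natCast_le_iff fun n => ?_
  rw [natCast_le_analyticOrderAt_iff_iteratedDeriv_eq_zero h1,
    natCast_le_analyticOrderAt_iff_iteratedDeriv_eq_zero h2]
  refine forall₂_congr fun i _ => ?_
  rw [iter_conj hf, map_eq_zero]

private lemma analyticAt_X {w : ℂ} (hw : w.im ≠ 0) : AnalyticAt ℂ Pool.Agent.ZP.Psi.X w := by
  have h1 : IsOpen {z : ℂ | z.im ≠ 0} := isOpen_ne_fun Complex.continuous_im continuous_const
  have h2 : DifferentiableOn ℂ Pool.Agent.ZP.Psi.X {z : ℂ | z.im ≠ 0} := fun z hz =>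
    (Pool.Agent.ZP.Psi.hasDerivAt_X hz).differentiableAt.differentiableWithinAt
  exact h2.analyticAt (h1.mem_nhds hw)

private lemma X_ne {w : ℂ} (hw : w.im ≠ 0) : Pool.Agent.ZP.Psi.X w ≠ 0 := by
  have hw' : (1 - w).im ≠ 0 := by simpa using hw
  exact div_ne_zero (Pool.Agent.ZP.Psi.Gammaℝ_ne hw) (Pool.Agent.ZP.Psi.Gammaℝ_ne hw')

private lemma deriv_one_sub {w : ℂ} (hw : w.im ≠ 0) :
    deriv riemannZeta (1 - w) = - (Pool.Agent.ZP.Psi.X w * EE w) := by
  have hz : ∀ z : ℂ, z.im ≠ 0 → HasDerivAt riemannZeta (deriv riemannZeta z) z := by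
    intro z hz
    exact (differentiableAt_riemannZeta (ne_one_of_im hz)).hasDerivAt
  have hw' : (1 - w).im ≠ 0 := by simpa using hw
  have h3 : HasDerivAt (fun w : ℂ => 1 - w) (-1) w := by
    simpa using (hasDerivAt_id w).const_sub 1
  have h1 : HasDerivAt (fun w : ℂ => riemannZeta (1 - w)) _ w :=
    HasDerivAt.comp w (hz _ hw') h3
  have h2 := (Pool.Agent.ZP.Psi.hasDerivAt_X hw).fun_mul (hz w hw)
  have h4 : (fun w : ℂ => riemannZeta (1 - w)) =ᶠ[𝓝 w]
      (fun w : ℂ => Pool.Agent.ZP.Psi.X w * riemannZeta w) := by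
    have : ∀ᶠ z : ℂ in 𝓝 w, z.im ≠ 0 :=
      (isOpen_ne_fun Complex.continuous_im continuous_const).mem_nhds hw
    filter_upwards [this] with z hz
    exact Pool.Agent.ZP.Psi.zeta_one_sub hz
  have h5 := h1.unique (h2.congr_of_eventuallyEq h4)
  rw [EE]
  linear_combination -h5

private lemma order_one_sub {f : ℂ → ℂ} (w : ℂ) :
    analyticOrderAt (fun z => f (1 - z)) w = analyticOrderAt f (1 - w) := by
  have h1 : AnalyticAt ℂ (fun z : ℂ => 1 - z) w := analyticAt_const.sub analyticAt_id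
  have h2 : HasDerivAt (fun w : ℂ => 1 - w) (-1) w := by
    simpa using (hasDerivAt_id w).const_sub 1
  have h3 := analyticOrderAt_comp_of_deriv_ne_zero (f := f) h1 (by rw [h2.deriv]; norm_num)
  exact h3

private lemma order_X_mul {f g : ℂ → ℂ} {w : ℂ} (hw : w.im ≠ 0) (hg : AnalyticAt ℂ g w)
    (h : ∀ z : ℂ, z.im ≠ 0 → f (1 - z) = Pool.Agent.ZP.Psi.X z * g z) :
    analyticOrderAt f (1 - w) = analyticOrderAt g w := by
  rw [← order_one_sub]
  have h4 : (fun w : ℂ => f (1 - w)) =ᶠ[𝓝 w] (Pool.Agent.ZP.Psi.X * g) := by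
    have : ∀ᶠ z : ℂ in 𝓝 w, z.im ≠ 0 :=
      (isOpen_ne_fun Complex.continuous_im continuous_const).mem_nhds hw
    filter_upwards [this] with z hz
    exact h z hz
  rw [analyticOrderAt_congr h4, analyticOrderAt_mul (analyticAt_X hw) hg,
    (analyticAt_X hw).analyticOrderAt_eq_zero.2 (X_ne hw), zero_add]

private lemma order_zeta {w : ℂ} (hw : 0 < w.im) :
    analyticOrderAt riemannZeta w = analyticOrderAt riemannZeta (mir w) := by
  have h1 := order_X_mul (f := riemannZeta) (g := riemannZeta) hw.ne'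
    (analyticAt_zeta' (ne_one_of_im hw.ne')) fun z hz => Pool.Agent.ZP.Psi.zeta_one_sub hz
  have h2 : mir w = (starRingEnd ℂ) (1 - w) := by simp [mir]
  have h3 : (1 - w).im ≠ 0 := by simpa using hw.ne'
  have h4 : ((starRingEnd ℂ) (1 - w)).im ≠ 0 := by simpa using hw.ne'
  rw [h2, order_conj riemannZeta_conj (analyticAt_zeta' (ne_one_of_im h3))
    (analyticAt_zeta' (ne_one_of_im h4)), h1]

private lemma order_EE {w : ℂ} (hw : 0 < w.im) :
    analyticOrderAt EE w = analyticOrderAt (deriv riemannZeta) (mir w) := by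
  have hz := analyticAt_zeta' (ne_one_of_im hw.ne')
  have hE : AnalyticAt ℂ EE w := by
    unfold EE
    exact hz.deriv.add ((Pool.Agent.ZP.Lam_analytic hw).mul hz)
  have h1 := order_X_mul (f := deriv riemannZeta) (g := -EE) hw.ne' hE.neg fun z hz => by
    rw [deriv_one_sub hz, Pi.neg_apply, mul_neg]
  rw [analyticOrderAt_neg] at h1
  have h2 : mir w = (starRingEnd ℂ) (1 - w) := by simp [mir]
  have h3 : (1 - w).im ≠ 0 := by simpa using hw.ne'
  have h4 : ((starRingEnd ℂ) (1 - w)).im ≠ 0 := by simpa using hw.ne'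
  rw [h2, order_conj Pool.Agent.ZP.Psi.deriv_zeta_conj (analyticAt_zeta' (ne_one_of_im h3)).deriv
    (analyticAt_zeta' (ne_one_of_im h4)).deriv, h1]

private lemma mir_re (w : ℂ) : (mir w).re = 1 - w.re := by simp [mir]

private lemma mir_im (w : ℂ) : (mir w).im = w.im := by simp [mir]

private lemma mir_mir (w : ℂ) : mir (mir w) = w := by simp [mir]

private lemma cnt_of_mir {f g : ℂ → ℂ} {s0 c d : ℝ}
    (h : ∀ w ∈ Rc s0 3 c d, analyticOrderAt f w = analyticOrderAt g (mir w)) :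
    cnt f (Rc s0 3 c d) = cnt g (Rc (-2) (1 - s0) c d) := by
  refine Set.ncard_congr (fun p _ => (mir p.1, p.2)) ?_ ?_ ?_
  · rintro ⟨w, n⟩ ⟨hw, hn⟩
    obtain ⟨h1, h2, h3, h4⟩ := hw
    refine ⟨⟨?_, ?_, ?_, ?_⟩, ?_⟩
    · rw [mir_re]
      linarith
    · rw [mir_re]
      linarith
    · rw [mir_im]
      exact h3
    · rw [mir_im]
      exact h4
    · show (n : ℕ∞) < analyticOrderAt g (mir w)
      rw [← h w ⟨h1, h2, h3, h4⟩]
      exact hn
  · rintro ⟨w, n⟩ ⟨w', n'⟩ _ _ hww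
    have h1 : mir w = mir w' := congrArg Prod.fst hww
    have h2 : n = n' := congrArg Prod.snd hww
    have h3 := congrArg mir h1
    rw [mir_mir, mir_mir] at h3
    rw [h3, h2]
  · rintro ⟨w, n⟩ ⟨hw, hn⟩
    obtain ⟨h1, h2, h3, h4⟩ := hw
    have h5 : mir w ∈ Rc s0 3 c d := by
      refine ⟨?_, ?_, ?_, ?_⟩
      · rw [mir_re]
        linarith
      · rw [mir_re]
        linarith
      · rw [mir_im]
        exact h3
      · rw [mir_im]
        exact h4
    refine ⟨(mir w, n), ⟨h5, ?_⟩, ?_⟩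
    · show (n : ℕ∞) < analyticOrderAt f (mir w)
      rw [h _ h5, mir_mir]
      exact hn
    · show (mir (mir w), n) = (w, n)
      rw [mir_mir]

/-- CI3 -/
theorem cnt_mirror {s0 c d : ℝ} (hc : 0 ≤ c) :
    cnt EE (Rc s0 3 c d) = cnt (deriv riemannZeta) (Rc (-2) (1 - s0) c d) ∧
    cnt riemannZeta (Rc s0 3 c d) = cnt riemannZeta (Rc (-2) (1 - s0) c d) :=
  ⟨cnt_of_mir fun _ hw => order_EE (hc.trans_lt hw.2.2.1),
    cnt_of_mir fun _ hw => order_zeta (hc.trans_lt hw.2.2.1)⟩

theorem far_left : ∃ T1 : ℝ, 100 ≤ T1 ∧ ∀ s : ℂ, T1 ≤ s.im → s.re ≤ -1 / 2 →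
    deriv riemannZeta s ≠ 0 := by
  obtain ⟨C, hC, hlog⟩ := Pool.Agent.ZP.logDeriv_bound
  obtain ⟨T, hT⟩ := Pool.Agent.ZP.Lam_lower (C + 1)
  refine ⟨max 100 T, le_max_left _ _, fun s hs hre h0 => ?_⟩
  have h100 : 100 ≤ s.im := (le_max_left _ _).trans hs
  have hsT : T ≤ s.im := (le_max_right _ _).trans hs
  have hE := (Pool.Agent.ZP.deriv_zero_iff (by linarith)).1 h0
  set w := 1 - (starRingEnd ℂ) s with hw
  have hwre : w.re = 1 - s.re := by simp [hw]
  have hwim : w.im = s.im := by simp [hw]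
  have hz : riemannZeta w ≠ 0 := riemannZeta_ne_zero_of_one_le_re (by rw [hwre]; linarith)
  have h1 : logDeriv riemannZeta w + Lam w = 0 := by
    have h2 : EE w = riemannZeta w * (logDeriv riemannZeta w + Lam w) := by
      rw [EE, logDeriv_apply]
      field_simp
    rw [h2] at hE
    exact (mul_eq_zero.1 hE).resolve_left hz
  have h3 := hlog w (by rw [hwre]; linarith)
  have h4 := hT w (by rw [hwre]; linarith) (by rw [hwim]; exact hsT)
  have h5 : (logDeriv riemannZeta w).re = -(Lam w).re := by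
    have := congrArg Complex.re h1
    rw [Complex.add_re, Complex.zero_re] at this
    linarith
  have h6 := (abs_le.1 ((Complex.abs_re_le_norm _).trans h3)).1
  rw [h5] at h6
  linarith

theorem zeta_strip {s : ℂ} (h : 0 < s.im) (h0 : riemannZeta s = 0) : 0 < s.re ∧ s.re < 1 := by
  constructor
  · by_contra hre
    have h1 := (Pool.Agent.ZP.zeta_zero_iff h).1 h0
    refine riemannZeta_ne_zero_of_one_le_re ?_ h1
    simp only [Complex.sub_re, Complex.one_re, Complex.conj_re]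
    linarith
  · by_contra hre
    exact riemannZeta_ne_zero_of_one_le_re (not_lt.1 hre) h0

end Pool.Agent.ZC
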