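import Pool.Agent.Lib.MP_af3d17_cn.Defs

/-!
# Row CI2: the functional equation and the change of argument
-/

set_option autoImplicit false

namespace Pool.Agent.ZC

open Filter Topology Set
open Pool.Agent.ZP (pt Lam EE IsUpperZero IsOrdinateSeq)

theorem EE_div_mirror {w : ℂ} (hw : 0 < w.im) (h : riemannZeta w ≠ 0) :
    EE w / riemannZeta w = -(starRingEnd ℂ) (logDeriv riemannZeta (mir w)) := by
  obtain ⟨X, hX⟩ := Pool.Agent.ZP.funeq
  obtain ⟨h0, h1, h2⟩ := hX w hw
  have e : (1 : ℂ) - w = (starRingEnd ℂ) (mir w) := by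
    rw [mir, map_sub, map_one, Complex.conj_conj]
  rw [e, riemannZeta_conj] at h1
  rw [e, Pool.Agent.ZP.Psi.deriv_zeta_conj] at h2
  rw [logDeriv_apply, map_div₀, h1, h2]
  field_simp

private lemma ci2_an_zeta {s : ℂ} (hs : 0 < s.im) : AnalyticAt ℂ riemannZeta s := by
  have hne : s ≠ 1 := by
    rintro rfl
    simp at hs
  have hU : IsOpen ({1}ᶜ : Set ℂ) := isOpen_compl_singleton
  have hd : DifferentiableOn ℂ riemannZeta ({1}ᶜ : Set ℂ) := fun z hz =>
    (differentiableAt_riemannZeta hz).differentiableWithinAt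
  exact hd.analyticAt (hU.mem_nhds hne)

private lemma ci2_an_EE {s : ℂ} (hs : 0 < s.im) : AnalyticAt ℂ EE s := by
  unfold Pool.Agent.ZP.EE
  exact (ci2_an_zeta hs).deriv.add ((Pool.Agent.ZP.Lam_analytic hs).mul (ci2_an_zeta hs))

private lemma ci2_cont {f : ℂ → ℂ} {x c d : ℝ}
    (hf : ∀ y ∈ Icc c d, AnalyticAt ℂ f (pt x y)) (h0 : ∀ y ∈ Icc c d, f (pt x y) ≠ 0) :
    ContinuousOn (fun y => logDeriv f (pt x y)) (Icc c d) := by
  have hpt : Continuous (fun y : ℝ => pt x y) := by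
    have : (fun y : ℝ => pt x y) = fun y : ℝ => (x : ℂ) + y * Complex.I := by
      funext y
      apply Complex.ext <;> simp
    rw [this]
    fun_prop
  intro y hy
  have h1 : ContinuousAt (logDeriv f) (pt x y) := by
    have h2 : ContinuousAt (fun z => deriv f z / f z) (pt x y) :=
      (hf y hy).deriv.continuousAt.div (hf y hy).continuousAt (h0 y hy)
    have h3 : logDeriv f = fun z => deriv f z / f z := by
      funext z
      rw [logDeriv_apply]
    rw [h3]
    exact h2
  have h4 : ContinuousAt (fun y => logDeriv f (pt x y)) y :=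
    ContinuousAt.comp (f := fun y : ℝ => pt x y) (g := logDeriv f) h1 hpt.continuousAt
  exact h4.continuousWithinAt

private lemma ci2_mir (X t : ℝ) : (1 : ℂ) - (starRingEnd ℂ) (pt (1 / 2 + X) t) = pt (1 / 2 - X) t := by
  apply Complex.ext
  · simp
    ring
  · simp

private lemma ci2_sub (X t : ℝ) : (1 : ℂ) - pt (1 / 2 - X) t = (starRingEnd ℂ) (pt (1 / 2 + X) t) := by
  apply Complex.ext
  · simp
    ring
  · simp

/-- `(EE/ζ)(w) = -(ζ'/ζ)(1-w)` -/
private lemma ci2_div {w : ℂ} (hw : 0 < w.im) (h : riemannZeta w ≠ 0) :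
    EE w / riemannZeta w = -logDeriv riemannZeta (1 - w) := by
  obtain ⟨X, hX⟩ := Pool.Agent.ZP.funeq
  obtain ⟨h0, h1, h2⟩ := hX w hw
  rw [logDeriv_apply, h1, h2]
  field_simp

private lemma ci2_logDeriv_conj (s : ℂ) : logDeriv riemannZeta ((starRingEnd ℂ) s)
    = (starRingEnd ℂ) (logDeriv riemannZeta s) := by
  rw [logDeriv_apply, logDeriv_apply, map_div₀, riemannZeta_conj,
    Pool.Agent.ZP.Psi.deriv_zeta_conj]

private lemma ci2_logDeriv2_conj (s : ℂ) : logDeriv (logDeriv riemannZeta) ((starRingEnd ℂ) s)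
    = (starRingEnd ℂ) (logDeriv (logDeriv riemannZeta) s) := by
  have h1 : ((starRingEnd ℂ) ∘ logDeriv riemannZeta ∘ (starRingEnd ℂ)) = logDeriv riemannZeta := by
    funext z
    simp only [Function.comp_apply]
    rw [ci2_logDeriv_conj, Complex.conj_conj]
  have h2 := congrFun (deriv_conj_conj (f := logDeriv riemannZeta)) ((starRingEnd ℂ) s)
  rw [h1] at h2
  rw [logDeriv_apply (logDeriv riemannZeta), logDeriv_apply (logDeriv riemannZeta), map_div₀,
    ci2_logDeriv_conj, h2]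
  simp only [Function.comp_apply, Complex.conj_conj]

private lemma ci2_point {X t : ℝ} (ht : 0 < t) (h0 : riemannZeta (pt (1 / 2 - X) t) ≠ 0)
    (h1 : EE (pt (1 / 2 - X) t) ≠ 0) :
    logDeriv EE (pt (1 / 2 - X) t) - logDeriv riemannZeta (pt (1 / 2 - X) t)
      = -(starRingEnd ℂ) (logDeriv (logDeriv riemannZeta) (pt (1 / 2 + X) t)) := by
  have hw : 0 < (pt (1 / 2 - X) t).im := ht
  have hE := ci2_an_EE hw
  have hZ := ci2_an_zeta hw
  have e1 : logDeriv (fun w => EE w / riemannZeta w) (pt (1 / 2 - X) t)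
      = logDeriv EE (pt (1 / 2 - X) t) - logDeriv riemannZeta (pt (1 / 2 - X) t) :=
    logDeriv_div _ h1 h0 hE.differentiableAt hZ.differentiableAt
  have e2 : (fun w => EE w / riemannZeta w) =ᶠ[𝓝 (pt (1 / 2 - X) t)]
      fun w => -logDeriv riemannZeta (1 - w) := by
    have c1 : ∀ᶠ w in 𝓝 (pt (1 / 2 - X) t), 0 < w.im :=
      (isOpen_lt continuous_const Complex.continuous_im).mem_nhds hw
    have c2 : ∀ᶠ w in 𝓝 (pt (1 / 2 - X) t), riemannZeta w ≠ 0 :=
      hZ.continuousAt.eventually_ne h0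
    filter_upwards [c1, c2] with w hw1 hw2
    exact ci2_div hw1 hw2
  have e3 : logDeriv (fun w => EE w / riemannZeta w) (pt (1 / 2 - X) t)
      = logDeriv (fun w => -logDeriv riemannZeta (1 - w)) (pt (1 / 2 - X) t) := by
    rw [logDeriv_apply, logDeriv_apply, e2.deriv_eq, e2.eq_of_nhds]
  have e4 : logDeriv (fun w => -logDeriv riemannZeta (1 - w)) (pt (1 / 2 - X) t)
      = -logDeriv (logDeriv riemannZeta) (1 - pt (1 / 2 - X) t) := by
    rw [logDeriv_apply, logDeriv_apply (logDeriv riemannZeta)]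
    have d1 : deriv (fun w : ℂ => -logDeriv riemannZeta (1 - w)) (pt (1 / 2 - X) t)
        = deriv (logDeriv riemannZeta) (1 - pt (1 / 2 - X) t) := by
      rw [deriv.fun_neg, deriv_comp_const_sub (f := logDeriv riemannZeta) (a := 1), neg_neg]
    rw [d1, div_neg]
  rw [← e1, e3, e4, ci2_sub, ci2_logDeriv2_conj]

/-- CI2 -/
theorem V_mirror {X c d : ℝ} (hc : 0 < c) (hcd : c ≤ d)
    (h : ∀ t ∈ Icc c d, riemannZeta (pt (1 / 2 + X) t) ≠ 0 ∧ deriv riemannZeta (pt (1 / 2 + X) t) ≠ 0) :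
    V EE (1 / 2 - X) c d - V riemannZeta (1 / 2 - X) c d
      = -V (logDeriv riemannZeta) (1 / 2 + X) c d := by
  have hpos : ∀ t ∈ Icc c d, 0 < t := fun t ht => lt_of_lt_of_le hc ht.1
  have hZ0 : ∀ t ∈ Icc c d, riemannZeta (pt (1 / 2 - X) t) ≠ 0 := by
    intro t ht h0
    apply (h t ht).1
    rw [Pool.Agent.ZP.zeta_zero_iff (s := pt (1 / 2 + X) t) (hpos t ht), ci2_mir]
    exact h0
  have hE0 : ∀ t ∈ Icc c d, EE (pt (1 / 2 - X) t) ≠ 0 := by
    intro t ht h0
    apply (h t ht).2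
    rw [Pool.Agent.ZP.deriv_zero_iff (s := pt (1 / 2 + X) t) (hpos t ht), ci2_mir]
    exact h0
  have c1 : ContinuousOn (fun y => logDeriv EE (pt (1 / 2 - X) y)) (Icc c d) :=
    ci2_cont (fun y hy => ci2_an_EE (hpos y hy)) hE0
  have c2 : ContinuousOn (fun y => logDeriv riemannZeta (pt (1 / 2 - X) y)) (Icc c d) :=
    ci2_cont (fun y hy => ci2_an_zeta (hpos y hy)) hZ0
  have i1 : IntervalIntegrable (fun y => logDeriv EE (pt (1 / 2 - X) y)) MeasureTheory.volume c d := by
    apply ContinuousOn.intervalIntegrable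
    rwa [uIcc_of_le hcd]
  have i2 : IntervalIntegrable (fun y => logDeriv riemannZeta (pt (1 / 2 - X) y))
      MeasureTheory.volume c d := by
    apply ContinuousOn.intervalIntegrable
    rwa [uIcc_of_le hcd]
  unfold V
  rw [← Complex.sub_re, ← intervalIntegral.integral_sub i1 i2]
  have e : (∫ y in c..d, (logDeriv EE (pt (1 / 2 - X) y) - logDeriv riemannZeta (pt (1 / 2 - X) y)))
      = ∫ y in c..d, -(starRingEnd ℂ) (logDeriv (logDeriv riemannZeta) (pt (1 / 2 + X) y)) := by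
    apply intervalIntegral.integral_congr
    intro y hy
    rw [uIcc_of_le hcd] at hy
    exact ci2_point (hpos y hy) (hZ0 y hy) (hE0 y hy)
  rw [e, intervalIntegral.integral_neg]
  have e' : (∫ y in c..d, (starRingEnd ℂ) (logDeriv (logDeriv riemannZeta) (pt (1 / 2 + X) y)))
      = (starRingEnd ℂ) (∫ y in c..d, logDeriv (logDeriv riemannZeta) (pt (1 / 2 + X) y)) := by
    rw [intervalIntegral.integral_of_le hcd, intervalIntegral.integral_of_le hcd]
    exact integral_conj
  rw [e', Complex.neg_re, Complex.conj_re]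

end Pool.Agent.ZC
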