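import Pool.Agent.Lib.MP_af3d17_cn.CountEE
import Pool.Agent.Lib.MP_af3d17_cn.VMirror
import Pool.Agent.Lib.MP_af3d17_cn.CntMirror

/-!
# MP_af3d17_nt: CI4, zeros of the derivative to the left of a vertical line
-/

set_option autoImplicit false

namespace Pool.Agent.ZC

open Filter Topology Set
open Pool.Agent.ZP (pt Lam EE IsUpperZero IsOrdinateSeq)

namespace CI4

/-- a function without zeros at the missing points has the same count -/
theorem cnt_congr {f : ℂ → ℂ} {S S' : Set ℂ} (h1 : S' ⊆ S) (h2 : ∀ s ∈ S, f s = 0 → s ∈ S')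
    (ha : ∀ s ∈ S, AnalyticAt ℂ f s) : cnt f S = cnt f S' := by
  have h : zset f S = zset f S' := by
    ext ⟨s, n⟩
    constructor
    · rintro ⟨hs, hn⟩
      refine ⟨h2 s hs ?_, hn⟩
      by_contra h0
      have h3 : analyticOrderAt f s = 0 := (ha s hs).analyticOrderAt_eq_zero.2 h0
      dsimp only at hn
      rw [h3] at hn
      exact absurd hn (not_lt.2 bot_le)
    · rintro ⟨hs, hn⟩
      exact ⟨h1 hs, hn⟩
  rw [cnt, cnt, h]

theorem zeta_an {s : ℂ} (hs : 0 < s.im) : AnalyticAt ℂ riemannZeta s := by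
  have hs1 : s ≠ 1 := fun h => by
    rw [h, Complex.one_im] at hs
    exact lt_irrefl _ hs
  have h1 : DifferentiableOn ℂ riemannZeta {1}ᶜ := fun z hz =>
    (differentiableAt_riemannZeta hz).differentiableWithinAt
  exact h1.analyticAt (isOpen_compl_singleton.mem_nhds hs1)

theorem mirror_pt (x y : ℝ) : (1 : ℂ) - (starRingEnd ℂ) (pt (1 - x) y) = pt x y := by
  apply Complex.ext
  · simp
  · simp

end CI4

open CI4

/-- CI4 -/
theorem CIplus : ∃ C T1 : ℝ, 0 < C ∧ 100 ≤ T1 ∧ ∀ X c d : ℝ, |X| ≤ 1 / 20 → T1 ≤ c → c < d →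
    GenH c → GenH d →
    (∀ t ∈ Icc c d, riemannZeta (pt (1 / 2 + X) t) ≠ 0 ∧ deriv riemannZeta (pt (1 / 2 + X) t) ≠ 0) →
    |2 * Real.pi * ((cnt (deriv riemannZeta) (Rc (-1) (1 / 2 + X) c d) : ℝ)
      - cnt riemannZeta (Rc (-1) (1 / 2 + X) c d)) - V (logDeriv riemannZeta) (1 / 2 + X) c d|
      ≤ C * Real.log d := by
  obtain ⟨C, T2, hC, hT2, hcount⟩ := count_EE
  obtain ⟨T3, hT3, hfar⟩ := far_left
  refine ⟨C, max T2 T3, hC, hT2.trans (le_max_left _ _), ?_⟩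
  intro X c d hX hc hcd hGc hGd hline
  have hcT2 : T2 ≤ c := (le_max_left _ _).trans hc
  have hcT3 : T3 ≤ c := (le_max_right _ _).trans hc
  have hc0 : 0 < c := by linarith
  obtain ⟨hXl, hXr⟩ := abs_le.1 hX
  set s0 : ℝ := 1 / 2 - X with hs0
  have hs0' : 1 / 2 + X = 1 - s0 := by rw [hs0]; ring
  -- transfer of the zeros
  have hz : ∀ x y : ℝ, 0 < y → riemannZeta (pt (1 - x) y) ≠ 0 → riemannZeta (pt x y) ≠ 0 := by
    intro x y hy h h0
    apply h
    rw [ZP.zeta_zero_iff (s := pt (1 - x) y) hy, mirror_pt]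
    exact h0
  have hE : ∀ x y : ℝ, 0 < y → deriv riemannZeta (pt (1 - x) y) ≠ 0 → EE (pt x y) ≠ 0 := by
    intro x y hy h h0
    apply h
    rw [ZP.deriv_zero_iff (s := pt (1 - x) y) hy, mirror_pt]
    exact h0
  have hd0 : 0 < d := hc0.trans hcd
  have hB1 : BNe EE s0 3 c d := by
    refine ⟨fun x _ => hE x c hc0 (hGc _ rfl).2, fun x _ => hE x d hd0 (hGd _ rfl).2,
      fun y hy => hE s0 y (hc0.trans_le hy.1) ?_, fun y hy => hE 3 y (hc0.trans_le hy.1) ?_⟩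
    · rw [← hs0']
      exact (hline y hy).2
    · exact hfar _ (hcT3.trans hy.1) (by show (1 : ℝ) - 3 ≤ -1 / 2; norm_num)
  have hB2 : BNe riemannZeta s0 3 c d := by
    refine ⟨fun x _ => (hGc _ rfl).1, fun x _ => (hGd _ rfl).1,
      fun y hy => hz s0 y (hc0.trans_le hy.1) ?_, fun y hy => ?_⟩
    · rw [← hs0']
      exact (hline y hy).1
    · exact riemannZeta_ne_zero_of_one_le_re (by show (1 : ℝ) ≤ 3; norm_num)
  have h1 := hcount s0 c d (by rw [hs0]; linarith) (by rw [hs0]; linarith) hcT2 hcd hB1 hB2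
  have h2 := V_mirror (X := X) hc0 hcd.le hline
  obtain ⟨h3, h4⟩ := cnt_mirror (s0 := s0) (c := c) (d := d) hc0.le
  rw [← hs0] at h2
  rw [h3, h4, ← hs0'] at h1
  have h5 : cnt (deriv riemannZeta) (Rc (-2) (1 / 2 + X) c d)
      = cnt (deriv riemannZeta) (Rc (-1) (1 / 2 + X) c d) := by
    refine cnt_congr ?_ ?_ fun s hs => (zeta_an (hc0.trans hs.2.2.1)).deriv
    · rintro s ⟨a1, a2, a3, a4⟩
      exact ⟨by linarith, a2, a3, a4⟩
    · rintro s ⟨a1, a2, a3, a4⟩ h0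
      refine ⟨?_, a2, a3, a4⟩
      by_contra hcon
      exact hfar s (hcT3.trans a3.le) (by linarith) h0
  have h6 : cnt riemannZeta (Rc (-2) (1 / 2 + X) c d)
      = cnt riemannZeta (Rc (-1) (1 / 2 + X) c d) := by
    refine cnt_congr ?_ ?_ fun s hs => zeta_an (hc0.trans hs.2.2.1)
    · rintro s ⟨a1, a2, a3, a4⟩
      exact ⟨by linarith, a2, a3, a4⟩
    · rintro s ⟨a1, a2, a3, a4⟩ h0
      refine ⟨?_, a2, a3, a4⟩
      have := (zeta_strip (hc0.trans a3) h0).1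
      linarith
  rw [h5, h6] at h1
  have h7 : 2 * Real.pi * ((cnt (deriv riemannZeta) (Rc (-1) (1 / 2 + X) c d) : ℝ)
      - cnt riemannZeta (Rc (-1) (1 / 2 + X) c d)) - V (logDeriv riemannZeta) (1 / 2 + X) c d
      = 2 * Real.pi * ((cnt (deriv riemannZeta) (Rc (-1) (1 / 2 + X) c d) : ℝ)
      - cnt riemannZeta (Rc (-1) (1 / 2 + X) c d)) + V EE s0 c d - V riemannZeta s0 c d := by
    linarith
  rw [h7]
  exact h1

end Pool.Agent.ZC
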