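import Pool.Agent.Lib.MP_af3d17_cn.Defs

/-! # Counting zeros: basics -/

set_option autoImplicit false

namespace Pool.Agent.ZC

open Filter Topology Set
open Pool.Agent.ZP (pt Lam EE IsUpperZero IsOrdinateSeq)

namespace CB

/-- the closed rectangle as a product -/
private theorem Rcl_eq (a b c d : ℝ) : Rcl a b c d = Icc a b ×ℂ Icc c d := by
  ext s
  rw [Complex.mem_reProdIm, mem_Icc, mem_Icc]
  show (a ≤ s.re ∧ s.re ≤ b ∧ c ≤ s.im ∧ s.im ≤ d) ↔ _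
  tauto

theorem isCompact_Rcl (a b c d : ℝ) : IsCompact (Rcl a b c d) := by
  rw [Rcl_eq]
  exact isCompact_Icc.reProdIm isCompact_Icc

theorem convex_Rcl (a b c d : ℝ) : Convex ℝ (Rcl a b c d) := by
  intro x hx y hy u v hu hv huv
  have e1 : (u • x + v • y).re = u * x.re + v * y.re := by simp
  have e2 : (u • x + v • y).im = u * x.im + v * y.im := by simp
  refine ⟨?_, ?_, ?_, ?_⟩
  · rw [e1]
    exact (convex_Ici a) hx.1 hy.1 hu hv huv
  · rw [e1]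
    exact (convex_Iic b) hx.2.1 hy.2.1 hu hv huv
  · rw [e2]
    exact (convex_Ici c) hx.2.2.1 hy.2.2.1 hu hv huv
  · rw [e2]
    exact (convex_Iic d) hx.2.2.2 hy.2.2.2 hu hv huv

theorem isPreconnected_Rcl (a b c d : ℝ) : IsPreconnected (Rcl a b c d) :=
  (convex_Rcl a b c d).isPreconnected

theorem zeros_finite {f : ℂ → ℂ} {a b c d : ℝ} (hf : AnalyticOnNhd ℂ f (Rcl a b c d))
    (h0 : ∃ s ∈ Rcl a b c d, f s ≠ 0) : {s | s ∈ Rcl a b c d ∧ f s = 0}.Finite := by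
  by_contra h
  obtain ⟨x, hx, hacc⟩ := Set.Infinite.exists_accPt_of_subset_isCompact h
    (isCompact_Rcl a b c d) (sep_subset _ _)
  obtain ⟨s, hs, hs0⟩ := h0
  rw [accPt_iff_frequently_nhdsNE] at hacc
  apply hs0
  exact hf.eqOn_zero_of_preconnected_of_frequently_eq_zero (isPreconnected_Rcl a b c d) hx
    (hacc.mono fun z hz => hz.2) hs

theorem order_ne_top {f : ℂ → ℂ} {a b c d : ℝ} (hf : AnalyticOnNhd ℂ f (Rcl a b c d))
    (h0 : ∃ s ∈ Rcl a b c d, f s ≠ 0) {s : ℂ} (hs : s ∈ Rcl a b c d) :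
    analyticOrderAt f s ≠ ⊤ := by
  intro h
  rw [analyticOrderAt_eq_top] at h
  obtain ⟨s', hs', hs0⟩ := h0
  apply hs0
  exact hf.eqOn_zero_of_preconnected_of_eventuallyEq_zero (isPreconnected_Rcl a b c d) hs h hs'

theorem mem_zset {f : ℂ → ℂ} {S : Set ℂ} {p : ℂ × ℕ} :
    p ∈ zset f S ↔ p.1 ∈ S ∧ (p.2 : ℕ∞) < analyticOrderAt f p.1 := Iff.rfl

theorem zset_union (f : ℂ → ℂ) (S S' : Set ℂ) : zset f (S ∪ S') = zset f S ∪ zset f S' := by
  ext p
  rw [mem_union, mem_zset, mem_zset, mem_zset, mem_union]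
  tauto

theorem zset_mono {f : ℂ → ℂ} {S S' : Set ℂ} (h : S ⊆ S') : zset f S ⊆ zset f S' :=
  fun _ hp => ⟨h hp.1, hp.2⟩

end CB

open CB

theorem zset_finite {f : ℂ → ℂ} {a b c d : ℝ} (hf : AnalyticOnNhd ℂ f (Rcl a b c d))
    (h0 : ∃ s ∈ Rcl a b c d, f s ≠ 0) : (zset f (Rcl a b c d)).Finite := by
  have hZ := zeros_finite hf h0
  refine (hZ.biUnion fun s _ => ((finite_Iio (analyticOrderAt f s).toNat).image
    (Prod.mk s))).subset ?_
  rintro ⟨s, j⟩ ⟨hs, hj⟩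
  have hj' : (j : ℕ∞) < analyticOrderAt f s := hj
  have hne : analyticOrderAt f s ≠ 0 := (zero_le.trans_lt hj').ne'
  have htop := order_ne_top hf h0 hs
  rw [mem_iUnion₂]
  refine ⟨s, ⟨hs, apply_eq_zero_of_analyticOrderAt_ne_zero hne⟩, j, ?_, rfl⟩
  rw [mem_Iio]
  rw [← ENat.natCast_toNat htop] at hj'
  exact_mod_cast hj'

theorem cnt_mono {f : ℂ → ℂ} {S S' : Set ℂ} (h : S ⊆ S') (hfin : (zset f S').Finite) :
    cnt f S ≤ cnt f S' := ncard_le_ncard (zset_mono h) hfin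

theorem cnt_union_le (f : ℂ → ℂ) (S S' : Set ℂ) : cnt f (S ∪ S') ≤ cnt f S + cnt f S' := by
  unfold cnt
  rw [zset_union]
  exact ncard_union_le _ _

theorem cnt_union {f : ℂ → ℂ} {S S' : Set ℂ} (h : Disjoint S S') (hfin : (zset f S).Finite)
    (hfin' : (zset f S').Finite) : cnt f (S ∪ S') = cnt f S + cnt f S' := by
  unfold cnt
  rw [zset_union]
  refine ncard_union_eq ?_ hfin hfin'
  rw [disjoint_left]
  intro p hp hp'
  exact disjoint_left.1 h hp.1 hp'.1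

theorem cnt_eq_zero {f : ℂ → ℂ} {S : Set ℂ} (h : ∀ s ∈ S, f s ≠ 0) : cnt f S = 0 := by
  have h1 : zset f S = ∅ := by
    rw [eq_empty_iff_forall_notMem]
    rintro p ⟨hp, hp2⟩
    have hne : analyticOrderAt f p.1 ≠ 0 := (zero_le.trans_lt hp2).ne'
    exact h _ hp (apply_eq_zero_of_analyticOrderAt_ne_zero hne)
  unfold cnt
  rw [h1, ncard_empty]

end Pool.Agent.ZC
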