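import Pool.Agent.Lib.MP_af3d17_cn.Defs
import Pool.Agent.Lib.MP_af3d17_nt_h98.Zer

/-! HB0: the variation of the argument on horizontal segments. -/

set_option autoImplicit false

namespace Pool.Agent.ZC

open Filter Topology Set
open Pool.Agent.ZP (pt Lam EE IsUpperZero IsOrdinateSeq pt_re pt_im mem_disc pt_mem_disc)

lemma continuous_pt_left (t : ℝ) : Continuous fun x : ℝ => pt x t := by
  have h : (fun x : ℝ => pt x t) = fun x : ℝ => (x : ℂ) + t * Complex.I := by
    funext x
    apply Complex.ext <;> simp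
  rw [h]
  fun_prop

lemma hasDerivAt_pt_left (t x : ℝ) : HasDerivAt (fun x : ℝ => pt x t) 1 x := by
  have h : (fun x : ℝ => pt x t) = fun x : ℝ => (x : ℂ) + t * Complex.I := by
    funext x
    apply Complex.ext <;> simp
  rw [h]
  exact (Complex.ofRealCLM.hasDerivAt (x := x)).add_const _

lemma hor_inv_cont {t a b : ℝ} {z : ℂ} (hz : ∀ x ∈ Icc a b, pt x t ≠ z) :
    ContinuousOn (fun x : ℝ => (pt x t - z)⁻¹) (Icc a b) := by
  intro x hx
  have h1 : Continuous fun x : ℝ => pt x t - z := (continuous_pt_left t).sub continuous_const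
  exact (h1.continuousAt.inv₀ (sub_ne_zero.2 (hz x hx))).continuousWithinAt

lemma hor_inv_int {t a b : ℝ} {z : ℂ} (hab : a ≤ b) (hz : ∀ x ∈ Icc a b, pt x t ≠ z) :
    IntervalIntegrable (fun x : ℝ => (pt x t - z)⁻¹) MeasureTheory.volume a b := by
  apply ContinuousOn.intervalIntegrable
  rw [uIcc_of_le hab]
  exact hor_inv_cont hz

lemma hor_inv {t a b : ℝ} {z : ℂ} (hab : a ≤ b) (hz : ∀ x ∈ Icc a b, pt x t ≠ z) :
    |(∫ x in a..b, (pt x t - z)⁻¹).im| ≤ Real.pi := by
  have hint := hor_inv_int hab hz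
  by_cases h : t = z.im
  · -- the integrand is real
    have h1 : (∫ x in a..b, (pt x t - z)⁻¹).im = ∫ x in a..b, ((pt x t - z)⁻¹).im := by
      have := Complex.imCLM.intervalIntegral_comp_comm hint
      simpa using this.symm
    have h2 : ∀ x : ℝ, ((pt x t - z)⁻¹).im = 0 := fun x => by
      rw [Complex.inv_im, Complex.sub_im, pt_im, h]
      simp
    rw [h1]
    simp only [h2]
    simpa using Real.pi_pos.le
  · have hd : ∀ x ∈ uIcc a b, HasDerivAt (fun x : ℝ => Complex.log (pt x t - z)) ((pt x t - z)⁻¹) x := by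
      intro x _
      have h1 : pt x t - z ∈ Complex.slitPlane := by
        right
        rw [Complex.sub_im, pt_im]
        exact sub_ne_zero.2 h
      have h0 : HasDerivAt (fun x : ℝ => pt x t - z) 1 x := (hasDerivAt_pt_left t x).sub_const z
      have h2 := h0.clog_real h1
      simpa using h2
    have h3 := intervalIntegral.integral_eq_sub_of_hasDerivAt hd hint
    rw [h3, Complex.sub_im, Complex.log_im, Complex.log_im]
    have hi : ∀ x : ℝ, (pt x t - z).im = t - z.im := fun x => by simp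
    rcases lt_or_gt_of_ne h with h4 | h4
    · have e1 := Complex.arg_neg_iff.2 (show (pt b t - z).im < 0 by rw [hi]; linarith)
      have e2 := Complex.arg_neg_iff.2 (show (pt a t - z).im < 0 by rw [hi]; linarith)
      have e3 := Complex.neg_pi_lt_arg (pt b t - z)
      have e4 := Complex.neg_pi_lt_arg (pt a t - z)
      rw [abs_le]
      constructor <;> linarith
    · have e1 := Complex.arg_nonneg_iff.2 (show 0 ≤ (pt b t - z).im by rw [hi]; linarith)
      have e2 := Complex.arg_nonneg_iff.2 (show 0 ≤ (pt a t - z).im by rw [hi]; linarith)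
      have e3 := Complex.arg_le_pi (pt b t - z)
      have e4 := Complex.arg_le_pi (pt a t - z)
      rw [abs_le]
      constructor <;> linarith

/-- HB0 -/
theorem hor_gen : ∃ C T1 : ℝ, 0 < C ∧ 100 ≤ T1 ∧ ∀ t ≥ T1, ∀ f : ℂ → ℂ,
    AnalyticOnNhd ℂ f (Metric.closedBall (pt 10 t) (98 / 10)) →
    (∀ s ∈ Metric.closedBall (pt 10 t) (98 / 10), ‖f s‖ ≤ t ^ 12) → 1 / t ^ 12 ≤ ‖f (pt 10 t)‖ →
    ∀ a b : ℝ, 2 / 5 ≤ a → a ≤ b → b ≤ 3 → (∀ x ∈ Icc a b, f (pt x t) ≠ 0) →
    |H f t a b| ≤ C * Real.log t := by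
  obtain ⟨C, hC, hfac⟩ := Pool.Agent.ZP.local_factor (r := 96 / 10) (r' := 97 / 10) (R := 98 / 10)
    (by norm_num) (by norm_num) (by norm_num)
  refine ⟨C * 12 * (Real.pi + 3), 100, by positivity, le_rfl, fun t ht f hf hM h10 a b ha hab hb hne => ?_⟩
  have ht0 : 0 < t := by linarith
  have hlog : Real.log (t ^ 12) = 12 * Real.log t := by rw [Real.log_pow]; norm_num
  have hlt : 0 ≤ Real.log t := Real.log_nonneg (by linarith)
  have H1 : Real.exp 1 ≤ t ^ 12 := by
    have h7 : Real.exp 1 ≤ 3 := by have := Real.exp_one_lt_d9; linarith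
    have : t ^ 1 ≤ t ^ 12 := pow_le_pow_right₀ (by linarith) (by norm_num)
    linarith
  obtain ⟨k, z, g, h1, h2, h3, h4, h5, h6, _⟩ := hfac f (pt 10 t) (t ^ 12) H1 hf hM h10
  rw [hlog] at h1 h6
  have hseg : ∀ x ∈ Icc a b, pt x t ∈ Metric.closedBall (pt 10 t) (96 / 10) := by
    intro x hx
    apply pt_mem_disc (by norm_num)
    have h7 : 2 / 5 ≤ x := ha.trans hx.1
    have h8 : x ≤ 3 := hx.2.trans hb
    nlinarith
  have hz : ∀ i, ∀ x ∈ Icc a b, pt x t ≠ z i := by
    intro i x hx h
    exact hne x hx (h ▸ (h2 i).2)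
  have hb' : Metric.closedBall (pt 10 t) (96 / 10) ⊆ Metric.ball (pt 10 t) (98 / 10) :=
    Metric.closedBall_subset_ball (by norm_num)
  have hg0 : ∀ x ∈ Icc a b, g (pt x t) ≠ 0 := fun x hx =>
    h5 _ (Metric.closedBall_subset_closedBall (by norm_num) (hseg x hx))
  have hga : ∀ x ∈ Icc a b, AnalyticAt ℂ g (pt x t) := fun x hx =>
    h3 _ (Metric.closedBall_subset_closedBall (by norm_num) (hseg x hx))
  -- the logarithmic derivative on the segment
  have hld : ∀ x ∈ Icc a b, logDeriv f (pt x t) = ∑ i, (pt x t - z i)⁻¹ + logDeriv g (pt x t) := by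
    intro x hx
    have e1 : f =ᶠ[𝓝 (pt x t)] fun s => (∏ i, (s - z i)) * g s := by
      filter_upwards [Metric.isOpen_ball.mem_nhds (hb' (hseg x hx))] with s hs
      exact h4 s (Metric.ball_subset_closedBall hs)
    have e2 : logDeriv f (pt x t) = logDeriv (fun s => (∏ i, (s - z i)) * g s) (pt x t) := by
      rw [logDeriv_apply, logDeriv_apply, e1.deriv_eq, e1.eq_of_nhds]
    rw [e2, logDeriv_mul (f := fun s => ∏ i, (s - z i)) (g := g)]
    · congr 1
      rw [logDeriv_prod (fun i _ => sub_ne_zero.2 (hz i x hx)) (fun i _ => by fun_prop)]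
      refine Finset.sum_congr rfl fun i _ => ?_
      rw [logDeriv_apply]
      have : HasDerivAt (fun s : ℂ => s - z i) 1 (pt x t) := (hasDerivAt_id _).sub_const _
      rw [this.deriv, one_div]
    · exact Finset.prod_ne_zero_iff.2 fun i _ => sub_ne_zero.2 (hz i x hx)
    · exact hg0 x hx
    · fun_prop
    · exact (hga x hx).differentiableAt
  have hgc : ContinuousOn (fun x : ℝ => logDeriv g (pt x t)) (Icc a b) := by
    intro x hx
    have e1 : ContinuousAt (logDeriv g) (pt x t) := by
      have := ((hga x hx).deriv.div (hga x hx) (hg0 x hx)).continuousAt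
      exact this
    have e2 : ContinuousAt (fun x : ℝ => pt x t) x := (continuous_pt_left t).continuousAt
    exact (ContinuousAt.comp (f := fun x : ℝ => pt x t) e1 e2).continuousWithinAt
  have hgi : IntervalIntegrable (fun x : ℝ => logDeriv g (pt x t)) MeasureTheory.volume a b := by
    apply ContinuousOn.intervalIntegrable
    rwa [uIcc_of_le hab]
  have hI : ∫ x in a..b, logDeriv f (pt x t) =
      ∑ i, (∫ x in a..b, (pt x t - z i)⁻¹) + ∫ x in a..b, logDeriv g (pt x t) := by
    rw [intervalIntegral.integral_congr (g := fun x : ℝ => ∑ i, (pt x t - z i)⁻¹ + logDeriv g (pt x t))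
      (fun x hx => hld x (by rwa [uIcc_of_le hab] at hx)),
      intervalIntegral.integral_add _ hgi, intervalIntegral.integral_finsetSum]
    · exact fun i _ => hor_inv_int hab (hz i)
    · apply ContinuousOn.intervalIntegrable
      rw [uIcc_of_le hab]
      exact continuousOn_finsetSum _ fun i _ => hor_inv_cont (hz i)
  have hgb : ‖∫ x in a..b, logDeriv g (pt x t)‖ ≤ (C * (12 * Real.log t)) * |b - a| := by
    apply intervalIntegral.norm_integral_le_of_norm_le_const
    intro x hx
    rw [uIoc_of_le hab] at hx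
    exact h6 _ (hseg x ⟨hx.1.le, hx.2⟩)
  have hab3 : |b - a| ≤ 3 := by
    rw [abs_of_nonneg (by linarith)]; linarith
  rw [H, hI, Complex.add_im, Complex.im_sum]
  calc |∑ i, (∫ x in a..b, (pt x t - z i)⁻¹).im + (∫ x in a..b, logDeriv g (pt x t)).im|
      ≤ |∑ i, (∫ x in a..b, (pt x t - z i)⁻¹).im| + |(∫ x in a..b, logDeriv g (pt x t)).im| :=
        abs_add_le _ _
    _ ≤ ∑ i : Fin k, Real.pi + (C * (12 * Real.log t)) * 3 := by
        gcongr
        · exact (Finset.abs_sum_le_sum_abs _ _).trans (Finset.sum_le_sum fun i _ => hor_inv hab (hz i))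
        · refine (Complex.abs_im_le_norm _).trans (hgb.trans ?_)
          gcongr
    _ = k * Real.pi + (C * (12 * Real.log t)) * 3 := by simp
    _ ≤ (C * (12 * Real.log t)) * Real.pi + (C * (12 * Real.log t)) * 3 := by
        gcongr
    _ = C * 12 * (Real.pi + 3) * Real.log t := by ring

end Pool.Agent.ZC
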