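import Pool.Agent.Lib.MP_af3d17_cn.Defs
import Pool.Agent.Lib.MP_af3d17_cn.Hor0
import Pool.Agent.Lib.MP_af3d17_nt_h98.Zer

/-! HB1: four instances of `hor_gen`. -/

set_option autoImplicit false

namespace Pool.Agent.ZC

open Filter Topology Set
open Pool.Agent.ZP (pt Lam EE IsUpperZero IsOrdinateSeq)

namespace Hor1

open Pool.Agent.ZP

/-- the shifted point lies in a slightly larger disc -/
lemma shift_mem {t X : ℝ} (hX : 0 ≤ X) (hX1 : X ≤ 1 / 40) {s : ℂ}
    (hs : s ∈ Metric.closedBall (pt 10 t) (98 / 10)) :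
    s - 2 * X ∈ Metric.closedBall (pt 10 t) (985 / 100) := by
  rw [Metric.mem_closedBall, dist_eq_norm] at hs ⊢
  have h2 : ‖(2 * X : ℂ)‖ ≤ 1 / 20 := by
    have : (2 * X : ℂ) = ((2 * X : ℝ) : ℂ) := by push_cast; ring
    rw [this, Complex.norm_real, Real.norm_eq_abs, abs_of_nonneg (by linarith)]
    linarith
  calc ‖s - 2 * X - pt 10 t‖ = ‖(s - pt 10 t) - 2 * X‖ := by congr 1; ring
    _ ≤ ‖s - pt 10 t‖ + ‖(2 * X : ℂ)‖ := norm_sub_le _ _
    _ ≤ 985 / 100 := by linarith

/-- growth of `ζ'` in the larger disc -/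
lemma deriv_disc2 : ∃ T1 : ℝ, 100 ≤ T1 ∧ ∀ t ≥ T1,
    ∀ s ∈ Metric.closedBall (pt 10 t) (985 / 100), ‖deriv riemannZeta s‖ ≤ t ^ 4 := by
  obtain ⟨T1, hT1, h⟩ := zeta_disc
  refine ⟨T1, hT1, fun t ht s hs => ?_⟩
  have ht1 : 100 ≤ t := hT1.trans ht
  have hball : ∀ w ∈ Metric.closedBall s (1 / 20), w ∈ Metric.closedBall (pt 10 t) (99 / 10) := by
    intro w hw
    rw [Metric.mem_closedBall] at hs hw ⊢
    calc dist w (pt 10 t) ≤ dist w s + dist s (pt 10 t) := dist_triangle _ _ _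
      _ ≤ 99 / 10 := by linarith
  have hd : DiffContOnCl ℂ riemannZeta (Metric.ball s (1 / 20)) := by
    refine DifferentiableOn.diffContOnCl ?_
    rw [closure_ball _ (by norm_num)]
    intro w hw
    obtain ⟨h1, h2, h3, h4⟩ := mem_disc (hball w hw)
    exact (zeta_analyticAt (by linarith)).differentiableAt.differentiableWithinAt
  have h5 := Complex.norm_deriv_le_of_forall_mem_sphere_norm_le (C := t ^ 3)
    (show (0 : ℝ) < 1 / 20 by norm_num) hd
    (fun w hw => h t ht w (hball w (Metric.sphere_subset_closedBall hw)))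
  refine h5.trans ?_
  rw [div_le_iff₀ (by norm_num)]
  have : 0 ≤ t ^ 3 := by positivity
  nlinarith

/-- growth of `Λ` in the larger disc -/
lemma Lam_disc2 : ∃ T1 : ℝ, 100 ≤ T1 ∧ ∀ t ≥ T1,
    ∀ s ∈ Metric.closedBall (pt 10 t) (985 / 100), ‖Lam s‖ ≤ t := by
  obtain ⟨C, T, hT, h⟩ := Lam_strip 0 20
  refine ⟨max (max 100 (T + 10)) (4 * |C| + 4), (le_max_left _ _).trans (le_max_left _ _),
    fun t ht s hs => ?_⟩
  have ht1 : 100 ≤ t := ((le_max_left _ _).trans (le_max_left _ _)).trans ht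
  have ht2 : T + 10 ≤ t := ((le_max_right _ _).trans (le_max_left _ _)).trans ht
  have ht3 : 4 * |C| + 4 ≤ t := (le_max_right _ _).trans ht
  obtain ⟨h1, h2, h3, h4⟩ := mem_disc hs
  have h5 := h s (by linarith) (by linarith) (by linarith)
  have hs0 : 1 ≤ s.im := by linarith
  have h6 : C / s.im ≤ |C| := by
    rw [div_le_iff₀ (by linarith)]
    calc C ≤ |C| := le_abs_self C
      _ = |C| * 1 := (mul_one _).symm
      _ ≤ |C| * s.im := by gcongr
  have h7 : |Lt s.im| ≤ Real.log s.im + 2 := by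
    have h8 : Lt s.im = Real.log s.im - Real.log (2 * Real.pi) := by
      rw [Lt, Real.log_div (by linarith) (by positivity)]
    have h9 : 0 ≤ Real.log (2 * Real.pi) := Real.log_nonneg (by nlinarith [Real.pi_gt_three])
    have h10 : Real.log (2 * Real.pi) ≤ 2 := by
      rw [Real.log_le_iff_le_exp (by positivity)]
      have h8 : Real.exp 2 = Real.exp 1 * Real.exp 1 := by rw [← Real.exp_add]; norm_num
      have h9 := Real.exp_one_gt_d9
      rw [h8]
      nlinarith [Real.pi_lt_d2]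
    have h11 : 0 ≤ Real.log s.im := Real.log_nonneg hs0
    rw [h8, abs_le]
    constructor <;> linarith
  have h12 : Real.log s.im ≤ t / 2 := by
    have h13 : Real.log s.im ≤ 2 * √(s.im) := by
      have h14 : Real.log (√(s.im)) ≤ √(s.im) - 1 := Real.log_le_sub_one_of_pos (by positivity)
      have h15 : Real.log s.im = 2 * Real.log (√(s.im)) := by
        rw [Real.log_sqrt (by linarith)]; ring
      have : 0 ≤ √(s.im) := Real.sqrt_nonneg _
      linarith
    have h16 : √(s.im) ≤ t / 4 := by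
      rw [Real.sqrt_le_left (by linarith)]
      nlinarith
    linarith
  have h17 : ‖Lam s‖ ≤ ‖Lam s - (Lt s.im : ℂ)‖ + ‖(Lt s.im : ℂ)‖ := by
    calc ‖Lam s‖ = ‖(Lam s - (Lt s.im : ℂ)) + (Lt s.im : ℂ)‖ := by congr 1; ring
      _ ≤ _ := norm_add_le _ _
  rw [Complex.norm_real, Real.norm_eq_abs] at h17
  linarith

lemma shift_analyticAt {f : ℂ → ℂ} {X : ℝ} {s : ℂ} (hf : AnalyticAt ℂ f (s - 2 * X)) :
    AnalyticAt ℂ (fun s : ℂ => f (s - 2 * X)) s :=
  hf.comp_of_eq (analyticAt_id.sub analyticAt_const) rfl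

lemma gX_analyticAt {X : ℝ} {s : ℂ} (hs : 0 < s.im) : AnalyticAt ℂ (gX X) s := by
  have him : 0 < (s - 2 * X).im := by simpa using hs
  have h1 := zeta_analyticAt hs
  have h2 := shift_analyticAt (zeta_analyticAt him)
  have h3 := shift_analyticAt (zeta_analyticAt him).deriv
  have h4 := shift_analyticAt (Lam_analytic him)
  exact ((h1.deriv.mul h2).sub (h1.mul h3)).sub ((h4.mul h1).mul h2)

lemma pow_le_twelve {t : ℝ} (ht : 100 ≤ t) {n : ℕ} (hn : n ≤ 12) : t ^ n ≤ t ^ 12 :=
  pow_le_pow_right₀ (by linarith) hn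

lemma inv_twelve_le {t c : ℝ} (ht : 100 ≤ t) (hc : 0 < c) (h : 1 / c ≤ t) : 1 / t ^ 12 ≤ c := by
  rw [div_le_iff₀ (by positivity)]
  rw [div_le_iff₀ hc] at h
  have h9 : t ≤ t ^ 12 := by
    calc t = t ^ 1 := (pow_one t).symm
      _ ≤ t ^ 12 := pow_le_twelve ht (by norm_num)
  calc (1 : ℝ) ≤ t * c := h
    _ ≤ c * t ^ 12 := by rw [mul_comm]; gcongr

end Hor1

open Hor1 in
/-- HB1 -/
theorem hor_all : ∃ C T1 : ℝ, 0 < C ∧ 100 ≤ T1 ∧ ∀ t ≥ T1, ∀ a b : ℝ, 2 / 5 ≤ a → a ≤ b → b ≤ 3 →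
    ((∀ x ∈ Icc a b, riemannZeta (pt x t) ≠ 0) → |H riemannZeta t a b| ≤ C * Real.log t) ∧
    ((∀ x ∈ Icc a b, EE (pt x t) ≠ 0) → |H EE t a b| ≤ C * Real.log t) ∧
    (∀ X : ℝ, 0 ≤ X → X ≤ 1 / 40 → (∀ x ∈ Icc a b, riemannZeta (pt x t - 2 * X) ≠ 0) →
      |H (fun s => riemannZeta (s - 2 * X)) t a b| ≤ C * Real.log t) ∧
    (∀ X : ℝ, 0 ≤ X → X ≤ 1 / 40 → (∀ x ∈ Icc a b, gX X (pt x t) ≠ 0) →
      |H (gX X) t a b| ≤ C * Real.log t) := by
  obtain ⟨C, T0, hC, hT0, hgen⟩ := hor_gen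
  obtain ⟨T1, hT1, hz⟩ := ZP.zeta_disc
  obtain ⟨T2, hT2, hd⟩ := deriv_disc2
  obtain ⟨T3, hT3, hL⟩ := Lam_disc2
  obtain ⟨c, hc, hlow⟩ := ZP.zeta_lower
  obtain ⟨C0, hC0, hld⟩ := ZP.logDeriv_bound
  obtain ⟨T4, hT4⟩ := ZP.Lam_lower (2 * C0 + 1)
  refine ⟨C, max (max (max T0 T1) (max T2 T3)) (max (max T4 (1 / c)) (1 / (c * c))), hC, ?_, ?_⟩
  · exact hT0.trans ((le_max_left _ _).trans ((le_max_left _ _).trans (le_max_left _ _)))
  intro t ht a b ha hab hb
  have h0 : T0 ≤ t :=
    ((le_max_left _ _).trans ((le_max_left _ _).trans (le_max_left _ _))).trans ht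
  have h1 : T1 ≤ t :=
    ((le_max_right _ _).trans ((le_max_left _ _).trans (le_max_left _ _))).trans ht
  have h2 : T2 ≤ t :=
    ((le_max_left _ _).trans ((le_max_right _ _).trans (le_max_left _ _))).trans ht
  have h3 : T3 ≤ t :=
    ((le_max_right _ _).trans ((le_max_right _ _).trans (le_max_left _ _))).trans ht
  have h4 : T4 ≤ t :=
    ((le_max_left _ _).trans ((le_max_left _ _).trans (le_max_right _ _))).trans ht
  have h5 : 1 / c ≤ t :=
    ((le_max_right _ _).trans ((le_max_left _ _).trans (le_max_right _ _))).trans ht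
  have h6 : 1 / (c * c) ≤ t := ((le_max_right _ _).trans (le_max_right _ _)).trans ht
  have ht100 : 100 ≤ t := hT0.trans h0
  have htpos : 0 < t := by linarith
  have hbig : ∀ s ∈ Metric.closedBall (pt 10 t) (98 / 10),
      s ∈ Metric.closedBall (pt 10 t) (985 / 100) := fun s hs =>
    Metric.closedBall_subset_closedBall (by norm_num) hs
  have hbig2 : ∀ s ∈ Metric.closedBall (pt 10 t) (985 / 100),
      s ∈ Metric.closedBall (pt 10 t) (99 / 10) := fun s hs =>
    Metric.closedBall_subset_closedBall (by norm_num) hs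
  have him : ∀ s ∈ Metric.closedBall (pt 10 t) (985 / 100), 0 < s.im := fun s hs => by
    obtain ⟨_, _, h3, _⟩ := ZP.mem_disc hs
    linarith
  have hp : ∀ n : ℕ, n ≤ 12 → t ^ n ≤ t ^ 12 := fun n hn => pow_le_twelve ht100 hn
  have hl : ∀ s : ℂ, 9 ≤ s.re → 1 / t ^ 12 ≤ ‖riemannZeta s‖ := fun s hs =>
    (inv_twelve_le ht100 hc h5).trans (hlow s (by linarith))
  -- the value at the centre
  have hc10 : (10 : ℝ) ≤ (pt 10 t).re := le_refl _
  refine ⟨fun hne => ?_, fun hne => ?_, fun X hX hX1 hne => ?_, fun X hX hX1 hne => ?_⟩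
  · refine hgen t h0 riemannZeta ?_ ?_ ?_ a b ha hab hb hne
    · exact fun s hs => ZP.zeta_analyticAt (him s (hbig s hs))
    · exact fun s hs => (hz t h1 s (hbig2 s (hbig s hs))).trans (hp 3 (by norm_num))
    · exact hl _ (by linarith)
  · refine hgen t h0 EE ?_ ?_ ?_ a b ha hab hb hne
    · exact fun s hs => ZP.EE_analyticAt (him s (hbig s hs))
    · intro s hs
      have k1 := hd t h2 s (hbig s hs)
      have k2 := hz t h1 s (hbig2 s (hbig s hs))
      have k3 := hL t h3 s (hbig s hs)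
      calc ‖EE s‖ ≤ ‖deriv riemannZeta s‖ + ‖Lam s * riemannZeta s‖ := norm_add_le _ _
        _ ≤ t ^ 4 + t * t ^ 3 := by rw [norm_mul]; gcongr
        _ = 2 * t ^ 4 := by ring
        _ ≤ t * t ^ 4 := by gcongr; linarith
        _ = t ^ 5 := by ring
        _ ≤ t ^ 12 := hp 5 (by norm_num)
    · have k1 := hlow (pt 10 t) (by linarith)
      have k2 := hld (pt 10 t) (by linarith)
      have k3 := hT4 (pt 10 t) (by linarith) (by rw [ZP.pt_im]; exact h4)
      have hz0 : riemannZeta (pt 10 t) ≠ 0 := by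
        intro h; rw [h, norm_zero] at k1; linarith
      have k4 : EE (pt 10 t) = riemannZeta (pt 10 t) *
          (logDeriv riemannZeta (pt 10 t) + Lam (pt 10 t)) := by
        rw [EE, logDeriv_apply]; field_simp
      have k5 : 1 ≤ ‖logDeriv riemannZeta (pt 10 t) + Lam (pt 10 t)‖ := by
        have h6 := Complex.abs_re_le_norm (logDeriv riemannZeta (pt 10 t) + Lam (pt 10 t))
        have h7 := Complex.abs_re_le_norm (logDeriv riemannZeta (pt 10 t))
        rw [Complex.add_re] at h6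
        have h8 := neg_abs_le (logDeriv riemannZeta (pt 10 t)).re
        have h9 := le_abs_self ((logDeriv riemannZeta (pt 10 t)).re + (Lam (pt 10 t)).re)
        linarith
      rw [k4, norm_mul]
      calc 1 / t ^ 12 ≤ ‖riemannZeta (pt 10 t)‖ := hl _ (by linarith)
        _ = ‖riemannZeta (pt 10 t)‖ * 1 := (mul_one _).symm
        _ ≤ _ := by gcongr
  · refine hgen t h0 (fun s => riemannZeta (s - 2 * X)) ?_ ?_ ?_ a b ha hab hb hne
    · exact fun s hs => shift_analyticAt (ZP.zeta_analyticAt (him _ (shift_mem hX hX1 hs)))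
    · exact fun s hs => (hz t h1 _ (hbig2 _ (shift_mem hX hX1 hs))).trans (hp 3 (by norm_num))
    · refine hl _ ?_
      have : (pt 10 t - 2 * X : ℂ).re = 10 - 2 * X := by simp
      rw [this]
      linarith
  · refine hgen t h0 (gX X) ?_ ?_ ?_ a b ha hab hb hne
    · exact fun s hs => gX_analyticAt (him s (hbig s hs))
    · intro s hs
      have hs' := shift_mem hX hX1 hs
      have k1 := hd t h2 s (hbig s hs)
      have k2 := hz t h1 s (hbig2 s (hbig s hs))
      have k3 := hd t h2 _ hs'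
      have k4 := hz t h1 _ (hbig2 _ hs')
      have k5 := hL t h3 _ hs'
      calc ‖gX X s‖ ≤ ‖deriv riemannZeta s‖ * ‖riemannZeta (s - 2 * X)‖
            + ‖riemannZeta s‖ * ‖deriv riemannZeta (s - 2 * X)‖
            + ‖Lam (s - 2 * X)‖ * ‖riemannZeta s‖ * ‖riemannZeta (s - 2 * X)‖ := by
            rw [gX]
            refine (norm_sub_le _ _).trans ?_
            rw [norm_mul, norm_mul]
            gcongr
            refine (norm_sub_le _ _).trans ?_
            rw [norm_mul, norm_mul]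
        _ ≤ t ^ 4 * t ^ 3 + t ^ 3 * t ^ 4 + t * t ^ 3 * t ^ 3 := by gcongr
        _ = 3 * t ^ 7 := by ring
        _ ≤ t * t ^ 7 := by gcongr; linarith
        _ = t ^ 8 := by ring
        _ ≤ t ^ 12 := hp 8 (by norm_num)
    · set s := pt 10 t with hs
      have hre : (s - 2 * X : ℂ).re = 10 - 2 * X := by simp [hs]
      have him' : (s - 2 * X : ℂ).im = t := by simp [hs]
      have k1 := hlow s (by linarith)
      have k1' := hlow (s - 2 * X) (by rw [hre]; linarith)
      have k2 := hld s (by linarith)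
      have k2' := hld (s - 2 * X) (by rw [hre]; linarith)
      have k3 := hT4 (s - 2 * X) (by rw [hre]; linarith) (by rw [him']; exact h4)
      have hz0 : riemannZeta s ≠ 0 := by
        intro h; rw [h, norm_zero] at k1; linarith
      have hz1 : riemannZeta (s - 2 * X) ≠ 0 := by
        intro h; rw [h, norm_zero] at k1'; linarith
      have k4 : gX X s = riemannZeta s * riemannZeta (s - 2 * X) *
          (logDeriv riemannZeta s - logDeriv riemannZeta (s - 2 * X) - Lam (s - 2 * X)) := by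
        rw [gX, logDeriv_apply, logDeriv_apply]; field_simp
      have k5 : 1 ≤ ‖logDeriv riemannZeta s - logDeriv riemannZeta (s - 2 * X)
          - Lam (s - 2 * X)‖ := by
        have h6 := Complex.abs_re_le_norm (logDeriv riemannZeta s
          - logDeriv riemannZeta (s - 2 * X) - Lam (s - 2 * X))
        have h7 := Complex.abs_re_le_norm (logDeriv riemannZeta s)
        have h7' := Complex.abs_re_le_norm (logDeriv riemannZeta (s - 2 * X))
        rw [Complex.sub_re, Complex.sub_re] at h6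
        have h8 := le_abs_self (logDeriv riemannZeta s).re
        have h8' := neg_abs_le (logDeriv riemannZeta (s - 2 * X)).re
        have h9 := neg_abs_le ((logDeriv riemannZeta s).re
          - (logDeriv riemannZeta (s - 2 * X)).re - (Lam (s - 2 * X)).re)
        linarith
      rw [k4, norm_mul, norm_mul]
      calc 1 / t ^ 12 ≤ c * c := inv_twelve_le ht100 (by positivity) h6
        _ = c * c * 1 := (mul_one _).symm
        _ ≤ ‖riemannZeta s‖ * ‖riemannZeta (s - 2 * X)‖ * _ := by gcongr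

end Pool.Agent.ZC
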