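import Pool.Agent.Lib.MP_af3d17_cn.Lift0

/-!
# Row VL1: lifts of curves in the slit plane
-/

set_option autoImplicit false

namespace Pool.Agent.ZC

open Filter Topology Set
open Pool.Agent.ZP (pt Lam EE IsUpperZero IsOrdinateSeq)

private lemma vl1_const {φ : ℝ → ℝ} {c d : ℝ} (hcd : c ≤ d) (hc : ContinuousOn φ (Icc c d))
    (h : ∀ t ∈ Icc c d, ∃ n : ℤ, φ t = 2 * Real.pi * n) : φ d = φ c := by
  have hpi := Real.pi_pos
  obtain ⟨n, hn⟩ := h c (left_mem_Icc.mpr hcd)
  obtain ⟨m, hm⟩ := h d (right_mem_Icc.mpr hcd)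
  have hodd : ∀ (k l : ℤ), 2 * Real.pi * (k : ℝ) = 2 * Real.pi * l + Real.pi → False := by
    intro k l hkl
    have h1 : (2 * k : ℝ) = 2 * l + 1 := by
      have h2 : Real.pi * (2 * k : ℝ) = Real.pi * (2 * l + 1) := by linarith
      exact mul_left_cancel₀ hpi.ne' h2
    have h3 : (2 * k : ℤ) = 2 * l + 1 := by exact_mod_cast h1
    omega
  rcases lt_trichotomy n m with hlt | heq | hlt
  · exfalso
    have h1 : (n : ℝ) + 1 ≤ m := by exact_mod_cast hlt
    have hv : φ c + Real.pi ∈ Icc (φ c) (φ d) := by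
      constructor
      · linarith
      · rw [hn, hm]
        nlinarith
    obtain ⟨t, ht, hte⟩ := intermediate_value_Icc hcd hc hv
    obtain ⟨k, hk⟩ := h t ht
    rw [hk, hn] at hte
    exact hodd k n hte
  · rw [hn, hm, heq]
  · exfalso
    have h1 : (m : ℝ) + 1 ≤ n := by exact_mod_cast hlt
    have hv : φ d + Real.pi ∈ Icc (φ d) (φ c) := by
      constructor
      · linarith
      · rw [hn, hm]
        nlinarith
    obtain ⟨t, ht, hte⟩ := intermediate_value_Icc' hcd hc hv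
    obtain ⟨k, hk⟩ := h t ht
    rw [hk, hm] at hte
    exact hodd k m hte

/-- VL1 -/
theorem lift_slit {w : ℝ → ℂ} {θ : ℝ → ℝ} {c d : ℝ} (h : IsLift w θ c d) (hcd : c ≤ d)
    (hs : ∀ t ∈ Icc c d, w t ∈ Complex.slitPlane) :
    θ d - θ c = Complex.arg (w d) - Complex.arg (w c) := by
  have hcont : ContinuousOn (fun t => θ t - Complex.arg (w t)) (Icc c d) := by
    refine h.cθ.sub ?_
    intro t ht
    exact (Complex.continuousAt_arg (hs t ht)).comp_continuousWithinAt (h.cw t ht)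
  have hval : ∀ t ∈ Icc c d, ∃ n : ℤ, θ t - Complex.arg (w t) = 2 * Real.pi * n := by
    intro t ht
    have h0 : (‖w t‖ : ℂ) ≠ 0 := by
      have := h.ne t ht
      exact_mod_cast norm_ne_zero_iff.mpr this
    have h1 : (‖w t‖ : ℂ) * Complex.exp (θ t * Complex.I)
        = (‖w t‖ : ℂ) * Complex.exp (Complex.arg (w t) * Complex.I) := by
      rw [← h.eq t ht, Complex.norm_mul_exp_arg_mul_I]
    have h2 := mul_left_cancel₀ h0 h1
    rw [Complex.exp_eq_exp_iff_exists_int] at h2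
    obtain ⟨n, hn⟩ := h2
    refine ⟨n, ?_⟩
    have h3 := congrArg Complex.im hn
    simp at h3
    linarith
  have := vl1_const hcd hcont hval
  linarith

theorem lift_neg {w : ℝ → ℂ} {θ : ℝ → ℝ} {c d : ℝ} (h : IsLift w θ c d) (hcd : c ≤ d)
    (hs : ∀ t ∈ Icc c d, (w t).re < 0) :
    θ d - θ c = Complex.arg (-w d) - Complex.arg (-w c) := by
  have h' : IsLift (fun t => -w t) (fun t => θ t + Real.pi) c d := by
    refine ⟨h.cw.neg, h.cθ.add continuousOn_const, fun t ht => neg_ne_zero.mpr (h.ne t ht), ?_⟩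
    intro t ht
    have h1 := h.eq t ht
    simp only [norm_neg]
    conv_lhs => rw [h1]
    push_cast
    rw [add_mul, Complex.exp_add, Complex.exp_pi_mul_I]
    ring
  have h1 := lift_slit h' hcd (fun t ht => by
    left
    have := hs t ht
    simp only [Complex.neg_re]
    linarith)
  linarith

theorem V_neg {f : ℂ → ℂ} {x c d : ℝ} (hcd : c ≤ d)
    (hf : ∀ y ∈ Icc c d, AnalyticAt ℂ f (pt x y)) (h0 : ∀ y ∈ Icc c d, (f (pt x y)).re < 0) :
    |V f x c d| ≤ Real.pi := by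
  obtain ⟨θ, hθ, hV⟩ := exists_lift hcd hf (fun y hy h => by
    have := h0 y hy
    rw [h, Complex.zero_re] at this
    exact lt_irrefl _ this)
  rw [← hV c (left_mem_Icc.mpr hcd) d (right_mem_Icc.mpr hcd), lift_neg hθ hcd h0]
  have h1 : |Complex.arg (-f (pt x d))| < Real.pi / 2 := by
    rw [Complex.abs_arg_lt_pi_div_two_iff]
    left
    rw [Complex.neg_re]
    linarith [h0 d (right_mem_Icc.mpr hcd)]
  have h2 : |Complex.arg (-f (pt x c))| < Real.pi / 2 := by
    rw [Complex.abs_arg_lt_pi_div_two_iff]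
    left
    rw [Complex.neg_re]
    linarith [h0 c (left_mem_Icc.mpr hcd)]
  rw [abs_lt] at h1 h2
  rw [abs_le]
  constructor <;> linarith [h1.1, h1.2, h2.1, h2.2]

theorem V_pos {f : ℂ → ℂ} {x c d : ℝ} (hcd : c ≤ d)
    (hf : ∀ y ∈ Icc c d, AnalyticAt ℂ f (pt x y)) (h0 : ∀ y ∈ Icc c d, 0 < (f (pt x y)).re) :
    |V f x c d| ≤ Real.pi := by
  obtain ⟨θ, hθ, hV⟩ := exists_lift hcd hf (fun y hy h => by
    have := h0 y hy
    rw [h, Complex.zero_re] at this
    exact lt_irrefl _ this)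
  rw [← hV c (left_mem_Icc.mpr hcd) d (right_mem_Icc.mpr hcd),
    lift_slit hθ hcd (fun t ht => Or.inl (h0 t ht))]
  have h1 : |Complex.arg (f (pt x d))| < Real.pi / 2 := by
    rw [Complex.abs_arg_lt_pi_div_two_iff]
    exact Or.inl (h0 d (right_mem_Icc.mpr hcd))
  have h2 : |Complex.arg (f (pt x c))| < Real.pi / 2 := by
    rw [Complex.abs_arg_lt_pi_div_two_iff]
    exact Or.inl (h0 c (left_mem_Icc.mpr hcd))
  rw [abs_lt] at h1 h2
  rw [abs_le]
  constructor <;> linarith [h1.1, h1.2, h2.1, h2.2]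

end Pool.Agent.ZC
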