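import Pool.Agent.Lib.MP_af3d17_cn.ArgPr
import Pool.Agent.Lib.MP_af3d17_cn.Lift1
import Pool.Agent.Lib.MP_af3d17_cn.Hor1

/-!
# Row CI1: zeros of `EE` and of `ζ` in a rectangle to the right
-/

set_option autoImplicit false

namespace Pool.Agent.ZC

open Filter Topology Set
open Pool.Agent.ZP (pt Lam EE IsUpperZero IsOrdinateSeq)

private lemma ci1_an_zeta {s : ℂ} (hs : 0 < s.im) : AnalyticAt ℂ riemannZeta s := by
  have hne : s ≠ 1 := by
    rintro rfl
    simp at hs
  have hU : IsOpen ({1}ᶜ : Set ℂ) := isOpen_compl_singleton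
  have hd : DifferentiableOn ℂ riemannZeta ({1}ᶜ : Set ℂ) := fun z hz =>
    (differentiableAt_riemannZeta hz).differentiableWithinAt
  exact hd.analyticAt (hU.mem_nhds hne)

private lemma ci1_an_EE {s : ℂ} (hs : 0 < s.im) : AnalyticAt ℂ EE s := by
  unfold Pool.Agent.ZP.EE
  exact (ci1_an_zeta hs).deriv.add ((Pool.Agent.ZP.Lam_analytic hs).mul (ci1_an_zeta hs))

private lemma ci1_cont_log {f : ℂ → ℂ} {s : ℂ} (hf : AnalyticAt ℂ f s) (h0 : f s ≠ 0) :
    ContinuousAt (logDeriv f) s := by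
  have h2 : ContinuousAt (fun z => deriv f z / f z) s :=
    hf.deriv.continuousAt.div hf.continuousAt h0
  have h3 : logDeriv f = fun z => deriv f z / f z := by
    funext z
    rw [logDeriv_apply]
  rw [h3]
  exact h2

private lemma ci1_pt_left (y : ℝ) : Continuous (fun x : ℝ => pt x y) := by
  have : (fun x : ℝ => pt x y) = fun x : ℝ => (x : ℂ) + y * Complex.I := by
    funext x
    apply Complex.ext <;> simp
  rw [this]
  fun_prop

private lemma ci1_pt_right (x : ℝ) : Continuous (fun y : ℝ => pt x y) := by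
  have : (fun y : ℝ => pt x y) = fun y : ℝ => (x : ℂ) + y * Complex.I := by
    funext y
    apply Complex.ext <;> simp
  rw [this]
  fun_prop

private lemma ci1_V_div {f g : ℂ → ℂ} {x c d : ℝ} (hcd : c ≤ d)
    (hf : ∀ y ∈ Icc c d, AnalyticAt ℂ f (pt x y)) (hg : ∀ y ∈ Icc c d, AnalyticAt ℂ g (pt x y))
    (h0 : ∀ y ∈ Icc c d, f (pt x y) ≠ 0) (h1 : ∀ y ∈ Icc c d, g (pt x y) ≠ 0) :
    V (fun s => f s / g s) x c d = V f x c d - V g x c d := by
  have c1 : ContinuousOn (fun y => logDeriv f (pt x y)) (Icc c d) := fun y hy =>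
    (ContinuousAt.comp (f := fun y : ℝ => pt x y) (g := logDeriv f)
      (ci1_cont_log (hf y hy) (h0 y hy)) (ci1_pt_right x).continuousAt).continuousWithinAt
  have c2 : ContinuousOn (fun y => logDeriv g (pt x y)) (Icc c d) := fun y hy =>
    (ContinuousAt.comp (f := fun y : ℝ => pt x y) (g := logDeriv g)
      (ci1_cont_log (hg y hy) (h1 y hy)) (ci1_pt_right x).continuousAt).continuousWithinAt
  have i1 : IntervalIntegrable (fun y => logDeriv f (pt x y)) MeasureTheory.volume c d := by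
    apply ContinuousOn.intervalIntegrable
    rwa [uIcc_of_le hcd]
  have i2 : IntervalIntegrable (fun y => logDeriv g (pt x y)) MeasureTheory.volume c d := by
    apply ContinuousOn.intervalIntegrable
    rwa [uIcc_of_le hcd]
  unfold V
  rw [← Complex.sub_re, ← intervalIntegral.integral_sub i1 i2]
  congr 1
  apply intervalIntegral.integral_congr
  intro y hy
  rw [uIcc_of_le hcd] at hy
  exact logDeriv_div _ (h0 y hy) (h1 y hy) (hf y hy).differentiableAt (hg y hy).differentiableAt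

private lemma ci1_H_div {f g : ℂ → ℂ} {y a b : ℝ} (hab : a ≤ b)
    (hf : ∀ x ∈ Icc a b, AnalyticAt ℂ f (pt x y)) (hg : ∀ x ∈ Icc a b, AnalyticAt ℂ g (pt x y))
    (h0 : ∀ x ∈ Icc a b, f (pt x y) ≠ 0) (h1 : ∀ x ∈ Icc a b, g (pt x y) ≠ 0) :
    H (fun s => f s / g s) y a b = H f y a b - H g y a b := by
  have c1 : ContinuousOn (fun x => logDeriv f (pt x y)) (Icc a b) := fun x hx =>
    (ContinuousAt.comp (f := fun x : ℝ => pt x y) (g := logDeriv f)
      (ci1_cont_log (hf x hx) (h0 x hx)) (ci1_pt_left y).continuousAt).continuousWithinAt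
  have c2 : ContinuousOn (fun x => logDeriv g (pt x y)) (Icc a b) := fun x hx =>
    (ContinuousAt.comp (f := fun x : ℝ => pt x y) (g := logDeriv g)
      (ci1_cont_log (hg x hx) (h1 x hx)) (ci1_pt_left y).continuousAt).continuousWithinAt
  have i1 : IntervalIntegrable (fun x => logDeriv f (pt x y)) MeasureTheory.volume a b := by
    apply ContinuousOn.intervalIntegrable
    rwa [uIcc_of_le hab]
  have i2 : IntervalIntegrable (fun x => logDeriv g (pt x y)) MeasureTheory.volume a b := by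
    apply ContinuousOn.intervalIntegrable
    rwa [uIcc_of_le hab]
  unfold H
  rw [← Complex.sub_im, ← intervalIntegral.integral_sub i1 i2]
  congr 1
  apply intervalIntegral.integral_congr
  intro x hx
  rw [uIcc_of_le hab] at hx
  exact logDeriv_div _ (h0 x hx) (h1 x hx) (hf x hx).differentiableAt (hg x hx).differentiableAt

/-- CI1 -/
theorem count_EE : ∃ C T1 : ℝ, 0 < C ∧ 100 ≤ T1 ∧ ∀ s0 c d : ℝ, 2 / 5 ≤ s0 → s0 ≤ 3 / 5 → T1 ≤ c →
    c < d → BNe EE s0 3 c d → BNe riemannZeta s0 3 c d →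
    |2 * Real.pi * ((cnt EE (Rc s0 3 c d) : ℝ) - cnt riemannZeta (Rc s0 3 c d))
      + V EE s0 c d - V riemannZeta s0 c d| ≤ C * Real.log d := by
  obtain ⟨C, T1, hC, hT1, hH⟩ := hor_all
  obtain ⟨M, hM, hF⟩ := Pool.Agent.ZP.logDeriv_bound
  obtain ⟨T2, hL⟩ := Pool.Agent.ZP.Lam_lower (M + 1)
  refine ⟨4 * C + Real.pi, max T1 T2, by have := Real.pi_pos; positivity,
    hT1.trans (le_max_left _ _), fun s0 c d hs0 hs1 hTc hcd hE hZ => ?_⟩
  have hc1 : T1 ≤ c := (le_max_left _ _).trans hTc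
  have hc2 : T2 ≤ c := (le_max_right _ _).trans hTc
  have hc0 : (0 : ℝ) < c := by linarith
  have hab : s0 < 3 := by linarith
  have him : ∀ s ∈ Rcl s0 3 c d, 0 < s.im := fun s hs => lt_of_lt_of_le hc0 hs.2.2.1
  have aE : AnalyticOnNhd ℂ EE (Rcl s0 3 c d) := fun s hs => ci1_an_EE (him s hs)
  have aZ : AnalyticOnNhd ℂ riemannZeta (Rcl s0 3 c d) := fun s hs => ci1_an_zeta (him s hs)
  have key := arg_principle_div hab hcd aE aZ hE hZ
  have hd0 : (0 : ℝ) < d := hc0.trans hcd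
  have e1 : V (fun s => EE s / riemannZeta s) s0 c d = V EE s0 c d - V riemannZeta s0 c d := by
    refine ci1_V_div hcd.le ?_ ?_ hE.left hZ.left
    · intro y hy
      exact ci1_an_EE (lt_of_lt_of_le hc0 hy.1)
    · intro y hy
      exact ci1_an_zeta (lt_of_lt_of_le hc0 hy.1)
  have e2 : H (fun s => EE s / riemannZeta s) c s0 3 = H EE c s0 3 - H riemannZeta c s0 3 :=
    ci1_H_div hab.le (fun x _ => ci1_an_EE hc0) (fun x _ => ci1_an_zeta hc0) hE.bot hZ.bot
  have e3 : H (fun s => EE s / riemannZeta s) d s0 3 = H EE d s0 3 - H riemannZeta d s0 3 :=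
    ci1_H_div hab.le (fun x _ => ci1_an_EE hd0) (fun x _ => ci1_an_zeta hd0) hE.top hZ.top
  obtain ⟨b1, b2, -, -⟩ := hH c hc1 s0 3 hs0 hab.le le_rfl
  obtain ⟨b3, b4, -, -⟩ := hH d (hc1.trans hcd.le) s0 3 hs0 hab.le le_rfl
  have b1' := b1 hZ.bot
  have b2' := b2 hE.bot
  have b3' := b3 hZ.top
  have b4' := b4 hE.top
  have hlog : Real.log c ≤ Real.log d := Real.log_le_log hc0 hcd.le
  have hlog1 : 1 ≤ Real.log d := by
    have h1 : (1 : ℝ) = Real.log (Real.exp 1) := by rw [Real.log_exp]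
    rw [h1]
    apply Real.log_le_log (Real.exp_pos _)
    have := Real.exp_one_lt_d9
    linarith
  have e4 : |V (fun s => EE s / riemannZeta s) 3 c d| ≤ Real.pi := by
    have hz3 : ∀ y : ℝ, riemannZeta (pt 3 y) ≠ 0 := fun y =>
      riemannZeta_ne_zero_of_one_le_re (by simp)
    refine V_pos hcd.le ?_ ?_
    · intro y hy
      exact (ci1_an_EE (lt_of_lt_of_le hc0 hy.1)).div (ci1_an_zeta (lt_of_lt_of_le hc0 hy.1)) (hz3 y)
    · intro y hy
      have h1 : EE (pt 3 y) / riemannZeta (pt 3 y) = logDeriv riemannZeta (pt 3 y) + Lam (pt 3 y) := by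
        rw [Pool.Agent.ZP.EE, logDeriv_apply]
        have := hz3 y
        field_simp
      show 0 < (EE (pt 3 y) / riemannZeta (pt 3 y)).re
      rw [h1, Complex.add_re]
      have h2 := hL (pt 3 y) (by norm_num) (hc2.trans hy.1)
      have h3 := (abs_le.mp ((Complex.abs_re_le_norm _).trans
        (hF (pt 3 y) (by norm_num)))).1
      linarith
  have hCc : C * Real.log c ≤ C * Real.log d := mul_le_mul_of_nonneg_left hlog hC.le
  rw [e1, e2, e3] at key
  have hpi : Real.pi ≤ Real.pi * Real.log d := by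
    have := Real.pi_pos
    nlinarith
  rw [abs_le] at b1' b2' b3' b4' e4 ⊢
  constructor
  · nlinarith [b1'.1, b1'.2, b2'.1, b2'.2, b3'.1, b3'.2, b4'.1, b4'.2, e4.1, e4.2]
  · nlinarith [b1'.1, b1'.2, b2'.1, b2'.2, b3'.1, b3'.2, b4'.1, b4'.2, e4.1, e4.2]

end Pool.Agent.ZC
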