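import Pool.Agent.Lib.MP_af3d17_nt_h98.Psi
import Pool.Agent.Lib.MP_af3d17_nt_h98.Growth
import Pool.Agent.Lib.MP_af3d17_nt_h98.SeqDefs

/-!
# MP_af3d17_nt: Levinson-Montgomery at all scales. Definitions.
-/

set_option autoImplicit false

namespace Pool.Agent.ZC

open Filter Topology Set
open Pool.Agent.ZP (pt Lam EE IsUpperZero IsOrdinateSeq)

/-- the zeros of `f` in `S`, each one repeated according to its order -/
def zset (f : ℂ → ℂ) (S : Set ℂ) : Set (ℂ × ℕ) :=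
  {p | p.1 ∈ S ∧ (p.2 : ℕ∞) < analyticOrderAt f p.1}

/-- the number of zeros of `f` in `S`, with multiplicity -/
noncomputable def cnt (f : ℂ → ℂ) (S : Set ℂ) : ℕ := (zset f S).ncard

/-- the order of `ζ` at `ρ` -/
noncomputable def od (ρ : ℂ) : ℕ := (analyticOrderAt riemannZeta ρ).toNat

/-- open rectangle -/
def Rc (a b c d : ℝ) : Set ℂ := {s | a < s.re ∧ s.re < b ∧ c < s.im ∧ s.im < d}

/-- closed rectangle -/
def Rcl (a b c d : ℝ) : Set ℂ := {s | a ≤ s.re ∧ s.re ≤ b ∧ c ≤ s.im ∧ s.im ≤ d}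

/-- the change of argument of `f` on the vertical segment from `x + ic` to `x + id` -/
noncomputable def V (f : ℂ → ℂ) (x c d : ℝ) : ℝ := (∫ y in c..d, logDeriv f (pt x y)).re

/-- the change of argument of `f` on the horizontal segment from `a + iy` to `b + iy` -/
noncomputable def H (f : ℂ → ℂ) (y a b : ℝ) : ℝ := (∫ x in a..b, logDeriv f (pt x y)).im

/-- `f` does not vanish on the boundary of the rectangle -/
structure BNe (f : ℂ → ℂ) (a b c d : ℝ) : Prop where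
  bot : ∀ x ∈ Icc a b, f (pt x c) ≠ 0
  top : ∀ x ∈ Icc a b, f (pt x d) ≠ 0
  left : ∀ y ∈ Icc c d, f (pt a y) ≠ 0
  right : ∀ y ∈ Icc c d, f (pt b y) ≠ 0

/-- `θ` is a continuous argument of the curve `w` on `[c, d]` -/
structure IsLift (w : ℝ → ℂ) (θ : ℝ → ℝ) (c d : ℝ) : Prop where
  cw : ContinuousOn w (Icc c d)
  cθ : ContinuousOn θ (Icc c d)
  ne : ∀ t ∈ Icc c d, w t ≠ 0
  eq : ∀ t ∈ Icc c d, w t = ‖w t‖ * Complex.exp (θ t * Complex.I)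

/-- the parameters where the curve crosses the imaginary axis -/
def zr (w : ℝ → ℂ) (c d : ℝ) : Set ℝ := {t | t ∈ Icc c d ∧ (w t).re = 0}

/-- mirror image in the critical line -/
noncomputable def mir (ρ : ℂ) : ℂ := 1 - (starRingEnd ℂ) ρ

/-- the kernel `K_ρ(s)`: `Re (1/(s-ρ) + 1/(s-ρ*)) / 2 = (Re s - 1/2) K_ρ(s)` -/
noncomputable def KK (ρ s : ℂ) : ℝ :=
  (‖s - pt (1 / 2) ρ.im‖ ^ 2 - (ρ.re - 1 / 2) ^ 2) / (‖s - ρ‖ ^ 2 * ‖s - mir ρ‖ ^ 2)

/-- the function `ζ'(s)ζ(s-2X) - ζ(s)ζ'(s-2X) - Λ(s-2X)ζ(s)ζ(s-2X)` -/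
noncomputable def gX (X : ℝ) (s : ℂ) : ℂ :=
  deriv riemannZeta s * riemannZeta (s - 2 * X) - riemannZeta s * deriv riemannZeta (s - 2 * X)
    - Lam (s - 2 * X) * riemannZeta s * riemannZeta (s - 2 * X)

/-- `ζ'/ζ(s) - ζ'/ζ(s-2X) - Λ(s-2X)` -/
noncomputable def fX (X : ℝ) (s : ℂ) : ℂ := gX X s / (riemannZeta s * riemannZeta (s - 2 * X))

/-- no zero of `ζ` or `ζ'` on the horizontal line of height `c` -/
def GenH (c : ℝ) : Prop := ∀ s : ℂ, s.im = c → riemannZeta s ≠ 0 ∧ deriv riemannZeta s ≠ 0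

/-- no zero of `ζ` or `ζ'` on the half line `Re s = 1/2 + X`, `Im s > 0` -/
def GenX (X : ℝ) : Prop :=
  ∀ s : ℂ, s.re = 1 / 2 + X → 0 < s.im → riemannZeta s ≠ 0 ∧ deriv riemannZeta s ≠ 0

/-- `ρ` is off the line and its interval `[Im ρ - δ, Im ρ + δ]` does not meet `[y, y']` -/
def Away (ρ : ℂ) (y y' : ℝ) : Prop := y' < ρ.im - |ρ.re - 1 / 2| ∨ ρ.im + |ρ.re - 1 / 2| < y

/-- `[y, y']` lies in the open interval `(Im ρ - δ, Im ρ + δ)` -/
def Inside (ρ : ℂ) (y y' : ℝ) : Prop := ρ.im - |ρ.re - 1 / 2| < y ∧ y' < ρ.im + |ρ.re - 1 / 2|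

open Classical in
/-- a gap `[y, y']` that is good for the finite set `O` of off-line zeros -/
def GoodGap (O : Finset ℂ) (y y' : ℝ) : Prop :=
  (∀ ρ ∈ O, Away ρ y y' ∨ Inside ρ y y') ∧
    ∑ ρ ∈ O.filter (fun ρ => Inside ρ y y'), (od ρ : ℝ) / (ρ.re - 1 / 2) ^ 2 ≤ 1 / (y' - y) ^ 2

/-- number of small gaps -/
noncomputable def gapCount (γ : ℕ → ℝ) (T x : ℝ) : ℕ := {n | γ n ≤ T ∧ γ (n + 1) - γ n ≤ x}.ncard

/-- number of zeros of `ζ'` near to or to the left of the critical line -/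
noncomputable def derivCount (T y : ℝ) : ℕ :=
  cnt (deriv riemannZeta) {s | -1 < s.re ∧ s.re ≤ 1 / 2 + y ∧ 0 < s.im ∧ s.im ≤ T}

end Pool.Agent.ZC
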