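import Pool.Agent.Lib.MP_af3d17_cn.CountSum
import Pool.Agent.Lib.MP_af3d17_nt_h98.Count

/-! # PA3: lower bound for the zeros of `ζ'` -/

set_option autoImplicit false

namespace Pool.Agent.ZC

open Filter Topology Set
open Pool.Agent.ZP (pt Lam EE IsUpperZero IsOrdinateSeq)

namespace PA3

theorem differentiableOn_zeta : DifferentiableOn ℂ riemannZeta {1}ᶜ := fun _ hs =>
  (differentiableAt_riemannZeta hs).differentiableWithinAt

theorem analyticAt_zeta {s : ℂ} (hs : s ≠ 1) : AnalyticAt ℂ riemannZeta s :=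
  differentiableOn_zeta.analyticAt (isOpen_compl_singleton.mem_nhds hs)

theorem analyticAt_deriv {s : ℂ} (hs : s ≠ 1) : AnalyticAt ℂ (deriv riemannZeta) s :=
  (analyticAt_zeta hs).deriv

theorem order_deriv_ne_top {s : ℂ} (hs : s ≠ 1) : analyticOrderAt (deriv riemannZeta) s ≠ ⊤ := by
  intro h
  rw [analyticOrderAt_eq_top] at h
  have hpre : IsPreconnected ({1}ᶜ : Set ℂ) :=
    (isConnected_compl_singleton_of_one_lt_rank (by rw [Complex.rank_real_complex]; norm_num)
      (1 : ℂ)).isPreconnected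
  have han : AnalyticOnNhd ℂ (deriv riemannZeta) ({1}ᶜ : Set ℂ) := fun z hz => analyticAt_deriv hz
  have h0 : EqOn (deriv riemannZeta) 0 ({1}ᶜ : Set ℂ) :=
    han.eqOn_zero_of_preconnected_of_eventuallyEq_zero hpre hs h
  have hconst : ∀ x ∈ ({1}ᶜ : Set ℂ), ∀ y ∈ ({1}ᶜ : Set ℂ), riemannZeta x = riemannZeta y := by
    intro x hx y hy
    exact isOpen_compl_singleton.is_const_of_deriv_eq_zero hpre differentiableOn_zeta h0 hx hy
  have h1 := hconst 0 (by simp) (-2) (by
    rw [mem_compl_iff, mem_singleton_iff]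
    norm_num)
  have h2 : riemannZeta (-2) = 0 := by
    have := riemannZeta_neg_two_mul_nat_add_one 0
    simpa using this
  rw [h2, riemannZeta_zero] at h1
  norm_num at h1

end PA3

open PA3

theorem derivSet_finite {T y : ℝ} (hy : y ≤ 1 / 20) : (zset (deriv riemannZeta)
    {s | -1 < s.re ∧ s.re ≤ 1 / 2 + y ∧ 0 < s.im ∧ s.im ≤ T}).Finite := by
  by_cases hT : 0 < T ∧ -1 < 1 / 2 + y
  · have hsub : {s : ℂ | -1 < s.re ∧ s.re ≤ 1 / 2 + y ∧ 0 < s.im ∧ s.im ≤ T} ⊆
        Rcl (-1) (1 / 2 + y) 0 T := fun s hs => ⟨hs.1.le, hs.2.1, hs.2.2.1.le, hs.2.2.2⟩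
    have hne1 : ∀ s ∈ Rcl (-1) (1 / 2 + y) 0 T, s ≠ 1 := by
      rintro s hs rfl
      have h1 : (1 : ℂ).re ≤ 1 / 2 + y := hs.2.1
      rw [Complex.one_re] at h1
      linarith
    have han : AnalyticOnNhd ℂ (deriv riemannZeta) (Rcl (-1) (1 / 2 + y) 0 T) :=
      fun s hs => analyticAt_deriv (hne1 s hs)
    refine (zset_finite han ?_).subset (CB.zset_mono hsub)
    by_contra hcon
    push Not at hcon
    -- the derivative vanishes on the rectangle
    have hc : pt ((-1 + (1 / 2 + y)) / 2) (T / 2) ≠ 1 := by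
      intro h
      have h1 := congrArg Complex.im h
      rw [ZP.pt_im, Complex.one_im] at h1
      linarith [hT.1]
    apply order_deriv_ne_top hc
    rw [analyticOrderAt_eq_top]
    have hopen : IsOpen (Rc (-1) (1 / 2 + y) 0 T) := by
      have : Rc (-1) (1 / 2 + y) 0 T = (Complex.re ⁻¹' Ioo (-1) (1 / 2 + y)) ∩
          (Complex.im ⁻¹' Ioo 0 T) := by
        ext s
        constructor
        · rintro ⟨h1, h2, h3, h4⟩
          exact ⟨⟨h1, h2⟩, ⟨h3, h4⟩⟩
        · rintro ⟨⟨h1, h2⟩, ⟨h3, h4⟩⟩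
          exact ⟨h1, h2, h3, h4⟩
      rw [this]
      exact (isOpen_Ioo.preimage Complex.continuous_re).inter
        (isOpen_Ioo.preimage Complex.continuous_im)
    have hmem : pt ((-1 + (1 / 2 + y)) / 2) (T / 2) ∈ Rc (-1) (1 / 2 + y) 0 T := by
      refine ⟨?_, ?_, ?_, ?_⟩
      · rw [ZP.pt_re]
        linarith [hT.2]
      · rw [ZP.pt_re]
        linarith [hT.2]
      · rw [ZP.pt_im]
        linarith [hT.1]
      · rw [ZP.pt_im]
        linarith [hT.1]
    filter_upwards [hopen.mem_nhds hmem] with s hs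
    exact hcon s ⟨hs.1.le, hs.2.1.le, hs.2.2.1.le, hs.2.2.2.le⟩
  · have he : zset (deriv riemannZeta)
        {s | -1 < s.re ∧ s.re ≤ 1 / 2 + y ∧ 0 < s.im ∧ s.im ≤ T} = ∅ := by
      rw [eq_empty_iff_forall_notMem]
      rintro p ⟨⟨h1, h2, h3, h4⟩, -⟩
      exact hT ⟨by linarith, by linarith⟩
    rw [he]
    exact finite_empty

/-- PA3: lower bound for the zeros of `ζ'` -/
theorem deriv_lower {c T y : ℝ} (hc : 0 < c) (hT : c ≤ T) (hy : 0 ≤ y) (hy' : y ≤ 1 / 20)
    (Y : Finset ℝ) (P : Finset (ℝ × ℝ))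
    (hY : ∀ u ∈ Y, c < u ∧ u ≤ T ∧ riemannZeta (pt (1 / 2) u) = 0)
    (hP : ∀ p ∈ P, p.1 ∈ Y ∧ p.1 < p.2 ∧ riemannZeta (pt (1 / 2) p.2) = 0 ∧
      (∀ u ∈ Ioo p.1 p.2, riemannZeta (pt (1 / 2) u) ≠ 0) ∧
      ∃ s : ℂ, deriv riemannZeta s = 0 ∧ 1 / 2 < s.re ∧ s.re ≤ 1 / 2 + y ∧ p.1 < s.im ∧ s.im < p.2) :
    ∑ u ∈ Y, ((od (pt (1 / 2) u) : ℝ) - 1) + P.card
      + cnt (deriv riemannZeta) (Rc (-1) (1 / 2) c T) ≤ derivCount T y + 1 := by
  classical
  set D : Set ℂ := {s | -1 < s.re ∧ s.re ≤ 1 / 2 + y ∧ 0 < s.im ∧ s.im ≤ T} with hD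
  have hDfin : (zset (deriv riemannZeta) D).Finite := derivSet_finite hy'
  have hptne : ∀ u : ℝ, pt (1 / 2) u ≠ 1 := by
    intro u h
    have h1 := congrArg Complex.re h
    rw [ZP.pt_re, Complex.one_re] at h1
    norm_num at h1
  have hptinj : Function.Injective (pt (1 / 2)) := by
    intro u u' h
    have h1 := congrArg Complex.im h
    rwa [ZP.pt_im, ZP.pt_im] at h1
  -- separation of the pairs
  have hsep : ∀ p ∈ P, ∀ q ∈ P, p.1 < q.1 → p.2 ≤ q.1 := by
    intro p hp q hq h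
    by_contra h2
    exact (hP p hp).2.2.2.1 q.1 ⟨h, not_le.1 h2⟩ (hY q.1 (hP q hq).1).2.2
  have hfst : ∀ p ∈ P, ∀ q ∈ P, p.1 = q.1 → p = q := by
    intro p hp q hq h
    refine Prod.ext h ?_
    by_contra h2
    rcases lt_or_gt_of_ne h2 with h3 | h3
    · exact (hP q hq).2.2.2.1 p.2 ⟨by rw [← h]; exact (hP p hp).2.1, h3⟩ (hP p hp).2.2.1
    · exact (hP p hp).2.2.2.1 q.2 ⟨by rw [h]; exact (hP q hq).2.1, h3⟩ (hP q hq).2.2.1
  -- the pairs which end above `T`
  have hlast : (P.filter fun p => ¬ p.2 ≤ T).card ≤ 1 := by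
    rw [Finset.card_le_one]
    intro p hp q hq
    rw [Finset.mem_filter] at hp hq
    apply hfst p hp.1 q hq.1
    by_contra h
    rcases lt_or_gt_of_ne h with h3 | h3
    · have h4 := hsep p hp.1 q hq.1 h3
      have h5 := (hY q.1 (hP q hq.1).1).2.1
      exact hp.2 (h4.trans h5)
    · have h4 := hsep q hq.1 p hp.1 h3
      have h5 := (hY p.1 (hP p hp.1).1).2.1
      exact hq.2 (h4.trans h5)
  set P' := P.filter fun p => p.2 ≤ T with hP'
  have hPcard : P.card ≤ P'.card + 1 := by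
    have h1 : P'.card + (P.filter fun p => ¬ p.2 ≤ T).card = P.card :=
      Finset.card_filter_add_card_filter_not (s := P) (fun p => p.2 ≤ T)
    omega
  -- the zeros attached to the pairs
  choose! σ hσ using fun p (hp : p ∈ P) => (hP p hp).2.2.2.2
  have hσinj : ∀ p ∈ P, ∀ q ∈ P, σ p = σ q → p = q := by
    intro p hp q hq h
    apply hfst p hp q hq
    by_contra h2
    have e := congrArg Complex.im h
    rcases lt_or_gt_of_ne h2 with h3 | h3
    · have h4 := hsep p hp q hq h3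
      linarith [(hσ p hp).2.2.2.2, (hσ q hq).2.2.2.1]
    · have h4 := hsep q hq p hp h3
      linarith [(hσ q hq).2.2.2.2, (hσ p hp).2.2.2.1]
  set S1 : Set ℂ := pt (1 / 2) '' (Y : Set ℝ) with hS1
  set S3 : Set ℂ := Rc (-1) (1 / 2) c T with hS3
  set Z2 : Finset (ℂ × ℕ) := P'.image fun p => (σ p, 0) with hZ2
  have hZ2card : Z2.card = P'.card := by
    apply Finset.card_image_of_injOn
    intro p hp q hq h
    have hp' := (Finset.mem_filter.1 (Finset.mem_coe.1 hp)).1
    have hq' := (Finset.mem_filter.1 (Finset.mem_coe.1 hq)).1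
    exact hσinj p hp' q hq' (Prod.mk.inj h).1
  have h1D : S1 ⊆ D := by
    rintro _ ⟨u, hu, rfl⟩
    have h := hY u (Finset.mem_coe.1 hu)
    refine ⟨?_, ?_, ?_, ?_⟩
    · rw [ZP.pt_re]
      norm_num
    · rw [ZP.pt_re]
      linarith
    · rw [ZP.pt_im]
      linarith [h.1]
    · rw [ZP.pt_im]
      exact h.2.1
  have h3D : S3 ⊆ D := fun s hs => ⟨hs.1, by
    have := hs.2.1
    show s.re ≤ 1 / 2 + y
    linarith, hc.trans hs.2.2.1, hs.2.2.2.le⟩
  have h2D : (Z2 : Set (ℂ × ℕ)) ⊆ zset (deriv riemannZeta) D := by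
    intro z hz
    obtain ⟨p, hp, rfl⟩ := Finset.mem_image.1 (Finset.mem_coe.1 hz)
    rw [Finset.mem_filter] at hp
    have h := hσ p hp.1
    have hY1 := hY p.1 (hP p hp.1).1
    have hne1 : σ p ≠ 1 := by
      intro h2
      have h3 := h.2.2.2.1
      rw [h2, Complex.one_im] at h3
      linarith [hY1.1]
    refine ⟨⟨?_, h.2.2.1, ?_, ?_⟩, ?_⟩
    · show -1 < (σ p).re
      linarith [h.2.1]
    · show 0 < (σ p).im
      linarith [h.2.2.2.1, hY1.1]
    · show (σ p).im ≤ T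
      linarith [h.2.2.2.2, hp.2]
    · show ((0 : ℕ) : ℕ∞) < analyticOrderAt (deriv riemannZeta) (σ p)
      rw [Nat.cast_zero, pos_iff_ne_zero, (analyticAt_deriv hne1).analyticOrderAt_ne_zero]
      exact h.1
  have hfin1 : (zset (deriv riemannZeta) S1).Finite := hDfin.subset (CB.zset_mono h1D)
  have hfin3 : (zset (deriv riemannZeta) S3).Finite := hDfin.subset (CB.zset_mono h3D)
  have hcount : cnt (deriv riemannZeta) S1 + P'.card + cnt (deriv riemannZeta) S3 ≤
      derivCount T y := by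
    have hd12 : Disjoint (zset (deriv riemannZeta) S1) (Z2 : Set (ℂ × ℕ)) := by
      rw [disjoint_left]
      rintro z ⟨⟨u, -, hu⟩, -⟩ hz2
      obtain ⟨p, hp, rfl⟩ := Finset.mem_image.1 (Finset.mem_coe.1 hz2)
      rw [Finset.mem_filter] at hp
      have h := (hσ p hp.1).2.1
      have hu' : pt (1 / 2) u = σ p := hu
      rw [← hu', ZP.pt_re] at h
      exact lt_irrefl _ h
    have hd3 : Disjoint (zset (deriv riemannZeta) S1 ∪ (Z2 : Set (ℂ × ℕ)))
        (zset (deriv riemannZeta) S3) := by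
      rw [disjoint_left]
      rintro z (⟨⟨u, -, hu⟩, -⟩ | hz2) ⟨hz3, -⟩
      · have h := hz3.2.1
        rw [← hu, ZP.pt_re] at h
        exact lt_irrefl _ h
      · obtain ⟨p, hp, rfl⟩ := Finset.mem_image.1 (Finset.mem_coe.1 hz2)
        rw [Finset.mem_filter] at hp
        have h := (hσ p hp.1).2.1
        have h' : (σ p).re < 1 / 2 := hz3.2.1
        linarith
    have h1 : (zset (deriv riemannZeta) S1 ∪ (Z2 : Set (ℂ × ℕ)) ∪
        zset (deriv riemannZeta) S3).ncard ≤ (zset (deriv riemannZeta) D).ncard := by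
      apply ncard_le_ncard _ hDfin
      exact union_subset (union_subset (CB.zset_mono h1D) h2D) (CB.zset_mono h3D)
    rw [ncard_union_eq hd3 (hfin1.union (Finset.finite_toSet _)) hfin3,
      ncard_union_eq hd12 hfin1 (Finset.finite_toSet _), ncard_coe_finset, hZ2card] at h1
    exact h1
  -- the zeros on the line
  have hline : (cnt (deriv riemannZeta) S1 : ℝ) = ∑ u ∈ Y, ((od (pt (1 / 2) u) : ℝ) - 1) := by
    have hord : ∀ u ∈ Y, ∃ m : ℕ, od (pt (1 / 2) u) = m + 1 ∧
        analyticOrderAt (deriv riemannZeta) (pt (1 / 2) u) = m := by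
      intro u hu
      have hz := (hY u hu).2.2
      have han := analyticAt_zeta (hptne u)
      have h1 : analyticOrderAt riemannZeta (pt (1 / 2) u) ≠ 0 :=
        han.analyticOrderAt_ne_zero.2 hz
      obtain ⟨k, hk⟩ := ENat.ne_top_iff_exists.1 (ZP.order_ne_top (pt (1 / 2) u))
      rw [← hk] at h1
      have h2 : k ≠ 0 := by exact_mod_cast h1
      obtain ⟨m, rfl⟩ := Nat.exists_eq_succ_of_ne_zero h2
      refine ⟨m, ?_, ?_⟩
      · unfold od
        rw [← hk, ENat.toNat_natCast]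
      · apply analyticOrderAt_deriv_of_pos han
        rw [← hk]
        push_cast
        rfl
    have h1 : cnt (deriv riemannZeta) S1 =
        ∑ u ∈ Y, (analyticOrderAt (deriv riemannZeta) (pt (1 / 2) u)).toNat := by
      rw [cnt_eq_sum ((Y.image (pt (1 / 2))).filter fun z =>
        analyticOrderAt (deriv riemannZeta) z ≠ 0)]
      · rw [Finset.sum_filter_of_ne, Finset.sum_image (fun u _ u' _ h => hptinj h)]
        intro z _ hz h0
        apply hz
        rw [h0]
        rfl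
      · intro z
        rw [Finset.mem_filter, Finset.mem_image]
        constructor
        · rintro ⟨⟨u, hu, rfl⟩, h⟩
          exact ⟨⟨u, Finset.mem_coe.2 hu, rfl⟩, h⟩
        · rintro ⟨⟨u, hu, rfl⟩, h⟩
          exact ⟨⟨u, Finset.mem_coe.1 hu, rfl⟩, h⟩
      · intro z hz
        rw [Finset.mem_filter, Finset.mem_image] at hz
        obtain ⟨⟨u, -, rfl⟩, -⟩ := hz
        exact order_deriv_ne_top (hptne u)
    rw [h1]
    push_cast
    refine Finset.sum_congr rfl fun u hu => ?_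
    obtain ⟨m, hm1, hm2⟩ := hord u hu
    rw [hm1, hm2, ENat.toNat_natCast]
    push_cast
    ring
  rw [← hline]
  have h5 : ((cnt (deriv riemannZeta) S1 + P'.card + cnt (deriv riemannZeta) S3 : ℕ) : ℝ) ≤
      (derivCount T y : ℕ) := by exact_mod_cast hcount
  have h6 : (P.card : ℝ) ≤ P'.card + 1 := by exact_mod_cast hPcard
  push_cast at h5
  linarith

end Pool.Agent.ZC
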