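import Pool.Agent.Lib.MP_af3d17_cn.Defs

/-!
# Row CU1: the function `fX`
-/

set_option autoImplicit false

namespace Pool.Agent.ZC

open Filter Topology Set
open Pool.Agent.ZP (pt Lam EE IsUpperZero IsOrdinateSeq)

private theorem fX_eq {X : ℝ} {s : ℂ} (h1 : riemannZeta s ≠ 0)
    (h2 : riemannZeta (s - 2 * X) ≠ 0) :
    fX X s = logDeriv riemannZeta s - logDeriv riemannZeta (s - 2 * X) - Lam (s - 2 * X) := by
  rw [fX, gX, logDeriv_apply, logDeriv_apply]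
  field_simp

/-- CU1 -/
theorem fX_line {X t : ℝ} (ht : 0 < t) (h : riemannZeta (pt (1 / 2 + X) t) ≠ 0) :
    riemannZeta (pt (1 / 2 + X) t - 2 * X) ≠ 0 ∧
    fX X (pt (1 / 2 + X) t) = ((2 * (logDeriv riemannZeta (pt (1 / 2 + X) t)).re : ℝ) : ℂ) := by
  obtain ⟨Y, hY⟩ := Pool.Agent.ZP.funeq
  set s : ℂ := pt (1 / 2 + X) t with hs
  have hw : 0 < (s - 2 * (X : ℂ)).im := by
    rw [hs]
    simpa using ht
  obtain ⟨hY0, hY1, hY2⟩ := hY (s - 2 * X) hw
  have e : 1 - (s - 2 * (X : ℂ)) = (starRingEnd ℂ) s := by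
    apply Complex.ext
    · rw [hs]
      simp
      ring
    · rw [hs]
      simp
  rw [e] at hY1 hY2
  rw [riemannZeta_conj] at hY1
  rw [Pool.Agent.ZP.Psi.deriv_zeta_conj] at hY2
  have h2 : riemannZeta (s - 2 * X) ≠ 0 := by
    intro h0
    rw [h0, mul_zero, map_eq_zero] at hY1
    exact h hY1
  refine ⟨h2, ?_⟩
  have h3 : (starRingEnd ℂ) (logDeriv riemannZeta s) =
      - logDeriv riemannZeta (s - 2 * X) - Lam (s - 2 * X) := by
    rw [logDeriv_apply, logDeriv_apply, map_div₀, hY1, hY2, EE]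
    field_simp
    ring
  rw [fX_eq h h2]
  have h4 : logDeriv riemannZeta s - logDeriv riemannZeta (s - 2 * X) - Lam (s - 2 * X) =
      logDeriv riemannZeta s + (starRingEnd ℂ) (logDeriv riemannZeta s) := by
    rw [h3]
    ring
  rw [h4, Complex.add_conj]

theorem fX_symm {X : ℝ} {s : ℂ} (hs : 0 < s.im) :
    fX X (1 + 2 * X - (starRingEnd ℂ) s) = (starRingEnd ℂ) (fX X s) := by
  obtain ⟨Y, hY⟩ := Pool.Agent.ZP.funeq
  have hw : 0 < (s - 2 * (X : ℂ)).im := by simpa using hs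
  obtain ⟨a0, a1, a2⟩ := hY s hs
  obtain ⟨b0, b1, b2⟩ := hY (s - 2 * X) hw
  have e1 : 1 + 2 * (X : ℂ) - (starRingEnd ℂ) s =
      (starRingEnd ℂ) (1 - (s - 2 * (X : ℂ))) := by
    rw [map_sub, map_sub, map_mul, map_one, map_ofNat, Complex.conj_ofReal]
    ring
  have e2 : 1 + 2 * (X : ℂ) - (starRingEnd ℂ) s - 2 * X = (starRingEnd ℂ) (1 - s) := by
    rw [map_sub, map_one]
    ring
  have e3 : Lam (1 + 2 * (X : ℂ) - (starRingEnd ℂ) s - 2 * X) = (starRingEnd ℂ) (Lam s) := by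
    rw [← Pool.Agent.ZP.Lam_symm hs]
    congr 1
    ring
  have z1 : riemannZeta (1 + 2 * (X : ℂ) - (starRingEnd ℂ) s) =
      (starRingEnd ℂ) (Y (s - 2 * X) * riemannZeta (s - 2 * X)) := by
    rw [e1, riemannZeta_conj, b1]
  have z2 : deriv riemannZeta (1 + 2 * (X : ℂ) - (starRingEnd ℂ) s) =
      (starRingEnd ℂ) (-(Y (s - 2 * X) * EE (s - 2 * X))) := by
    rw [e1, Pool.Agent.ZP.Psi.deriv_zeta_conj, b2]
  have z3 : riemannZeta (1 + 2 * (X : ℂ) - (starRingEnd ℂ) s - 2 * X) =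
      (starRingEnd ℂ) (Y s * riemannZeta s) := by
    rw [e2, riemannZeta_conj, a1]
  have z4 : deriv riemannZeta (1 + 2 * (X : ℂ) - (starRingEnd ℂ) s - 2 * X) =
      (starRingEnd ℂ) (-(Y s * EE s)) := by
    rw [e2, Pool.Agent.ZP.Psi.deriv_zeta_conj, a2]
  have num : gX X (1 + 2 * X - (starRingEnd ℂ) s) =
      (starRingEnd ℂ) ((Y (s - 2 * X) * Y s) * gX X s) := by
    rw [gX, gX, e3, z1, z2, z3, z4]
    simp only [← map_mul, ← map_sub]
    congr 1
    rw [EE, EE]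
    ring
  have den : riemannZeta (1 + 2 * X - (starRingEnd ℂ) s) *
      riemannZeta (1 + 2 * X - (starRingEnd ℂ) s - 2 * X) =
      (starRingEnd ℂ) ((Y (s - 2 * X) * Y s) * (riemannZeta s * riemannZeta (s - 2 * X))) := by
    rw [z1, z3, ← map_mul]
    congr 1
    ring
  rw [fX, num, den, ← map_div₀, fX, mul_div_mul_left _ _ (mul_ne_zero b0 a0)]

theorem fX_sides : ∃ T1 : ℝ, 100 ≤ T1 ∧ ∀ X : ℝ, 0 ≤ X → X ≤ 1 / 40 → ∀ s : ℂ, T1 ≤ s.im →
    (s.re = 3 ∨ s.re = -2 + 2 * X) →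
    riemannZeta s ≠ 0 ∧ riemannZeta (s - 2 * X) ≠ 0 ∧ (fX X s).re < 0 := by
  obtain ⟨C, hC, hCb⟩ := Pool.Agent.ZP.logDeriv_bound
  obtain ⟨T, hT⟩ := Pool.Agent.ZP.Lam_lower (2 * C + 1)
  refine ⟨max 100 T, le_max_left _ _, fun X hX hX2 => ?_⟩
  have hre : ∀ s : ℂ, (s - 2 * (X : ℂ)).re = s.re - 2 * X := by
    intro s
    simp
  have him : ∀ s : ℂ, (s - 2 * (X : ℂ)).im = s.im := by
    intro s
    simp
  have key : ∀ s : ℂ, max 100 T ≤ s.im → s.re = 3 →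
      riemannZeta s ≠ 0 ∧ riemannZeta (s - 2 * X) ≠ 0 ∧ (fX X s).re < 0 := by
    intro s hs hs3
    have z1 : riemannZeta s ≠ 0 :=
      riemannZeta_ne_zero_of_one_le_re (by rw [hs3]; norm_num)
    have z2 : riemannZeta (s - 2 * X) ≠ 0 :=
      riemannZeta_ne_zero_of_one_le_re (by rw [hre, hs3]; linarith)
    refine ⟨z1, z2, ?_⟩
    rw [fX_eq z1 z2, Complex.sub_re, Complex.sub_re]
    have b1 := (Complex.re_le_norm _).trans (hCb s (by rw [hs3]; norm_num))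
    have b2 := (Complex.abs_re_le_norm _).trans (hCb (s - 2 * X) (by rw [hre, hs3]; linarith))
    have b2' := (abs_le.mp b2).1
    have b3 := hT (s - 2 * X) (by rw [hre, hs3]; linarith)
      (by rw [him]; exact (le_max_right _ _).trans hs)
    linarith
  intro s hs hs3
  rcases hs3 with hs3 | hs3
  · exact key s hs hs3
  · have hpos : 0 < s.im := lt_of_lt_of_le (by norm_num) ((le_max_left _ _).trans hs)
    obtain ⟨k1, k2, k3⟩ := key (1 + 2 * X - (starRingEnd ℂ) s) (by simpa using hs) (by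
      simp [hs3]
      ring)
    rw [fX_symm hpos, Complex.conj_re] at k3
    refine ⟨?_, ?_, k3⟩
    · rw [Ne, Pool.Agent.ZP.zeta_zero_iff hpos]
      have e : 1 - (starRingEnd ℂ) s = 1 + 2 * (X : ℂ) - (starRingEnd ℂ) s - 2 * X := by ring
      rw [e]
      exact k2
    · rw [Ne, Pool.Agent.ZP.zeta_zero_iff (by rw [him]; exact hpos)]
      have e : 1 - (starRingEnd ℂ) (s - 2 * (X : ℂ)) = 1 + 2 * (X : ℂ) - (starRingEnd ℂ) s := by
        rw [map_sub, map_mul, map_ofNat, Complex.conj_ofReal]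
        ring
      rw [e]
      exact k1

end Pool.Agent.ZC
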