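import Pool.Agent.Lib.MP_af3d17_cn.Hor1
import Pool.Agent.Lib.MP_af3d17_cn.FX
import Pool.Agent.Lib.MP_af3d17_nt_h98.Zer

/-!
# Row CU2: the horizontal variation of `fX`
-/

set_option autoImplicit false

namespace Pool.Agent.ZC

open Filter Topology Set
open Pool.Agent.ZP (pt Lam EE IsUpperZero IsOrdinateSeq)

private lemma im_sub_two (s : ℂ) (X : ℝ) : (s - 2 * X).im = s.im := by
  have : ((2 : ℂ) * X).im = 0 := by
    have h := Complex.ofReal_im (2 * X)
    rwa [Complex.ofReal_mul, Complex.ofReal_ofNat] at h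
  rw [Complex.sub_im, this, sub_zero]

private lemma shift_analytic {f : ℂ → ℂ} {X : ℝ} {s : ℂ} (h : AnalyticAt ℂ f (s - 2 * X)) :
    AnalyticAt ℂ (fun s => f (s - 2 * X)) s := by
  have h2 : AnalyticAt ℂ (fun s : ℂ => s - 2 * (X : ℂ)) s := by fun_prop
  exact h.comp_of_eq h2 rfl

private lemma gX_analytic {X : ℝ} {s : ℂ} (hs : 0 < s.im) : AnalyticAt ℂ (gX X) s := by
  have hs2 : 0 < (s - 2 * X).im := by rwa [im_sub_two]
  have h1 := Pool.Agent.ZP.zeta_analyticAt hs
  have h3 : AnalyticAt ℂ (fun s : ℂ => riemannZeta (s - 2 * X)) s :=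
    shift_analytic (Pool.Agent.ZP.zeta_analyticAt hs2)
  have h4 : AnalyticAt ℂ (fun s : ℂ => deriv riemannZeta (s - 2 * X)) s :=
    shift_analytic (Pool.Agent.ZP.zeta_analyticAt hs2).deriv
  have h5 : AnalyticAt ℂ (fun s : ℂ => Lam (s - 2 * X)) s :=
    shift_analytic (Pool.Agent.ZP.Lam_analytic hs2)
  exact ((h1.deriv.mul h3).sub (h1.mul h4)).sub ((h5.mul h1).mul h3)

private lemma fX_analytic {X : ℝ} {s : ℂ} (hs : 0 < s.im) (h0 : riemannZeta s ≠ 0)
    (h1 : riemannZeta (s - 2 * X) ≠ 0) : AnalyticAt ℂ (fX X) s := by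
  have hs2 : 0 < (s - 2 * X).im := by rwa [im_sub_two]
  exact (gX_analytic hs).div ((Pool.Agent.ZP.zeta_analyticAt hs).mul
    (shift_analytic (Pool.Agent.ZP.zeta_analyticAt hs2))) (mul_ne_zero h0 h1)

private lemma seg_continuous (t : ℝ) : Continuous fun x : ℝ => pt x t := by
  have : (fun x : ℝ => pt x t) = fun x : ℝ => (x : ℂ) + t * Complex.I := by
    funext x
    apply Complex.ext <;> simp
  rw [this]
  fun_prop

private lemma seg_int {f : ℂ → ℂ} {t a b : ℝ} (hab : a ≤ b)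
    (hf : ∀ x ∈ Icc a b, AnalyticAt ℂ f (pt x t) ∧ f (pt x t) ≠ 0) :
    IntervalIntegrable (fun x : ℝ => logDeriv f (pt x t)) MeasureTheory.volume a b := by
  apply ContinuousOn.intervalIntegrable
  rw [uIcc_of_le hab]
  intro x hx
  obtain ⟨h1, h2⟩ := hf x hx
  have h3 : ContinuousAt (logDeriv f) (pt x t) := by
    have : logDeriv f = fun s => deriv f s / f s := by
      funext s
      rw [logDeriv_apply]
    rw [this]
    exact h1.deriv.continuousAt.div h1.continuousAt h2
  exact (h3.comp_of_eq (seg_continuous t).continuousAt rfl).continuousWithinAt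

/-- the reflection principle for the logarithmic derivative -/
private lemma logDeriv_refl {X t x : ℝ} (ht : 0 < t) :
    logDeriv (fX X) (pt x t)
      = -(starRingEnd ℂ) (logDeriv (fX X) (pt (1 + 2 * X - x) t)) := by
  have e1 : (1 + 2 * X - (starRingEnd ℂ) (pt x t) : ℂ) = pt (1 + 2 * X - x) t := by
    apply Complex.ext <;> simp
  -- near `pt x t` the function is the conjugate of the reflected one
  have h1 : fX X =ᶠ[𝓝 (pt x t)]
      fun w => ((starRingEnd ℂ) ∘ (fun z => fX X (1 + 2 * X - z)) ∘ (starRingEnd ℂ)) w := by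
    have h2 : {w : ℂ | 0 < w.im} ∈ 𝓝 (pt x t) :=
      (isOpen_lt continuous_const Complex.continuous_im).mem_nhds ht
    filter_upwards [h2] with w hw
    simp only [Function.comp_apply]
    rw [fX_symm hw, Complex.conj_conj]
  have h3 : deriv (fX X) (pt x t)
      = -(starRingEnd ℂ) (deriv (fX X) (pt (1 + 2 * X - x) t)) := by
    rw [h1.deriv_eq]
    have h4 := congrFun (deriv_conj_conj (f := fun z => fX X (1 + 2 * X - z))) (pt x t)
    rw [show (fun w => ((starRingEnd ℂ) ∘ (fun z => fX X (1 + 2 * X - z)) ∘ (starRingEnd ℂ)) w)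
      = ((starRingEnd ℂ) ∘ (fun z => fX X (1 + 2 * X - z)) ∘ (starRingEnd ℂ)) from rfl, h4]
    simp only [Function.comp_apply]
    rw [deriv_comp_const_sub, e1, map_neg]
  have h5 : fX X (pt x t) = (starRingEnd ℂ) (fX X (pt (1 + 2 * X - x) t)) := by
    have := fX_symm (X := X) (s := pt x t) ht
    rw [e1] at this
    rw [this, Complex.conj_conj]
  rw [logDeriv_apply, logDeriv_apply, h3, h5, map_div₀, neg_div]

/-- CU2 -/
theorem fX_hor : ∃ C T1 : ℝ, 0 < C ∧ 100 ≤ T1 ∧ ∀ X t : ℝ, 0 ≤ X → X ≤ 1 / 40 → T1 ≤ t →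
    (∀ s : ℂ, s.im = t → gX X s ≠ 0 ∧ riemannZeta s ≠ 0) →
    |H (fX X) t (-2 + 2 * X) 3| ≤ C * Real.log t := by
  obtain ⟨C, T1, hC, hT1, h⟩ := hor_all
  refine ⟨6 * C, T1, by positivity, hT1, fun X t hX0 hX1 ht hg => ?_⟩
  have ht0 : 0 < t := by linarith
  have hz : ∀ x : ℝ, riemannZeta (pt x t) ≠ 0 := fun x => (hg (pt x t) rfl).2
  have hz2 : ∀ x : ℝ, riemannZeta (pt x t - 2 * X) ≠ 0 := fun x =>
    (hg (pt x t - 2 * X) (by rw [im_sub_two]; rfl)).2
  have hgx : ∀ x : ℝ, gX X (pt x t) ≠ 0 := fun x => (hg (pt x t) rfl).1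
  have hza : ∀ x : ℝ, AnalyticAt ℂ riemannZeta (pt x t) := fun x =>
    Pool.Agent.ZP.zeta_analyticAt (s := pt x t) ht0
  have hza2 : ∀ x : ℝ, AnalyticAt ℂ (fun s : ℂ => riemannZeta (s - 2 * X)) (pt x t) := fun x =>
    shift_analytic (Pool.Agent.ZP.zeta_analyticAt (by rw [im_sub_two]; exact ht0))
  have hga : ∀ x : ℝ, AnalyticAt ℂ (gX X) (pt x t) := fun x => gX_analytic ht0
  have hfa : ∀ x : ℝ, AnalyticAt ℂ (fX X) (pt x t) := fun x => fX_analytic ht0 (hz x) (hz2 x)
  have hf0 : ∀ x : ℝ, fX X (pt x t) ≠ 0 := fun x =>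
    div_ne_zero (hgx x) (mul_ne_zero (hz x) (hz2 x))
  have hIf : ∀ a b : ℝ, a ≤ b → IntervalIntegrable (fun x : ℝ => logDeriv (fX X) (pt x t))
      MeasureTheory.volume a b := fun a b hab => seg_int hab fun x _ => ⟨hfa x, hf0 x⟩
  -- the right half
  set m : ℝ := 1 / 2 + X with hm
  have hm3 : m ≤ 3 := by rw [hm]; linarith
  have hright : H (fX X) t m 3 = H (gX X) t m 3 - H riemannZeta t m 3
      - H (fun s => riemannZeta (s - 2 * X)) t m 3 := by
    have e : ∀ x : ℝ, logDeriv (fX X) (pt x t) = logDeriv (gX X) (pt x t)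
        - logDeriv riemannZeta (pt x t) - logDeriv (fun s => riemannZeta (s - 2 * X)) (pt x t) := by
      intro x
      have e1 : logDeriv (fX X) (pt x t) = logDeriv (gX X) (pt x t)
          - logDeriv (fun s => riemannZeta s * riemannZeta (s - 2 * X)) (pt x t) :=
        logDeriv_div (pt x t) (hgx x) (mul_ne_zero (hz x) (hz2 x)) (hga x).differentiableAt
          ((hza x).mul (hza2 x)).differentiableAt
      have e2 : logDeriv (fun s => riemannZeta s * riemannZeta (s - 2 * X)) (pt x t)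
          = logDeriv riemannZeta (pt x t)
            + logDeriv (fun s => riemannZeta (s - 2 * X)) (pt x t) :=
        logDeriv_mul (pt x t) (hz x) (hz2 x) (hza x).differentiableAt (hza2 x).differentiableAt
      rw [e1, e2]
      ring
    unfold H
    rw [← Complex.sub_im, ← Complex.sub_im,
      ← intervalIntegral.integral_sub (seg_int hm3 fun x _ => ⟨hga x, hgx x⟩)
        (seg_int hm3 fun x _ => ⟨hza x, hz x⟩),
      ← intervalIntegral.integral_sub ((seg_int hm3 fun x _ => ⟨hga x, hgx x⟩).sub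
        (seg_int hm3 fun x _ => ⟨hza x, hz x⟩)) (seg_int hm3 fun x _ => ⟨hza2 x, hz2 x⟩)]
    congr 1
    exact intervalIntegral.integral_congr fun x _ => e x
  have hb := h t ht m 3 (by rw [hm]; linarith) hm3 le_rfl
  have hb1 := hb.1 fun x _ => hz x
  have hb2 := hb.2.2.1 X hX0 hX1 fun x _ => hz2 x
  have hb3 := hb.2.2.2 X hX0 hX1 fun x _ => hgx x
  have hright2 : |H (fX X) t m 3| ≤ 3 * (C * Real.log t) := by
    rw [hright]
    have h1 := abs_sub (H (gX X) t m 3) (H riemannZeta t m 3)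
    have h2 := abs_sub (H (gX X) t m 3 - H riemannZeta t m 3)
      (H (fun s => riemannZeta (s - 2 * X)) t m 3)
    linarith
  -- the left half
  have hleft : H (fX X) t (-2 + 2 * X) m = H (fX X) t m 3 := by
    have e1 : ∀ x : ℝ, Complex.imCLM (logDeriv (fX X) (pt x t))
        = Complex.imCLM (logDeriv (fX X) (pt (1 + 2 * X - x) t)) := by
      intro x
      simp only [Complex.imCLM_apply]
      conv_lhs => rw [logDeriv_refl ht0]
      rw [Complex.neg_im, Complex.conj_im, neg_neg]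
    have e2 := intervalIntegral.integral_comp_sub_left
      (fun x : ℝ => Complex.imCLM (logDeriv (fX X) (pt x t))) (1 + 2 * X)
      (a := -2 + 2 * X) (b := m)
    have e3 : 1 + 2 * X - m = m := by rw [hm]; ring
    have e4 : 1 + 2 * X - (-2 + 2 * X) = 3 := by ring
    rw [e3, e4] at e2
    have e5 : H (fX X) t (-2 + 2 * X) m
        = ∫ x in (-2 + 2 * X)..m, Complex.imCLM (logDeriv (fX X) (pt x t)) :=
      (Complex.imCLM.intervalIntegral_comp_comm (hIf _ _ (by rw [hm]; linarith))).symm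
    have e6 : H (fX X) t m 3 = ∫ x in m..3, Complex.imCLM (logDeriv (fX X) (pt x t)) :=
      (Complex.imCLM.intervalIntegral_comp_comm (hIf _ _ hm3)).symm
    rw [e5, e6, ← e2]
    exact intervalIntegral.integral_congr fun x _ => e1 x
  have hsum : H (fX X) t (-2 + 2 * X) 3 = H (fX X) t (-2 + 2 * X) m + H (fX X) t m 3 := by
    unfold H
    rw [← Complex.add_im, intervalIntegral.integral_add_adjacent_intervals
      (hIf _ _ (by rw [hm]; linarith)) (hIf _ _ hm3)]
  rw [hsum, hleft]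
  have h1 := abs_add_le (H (fX X) t m 3) (H (fX X) t m 3)
  linarith

end Pool.Agent.ZC
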