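import Pool.Agent.Lib.MP_af3d17_cn.Defs
import Pool.Agent.Lib.MP_af3d17_nt_h98.Zer

/-!
# Row GE: generic heights and lines
-/

set_option autoImplicit false

namespace Pool.Agent.ZC

open Filter Topology Set
open Pool.Agent.ZP (pt Lam EE IsUpperZero IsOrdinateSeq)

/-- the zeros of an analytic function on the upper half plane -/
private theorem countable_zeros {f : ℂ → ℂ} (hf : ∀ s : ℂ, 0 < s.im → AnalyticAt ℂ f s)
    (h0 : ∃ s : ℂ, 0 < s.im ∧ f s ≠ 0) : {s : ℂ | 0 < s.im ∧ f s = 0}.Countable := by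
  obtain ⟨s0, hs0, hfs0⟩ := h0
  have hU : IsPreconnected {s : ℂ | 0 < s.im} := (convex_halfSpace_im_gt 0).isPreconnected
  have hdisc : DiscreteTopology {s : ℂ | 0 < s.im ∧ f s = 0} := by
    rw [discreteTopology_subtype_iff]
    intro x hx
    have h1 : ∀ᶠ z in 𝓝[≠] x, f z ≠ 0 := by
      rcases (hf x hx.1).eventually_eq_zero_or_eventually_ne_zero with h | h
      · exfalso
        have h2 := AnalyticOnNhd.eqOn_zero_of_preconnected_of_eventuallyEq_zero
          (fun s hs => hf s hs) hU hx.1 h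
        exact hfs0 (h2 hs0)
      · exact h
    refine disjoint_iff.1 (Filter.disjoint_principal_right.2 ?_)
    filter_upwards [h1] with z hz hz'
    exact hz hz'.2
  exact IsLindelof.countable (HereditarilyLindelofSpace.isLindelof _) hdisc

private theorem zeta_an {s : ℂ} (h : 0 < s.im) : AnalyticAt ℂ riemannZeta s :=
  Pool.Agent.ZP.zeta_analyticAt h

private theorem countable_zeta : {s : ℂ | 0 < s.im ∧ riemannZeta s = 0}.Countable := by
  refine countable_zeros (fun s hs => zeta_an hs) ⟨pt 10 1, by simp, ?_⟩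
  exact riemannZeta_ne_zero_of_one_le_re (by simp)

private theorem countable_deriv : {s : ℂ | 0 < s.im ∧ deriv riemannZeta s = 0}.Countable := by
  refine countable_zeros (fun s hs => (zeta_an hs).deriv) ⟨pt 10 1, by simp, ?_⟩
  obtain ⟨c, C, hc, _, h⟩ := Pool.Agent.ZP.deriv_lower
  have h1 := (h (pt 10 1) (by simp; norm_num) (by simp; norm_num)).1
  intro h2
  rw [h2, norm_zero] at h1
  linarith

private theorem countable_gX (X : ℝ) : {s : ℂ | 0 < s.im ∧ gX X s = 0}.Countable := by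
  have him : ∀ s : ℂ, (s - 2 * (X : ℂ)).im = s.im := by
    intro s
    simp
  have hre : ∀ s : ℂ, (s - 2 * (X : ℂ)).re = s.re - 2 * X := by
    intro s
    simp
  refine countable_zeros (fun s hs => ?_) ?_
  · have hs' : 0 < (s - 2 * (X : ℂ)).im := by rw [him]; exact hs
    have hsub : AnalyticAt ℂ (fun s : ℂ => s - 2 * (X : ℂ)) s := by fun_prop
    have h1 : AnalyticAt ℂ (fun s => riemannZeta (s - 2 * X)) s :=
      (zeta_an hs').comp_of_eq hsub rfl
    have h2 : AnalyticAt ℂ (fun s => deriv riemannZeta (s - 2 * X)) s :=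
      (zeta_an hs').deriv.comp_of_eq hsub rfl
    have h3 : AnalyticAt ℂ (fun s => Lam (s - 2 * X)) s :=
      (Pool.Agent.ZP.Lam_analytic hs').comp_of_eq hsub rfl
    exact (((zeta_an hs).deriv.mul h1).sub ((zeta_an hs).mul h2)).sub
      ((h3.mul (zeta_an hs)).mul h1)
  · obtain ⟨C, hC, hCb⟩ := Pool.Agent.ZP.logDeriv_bound
    obtain ⟨T, hT⟩ := Pool.Agent.ZP.Lam_lower (2 * C + 1)
    have habs := le_abs_self X
    have habs0 := abs_nonneg X
    set s : ℂ := pt (2 + 2 * |X|) (max T 1) with hs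
    have hs1 : s.re = 2 + 2 * |X| := rfl
    have hs2 : s.im = max T 1 := rfl
    have hsT : T ≤ s.im := by rw [hs2]; exact le_max_left _ _
    have hs0 : 0 < s.im := by rw [hs2]; exact lt_of_lt_of_le one_pos (le_max_right _ _)
    refine ⟨s, hs0, fun hg => ?_⟩
    have z1 : riemannZeta s ≠ 0 :=
      riemannZeta_ne_zero_of_one_le_re (by rw [hs1]; linarith)
    have z2 : riemannZeta (s - 2 * X) ≠ 0 :=
      riemannZeta_ne_zero_of_one_le_re (by rw [hre, hs1]; linarith)
    have e1 : logDeriv riemannZeta s - logDeriv riemannZeta (s - 2 * X) = Lam (s - 2 * X) := by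
      rw [logDeriv_apply, logDeriv_apply]
      rw [gX] at hg
      field_simp
      linear_combination hg
    have b1 := hCb s (by rw [hs1]; linarith)
    have b2 := hCb (s - 2 * X) (by rw [hre, hs1]; linarith)
    have b3 := hT (s - 2 * X) (by rw [hre, hs1]; linarith) (by rw [him]; exact hsT)
    have b4 : (Lam (s - 2 * X)).re ≤ ‖Lam (s - 2 * X)‖ := Complex.re_le_norm _
    have b5 : ‖Lam (s - 2 * X)‖ ≤ C + C := by
      rw [← e1]
      exact (norm_sub_le _ _).trans (add_le_add b1 b2)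
    linarith

theorem gen_height (X : ℝ) (c e : ℝ) (hc : 0 < c) (he : c < e) : ∃ c' ∈ Ioo c e, GenH c' ∧
    ∀ s : ℂ, s.im = c' → gX X s ≠ 0 := by
  have hcount : (Complex.im '' ({s : ℂ | 0 < s.im ∧ riemannZeta s = 0} ∪
      {s : ℂ | 0 < s.im ∧ deriv riemannZeta s = 0} ∪ {s : ℂ | 0 < s.im ∧ gX X s = 0})).Countable :=
    ((countable_zeta.union countable_deriv).union (countable_gX X)).image _
  obtain ⟨c', hc', hc'2⟩ := (hcount.dense_compl ℝ).exists_between he
  have hpos : 0 < c' := hc.trans hc'2.1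
  refine ⟨c', hc'2, fun s hs => ⟨fun h => hc' ?_, fun h => hc' ?_⟩, fun s hs h => hc' ?_⟩
  · exact ⟨s, Or.inl (Or.inl ⟨by rw [hs]; exact hpos, h⟩), hs⟩
  · exact ⟨s, Or.inl (Or.inr ⟨by rw [hs]; exact hpos, h⟩), hs⟩
  · exact ⟨s, Or.inr ⟨by rw [hs]; exact hpos, h⟩, hs⟩

theorem gen_line (a e : ℝ) (he : a < e) : ∃ X ∈ Ioo a e, GenX X := by
  have hcount : ((fun s : ℂ => s.re - 1 / 2) '' ({s : ℂ | 0 < s.im ∧ riemannZeta s = 0} ∪
      {s : ℂ | 0 < s.im ∧ deriv riemannZeta s = 0})).Countable :=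
    (countable_zeta.union countable_deriv).image _
  obtain ⟨X, hX, hX2⟩ := (hcount.dense_compl ℝ).exists_between he
  refine ⟨X, hX2, fun s hs hi => ⟨fun h => hX ?_, fun h => hX ?_⟩⟩
  · exact ⟨s, Or.inl ⟨hi, h⟩, by show s.re - 1 / 2 = X; rw [hs]; ring⟩
  · exact ⟨s, Or.inr ⟨hi, h⟩, by show s.re - 1 / 2 = X; rw [hs]; ring⟩

end Pool.Agent.ZC
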