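import Pool.Agent.Lib.MP_af3d17_cn.Defs

/-!
# MP_af3d17_nt: the kernel `K_ρ(s)`
-/

set_option autoImplicit false

namespace Pool.Agent.ZC

open Filter Topology Set
open Pool.Agent.ZP (pt Lam EE IsUpperZero IsOrdinateSeq)

@[simp] lemma mir_re (ρ : ℂ) : (mir ρ).re = 1 - ρ.re := by simp [mir]

@[simp] lemma mir_im (ρ : ℂ) : (mir ρ).im = ρ.im := by simp [mir]

@[simp] lemma mir_mir (ρ : ℂ) : mir (mir ρ) = ρ := by simp [mir]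

lemma sq_norm_sub (s z : ℂ) : ‖s - z‖ ^ 2 = (s.re - z.re) ^ 2 + (s.im - z.im) ^ 2 := by
  rw [← Complex.normSq_eq_norm_sq, Complex.normSq_apply, Complex.sub_re, Complex.sub_im]
  ring

/-- the kernel in real coordinates -/
lemma KK_eq (ρ s : ℂ) : KK ρ s = ((s.re - 1 / 2) ^ 2 + (s.im - ρ.im) ^ 2 - (ρ.re - 1 / 2) ^ 2) /
    (((s.re - ρ.re) ^ 2 + (s.im - ρ.im) ^ 2) * ((s.re - (1 - ρ.re)) ^ 2 + (s.im - ρ.im) ^ 2)) := by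
  rw [KK, sq_norm_sub, sq_norm_sub, sq_norm_sub, mir_re, mir_im, ZP.pt_re, ZP.pt_im]

/-- real part of a mirror symmetric sum -/
theorem re_sum_mir (S : Finset ℂ) (m : ℂ → ℕ) (hS : ∀ ρ ∈ S, mir ρ ∈ S ∧ m (mir ρ) = m ρ) (s : ℂ)
    (hs : s ∉ S) : (∑ ρ ∈ S, (m ρ : ℂ) / (s - ρ)).re
      = (s.re - 1 / 2) * ∑ ρ ∈ S, (m ρ : ℝ) * KK ρ s := by
  have h1 : (∑ ρ ∈ S, (m ρ : ℂ) / (s - ρ)).re
      = ∑ ρ ∈ S, (m ρ : ℝ) * ((s.re - ρ.re) / ‖s - ρ‖ ^ 2) := by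
    rw [Complex.re_sum]
    refine Finset.sum_congr rfl fun ρ _ => ?_
    rw [Complex.div_re, Complex.natCast_re, Complex.natCast_im, Complex.normSq_eq_norm_sq,
      Complex.sub_re]
    ring
  have h2 : ∑ ρ ∈ S, (m ρ : ℝ) * ((s.re - ρ.re) / ‖s - ρ‖ ^ 2)
      = ∑ ρ ∈ S, (m ρ : ℝ) * ((s.re - (1 - ρ.re)) / ‖s - mir ρ‖ ^ 2) := by
    refine Finset.sum_nbij' mir mir (fun ρ h => (hS ρ h).1) (fun ρ h => (hS ρ h).1)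
      (fun ρ _ => mir_mir ρ) (fun ρ _ => mir_mir ρ) fun ρ h => ?_
    rw [mir_mir, (hS ρ h).2, mir_re]
    ring_nf
  have h3 : ∀ ρ ∈ S, (m ρ : ℝ) * ((s.re - ρ.re) / ‖s - ρ‖ ^ 2)
      + (m ρ : ℝ) * ((s.re - (1 - ρ.re)) / ‖s - mir ρ‖ ^ 2)
      = 2 * ((s.re - 1 / 2) * ((m ρ : ℝ) * KK ρ s)) := by
    intro ρ hρ
    have ha : s - ρ ≠ 0 := by
      intro h
      exact hs (by rw [sub_eq_zero.1 h]; exact hρ)
    have hb : s - mir ρ ≠ 0 := by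
      intro h
      exact hs (by rw [sub_eq_zero.1 h]; exact (hS ρ hρ).1)
    have hA : 0 < ‖s - ρ‖ ^ 2 := by positivity
    have hB : 0 < ‖s - mir ρ‖ ^ 2 := by positivity
    rw [sq_norm_sub] at hA hB
    rw [mir_re, mir_im] at hB
    rw [KK_eq, sq_norm_sub, sq_norm_sub, mir_re, mir_im]
    field_simp
    ring
  have h4 : 2 * (∑ ρ ∈ S, (m ρ : ℂ) / (s - ρ)).re
      = 2 * ((s.re - 1 / 2) * ∑ ρ ∈ S, (m ρ : ℝ) * KK ρ s) := by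
    calc 2 * (∑ ρ ∈ S, (m ρ : ℂ) / (s - ρ)).re
        = ∑ ρ ∈ S, ((m ρ : ℝ) * ((s.re - ρ.re) / ‖s - ρ‖ ^ 2)
          + (m ρ : ℝ) * ((s.re - (1 - ρ.re)) / ‖s - mir ρ‖ ^ 2)) := by
          rw [Finset.sum_add_distrib, ← h2, h1]; ring
      _ = ∑ ρ ∈ S, 2 * ((s.re - 1 / 2) * ((m ρ : ℝ) * KK ρ s)) := Finset.sum_congr rfl h3
      _ = 2 * ((s.re - 1 / 2) * ∑ ρ ∈ S, (m ρ : ℝ) * KK ρ s) := by
          rw [← Finset.mul_sum, ← Finset.mul_sum]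
  linarith

theorem KK_abs (ρ s : ℂ) : |KK ρ s| ≤ 1 / (‖s - ρ‖ * ‖s - mir ρ‖) := by
  rcases eq_or_ne (‖s - ρ‖ * ‖s - mir ρ‖) 0 with h0 | h0
  · have : ‖s - ρ‖ ^ 2 * ‖s - mir ρ‖ ^ 2 = 0 := by rw [← mul_pow, h0]; ring
    rw [KK, this, div_zero, h0, abs_zero, div_zero]
  · have hp : 0 < ‖s - ρ‖ * ‖s - mir ρ‖ := lt_of_le_of_ne (by positivity) (Ne.symm h0)
    have hsq : ‖s - ρ‖ ^ 2 * ‖s - mir ρ‖ ^ 2 = (‖s - ρ‖ * ‖s - mir ρ‖) ^ 2 := by ring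
    have hnum : |‖s - pt (1 / 2) ρ.im‖ ^ 2 - (ρ.re - 1 / 2) ^ 2| ≤ ‖s - ρ‖ * ‖s - mir ρ‖ := by
      refine abs_le_of_sq_le_sq ?_ hp.le
      rw [← hsq, sq_norm_sub, sq_norm_sub, sq_norm_sub, mir_re, mir_im, ZP.pt_re, ZP.pt_im]
      nlinarith [mul_nonneg (sq_nonneg (ρ.re - 1 / 2)) (sq_nonneg (s.im - ρ.im))]
    rw [KK, hsq, abs_div, abs_of_nonneg (sq_nonneg (‖s - ρ‖ * ‖s - mir ρ‖)), div_le_div_iff₀
      (by positivity) hp]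
    nlinarith [hnum, hp]

theorem KK_nonneg {ρ s : ℂ} (h : |ρ.re - 1 / 2| ≤ |s.im - ρ.im|) : 0 ≤ KK ρ s := by
  rw [KK_eq]
  have h1 := sq_le_sq.2 h
  refine div_nonneg ?_ (by positivity)
  nlinarith [sq_nonneg (s.re - 1 / 2)]

theorem KK_line {ρ s : ℂ} (h : ρ.re = 1 / 2) : KK ρ s = 1 / ‖s - ρ‖ ^ 2 := by
  have h1 : mir ρ = ρ := by
    apply Complex.ext
    · rw [mir_re, h]; norm_num
    · rw [mir_im]
  have h2 : pt (1 / 2) ρ.im = ρ := by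
    apply Complex.ext
    · rw [ZP.pt_re, h]
    · rw [ZP.pt_im]
  rw [KK, h1, h2, h]
  rcases eq_or_ne (‖s - ρ‖ ^ 2) 0 with h0 | h0
  · rw [h0]; simp
  · rw [sub_self, zero_pow two_ne_zero, sub_zero, div_mul_cancel_left₀ h0, one_div]

theorem KK_inside {ρ s : ℂ} (h0 : ρ.re ≠ 1 / 2) (h : |s.re - 1 / 2| ≤ |ρ.re - 1 / 2| / 20) :
    -(51 / 50) / (ρ.re - 1 / 2) ^ 2 ≤ KK ρ s := by
  have hd : 0 < (ρ.re - 1 / 2) ^ 2 := by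
    have : ρ.re - 1 / 2 ≠ 0 := sub_ne_zero.2 h0
    positivity
  have hx : (s.re - 1 / 2) ^ 2 * 400 ≤ (ρ.re - 1 / 2) ^ 2 := by
    have h1 : |s.re - 1 / 2| * 20 ≤ |ρ.re - 1 / 2| := by linarith
    have h2 : (|s.re - 1 / 2| * 20) ^ 2 ≤ |ρ.re - 1 / 2| ^ 2 := by gcongr
    rw [mul_pow, sq_abs, sq_abs] at h2
    linarith
  rw [KK_eq]
  rcases eq_or_ne (((s.re - ρ.re) ^ 2 + (s.im - ρ.im) ^ 2) *
    ((s.re - (1 - ρ.re)) ^ 2 + (s.im - ρ.im) ^ 2)) 0 with h1 | h1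
  · rw [h1, div_zero, neg_div, neg_nonpos]
    positivity
  · have h2 : 0 < ((s.re - ρ.re) ^ 2 + (s.im - ρ.im) ^ 2) *
      ((s.re - (1 - ρ.re)) ^ 2 + (s.im - ρ.im) ^ 2) := lt_of_le_of_ne (by positivity) (Ne.symm h1)
    rw [div_le_div_iff₀ hd h2]
    nlinarith [mul_nonneg hd.le (sq_nonneg (s.im - ρ.im)), mul_le_mul_of_nonneg_left hx hd.le,
      sq_nonneg ((s.re - 1 / 2) ^ 2 + (s.im - ρ.im) ^ 2), sq_nonneg ((ρ.re - 1 / 2) ^ 2)]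

end Pool.Agent.ZC
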