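import Pool.Agent.Lib.MP_af3d17_cn.Defs
import Pool.Agent.Lib.MP_af3d17_nt_h98.Count

/-!
# MP_af3d17_nt: orders of mirror images
-/

set_option autoImplicit false

namespace Pool.Agent.ZC

open Filter Topology Set
open Pool.Agent.ZP (pt Lam EE IsUpperZero IsOrdinateSeq)

/-- the order at the mirror image, in terms of a factorisation -/
lemma order_mir {ρ : ℂ} (h : 0 < ρ.im) (n : ℕ) (hn : analyticOrderAt riemannZeta ρ = n) :
    analyticOrderAt riemannZeta (mir ρ) = n := by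
  have hana : ∀ w : ℂ, 0 < w.im → AnalyticAt ℂ riemannZeta w := fun w hw => ZP.zeta_analyticAt hw
  obtain ⟨g, hg, hg0, hgev⟩ := ((hana ρ h).analyticOrderAt_eq_natCast).1 hn
  have him : (mir ρ).im = ρ.im := by simp [mir]
  -- the function on the other side
  have hX : AnalyticAt ℂ ZP.Psi.X ρ := by
    rw [Complex.analyticAt_iff_eventually_differentiableAt]
    have : ∀ᶠ w : ℂ in 𝓝 ρ, 0 < w.im :=
      Complex.continuous_im.continuousAt.eventually (lt_mem_nhds h)
    filter_upwards [this] with w hw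
    exact (ZP.Psi.hasDerivAt_X hw.ne').differentiableAt
  have hX0 : ZP.Psi.X ρ ≠ 0 := by
    have hw' : (1 - ρ).im ≠ 0 := by
      simp only [Complex.sub_im, Complex.one_im, zero_sub]
      exact neg_ne_zero.mpr h.ne'
    exact div_ne_zero (ZP.Psi.Gammaℝ_ne h.ne') (ZP.Psi.Gammaℝ_ne hw')
  set F : ℂ → ℂ := fun v => ZP.Psi.X v * ((-1) ^ n * g v) with hF
  have hFa : AnalyticAt ℂ F ρ := hX.mul (analyticAt_const.mul hg)
  set G : ℂ → ℂ := fun w => (starRingEnd ℂ) (F (1 - (starRingEnd ℂ) w)) with hG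
  have hcont : Tendsto (fun w : ℂ => 1 - (starRingEnd ℂ) w) (𝓝 (mir ρ)) (𝓝 ρ) := by
    have h1 : Continuous fun w : ℂ => 1 - (starRingEnd ℂ) w := by fun_prop
    have h2 := h1.tendsto (mir ρ)
    have h3 : 1 - (starRingEnd ℂ) (mir ρ) = ρ := by simp [mir]
    rwa [h3] at h2
  have hGa : AnalyticAt ℂ G (mir ρ) := by
    rw [Complex.analyticAt_iff_eventually_differentiableAt]
    filter_upwards [hcont.eventually hFa.eventually_analyticAt] with w hw
    have h1 : DifferentiableAt ℂ (fun u => F (1 - u)) ((starRingEnd ℂ) w) := by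
      have h2 : DifferentiableAt ℂ (fun u : ℂ => 1 - u) ((starRingEnd ℂ) w) := by fun_prop
      exact DifferentiableAt.comp ((starRingEnd ℂ) w) (g := F) hw.differentiableAt h2
    have h3 := h1.star_star
    have h4 : star ((starRingEnd ℂ) w) = w := star_star w
    rw [h4] at h3
    exact h3
  have hG0 : G (mir ρ) ≠ 0 := by
    have h3 : 1 - (starRingEnd ℂ) (mir ρ) = ρ := by simp [mir]
    simp only [hG, h3, hF]
    rw [map_ne_zero]
    exact mul_ne_zero hX0 (mul_ne_zero (pow_ne_zero _ (by norm_num)) hg0)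
  rw [(hana (mir ρ) (by rw [him]; exact h)).analyticOrderAt_eq_natCast]
  refine ⟨G, hGa, hG0, ?_⟩
  have hpos : ∀ᶠ w : ℂ in 𝓝 (mir ρ), 0 < w.im :=
    Complex.continuous_im.continuousAt.eventually (lt_mem_nhds (by rw [him]; exact h))
  filter_upwards [hcont.eventually hgev, hpos] with w hw hw0
  have h1 : riemannZeta w = (starRingEnd ℂ) (ZP.Psi.X (1 - (starRingEnd ℂ) w) *
      riemannZeta (1 - (starRingEnd ℂ) w)) := by
    rw [← ZP.Psi.zeta_one_sub (by simpa using hw0.ne'), ← riemannZeta_conj]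
    simp
  rw [h1, hw]
  simp only [hG, hF, smul_eq_mul, map_mul, map_pow, map_sub, map_one, map_neg, Complex.conj_conj]
  have h2 : w - mir ρ = (-1) * (1 - w - (starRingEnd ℂ) ρ) := by
    simp only [mir]; ring
  rw [h2, mul_pow]
  have h3 : ((-1 : ℂ)) ^ n * (-1) ^ n = 1 := by
    rw [← mul_pow]; norm_num
  linear_combination (-(starRingEnd ℂ) (ZP.Psi.X (1 - (starRingEnd ℂ) w)) *
    (1 - w - (starRingEnd ℂ) ρ) ^ n * (starRingEnd ℂ) (g (1 - (starRingEnd ℂ) w))) * h3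

/-- LE2 -/
theorem od_mir {ρ : ℂ} (h : 0 < ρ.im) : od (mir ρ) = od ρ := by
  obtain ⟨n, hn⟩ := ENat.ne_top_iff_exists.1 (ZP.order_ne_top ρ)
  rw [od, od, order_mir h n hn.symm, ← hn]

theorem zeta_mir {ρ : ℂ} (h : 0 < ρ.im) : riemannZeta (mir ρ) = 0 ↔ riemannZeta ρ = 0 :=
  (ZP.zeta_zero_iff h).symm

theorem od_pos {ρ : ℂ} (h : 0 < ρ.im) (h0 : riemannZeta ρ = 0) : 1 ≤ od ρ := by
  have h1 : analyticOrderAt riemannZeta ρ ≠ 0 :=
    (ZP.zeta_analyticAt h).analyticOrderAt_ne_zero.2 h0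
  rw [od, Nat.one_le_iff_ne_zero]
  intro h2
  rcases (ENat.toNat_eq_zero).1 h2 with h3 | h3
  · exact h1 h3
  · exact ZP.order_ne_top ρ h3

end Pool.Agent.ZC
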