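import Pool.Agent.Lib.MP_af3d17_cn.LocalExp
import Pool.Agent.Lib.MP_af3d17_cn.Mirror
import Pool.Agent.Lib.MP_af3d17_cn.Kernel

/-!
# TB1: expansion of `ζ'/ζ` near an isolated simple zero on the line
-/

set_option autoImplicit false

namespace Pool.Agent.ZC

open Filter Topology Set
open Pool.Agent.ZP (pt Lam EE IsUpperZero IsOrdinateSeq)

lemma pt_sub_pt (a b t y : ℝ) :
    pt (a + b) t - pt a y = ((b : ℝ) : ℂ) + Complex.I * ((t - y : ℝ) : ℂ) := by
  apply Complex.ext <;> simp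

/-- TB1: expansion near an isolated zero on the line -/
theorem good_exp : ∃ B T1 : ℝ, 1 ≤ B ∧ 100 ≤ T1 ∧ ∀ y x T : ℝ, T1 ≤ y → y ≤ T → 0 < x →
    x * (Real.log T) ^ 2 * B ≤ 1 → riemannZeta (pt (1 / 2) y) = 0 → od (pt (1 / 2) y) = 1 →
    (∀ ρ : ℂ, riemannZeta ρ = 0 → ρ ≠ pt (1 / 2) y → B * x * Real.log T ≤ |ρ.im - y|) →
    ∀ t : ℝ, |t - y| ≤ B * x * Real.log T / 4 →
      riemannZeta (pt (1 / 2 + x ^ 2) t) ≠ 0 ∧
      ‖logDeriv riemannZeta (pt (1 / 2 + x ^ 2) t)
        - 1 / (((x ^ 2 : ℝ) : ℂ) + Complex.I * ((t - y : ℝ) : ℂ))‖ ≤ 1 / (4 * x) ∧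
      (logDeriv riemannZeta (pt (1 / 2 + x ^ 2) t)
        - 1 / (((x ^ 2 : ℝ) : ℂ) + Complex.I * ((t - y : ℝ) : ℂ))).re ≤ -2 := by
  classical
  obtain ⟨C, T1, hC1, hT1, hloc⟩ := local_exp
  obtain ⟨T2, hT2⟩ := Pool.Agent.ZP.Lam_lower 8
  refine ⟨16 * C, max T1 (T2 + 1), by linarith, le_trans hT1 (le_max_left _ _), ?_⟩
  intro y x T hy hyT hx hxT hz hod hiso t ht
  have hyT1 : T1 ≤ y := le_trans (le_max_left _ _) hy
  have hyT2 : T2 + 1 ≤ y := le_trans (le_max_right _ _) hy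
  have hy100 : (100 : ℝ) ≤ y := le_trans hT1 hyT1
  -- size of the logarithm
  have he : Real.exp 1 < 3 := by
    have := Real.exp_one_lt_d9; linarith
  have hL4 : (4 : ℝ) ≤ Real.log y := by
    rw [Real.le_log_iff_exp_le (by linarith)]
    have h1 : Real.exp 4 = Real.exp 1 ^ 4 := by
      rw [← Real.exp_nat_mul]; norm_num
    rw [h1]
    have h2 : Real.exp 1 ^ 4 ≤ 3 ^ 4 := pow_le_pow_left₀ (Real.exp_pos 1).le he.le 4
    norm_num at h2
    linarith
  have hLL : Real.log y ≤ Real.log T := Real.log_le_log (by linarith) hyT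
  set L := Real.log y with hLdef
  set L' := Real.log T with hL'def
  have hL'4 : (4 : ℝ) ≤ L' := le_trans hL4 hLL
  have hL'0 : 0 < L' := by linarith
  set B := 16 * C with hBdef
  have hB16 : 16 ≤ B := by rw [hBdef]; linarith
  have hB0 : 0 < B := by linarith
  set r := B * x * L' with hrdef
  have hr0 : 0 < r := by positivity
  -- r ≤ 1 / L' ≤ 1/4
  have hrL : r * L' ≤ 1 := by
    have : r * L' = x * L' ^ 2 * B := by rw [hrdef]; ring
    rw [this]; exact hxT
  have hr4 : r ≤ 1 / 4 := by nlinarith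
  have hxB : x * B * 4 ≤ r := by
    rw [hrdef]; nlinarith [mul_pos hB0 hx]
  have hxsmall : x ≤ 1 / 256 := by nlinarith
  have hx2 : x ^ 2 ≤ 1 / 20 := by nlinarith
  have hx2x : x ^ 2 ≤ x := by nlinarith
  obtain ⟨S, E, hS, hSsum, hE, hElip, hEre⟩ := hloc y hyT1
  set s := pt (1 / 2 + x ^ 2) t with hsdef
  have hsre : s.re = 1 / 2 + x ^ 2 := rfl
  have hsim : s.im = t := rfl
  have htr : |t - y| ≤ 1 / 4 := by linarith
  have hs1 : |s.re - 1 / 2| ≤ 1 / 20 := by
    rw [hsre]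
    rw [abs_of_nonneg (by nlinarith [sq_nonneg x])]
    linarith
  have hs2 : |s.im - y| ≤ 1 / 4 := by rw [hsim]; exact htr
  have hx20 : 0 < x ^ 2 := by positivity
  -- zeta does not vanish at s
  have hzs : riemannZeta s ≠ 0 := by
    intro h0
    have hne : s ≠ pt (1 / 2) y := by
      intro h
      have := congrArg Complex.re h
      rw [hsre] at this
      simp at this
      exact hx.ne' this
    have := hiso s h0 hne
    rw [hsim] at this
    linarith
  obtain ⟨-, hEb, hEexp⟩ := hE s hs1 hs2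
  have hexp := hEexp hzs
  -- the distinguished zero
  set ρ0 := pt (1 / 2) y with hρ0
  have hρ0S : ρ0 ∈ S := by
    rw [hS]
    refine ⟨hz, ?_, ?_⟩
    · simp only [hρ0, Pool.Agent.ZP.pt_re]; norm_num
    · simp [hρ0]
  have hsρ0 : s - ρ0 = ((x ^ 2 : ℝ) : ℂ) + Complex.I * ((t - y : ℝ) : ℂ) :=
    pt_sub_pt _ _ _ _
  set S' := S.erase ρ0 with hS'
  have hsplit : logDeriv riemannZeta s - 1 / (((x ^ 2 : ℝ) : ℂ) + Complex.I * ((t - y : ℝ) : ℂ))
      = ∑ ρ ∈ S', (od ρ : ℂ) / (s - ρ) + E s := by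
    rw [hexp, ← Finset.add_sum_erase S _ hρ0S, ← hS', hod, hsρ0]
    push_cast
    ring
  -- distances
  have hdist : ∀ ρ ∈ S', 3 * r / 4 ≤ |s.im - ρ.im| := by
    intro ρ hρ
    obtain ⟨hρne, hρS⟩ := Finset.mem_erase.1 hρ
    have h1 := hiso ρ ((hS ρ).1 hρS).1 hρne
    rw [hsim]
    have h2 : |ρ.im - y| ≤ |t - ρ.im| + |t - y| := by
      have : ρ.im - y = -(t - ρ.im) + (t - y) := by ring
      rw [this]
      exact le_trans (abs_add_le _ _) (by rw [abs_neg])
    linarith
  have hdist1 : ∀ ρ ∈ S', 3 * r / 4 ≤ ‖s - ρ‖ := by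
    intro ρ hρ
    refine le_trans (hdist ρ hρ) ?_
    have := Complex.abs_im_le_norm (s - ρ)
    rwa [Complex.sub_im] at this
  have hdist2 : ∀ ρ ∈ S', 3 * r / 4 ≤ ‖s - mir ρ‖ := by
    intro ρ hρ
    refine le_trans (hdist ρ hρ) ?_
    have := Complex.abs_im_le_norm (s - mir ρ)
    rwa [Complex.sub_im, mir_im] at this
  have hsum' : ∑ ρ ∈ S', (od ρ : ℝ) ≤ C * L' := by
    refine le_trans ?_ (le_trans hSsum (mul_le_mul_of_nonneg_left hLL (by linarith)))
    exact Finset.sum_le_sum_of_subset_of_nonneg (Finset.erase_subset _ _)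
      (fun _ _ _ => Nat.cast_nonneg _)
  have hsum0 : 0 ≤ ∑ ρ ∈ S', (od ρ : ℝ) := Finset.sum_nonneg (fun _ _ => Nat.cast_nonneg _)
  have hEb' : ‖E s‖ ≤ C * L' := le_trans hEb (mul_le_mul_of_nonneg_left hLL (by linarith))
  refine ⟨hzs, ?_, ?_⟩
  · -- the norm
    rw [hsplit]
    have h1 : ‖∑ ρ ∈ S', (od ρ : ℂ) / (s - ρ)‖ ≤ C * L' * (4 / (3 * r)) := by
      calc ‖∑ ρ ∈ S', (od ρ : ℂ) / (s - ρ)‖ ≤ ∑ ρ ∈ S', ‖(od ρ : ℂ) / (s - ρ)‖ :=
            norm_sum_le _ _
        _ ≤ ∑ ρ ∈ S', (od ρ : ℝ) * (4 / (3 * r)) := by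
            refine Finset.sum_le_sum fun ρ hρ => ?_
            rw [norm_div, Complex.norm_natCast, div_eq_mul_inv]
            refine mul_le_mul_of_nonneg_left ?_ (Nat.cast_nonneg _)
            have h2 := hdist1 ρ hρ
            have h3 : 4 / (3 * r) = (3 * r / 4)⁻¹ := by
              rw [inv_div]
            rw [h3]
            exact inv_anti₀ (by positivity) h2
        _ = (∑ ρ ∈ S', (od ρ : ℝ)) * (4 / (3 * r)) := by rw [Finset.sum_mul]
        _ ≤ C * L' * (4 / (3 * r)) := mul_le_mul_of_nonneg_right hsum' (by positivity)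
    have h2 : C * L' * (4 / (3 * r)) = 1 / (12 * x) := by
      rw [hrdef, hBdef]
      field_simp
      norm_num
    have h3 : C * L' ≤ 1 / (64 * x) := by
      rw [le_div_iff₀ (by positivity)]
      have : x * L' ^ 2 * (16 * C) ≤ 1 := hxT
      nlinarith [mul_pos (mul_pos hx hL'0) (by linarith : (0:ℝ) < C)]
    calc ‖∑ ρ ∈ S', (od ρ : ℂ) / (s - ρ) + E s‖
        ≤ ‖∑ ρ ∈ S', (od ρ : ℂ) / (s - ρ)‖ + ‖E s‖ := norm_add_le _ _
      _ ≤ 1 / (12 * x) + 1 / (64 * x) := by linarith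
      _ ≤ 1 / (4 * x) := by
          rw [div_add_div _ _ (by positivity) (by positivity), div_le_div_iff₀ (by positivity)
            (by positivity)]
          nlinarith [mul_pos hx hx]
  · -- the real part
    rw [hsplit, Complex.add_re]
    have hmir : ∀ ρ ∈ S', mir ρ ∈ S' ∧ od (mir ρ) = od ρ := by
      intro ρ hρ
      obtain ⟨hρne, hρS⟩ := Finset.mem_erase.1 hρ
      obtain ⟨h1, h2, h3⟩ := (hS ρ).1 hρS
      have him : 0 < ρ.im := by
        have := abs_le.1 h3
        linarith [this.1]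
      refine ⟨Finset.mem_erase.2 ⟨?_, ?_⟩, od_mir him⟩
      · intro h
        apply hρne
        apply Complex.ext
        · have h4 := congrArg Complex.re h
          rw [mir_re] at h4
          simp only [hρ0, Pool.Agent.ZP.pt_re] at h4 ⊢
          linarith
        · have h4 := congrArg Complex.im h
          rw [mir_im] at h4
          exact h4
      · rw [hS]
        refine ⟨(zeta_mir him).2 h1, ?_, ?_⟩
        · rw [mir_re]
          have : 1 - ρ.re - 1 / 2 = -(ρ.re - 1 / 2) := by ring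
          rw [this, abs_neg]
          exact h2
        · rw [mir_im]; exact h3
    have hsS' : s ∉ S' := by
      intro h
      have h1 := hdist s h
      simp at h1
      linarith
    rw [re_sum_mir S' od hmir s hsS']
    have hK : |∑ ρ ∈ S', (od ρ : ℝ) * KK ρ s| ≤ C * L' * (16 / (9 * r ^ 2)) := by
      calc |∑ ρ ∈ S', (od ρ : ℝ) * KK ρ s| ≤ ∑ ρ ∈ S', |(od ρ : ℝ) * KK ρ s| :=
            Finset.abs_sum_le_sum_abs _ _
        _ ≤ ∑ ρ ∈ S', (od ρ : ℝ) * (16 / (9 * r ^ 2)) := by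
            refine Finset.sum_le_sum fun ρ hρ => ?_
            rw [abs_mul, abs_of_nonneg (Nat.cast_nonneg (od ρ) : (0:ℝ) ≤ od ρ)]
            refine mul_le_mul_of_nonneg_left ?_ (Nat.cast_nonneg _)
            refine le_trans (KK_abs ρ s) ?_
            have h1 := hdist1 ρ hρ
            have h2 := hdist2 ρ hρ
            have h3 : (3 * r / 4) * (3 * r / 4) ≤ ‖s - ρ‖ * ‖s - mir ρ‖ :=
              mul_le_mul h1 h2 (by positivity) (norm_nonneg _)
            have h4 : 16 / (9 * r ^ 2) = 1 / ((3 * r / 4) * (3 * r / 4)) := by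
              field_simp
              norm_num
            rw [h4]
            exact one_div_le_one_div_of_le (by positivity) h3
        _ = (∑ ρ ∈ S', (od ρ : ℝ)) * (16 / (9 * r ^ 2)) := by rw [Finset.sum_mul]
        _ ≤ C * L' * (16 / (9 * r ^ 2)) := mul_le_mul_of_nonneg_right hsum' (by positivity)
    have hK1 : (s.re - 1 / 2) * ∑ ρ ∈ S', (od ρ : ℝ) * KK ρ s ≤ 1 := by
      have h1 : s.re - 1 / 2 = x ^ 2 := by rw [hsre]; ring
      rw [h1]
      have h2 : x ^ 2 * ∑ ρ ∈ S', (od ρ : ℝ) * KK ρ s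
          ≤ x ^ 2 * (C * L' * (16 / (9 * r ^ 2))) :=
        mul_le_mul_of_nonneg_left (le_trans (le_abs_self _) hK) hx20.le
      refine le_trans h2 ?_
      have h3 : x ^ 2 * (C * L' * (16 / (9 * r ^ 2))) = 1 / (144 * (C * L')) := by
        rw [hrdef, hBdef]
        have : C ≠ 0 := by linarith
        field_simp
        norm_num
      rw [h3, div_le_one (by positivity)]
      nlinarith
    -- the analytic part
    have hline := hEre t htr
    have hLam : 8 ≤ (Lam (pt (1 / 2) t)).re := by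
      apply hT2
      · simp
      · simp only [Pool.Agent.ZP.pt_im]
        have := (abs_le.1 htr).1
        linarith
    have hdiff := hElip s (pt (1 / 2) t) hs1 hs2 (by simp) (by simpa using htr)
    have hd1 : ‖s - pt (1 / 2) t‖ = x ^ 2 := by
      have : s - pt (1 / 2) t = ((x ^ 2 : ℝ) : ℂ) := by
        have h1 := pt_sub_pt (1 / 2) (x ^ 2) t t
        rw [sub_self, Complex.ofReal_zero, mul_zero, add_zero] at h1
        exact h1
      rw [this, Complex.norm_real, Real.norm_of_nonneg hx20.le]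
    rw [hd1] at hdiff
    have hEs : (E s).re ≤ (E (pt (1 / 2) t)).re + C * L * x ^ 2 := by
      have h1 : (E s - E (pt (1 / 2) t)).re ≤ ‖E s - E (pt (1 / 2) t)‖ := Complex.re_le_norm _
      rw [Complex.sub_re] at h1
      linarith
    have hsm : C * L * x ^ 2 ≤ 1 := by
      have h1 : x * L' ^ 2 * (16 * C) ≤ 1 := hxT
      have h2 : C * L * x ^ 2 ≤ C * L' * x := by
        have : C * L ≤ C * L' := mul_le_mul_of_nonneg_left hLL (by linarith)
        exact mul_le_mul this hx2x hx20.le (by positivity)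
      have h3 : C * L' * x ≤ x * L' ^ 2 * (16 * C) := by
        have h4 : 0 < C * L' * x := by positivity
        have h5 : x * L' ^ 2 * (16 * C) = (C * L' * x) * (16 * L') := by ring
        rw [h5]
        nlinarith
      linarith
    rw [hline] at hEs
    linarith

end Pool.Agent.ZC
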