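import Pool.Agent.Lib.MP_af3d17_cn.Defs

/-!
# Row R4: a rectangle with one turn on the boundary contains a zero
-/

set_option autoImplicit false

namespace Pool.Agent.ZC

open Filter Topology Set
open Pool.Agent.ZP (pt Lam EE IsUpperZero IsOrdinateSeq)

private theorem pt_eq (x y : ℝ) : pt x y = (x : ℂ) + (y : ℂ) * Complex.I := by
  apply Complex.ext <;> simp

private theorem hasDerivAt_pt_left (y x : ℝ) : HasDerivAt (fun x : ℝ => pt x y) 1 x := by
  have h1 : (fun x : ℝ => pt x y) = fun x : ℝ => (x : ℂ) + (y : ℂ) * Complex.I :=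
    funext fun x => pt_eq x y
  rw [h1]
  simpa using (Complex.ofRealCLM.hasDerivAt (x := x)).add_const ((y : ℂ) * Complex.I)

private theorem hasDerivAt_pt_right (x y : ℝ) :
    HasDerivAt (fun y : ℝ => pt x y) Complex.I y := by
  have h1 : (fun y : ℝ => pt x y) = fun y : ℝ => (x : ℂ) + (y : ℂ) * Complex.I :=
    funext fun y => pt_eq x y
  rw [h1]
  simpa using ((Complex.ofRealCLM.hasDerivAt (x := y)).mul_const Complex.I).const_add (x : ℂ)

/-- one side of the rectangle: a branch of the logarithm -/
private theorem seg_log {g : ℂ → ℂ} {γ : ℝ → ℂ} {e u : ℂ} {p q : ℝ} (hpq : p ≤ q)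
    (hγ : ∀ t, HasDerivAt γ e t) (hu : u ≠ 0) (hg : ∀ t ∈ Icc p q, AnalyticAt ℂ g (γ t))
    (hs : ∀ t ∈ Icc p q, u * g (γ t) ∈ Complex.slitPlane) :
    e * ∫ t in p..q, logDeriv g (γ t) =
      Complex.log (u * g (γ q)) - Complex.log (u * g (γ p)) := by
  have hne : ∀ t ∈ Icc p q, g (γ t) ≠ 0 := by
    intro t ht h
    have := hs t ht
    rw [h, mul_zero] at this
    exact Complex.zero_notMem_slitPlane this
  have hderiv : ∀ t ∈ uIcc p q,
      HasDerivAt (fun t => Complex.log (u * g (γ t))) (e * logDeriv g (γ t)) t := by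
    intro t ht
    rw [uIcc_of_le hpq] at ht
    have h0 : HasDerivAt g (deriv g (γ t)) (γ t) := (hg t ht).differentiableAt.hasDerivAt
    have h1 : HasDerivAt (fun t => u * g (γ t)) (u * (deriv g (γ t) * e)) t :=
      (h0.comp t (hγ t)).const_mul u
    have h2 := h1.clog_real (hs t ht)
    convert h2 using 1
    rw [logDeriv_apply]
    have := hne t ht
    field_simp
  have hcont : ContinuousOn (fun t => e * logDeriv g (γ t)) (uIcc p q) := by
    rw [uIcc_of_le hpq]
    intro t ht
    have h1 : ContinuousAt (fun s => logDeriv g s) (γ t) := by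
      have h2 : ContinuousAt (fun s => deriv g s / g s) (γ t) :=
        (hg t ht).deriv.continuousAt.div (hg t ht).continuousAt (hne t ht)
      exact h2
    exact (continuousAt_const.mul
      (ContinuousAt.comp (f := γ) (g := fun s => logDeriv g s) h1
        (hγ t).continuousAt)).continuousWithinAt
  rw [← intervalIntegral.integral_const_mul]
  exact intervalIntegral.integral_eq_sub_of_hasDerivAt hderiv hcont.intervalIntegrable

private theorem log_sub_log_neg {w : ℂ} (h : 0 < w.im) :
    Complex.log w - Complex.log (-w) = Real.pi * Complex.I := by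
  rw [Complex.log, Complex.log, norm_neg, Complex.arg_neg_eq_arg_sub_pi_of_im_pos h]
  push_cast
  ring

private theorem log_neg_sub_log {w : ℂ} (h : w.im < 0) :
    Complex.log (-w) - Complex.log w = Real.pi * Complex.I := by
  rw [Complex.log, Complex.log, norm_neg, Complex.arg_neg_eq_arg_add_pi_of_im_neg h]
  push_cast
  ring

/-- R4: a rectangle with one turn on the boundary contains a zero -/
theorem rect_sign {f : ℂ → ℂ} {a b c d : ℝ} (hab : a < b) (hcd : c < d)
    (hf : AnalyticOnNhd ℂ f (Rcl a b c d))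
    (hbot : ∀ x ∈ Icc a b, (f (pt x c)).im < 0) (hright : ∀ y ∈ Icc c d, 0 < (f (pt b y)).re)
    (htop : ∀ x ∈ Icc a b, 0 < (f (pt x d)).im) (hleft : ∀ y ∈ Icc c d, (f (pt a y)).re < 0) :
    ∃ s ∈ Rc a b c d, f s = 0 := by
  by_contra hcon
  push Not at hcon
  -- no zero in the closed rectangle
  have hne : ∀ s ∈ Rcl a b c d, f s ≠ 0 := by
    intro s hs h0
    obtain ⟨h1, h2, h3, h4⟩ := hs
    rcases h1.lt_or_eq with h1' | h1'
    · rcases h2.lt_or_eq with h2' | h2'
      · rcases h3.lt_or_eq with h3' | h3'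
        · rcases h4.lt_or_eq with h4' | h4'
          · exact hcon s ⟨h1', h2', h3', h4'⟩ h0
          · have e : s = pt s.re d := Complex.ext rfl h4'
            have := htop s.re ⟨h1, h2⟩
            rw [← e, h0, Complex.zero_im] at this
            exact lt_irrefl _ this
        · have e : s = pt s.re c := Complex.ext rfl h3'.symm
          have := hbot s.re ⟨h1, h2⟩
          rw [← e, h0, Complex.zero_im] at this
          exact lt_irrefl _ this
      · have e : s = pt b s.im := Complex.ext h2' rfl
        have := hright s.im ⟨h3, h4⟩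
        rw [← e, h0, Complex.zero_re] at this
        exact lt_irrefl _ this
    · have e : s = pt a s.im := Complex.ext h1'.symm rfl
      have := hleft s.im ⟨h3, h4⟩
      rw [← e, h0, Complex.zero_re] at this
      exact lt_irrefl _ this
  have hmb : ∀ x ∈ Icc a b, ∀ y ∈ Icc c d, pt x y ∈ Rcl a b c d :=
    fun x hx y hy => ⟨hx.1, hx.2, hy.1, hy.2⟩
  have ha : a ∈ Icc a b := ⟨le_rfl, hab.le⟩
  have hb : b ∈ Icc a b := ⟨hab.le, le_rfl⟩
  have hc : c ∈ Icc c d := ⟨le_rfl, hcd.le⟩
  have hd : d ∈ Icc c d := ⟨hcd.le, le_rfl⟩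
  -- Cauchy's theorem for the logarithmic derivative
  have hdiff : DifferentiableOn ℂ (logDeriv f) (Rcl a b c d) := by
    intro s hs
    have h1 : AnalyticAt ℂ (fun s => deriv f s / f s) s :=
      (hf s hs).deriv.div (hf s hs) (hne s hs)
    exact h1.differentiableAt.differentiableWithinAt
  have hcauchy := Complex.integral_boundary_rect_eq_zero_of_differentiableOn (logDeriv f)
    (pt a c) (pt b d) (hdiff.mono (by
      intro s hs
      simp only [Pool.Agent.ZP.pt_re, Pool.Agent.ZP.pt_im, uIcc_of_le hab.le,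
        uIcc_of_le hcd.le] at hs
      exact ⟨hs.1.1, hs.1.2, hs.2.1, hs.2.2⟩))
  simp only [Pool.Agent.ZP.pt_re, Pool.Agent.ZP.pt_im, ← pt_eq, smul_eq_mul] at hcauchy
  have e1 := seg_log (u := 1) (g := f) hab.le (fun t => hasDerivAt_pt_left c t) one_ne_zero
    (fun t ht => hf _ (hmb t ht c hc)) (by
      intro t ht
      rw [one_mul]
      exact Or.inr (ne_of_lt (hbot t ht)))
  have e2 := seg_log (u := 1) (g := f) hcd.le (fun t => hasDerivAt_pt_right b t) one_ne_zero
    (fun t ht => hf _ (hmb b hb t ht)) (by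
      intro t ht
      rw [one_mul]
      exact Or.inl (hright t ht))
  have e3 := seg_log (u := 1) (g := f) hab.le (fun t => hasDerivAt_pt_left d t) one_ne_zero
    (fun t ht => hf _ (hmb t ht d hd)) (by
      intro t ht
      rw [one_mul]
      exact Or.inr (ne_of_gt (htop t ht)))
  have e4 := seg_log (u := -1) (g := f) hcd.le (fun t => hasDerivAt_pt_right a t) (by norm_num)
    (fun t ht => hf _ (hmb a ha t ht)) (by
      intro t ht
      refine Or.inl ?_
      rw [neg_mul, one_mul, Complex.neg_re]
      linarith [hleft t ht])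
  rw [one_mul] at e1 e3
  rw [e1, e2, e3, e4] at hcauchy
  simp only [one_mul, neg_mul] at hcauchy
  have f1 := log_sub_log_neg (htop a ha)
  have f2 := log_neg_sub_log (hbot a ha)
  have h2 : (2 * Real.pi : ℂ) * Complex.I = 0 := by
    linear_combination hcauchy - f1 - f2
  have h3 : (2 * Real.pi : ℂ) * Complex.I ≠ 0 :=
    mul_ne_zero (mul_ne_zero two_ne_zero (by exact_mod_cast Real.pi_ne_zero)) Complex.I_ne_zero
  exact h3 h2

end Pool.Agent.ZC
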