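import Pool.Agent.Lib.MP_af3d17_cn.LocalExp
import Pool.Agent.Lib.MP_af3d17_cn.Mirror
import Pool.Agent.Lib.MP_af3d17_cn.Kernel
import Pool.Agent.Lib.MP_af3d17_cn.RectSign

/-!
# MP_af3d17_nt: row PA1, a good gap contains a zero of `ζ'` near to the line
-/

set_option autoImplicit false

namespace Pool.Agent.ZC

open Filter Topology Set
open Pool.Agent.ZP (pt Lam EE IsUpperZero IsOrdinateSeq pt_re pt_im)

private lemma gg_im (m : ℕ) (s ρ : ℂ) :
    ((m : ℂ) / (s - ρ)).im = -((m : ℝ) * ((s.im - ρ.im) / ‖s - ρ‖ ^ 2)) := by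
  have h1 : (m : ℂ) / (s - ρ) = ((m : ℝ) : ℂ) * (s - ρ)⁻¹ := by
    rw [div_eq_mul_inv, Complex.ofReal_natCast]
  rw [h1, Complex.im_ofReal_mul, Complex.inv_im, Complex.normSq_eq_norm_sq, Complex.sub_im]
  ring

private lemma gg_sq (s ρ : ℂ) : ‖s - ρ‖ ^ 2 = (s.re - ρ.re) ^ 2 + (s.im - ρ.im) ^ 2 := by
  rw [← Complex.normSq_eq_norm_sq, Complex.normSq_apply, Complex.sub_re, Complex.sub_im]
  ring

private lemma gg_abs (m : ℕ) (s ρ : ℂ) {r : ℝ} (hr : 0 < r) (h : r ≤ ‖s - ρ‖) :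
    |((m : ℂ) / (s - ρ)).im| ≤ m * (1 / r) := by
  refine (Complex.abs_im_le_norm _).trans ?_
  rw [norm_div, Complex.norm_natCast, mul_one_div]
  exact div_le_div_of_nonneg_left (by positivity) hr h

/-- the local data of a good gap -/
private structure Loc (C L y y' x : ℝ) (O S : Finset ℂ) (E : ℂ → ℂ) : Prop where
  C1 : 1 ≤ C
  L1 : 1 ≤ L
  y1 : 100 ≤ y
  hd : y < y'
  small : C * L ^ 2 * (y' - y) ≤ 1 / 1000
  hx : x = 10 * (y' - y) ^ 2 * L
  iff : ∀ ρ, ρ ∈ S ↔ riemannZeta ρ = 0 ∧ |ρ.re - 1 / 2| ≤ 3 / 20 ∧ |ρ.im - y| ≤ 1 / 2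
  sum : (∑ ρ ∈ S, (od ρ : ℝ)) ≤ C * L
  loc : ∀ s : ℂ, |s.re - 1 / 2| ≤ 1 / 20 → |s.im - y| ≤ 1 / 4 → ‖E s‖ ≤ C * L ∧
      (riemannZeta s ≠ 0 → logDeriv riemannZeta s = ∑ ρ ∈ S, (od ρ : ℂ) / (s - ρ) + E s)
  lip : ∀ s s' : ℂ, |s.re - 1 / 2| ≤ 1 / 20 → |s.im - y| ≤ 1 / 4 → |s'.re - 1 / 2| ≤ 1 / 20 →
      |s'.im - y| ≤ 1 / 4 → ‖E s - E s'‖ ≤ C * L * ‖s - s'‖
  line : ∀ u : ℝ, |u - y| ≤ 1 / 4 → (E (pt (1 / 2) u)).re = -(Lam (pt (1 / 2) u)).re / 2
  lam : ∀ u : ℝ, y ≤ u → u ≤ y' → 0 < (Lam (pt (1 / 2) u)).re ∧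
      (Lam (pt (1 / 2) u)).re / 2 ≤ 2 * L
  zy : riemannZeta (pt (1 / 2) y) = 0
  zy' : riemannZeta (pt (1 / 2) y') = 0
  no : ∀ u ∈ Ioo y y', riemannZeta (pt (1 / 2) u) ≠ 0
  O1 : ∀ ρ ∈ S, ρ.re ≠ 1 / 2 → ρ ∈ O
  good : GoodGap O y y'

namespace Loc

variable {C L y y' x : ℝ} {O S : Finset ℂ} {E : ℂ → ℂ}

lemma d_pos (h : Loc C L y y' x O S E) : 0 < y' - y := sub_pos.mpr h.hd

lemma L_le (h : Loc C L y y' x O S E) : L * (y' - y) ≤ 1 / 1000 := by
  have h1 := h.small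
  have h2 := h.d_pos
  have h3 := h.L1
  have h4 : L * (y' - y) ≤ C * L ^ 2 * (y' - y) := by
    have h5 : L ≤ C * L ^ 2 := by nlinarith [h.C1, h.L1]
    exact mul_le_mul_of_nonneg_right h5 h2.le
  linarith

lemma CL_le (h : Loc C L y y' x O S E) : C * L * (y' - y) ≤ 1 / 1000 := by
  have h1 := h.small
  have h2 := h.d_pos
  have h3 := h.L1
  have h4 : C * L * (y' - y) ≤ C * L ^ 2 * (y' - y) := by
    have h6 : L ≤ L ^ 2 := by nlinarith
    have h5 : C * L ≤ C * L ^ 2 := mul_le_mul_of_nonneg_left h6 (by linarith [h.C1])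
    exact mul_le_mul_of_nonneg_right h5 h2.le
  linarith

lemma d_le (h : Loc C L y y' x O S E) : y' - y ≤ 1 / 1000 := by
  have h1 := h.L_le
  have h2 := h.d_pos
  nlinarith [h.L1]

lemma x_pos (h : Loc C L y y' x O S E) : 0 < x := by
  have h2 := h.d_pos
  have h3 := h.L1
  rw [h.hx]
  positivity

lemma x_le (h : Loc C L y y' x O S E) : x ≤ (y' - y) / 100 := by
  have h2 := h.d_pos
  have h3 := h.L_le
  rw [h.hx]
  nlinarith

/-- the three kinds of zeros -/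
lemma cls (h : Loc C L y y' x O S E) {ρ : ℂ} (hρ : ρ ∈ S) :
    (ρ.re = 1 / 2 ∧ (ρ.im ≤ y ∨ y' ≤ ρ.im)) ∨ (ρ.re ≠ 1 / 2 ∧ Away ρ y y') ∨
      (ρ.re ≠ 1 / 2 ∧ Inside ρ y y') := by
  by_cases h1 : ρ.re = 1 / 2
  · left
    refine ⟨h1, ?_⟩
    by_contra h2
    push Not at h2
    have h3 : pt (1 / 2) ρ.im = ρ := by
      apply Complex.ext
      · rw [pt_re, h1]
      · rw [pt_im]
    have h4 := h.no ρ.im ⟨h2.1, h2.2⟩
    rw [h3] at h4
    exact h4 ((h.iff ρ).mp hρ).1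
  · right
    rcases h.good.1 ρ (h.O1 ρ hρ h1) with h2 | h2
    · exact Or.inl ⟨h1, h2⟩
    · exact Or.inr ⟨h1, h2⟩

lemma ins (_ : Loc C L y y' x O S E) {ρ : ℂ} (hρ : Inside ρ y y') :
    (y' - y) / 2 < |ρ.re - 1 / 2| := by
  have h1 := hρ.1
  have h2 := hρ.2
  linarith

/-- the region where the data are used -/
def Reg (y y' x : ℝ) (s : ℂ) : Prop :=
  1 / 2 ≤ s.re ∧ s.re ≤ 1 / 2 + x ∧ y + x ≤ s.im ∧ s.im ≤ y' - x

lemma box1 (h : Loc C L y y' x O S E) {s : ℂ} (hs : Reg y y' x s) : |s.re - 1 / 2| ≤ 1 / 20 := by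
  have h1 := h.x_le
  have h2 := h.d_le
  obtain ⟨a1, a2, a3, a4⟩ := hs
  rw [abs_le]
  constructor <;> linarith

lemma box2 (h : Loc C L y y' x O S E) {s : ℂ} (hs : Reg y y' x s) : |s.im - y| ≤ 1 / 4 := by
  have h1 := h.x_le
  have h2 := h.d_le
  have h3 := h.x_pos
  obtain ⟨a1, a2, a3, a4⟩ := hs
  rw [abs_le]
  constructor <;> linarith

lemma not_mem (h : Loc C L y y' x O S E) {s : ℂ} (hs : Reg y y' x s) : s ∉ S := by
  intro hS
  have h1 := h.x_le
  have h3 := h.x_pos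
  have h4 := h.d_pos
  obtain ⟨a1, a2, a3, a4⟩ := hs
  rcases h.cls hS with ⟨_, h5 | h5⟩ | ⟨_, h5 | h5⟩ | ⟨_, h5⟩
  · linarith
  · linarith
  · have := abs_nonneg (s.re - 1 / 2)
    linarith
  · have := abs_nonneg (s.re - 1 / 2)
    linarith
  · have h6 : |s.re - 1 / 2| ≤ x := by
      rw [abs_le]
      constructor <;> linarith
    have := h5.1
    have := h5.2
    linarith

lemma zeta_ne (h : Loc C L y y' x O S E) {s : ℂ} (hs : Reg y y' x s) : riemannZeta s ≠ 0 := by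
  intro h0
  refine h.not_mem hs ((h.iff s).mpr ⟨h0, ?_, ?_⟩)
  · exact (h.box1 hs).trans (by norm_num)
  · exact (h.box2 hs).trans (by norm_num)

lemma upper (h : Loc C L y y' x O S E) {s : ℂ} (hs : Reg y y' x s) : 0 < s.im := by
  obtain ⟨a1, a2, a3, a4⟩ := hs
  linarith [h.x_pos, h.y1]

lemma mem_y (h : Loc C L y y' x O S E) : pt (1 / 2) y ∈ S := by
  rw [h.iff, pt_re, pt_im, sub_self, sub_self, abs_zero]
  exact ⟨h.zy, by norm_num, by norm_num⟩

lemma mem_y' (h : Loc C L y y' x O S E) : pt (1 / 2) y' ∈ S := by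
  rw [h.iff, pt_re, pt_im, sub_self, abs_zero, abs_of_pos h.d_pos]
  exact ⟨h.zy', by norm_num, h.d_le.trans (by norm_num)⟩

lemma im_pos (h : Loc C L y y' x O S E) {ρ : ℂ} (hρ : ρ ∈ S) : 0 < ρ.im := by
  have h1 := ((h.iff ρ).mp hρ).2.2
  rw [abs_le] at h1
  linarith [h.y1, h1.1]

lemma od1 (h : Loc C L y y' x O S E) {ρ : ℂ} (hρ : ρ ∈ S) : (1 : ℝ) ≤ od ρ := by
  exact_mod_cast od_pos (h.im_pos hρ) ((h.iff ρ).mp hρ).1

lemma mirS (h : Loc C L y y' x O S E) : ∀ ρ ∈ S, mir ρ ∈ S ∧ od (mir ρ) = od ρ := by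
  intro ρ hρ
  have h1 := h.im_pos hρ
  have h2 := (h.iff ρ).mp hρ
  refine ⟨(h.iff _).mpr ⟨(zeta_mir h1).mpr h2.1, ?_, ?_⟩, od_mir h1⟩
  · have h3 : (mir ρ).re - 1 / 2 = -(ρ.re - 1 / 2) := by
      unfold mir
      rw [Complex.sub_re, Complex.one_re, Complex.conj_re]
      ring
    rw [h3, abs_neg]
    exact h2.2.1
  · have h3 : (mir ρ).im = ρ.im := by
      unfold mir
      rw [Complex.sub_im, Complex.one_im, Complex.conj_im]
      ring
    rw [h3]
    exact h2.2.2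

lemma re_eq (h : Loc C L y y' x O S E) {s : ℂ} (hs : Reg y y' x s) :
    (logDeriv riemannZeta s).re = (s.re - 1 / 2) * ∑ ρ ∈ S, (od ρ : ℝ) * KK ρ s + (E s).re := by
  rw [(h.loc s (h.box1 hs) (h.box2 hs)).2 (h.zeta_ne hs), Complex.add_re,
    re_sum_mir S od h.mirS s (h.not_mem hs)]

lemma im_eq (h : Loc C L y y' x O S E) {s : ℂ} (hs : Reg y y' x s) :
    (logDeriv riemannZeta s).im = ∑ ρ ∈ S, ((od ρ : ℂ) / (s - ρ)).im + (E s).im := by
  rw [(h.loc s (h.box1 hs) (h.box2 hs)).2 (h.zeta_ne hs), Complex.add_im, Complex.im_sum]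

/-- distance to the zeros above -/
lemma far_above (h : Loc C L y y' x O S E) {s ρ : ℂ} (hs : Reg y y' x s) (hb : s.im = y + x)
    (hρ : ρ ∈ S) (hi : s.im < ρ.im) : 2 / 5 * (y' - y) ≤ ‖s - ρ‖ := by
  have h1 := h.x_le
  have h3 := h.x_pos
  have h4 := h.d_pos
  obtain ⟨a1, a2, a3, a4⟩ := hs
  have h6 := Complex.abs_im_le_norm (s - ρ)
  have h7 := Complex.abs_re_le_norm (s - ρ)
  rw [Complex.sub_im] at h6
  rw [Complex.sub_re] at h7
  have h8 := neg_abs_le (s.im - ρ.im)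
  rcases h.cls hρ with ⟨_, h5 | h5⟩ | ⟨_, h5 | h5⟩ | ⟨_, h5⟩
  · linarith
  · linarith
  · have := abs_nonneg (ρ.re - 1 / 2)
    linarith
  · have := abs_nonneg (ρ.re - 1 / 2)
    linarith
  · have h9 := h.ins h5
    have h10 : |ρ.re - 1 / 2| ≤ |s.re - ρ.re| + |s.re - 1 / 2| := by
      have h11 : ρ.re - 1 / 2 = -(s.re - ρ.re) + (s.re - 1 / 2) := by ring
      rw [h11]
      refine (abs_add_le _ _).trans ?_
      rw [abs_neg]
    have h11 : |s.re - 1 / 2| ≤ x := by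
      rw [abs_le]
      constructor <;> linarith
    linarith

/-- distance to the zeros below -/
lemma far_below (h : Loc C L y y' x O S E) {s ρ : ℂ} (hs : Reg y y' x s) (hb : s.im = y' - x)
    (hρ : ρ ∈ S) (hi : ρ.im < s.im) : 2 / 5 * (y' - y) ≤ ‖s - ρ‖ := by
  have h1 := h.x_le
  have h3 := h.x_pos
  have h4 := h.d_pos
  obtain ⟨a1, a2, a3, a4⟩ := hs
  have h6 := Complex.abs_im_le_norm (s - ρ)
  have h7 := Complex.abs_re_le_norm (s - ρ)
  rw [Complex.sub_im] at h6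
  rw [Complex.sub_re] at h7
  have h8 := le_abs_self (s.im - ρ.im)
  rcases h.cls hρ with ⟨_, h5 | h5⟩ | ⟨_, h5 | h5⟩ | ⟨_, h5⟩
  · linarith
  · linarith
  · have := abs_nonneg (ρ.re - 1 / 2)
    linarith
  · have := abs_nonneg (ρ.re - 1 / 2)
    linarith
  · have h9 := h.ins h5
    have h10 : |ρ.re - 1 / 2| ≤ |s.re - ρ.re| + |s.re - 1 / 2| := by
      have h11 : ρ.re - 1 / 2 = -(s.re - ρ.re) + (s.re - 1 / 2) := by ring
      rw [h11]
      refine (abs_add_le _ _).trans ?_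
      rw [abs_neg]
    have h11 : |s.re - 1 / 2| ≤ x := by
      rw [abs_le]
      constructor <;> linarith
    linarith

/-- the numerical inequality for the horizontal sides -/
lemma num_hor (h : Loc C L y y' x O S E) :
    C * L * (1 / (2 / 5 * (y' - y))) + C * L < 1 / (2 * x) := by
  have h1 := h.small
  have h2 := h.d_pos
  have h3 := h.L1
  have h4 := h.C1
  have h5 := h.d_le
  rw [h.hx]
  set d := y' - y with hd
  have h6 : (0 : ℝ) < 20 * d ^ 2 * L := by positivity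
  have h7 : 1 / (2 * (10 * d ^ 2 * L)) = 1 / (20 * d ^ 2 * L) := by ring_nf
  rw [h7, lt_div_iff₀ h6]
  have h8 : (C * L * (1 / (2 / 5 * d)) + C * L) * (20 * d ^ 2 * L)
      = C * L ^ 2 * d * (50 + 20 * d) := by
    field_simp
    ring
  rw [h8]
  have h9 : 0 ≤ C * L ^ 2 * d := by positivity
  nlinarith

lemma bottom (h : Loc C L y y' x O S E) {s : ℂ} (hs : Reg y y' x s) (hb : s.im = y + x) :
    (logDeriv riemannZeta s).im < 0 := by
  have h1 := h.x_pos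
  have h2 := h.d_pos
  rw [h.im_eq hs, ← Finset.add_sum_erase S _ h.mem_y]
  have h3 : ((od (pt (1 / 2) y) : ℂ) / (s - pt (1 / 2) y)).im ≤ -(1 / (2 * x)) := by
    rw [gg_im, neg_le_neg_iff, pt_im, hb, add_sub_cancel_left]
    have h4 : ‖s - pt (1 / 2) y‖ ^ 2 ≤ 2 * x ^ 2 := by
      rw [gg_sq, pt_re, pt_im, hb, add_sub_cancel_left]
      have : (s.re - 1 / 2) ^ 2 ≤ x ^ 2 := pow_le_pow_left₀ (by linarith [hs.1]) (by linarith [hs.2.1]) 2
      linarith
    have h5 : 0 < ‖s - pt (1 / 2) y‖ ^ 2 := by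
      rw [gg_sq, pt_re, pt_im, hb, add_sub_cancel_left]
      positivity
    have h6 : 1 / (2 * x) ≤ x / ‖s - pt (1 / 2) y‖ ^ 2 := by
      rw [div_le_div_iff₀ (by positivity) h5]
      nlinarith
    have h7 := h.od1 h.mem_y
    have h8 : 0 < 1 / (2 * x) := by positivity
    nlinarith
  have h4 : ∑ ρ ∈ S.erase (pt (1 / 2) y), ((od ρ : ℂ) / (s - ρ)).im
      ≤ ∑ ρ ∈ S, (od ρ : ℝ) * (1 / (2 / 5 * (y' - y))) := by
    refine (Finset.sum_le_sum (f := fun ρ => ((od ρ : ℂ) / (s - ρ)).im)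
      (g := fun ρ => (od ρ : ℝ) * (1 / (2 / 5 * (y' - y)))) fun ρ hρ => ?_).trans
      (Finset.sum_le_sum_of_subset_of_nonneg (Finset.erase_subset _ _) fun ρ _ _ => by positivity)
    have hρS := Finset.mem_of_mem_erase hρ
    by_cases h5 : s.im < ρ.im
    · exact (le_abs_self _).trans (gg_abs _ _ _ (by positivity) (h.far_above hs hb hρS h5))
    · have h6 : ((od ρ : ℂ) / (s - ρ)).im ≤ 0 := by
        rw [gg_im, neg_nonpos]
        have : 0 ≤ s.im - ρ.im := by linarith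
        positivity
      exact h6.trans (by positivity)
  rw [← Finset.sum_mul] at h4
  have h5 : (∑ ρ ∈ S, (od ρ : ℝ)) * (1 / (2 / 5 * (y' - y))) ≤ C * L * (1 / (2 / 5 * (y' - y))) :=
    mul_le_mul_of_nonneg_right h.sum (by positivity)
  have h6 := (Complex.abs_im_le_norm (E s)).trans (h.loc s (h.box1 hs) (h.box2 hs)).1
  have h7 := le_abs_self (E s).im
  have h8 := h.num_hor
  linarith

lemma top (h : Loc C L y y' x O S E) {s : ℂ} (hs : Reg y y' x s) (hb : s.im = y' - x) :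
    0 < (logDeriv riemannZeta s).im := by
  have h1 := h.x_pos
  have h2 := h.d_pos
  rw [h.im_eq hs, ← Finset.add_sum_erase S _ h.mem_y']
  have h3 : 1 / (2 * x) ≤ ((od (pt (1 / 2) y') : ℂ) / (s - pt (1 / 2) y')).im := by
    have e1 : s.im - y' = -x := by rw [hb]; ring
    rw [gg_im, pt_im, e1, neg_div, mul_neg, neg_neg]
    have h4 : ‖s - pt (1 / 2) y'‖ ^ 2 ≤ 2 * x ^ 2 := by
      rw [gg_sq, pt_re, pt_im, e1]
      have : (s.re - 1 / 2) ^ 2 ≤ x ^ 2 := pow_le_pow_left₀ (by linarith [hs.1]) (by linarith [hs.2.1]) 2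
      nlinarith
    have h5 : 0 < ‖s - pt (1 / 2) y'‖ ^ 2 := by
      rw [gg_sq, pt_re, pt_im, e1]
      have : 0 < (-x) ^ 2 := by rw [neg_sq]; positivity
      have : 0 ≤ (s.re - 1 / 2) ^ 2 := sq_nonneg _
      linarith
    have h6 : 1 / (2 * x) ≤ x / ‖s - pt (1 / 2) y'‖ ^ 2 := by
      rw [div_le_div_iff₀ (by positivity) h5]
      nlinarith
    have h7 := h.od1 h.mem_y'
    have h8 : 0 < 1 / (2 * x) := by positivity
    nlinarith
  have h4 : -(∑ ρ ∈ S, (od ρ : ℝ) * (1 / (2 / 5 * (y' - y)))) ≤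
      ∑ ρ ∈ S.erase (pt (1 / 2) y'), ((od ρ : ℂ) / (s - ρ)).im := by
    rw [neg_le, ← Finset.sum_neg_distrib]
    refine (Finset.sum_le_sum (f := fun ρ => -((od ρ : ℂ) / (s - ρ)).im)
      (g := fun ρ => (od ρ : ℝ) * (1 / (2 / 5 * (y' - y)))) fun ρ hρ => ?_).trans
      (Finset.sum_le_sum_of_subset_of_nonneg (Finset.erase_subset _ _) fun ρ _ _ => by positivity)
    have hρS := Finset.mem_of_mem_erase hρ
    by_cases h5 : ρ.im < s.im
    · exact (neg_le_abs _).trans (gg_abs _ _ _ (by positivity) (h.far_below hs hb hρS h5))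
    · have h6 : -((od ρ : ℂ) / (s - ρ)).im ≤ 0 := by
        rw [gg_im, neg_neg]
        have : s.im - ρ.im ≤ 0 := by linarith
        exact mul_nonpos_of_nonneg_of_nonpos (by positivity)
          (div_nonpos_of_nonpos_of_nonneg this (by positivity))
      exact h6.trans (by positivity)
  rw [← Finset.sum_mul] at h4
  have h5 : (∑ ρ ∈ S, (od ρ : ℝ)) * (1 / (2 / 5 * (y' - y))) ≤ C * L * (1 / (2 / 5 * (y' - y))) :=
    mul_le_mul_of_nonneg_right h.sum (by positivity)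
  have h6 := (Complex.abs_im_le_norm (E s)).trans (h.loc s (h.box1 hs) (h.box2 hs)).1
  have h7 := neg_abs_le (E s).im
  have h8 := h.num_hor
  linarith

lemma left (h : Loc C L y y' x O S E) {s : ℂ} (hs : Reg y y' x s) (hb : s.re = 1 / 2) :
    (logDeriv riemannZeta s).re < 0 := by
  have h1 : s = pt (1 / 2) s.im := by
    apply Complex.ext
    · rw [pt_re, hb]
    · rw [pt_im]
  have h2 := h.line s.im (h.box2 hs)
  rw [← h1] at h2
  rw [h.re_eq hs, hb, sub_self, zero_mul, zero_add, h2]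
  have h3 := h.lam s.im (by linarith [hs.2.2.1, h.x_pos]) (by linarith [hs.2.2.2, h.x_pos])
  rw [← h1] at h3
  linarith [h3.1]

/-- the sum of the kernels on the right hand side -/
lemma kern (h : Loc C L y y' x O S E) {s : ℂ} (hs : Reg y y' x s) :
    49 / 50 * (1 / (y' - y) ^ 2) ≤ ∑ ρ ∈ S, (od ρ : ℝ) * KK ρ s := by
  classical
  have h1 := h.x_pos
  have h2 := h.d_pos
  have hx := h.x_le
  have hs' := hs
  obtain ⟨a1, a2, a3, a4⟩ := hs'
  have hsx : |s.re - 1 / 2| ≤ x := by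
    rw [abs_le]
    constructor <;> linarith
  have hsx2 : (s.re - 1 / 2) ^ 2 ≤ x ^ 2 := pow_le_pow_left₀ (by linarith) (by linarith) 2
  rw [← Finset.sum_filter_add_sum_filter_not S (fun ρ : ℂ => ρ.re = 1 / 2)]
  -- the zeros on the line
  have h3 : 2 * (1 / (y' - y) ^ 2) ≤ ∑ ρ ∈ S.filter (fun ρ : ℂ => ρ.re = 1 / 2),
      (od ρ : ℝ) * KK ρ s := by
    have hne : pt (1 / 2) y ≠ pt (1 / 2) y' := by
      intro h4
      have := congrArg Complex.im h4
      rw [pt_im, pt_im] at this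
      linarith
    have hsub : ({pt (1 / 2) y, pt (1 / 2) y'} : Finset ℂ) ⊆
        S.filter (fun ρ : ℂ => ρ.re = 1 / 2) := by
      intro ρ hρ
      rw [Finset.mem_insert, Finset.mem_singleton] at hρ
      rw [Finset.mem_filter]
      rcases hρ with rfl | rfl
      · exact ⟨h.mem_y, pt_re _ _⟩
      · exact ⟨h.mem_y', pt_re _ _⟩
    refine le_trans ?_ (Finset.sum_le_sum_of_subset_of_nonneg hsub fun ρ hρ _ => ?_)
    · rw [Finset.sum_pair hne]
      have key : ∀ v : ℝ, pt (1 / 2) v ∈ S → |s.im - v| ≤ y' - y - x →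
          1 / (y' - y) ^ 2 ≤ (od (pt (1 / 2) v) : ℝ) * KK (pt (1 / 2) v) s := by
        intro v hv hv2
        rw [KK_line (pt_re _ _)]
        have h4 : ‖s - pt (1 / 2) v‖ ^ 2 ≤ (y' - y) ^ 2 := by
          rw [gg_sq, pt_re, pt_im, ← sq_abs (s.im - v)]
          have : |s.im - v| ^ 2 ≤ (y' - y - x) ^ 2 := pow_le_pow_left₀ (abs_nonneg _) hv2 2
          nlinarith
        have h5 : 0 < ‖s - pt (1 / 2) v‖ ^ 2 := by
          have : s ≠ pt (1 / 2) v := fun h6 => h.not_mem hs (h6 ▸ hv)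
          have := norm_pos_iff.mpr (sub_ne_zero.mpr this)
          positivity
        have h6 : 1 / (y' - y) ^ 2 ≤ 1 / ‖s - pt (1 / 2) v‖ ^ 2 :=
          one_div_le_one_div_of_le h5 h4
        have h7 := h.od1 hv
        have h8 : 0 < 1 / ‖s - pt (1 / 2) v‖ ^ 2 := by positivity
        nlinarith
      have k1 := key y h.mem_y (by rw [abs_le]; constructor <;> linarith)
      have k2 := key y' h.mem_y' (by rw [abs_le]; constructor <;> linarith)
      linarith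
    · rw [Finset.mem_filter] at hρ
      rw [KK_line hρ.2]
      positivity
  -- the zeros off the line
  have h4 : -(51 / 50) * (1 / (y' - y) ^ 2) ≤ ∑ ρ ∈ S.filter (fun ρ : ℂ => ¬ ρ.re = 1 / 2),
      (od ρ : ℝ) * KK ρ s := by
    have h5 : ∑ ρ ∈ S.filter (fun ρ : ℂ => ¬ ρ.re = 1 / 2),
        (if Inside ρ y y' then -(51 / 50) * ((od ρ : ℝ) / (ρ.re - 1 / 2) ^ 2) else 0) ≤
        ∑ ρ ∈ S.filter (fun ρ : ℂ => ¬ ρ.re = 1 / 2), (od ρ : ℝ) * KK ρ s := by
      refine Finset.sum_le_sum fun ρ hρ => ?_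
      rw [Finset.mem_filter] at hρ
      split_ifs with h6
      · have h7 := h.ins h6
        have h8 : -(51 / 50) / (ρ.re - 1 / 2) ^ 2 ≤ KK ρ s := by
          refine KK_inside hρ.2 ?_
          linarith
        have h9 : (0 : ℝ) ≤ od ρ := by positivity
        calc -(51 / 50) * ((od ρ : ℝ) / (ρ.re - 1 / 2) ^ 2)
            = (od ρ : ℝ) * (-(51 / 50) / (ρ.re - 1 / 2) ^ 2) := by ring
          _ ≤ (od ρ : ℝ) * KK ρ s := mul_le_mul_of_nonneg_left h8 h9
      · rcases h.cls hρ.1 with h7 | h7 | h7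
        · exact absurd h7.1 hρ.2
        · have h8 : 0 ≤ KK ρ s := by
            refine KK_nonneg ?_
            rcases h7.2 with h9 | h9
            · have := neg_abs_le (s.im - ρ.im)
              linarith
            · have := le_abs_self (s.im - ρ.im)
              linarith
          positivity
        · exact absurd h7.2 h6
    refine le_trans ?_ h5
    rw [← Finset.sum_filter, ← Finset.mul_sum]
    have h6 : ∑ ρ ∈ (S.filter (fun ρ : ℂ => ¬ ρ.re = 1 / 2)).filter (fun ρ => Inside ρ y y'),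
        (od ρ : ℝ) / (ρ.re - 1 / 2) ^ 2 ≤ 1 / (y' - y) ^ 2 := by
      refine le_trans (Finset.sum_le_sum_of_subset_of_nonneg ?_ fun ρ _ _ => by positivity)
        h.good.2
      intro ρ hρ
      rw [Finset.mem_filter, Finset.mem_filter] at hρ
      rw [Finset.mem_filter]
      exact ⟨h.O1 ρ hρ.1.1 hρ.1.2, hρ.2⟩
    linarith
  linarith

lemma right (h : Loc C L y y' x O S E) {s : ℂ} (hs : Reg y y' x s) (hb : s.re = 1 / 2 + x) :
    0 < (logDeriv riemannZeta s).re := by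
  have h1 := h.x_pos
  have h2 := h.d_pos
  have hs0 : Reg y y' x (pt (1 / 2) s.im) := by
    obtain ⟨a1, a2, a3, a4⟩ := hs
    exact ⟨by rw [pt_re], by rw [pt_re]; linarith, by rw [pt_im]; exact a3, by rw [pt_im]; exact a4⟩
  have h3 := h.kern hs
  have h4 := h.lip s (pt (1 / 2) s.im) (h.box1 hs) (h.box2 hs) (h.box1 hs0) (h.box2 hs0)
  have h5 : ‖s - pt (1 / 2) s.im‖ = x := by
    have h6 : ‖s - pt (1 / 2) s.im‖ ^ 2 = x ^ 2 := by
      rw [gg_sq, pt_re, pt_im, hb]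
      ring
    exact (pow_left_inj₀ (norm_nonneg _) h1.le (by norm_num)).mp h6
  rw [h5] at h4
  have h6 := (Complex.abs_re_le_norm _).trans h4
  rw [Complex.sub_re, abs_le] at h6
  have h7 := h.line s.im (h.box2 hs)
  have h8 := (h.lam s.im (by linarith [hs.2.2.1]) (by linarith [hs.2.2.2])).2
  rw [h.re_eq hs, hb]
  have h9 : C * L * x ≤ 1 := by
    have h10 := h.CL_le
    have h11 := h.x_le
    have h12 : 0 ≤ C * L := by nlinarith [h.C1, h.L1]
    nlinarith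
  have h10 : 49 / 5 * L ≤ x * ∑ ρ ∈ S, (od ρ : ℝ) * KK ρ s := by
    have h11 : x * (49 / 50 * (1 / (y' - y) ^ 2)) = 49 / 5 * L := by
      rw [h.hx]
      field_simp
      ring
    rw [← h11]
    exact mul_le_mul_of_nonneg_left h3 h1.le
  have h11 := h.L1
  have h12 : 1 / 2 + x - 1 / 2 = x := by ring
  rw [h12]
  linarith [h6.1]

lemma exists_zero (h : Loc C L y y' x O S E) : ∃ s : ℂ, deriv riemannZeta s = 0 ∧ 1 / 2 < s.re ∧
    s.re < 1 / 2 + x ∧ y < s.im ∧ s.im < y' := by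
  have h1 := h.x_pos
  have h2 := h.d_pos
  have h3 := h.x_le
  have hreg : ∀ s ∈ Rcl (1 / 2) (1 / 2 + x) (y + x) (y' - x), Reg y y' x s := fun s hs => hs
  obtain ⟨s, hs, h0⟩ := rect_sign (f := logDeriv riemannZeta) (a := 1 / 2) (b := 1 / 2 + x)
    (c := y + x) (d := y' - x) (by linarith) (by linarith) (by
      intro s hs
      have h4 := h.upper (hreg s hs)
      exact (ZP.zeta_analyticAt h4).deriv.div (ZP.zeta_analyticAt h4) (h.zeta_ne (hreg s hs)))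
    (fun u hu => h.bottom ⟨by rw [pt_re]; exact hu.1, by rw [pt_re]; exact hu.2,
      by rw [pt_im], by rw [pt_im]; linarith⟩ (pt_im _ _))
    (fun u hu => h.right ⟨by rw [pt_re]; linarith, by rw [pt_re],
      by rw [pt_im]; exact hu.1, by rw [pt_im]; exact hu.2⟩ (pt_re _ _))
    (fun u hu => h.top ⟨by rw [pt_re]; exact hu.1, by rw [pt_re]; exact hu.2,
      by rw [pt_im]; linarith, by rw [pt_im]⟩ (pt_im _ _))
    (fun u hu => h.left ⟨by rw [pt_re], by rw [pt_re]; linarith,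
      by rw [pt_im]; exact hu.1, by rw [pt_im]; exact hu.2⟩ (pt_re _ _))
  obtain ⟨b1, b2, b3, b4⟩ := hs
  have h4 : riemannZeta s ≠ 0 := h.zeta_ne ⟨b1.le, b2.le, b3.le, b4.le⟩
  refine ⟨s, ?_, b1, b2, by linarith, by linarith⟩
  rw [logDeriv_apply, div_eq_zero_iff] at h0
  exact h0.resolve_right h4

end Loc

/-- PA1 -/
theorem good_gap_zero : ∃ K T1 : ℝ, 1 ≤ K ∧ 100 ≤ T1 ∧ ∀ (O : Finset ℂ) (y y' : ℝ), T1 ≤ y → y < y' →
    (y' - y) * (Real.log y) ^ 2 * K ≤ 1 →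
    riemannZeta (pt (1 / 2) y) = 0 → riemannZeta (pt (1 / 2) y') = 0 →
    (∀ u ∈ Ioo y y', riemannZeta (pt (1 / 2) u) ≠ 0) →
    (∀ ρ : ℂ, riemannZeta ρ = 0 → ρ.re ≠ 1 / 2 → |ρ.re - 1 / 2| ≤ 3 / 20 → |ρ.im - y| ≤ 1 / 2 →
      ρ ∈ O) → (∀ ρ ∈ O, riemannZeta ρ = 0 ∧ ρ.re ≠ 1 / 2) → GoodGap O y y' →
    ∃ s : ℂ, deriv riemannZeta s = 0 ∧ 1 / 2 < s.re ∧ s.re < 1 / 2 + K * (y' - y) ^ 2 * Real.log y ∧
      y < s.im ∧ s.im < y' := by
  obtain ⟨C, T, hC, hT, hloc⟩ := local_exp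
  obtain ⟨T2, hT2, hlam⟩ := ZP.Lam_line
  refine ⟨1000 * C, max T T2, by linarith, hT.trans (le_max_left _ _), ?_⟩
  intro O y y' hy hyy hsm hz hz' hno hO1 _ hgood
  have hyT := (le_max_left T T2).trans hy
  have hyT2 := (le_max_right T T2).trans hy
  obtain ⟨S, E, h1, h2, h3, h4, h5⟩ := hloc y hyT
  have hy100 : 100 ≤ y := hT.trans hyT
  have hL : 1 ≤ Real.log y := by
    rw [Real.le_log_iff_exp_le (by linarith)]
    have := Real.exp_one_lt_d9
    linarith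
  have hd : 0 < y' - y := sub_pos.mpr hyy
  have hsmall : C * Real.log y ^ 2 * (y' - y) ≤ 1 / 1000 := by nlinarith
  have hd1 : y' - y ≤ 1 / 1000 := by
    have h6 : 1 ≤ C * Real.log y ^ 2 := by nlinarith
    nlinarith
  have h : Loc C (Real.log y) y y' (10 * (y' - y) ^ 2 * Real.log y) O S E :=
    { C1 := hC
      L1 := hL
      y1 := hy100
      hd := hyy
      small := hsmall
      hx := rfl
      iff := h1
      sum := h2
      loc := fun s hs hs' => ⟨(h3 s hs hs').2.1, (h3 s hs hs').2.2⟩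
      lip := h4
      line := h5
      lam := by
        intro u hu hu'
        have h6 := hlam u (hyT2.trans hu)
        have h7 : Real.log u ≤ 2 * Real.log y := by
          rw [← Real.log_rpow (by linarith), Real.rpow_two]
          exact Real.log_le_log (by linarith) (by nlinarith)
        have h8 : Real.log y ≤ Real.log u := Real.log_le_log (by linarith) hu
        constructor
        · linarith [h6.1]
        · linarith [h6.2]
      zy := hz
      zy' := hz'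
      no := hno
      O1 := fun ρ hρ hne => by
        have h6 := (h1 ρ).mp hρ
        exact hO1 ρ h6.1 hne h6.2.1 h6.2.2
      good := hgood }
  obtain ⟨s, s1, s2, s3, s4, s5⟩ := h.exists_zero
  refine ⟨s, s1, s2, s3.trans_le ?_, s4, s5⟩
  have h6 : 0 ≤ (y' - y) ^ 2 * Real.log y := by positivity
  nlinarith

end Pool.Agent.ZC
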