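import Pool.Agent.Lib.MP_af3d17_cn.Kernel
import Pool.Agent.Lib.MP_af3d17_cn.Mirror
import Pool.Agent.Lib.MP_af3d17_nt_h98.Near

/-!
# MP_af3d17_nt: local expansion of `ζ'/ζ` near the critical line
-/

set_option autoImplicit false

namespace Pool.Agent.ZC

open Filter Topology Set Metric
open Pool.Agent.ZP (pt Lam EE IsUpperZero IsOrdinateSeq)

/-- order of a product of linear factors times a nonvanishing function -/
lemma order_fact {k : ℕ} {z : Fin k → ℂ} {f g : ℂ → ℂ} {ρ : ℂ}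
    (hf : AnalyticAt ℂ f ρ) (hg : AnalyticAt ℂ g ρ) (hg0 : g ρ ≠ 0)
    (hfe : f =ᶠ[𝓝 ρ] fun w => (∏ i, (w - z i)) * g w) :
    analyticOrderAt f ρ = ((Finset.univ.filter fun i => z i = ρ).card : ℕ) := by
  rw [hf.analyticOrderAt_eq_natCast]
  refine ⟨fun w => (∏ i ∈ Finset.univ.filter (fun i => ¬ z i = ρ), (w - z i)) * g w, ?_, ?_, ?_⟩
  · refine AnalyticAt.mul ?_ hg
    exact Finset.analyticAt_fun_prod _ fun i _ => analyticAt_id.sub analyticAt_const
  · refine mul_ne_zero (Finset.prod_ne_zero_iff.2 fun i hi => ?_) hg0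
    rw [Finset.mem_filter] at hi
    exact sub_ne_zero.2 (Ne.symm hi.2)
  · filter_upwards [hfe] with w hw
    rw [hw, ← Finset.prod_filter_mul_prod_filter_not Finset.univ (fun i => z i = ρ)]
    have h1 : ∏ i ∈ Finset.univ.filter (fun i => z i = ρ), (w - z i)
        = (w - ρ) ^ (Finset.univ.filter fun i => z i = ρ).card := by
      rw [← Finset.prod_const]
      refine Finset.prod_congr rfl fun i hi => ?_
      rw [(Finset.mem_filter.1 hi).2]
    rw [h1, smul_eq_mul, mul_assoc]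

/-- sum over the fibres of `z` -/
lemma sum_fibre {R : Type} [CommSemiring R] {k : ℕ} {z : Fin k → ℂ} (A : Finset (Fin k))
    (m : ℂ → ℕ) (hm : ∀ ρ ∈ A.image z, m ρ = (A.filter fun i => z i = ρ).card) (F : ℂ → R) :
    ∑ i ∈ A, F (z i) = ∑ ρ ∈ A.image z, (m ρ : R) * F ρ := by
  rw [← Finset.sum_fiberwise_of_maps_to (t := A.image z) (g := z)
    (fun i hi => Finset.mem_image_of_mem _ hi)]
  refine Finset.sum_congr rfl fun ρ hρ => ?_
  rw [Finset.sum_congr rfl (g := fun _ => F ρ) fun i hi => by rw [(Finset.mem_filter.1 hi).2],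
    Finset.sum_const, nsmul_eq_mul, hm ρ hρ]

/-- Lipschitz bound for the logarithmic derivative of the zero free factor -/
lemma logDeriv_lip' {g : ℂ → ℂ} {c : ℂ} {B : ℝ}
    (hg : AnalyticOnNhd ℂ g (closedBall c (98 / 10)))
    (hg0 : ∀ s ∈ closedBall c (97 / 10), g s ≠ 0)
    (hB : ∀ s ∈ closedBall c (96 / 10), ‖logDeriv g s‖ ≤ B) {x y : ℂ}
    (hx : x ∈ closedBall c (956 / 100)) (hy : y ∈ closedBall c (956 / 100)) :
    ‖logDeriv g y - logDeriv g x‖ ≤ 25 * B * ‖y - x‖ := by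
  have hd : ∀ s ∈ closedBall c (97 / 10), DifferentiableAt ℂ (logDeriv g) s := by
    intro s hs
    have h8 : s ∈ closedBall c (98 / 10) := closedBall_subset_closedBall (by norm_num) hs
    exact ((hg s h8).deriv.div (hg s h8) (hg0 s hs)).differentiableAt
  refine Convex.norm_image_sub_le_of_norm_deriv_le (𝕜 := ℂ)
    (fun s hs => hd s (closedBall_subset_closedBall (by norm_num) hs)) ?_
    (convex_closedBall c (956 / 100)) hx hy
  intro s hs
  rw [mem_closedBall] at hs
  have hsub : ∀ w ∈ closedBall s (4 / 100), w ∈ closedBall c (96 / 10) := by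
    intro w hw
    rw [mem_closedBall] at hw ⊢
    linarith [dist_triangle w s c]
  have h1 : DiffContOnCl ℂ (logDeriv g) (ball s (4 / 100)) := by
    apply DifferentiableOn.diffContOnCl
    rw [closure_ball s (by norm_num)]
    intro w hw
    exact (hd w (closedBall_subset_closedBall (by norm_num) (hsub w hw))).differentiableWithinAt
  have h2 := Complex.norm_deriv_le_of_forall_mem_sphere_norm_le (by norm_num) h1
    (fun w hw => hB w (hsub w (sphere_subset_closedBall hw)))
  calc ‖deriv (logDeriv g) s‖ ≤ B / (4 / 100) := h2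
    _ = 25 * B := by ring

lemma continuous_pt (σ : ℝ) : Continuous fun u : ℝ => pt σ u := by
  have h : (fun u : ℝ => pt σ u) = fun u : ℝ => (σ : ℂ) + u * Complex.I := by
    funext u
    apply Complex.ext <;> simp
  rw [h]
  fun_prop

open Classical in
/-- LE1 -/
theorem local_exp : ∃ C T1 : ℝ, 1 ≤ C ∧ 100 ≤ T1 ∧ ∀ t ≥ T1, ∃ (S : Finset ℂ) (E : ℂ → ℂ),
    (∀ ρ, ρ ∈ S ↔ riemannZeta ρ = 0 ∧ |ρ.re - 1 / 2| ≤ 3 / 20 ∧ |ρ.im - t| ≤ 1 / 2) ∧
    (∑ ρ ∈ S, (od ρ : ℝ)) ≤ C * Real.log t ∧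
    (∀ s : ℂ, |s.re - 1 / 2| ≤ 1 / 20 → |s.im - t| ≤ 1 / 4 → AnalyticAt ℂ E s ∧
      ‖E s‖ ≤ C * Real.log t ∧
      (riemannZeta s ≠ 0 → logDeriv riemannZeta s = ∑ ρ ∈ S, (od ρ : ℂ) / (s - ρ) + E s)) ∧
    (∀ s s' : ℂ, |s.re - 1 / 2| ≤ 1 / 20 → |s.im - t| ≤ 1 / 4 → |s'.re - 1 / 2| ≤ 1 / 20 →
      |s'.im - t| ≤ 1 / 4 → ‖E s - E s'‖ ≤ C * Real.log t * ‖s - s'‖) ∧
    (∀ u : ℝ, |u - t| ≤ 1 / 4 → (E (pt (1 / 2) u)).re = -(Lam (pt (1 / 2) u)).re / 2) := by
  obtain ⟨C0, T0, hC0, hT0, hloc⟩ := ZP.local_zeta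
  refine ⟨125 * C0 + 1, T0, by linarith, hT0, fun t ht => ?_⟩
  have ht0 : 100 ≤ t := hT0.trans ht
  have hlog : 0 ≤ Real.log t := Real.log_nonneg (by linarith)
  obtain ⟨k, z, g, hk, hz, hga, hfac, hg0, hgB⟩ := hloc t ht
  -- geometry
  have hmem : ∀ (r : ℝ) (s : ℂ), 0 ≤ r → (s.re - 10) ^ 2 + (s.im - t) ^ 2 ≤ r ^ 2 →
      s ∈ closedBall (pt 10 t) r := fun r s hr h => ZP.pt_mem_disc (σ := s.re) (u := s.im) hr h
  have hbig : ∀ s : ℂ, |s.re - 1 / 2| ≤ 3 / 20 → |s.im - t| ≤ 1 / 2 →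
      s ∈ closedBall (pt 10 t) (97 / 10) := by
    intro s h1 h2
    rw [abs_le] at h1 h2
    refine hmem _ s (by norm_num) ?_
    nlinarith [h1.1, h1.2, h2.1, h2.2]
  have hsmall : ∀ s : ℂ, |s.re - 1 / 2| ≤ 1 / 20 → |s.im - t| ≤ 1 / 4 →
      s ∈ closedBall (pt 10 t) (956 / 100) := by
    intro s h1 h2
    rw [abs_le] at h1 h2
    refine hmem _ s (by norm_num) ?_
    nlinarith [h1.1, h1.2, h2.1, h2.2]
  set P : Fin k → Prop := fun i => |(z i).re - 1 / 2| ≤ 3 / 20 ∧ |(z i).im - t| ≤ 1 / 2 with hP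
  set A : Finset (Fin k) := Finset.univ.filter P with hA
  set E : ℂ → ℂ := fun s => ∑ i ∈ Finset.univ.filter (fun i => ¬ P i), 1 / (s - z i)
    + logDeriv g s with hE
  have hS : ∀ ρ, ρ ∈ A.image z ↔
      riemannZeta ρ = 0 ∧ |ρ.re - 1 / 2| ≤ 3 / 20 ∧ |ρ.im - t| ≤ 1 / 2 := by
    intro ρ
    rw [Finset.mem_image]
    constructor
    · rintro ⟨i, hi, rfl⟩
      have := (Finset.mem_filter.1 hi).2
      exact ⟨(hz i).2, this.1, this.2⟩
    · rintro ⟨h0, h1, h2⟩
      have h3 := hbig ρ h1 h2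
      have h4 := hfac ρ (closedBall_subset_closedBall (by norm_num) h3)
      rw [h0] at h4
      rcases mul_eq_zero.1 h4.symm with h5 | h5
      · obtain ⟨i, _, hi⟩ := Finset.prod_eq_zero_iff.1 h5
        have hi' : z i = ρ := (sub_eq_zero.1 hi).symm
        refine ⟨i, ?_, hi'⟩
        rw [hA, Finset.mem_filter]
        refine ⟨Finset.mem_univ _, ?_⟩
        simp only [hP, hi']
        exact ⟨h1, h2⟩
      · exact absurd h5 (hg0 ρ h3)
  have him : ∀ ρ ∈ A.image z, 0 < ρ.im := by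
    intro ρ hρ
    have := (hS ρ).1 hρ
    have h1 := (abs_le.1 this.2.2).1
    linarith
  have hod : ∀ ρ ∈ A.image z, od ρ = (A.filter fun i => z i = ρ).card := by
    intro ρ hρ
    have h0 := (hS ρ).1 hρ
    have h3 := hbig ρ h0.2.1 h0.2.2
    have h8 : ρ ∈ closedBall (pt 10 t) (98 / 10) := closedBall_subset_closedBall (by norm_num) h3
    have hb : ρ ∈ ball (pt 10 t) (98 / 10) := by
      rw [mem_ball]; rw [mem_closedBall] at h3; linarith
    have h4 : riemannZeta =ᶠ[𝓝 ρ] fun w => (∏ i, (w - z i)) * g w := by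
      filter_upwards [isOpen_ball.mem_nhds hb] with w hw
      exact hfac w (ball_subset_closedBall hw)
    have h5 := order_fact (ZP.zeta_analyticAt (him ρ hρ)) (hga ρ h8) (hg0 ρ h3) h4
    have h6 : (Finset.univ.filter fun i => z i = ρ) = A.filter fun i => z i = ρ := by
      ext i
      simp only [Finset.mem_filter, Finset.mem_univ, true_and, hA, hP]
      constructor
      · intro h
        exact ⟨by rw [h]; exact h0.2, h⟩
      · exact fun h => h.2
    rw [od, h5, h6, ENat.toNat_natCast]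
  have hEana : ∀ s : ℂ, |s.re - 1 / 2| ≤ 3 / 20 → |s.im - t| ≤ 1 / 2 → AnalyticAt ℂ E s := by
    intro s h1 h2
    have h3 := hbig s h1 h2
    have h8 : s ∈ closedBall (pt 10 t) (98 / 10) := closedBall_subset_closedBall (by norm_num) h3
    refine AnalyticAt.add ?_ ((hga s h8).deriv.div (hga s h8) (hg0 s h3))
    refine Finset.analyticAt_fun_sum _ fun i hi => ?_
    refine analyticAt_const.div (analyticAt_id.sub analyticAt_const) ?_
    intro h4
    have h5 : s = z i := sub_eq_zero.1 h4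
    refine (Finset.mem_filter.1 hi).2 ?_
    simp only [hP, ← h5]
    exact ⟨h1, h2⟩
  have hEeq : ∀ s : ℂ, |s.re - 1 / 2| ≤ 3 / 20 → |s.im - t| ≤ 1 / 2 → riemannZeta s ≠ 0 →
      logDeriv riemannZeta s = ∑ ρ ∈ A.image z, (od ρ : ℂ) / (s - ρ) + E s := by
    intro s h1 h2 h0
    rw [ZP.A.logDeriv_fact hga hfac (hbig s h1 h2) h0,
      ← Finset.sum_filter_add_sum_filter_not Finset.univ P (fun i => 1 / (s - z i)),
      sum_fibre A od hod (fun w => 1 / (s - w))]
    simp only [hE, mul_one_div]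
    ring
  have hfar : ∀ i, ¬ P i → ∀ s : ℂ, |s.re - 1 / 2| ≤ 1 / 20 → |s.im - t| ≤ 1 / 4 →
      1 / 10 ≤ ‖s - z i‖ := by
    intro i hi s h1 h2
    by_contra hlt
    rw [not_le] at hlt
    apply hi
    have h3 := (Complex.abs_re_le_norm (s - z i)).trans hlt.le
    have h4 := (Complex.abs_im_le_norm (s - z i)).trans hlt.le
    rw [Complex.sub_re] at h3
    rw [Complex.sub_im] at h4
    rw [abs_le] at h1 h2 h3 h4
    refine ⟨abs_le.2 ⟨?_, ?_⟩, abs_le.2 ⟨?_, ?_⟩⟩ <;>
      linarith [h1.1, h1.2, h2.1, h2.2, h3.1, h3.2, h4.1, h4.2]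
  have hcard : ((Finset.univ.filter (fun i => ¬ P i)).card : ℝ) ≤ C0 * Real.log t := by
    refine le_trans ?_ hk
    have := Finset.card_le_univ (Finset.univ.filter (fun i => ¬ P i))
    rw [Fintype.card_fin] at this
    exact_mod_cast this
  have hCl : 0 ≤ C0 * Real.log t := by positivity
  refine ⟨A.image z, E, hS, ?_, fun s h1 h2 => ⟨?_, ?_, ?_⟩, fun s s' h1 h2 h1' h2' => ?_, ?_⟩
  · have h1 := sum_fibre (R := ℝ) A od hod (fun _ => 1)
    simp only [mul_one, Finset.sum_const, nsmul_eq_mul] at h1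
    rw [← h1]
    have h2 : (A.card : ℝ) ≤ k := by
      have := Finset.card_le_univ A
      rw [Fintype.card_fin] at this
      exact_mod_cast this
    nlinarith [h2, hk]
  · exact hEana s (h1.trans (by norm_num)) (h2.trans (by norm_num))
  · have h3 := hgB s (closedBall_subset_closedBall (by norm_num) (hsmall s h1 h2))
    have h4 : ‖∑ i ∈ Finset.univ.filter (fun i => ¬ P i), 1 / (s - z i)‖
        ≤ (Finset.univ.filter (fun i => ¬ P i)).card * 10 := by
      refine (norm_sum_le _ _).trans ?_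
      rw [← nsmul_eq_mul, ← Finset.sum_const]
      refine Finset.sum_le_sum fun i hi => ?_
      have h5 := hfar i (Finset.mem_filter.1 hi).2 s h1 h2
      rw [norm_div, norm_one, div_le_iff₀ (by linarith)]
      linarith
    calc ‖E s‖ ≤ _ := norm_add_le _ _
      _ ≤ (Finset.univ.filter (fun i => ¬ P i)).card * 10 + C0 * Real.log t := add_le_add h4 h3
      _ ≤ (125 * C0 + 1) * Real.log t := by nlinarith [hcard, hCl, hlog]
  · exact hEeq s (h1.trans (by norm_num)) (h2.trans (by norm_num))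
  · have h3 := logDeriv_lip' hga hg0 hgB (hsmall s' h1' h2') (hsmall s h1 h2)
    have h4 : ‖∑ i ∈ Finset.univ.filter (fun i => ¬ P i), 1 / (s - z i)
        - ∑ i ∈ Finset.univ.filter (fun i => ¬ P i), 1 / (s' - z i)‖
        ≤ (Finset.univ.filter (fun i => ¬ P i)).card * (100 * ‖s - s'‖) := by
      rw [← Finset.sum_sub_distrib]
      refine (norm_sum_le _ _).trans ?_
      rw [← nsmul_eq_mul, ← Finset.sum_const]
      refine Finset.sum_le_sum fun i hi => ?_
      have h5 := hfar i (Finset.mem_filter.1 hi).2 s h1 h2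
      have h6 := hfar i (Finset.mem_filter.1 hi).2 s' h1' h2'
      have h7 : s - z i ≠ 0 := by
        intro h; rw [h, norm_zero] at h5; linarith
      have h8 : s' - z i ≠ 0 := by
        intro h; rw [h, norm_zero] at h6; linarith
      have h9 : 1 / (s - z i) - 1 / (s' - z i) = (s' - s) / ((s - z i) * (s' - z i)) := by
        field_simp
        ring
      rw [h9, norm_div, norm_mul, norm_sub_rev s' s]
      have h10 : 1 / 100 ≤ ‖s - z i‖ * ‖s' - z i‖ := by nlinarith
      rw [div_le_iff₀ (by linarith)]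
      nlinarith [norm_nonneg (s - s')]
    have h5 : E s - E s' = (∑ i ∈ Finset.univ.filter (fun i => ¬ P i), 1 / (s - z i)
        - ∑ i ∈ Finset.univ.filter (fun i => ¬ P i), 1 / (s' - z i))
        + (logDeriv g s - logDeriv g s') := by
      simp only [hE]; ring
    rw [h5]
    calc _ ≤ _ := norm_add_le _ _
      _ ≤ (Finset.univ.filter (fun i => ¬ P i)).card * (100 * ‖s - s'‖)
          + 25 * (C0 * Real.log t) * ‖s - s'‖ := add_le_add h4 h3
      _ = (100 * (Finset.univ.filter (fun i => ¬ P i)).card + 25 * (C0 * Real.log t))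
          * ‖s - s'‖ := by ring
      _ ≤ (125 * C0 + 1) * Real.log t * ‖s - s'‖ := by
          refine mul_le_mul_of_nonneg_right ?_ (norm_nonneg _)
          nlinarith [hcard, hlog]
  · intro u hu
    set φ : ℝ → ℝ := fun u => (E (pt (1 / 2) u)).re + (Lam (pt (1 / 2) u)).re / 2 with hφ
    have hu0 : 0 < u := by
      have := (abs_le.1 hu).1
      linarith
    have hφc : ContinuousAt φ u := by
      have h1 : ContinuousAt (fun v : ℝ => E (pt (1 / 2) v)) u :=
        ContinuousAt.comp (g := E) (f := fun v : ℝ => pt (1 / 2) v)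
          (hEana _ (by rw [ZP.pt_re]; norm_num) (by rw [ZP.pt_im]; linarith)).continuousAt
          (continuous_pt _).continuousAt
      have h2 : ContinuousAt (fun v : ℝ => Lam (pt (1 / 2) v)) u :=
        ContinuousAt.comp (g := Lam) (f := fun v : ℝ => pt (1 / 2) v)
          (ZP.Lam_analytic (by rw [ZP.pt_im]; exact hu0)).continuousAt
          (continuous_pt _).continuousAt
      exact (Complex.continuous_re.continuousAt.comp h1).add
        ((Complex.continuous_re.continuousAt.comp h2).div_const 2)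
    have hφ0 : ∀ᶠ v in 𝓝[≠] u, φ v = 0 := by
      have h1 : ∀ᶠ v in 𝓝 u, |v - t| < 1 / 2 := by
        have : Continuous fun v : ℝ => |v - t| := by fun_prop
        exact this.continuousAt.eventually (gt_mem_nhds (by show |u - t| < 1 / 2; linarith))
      have h2 : ∀ᶠ v in 𝓝 u, v ∉ (Complex.im '' (↑(A.image z) : Set ℂ)) \ {u} := by
        have hfin : ((Complex.im '' (↑(A.image z) : Set ℂ)) \ {u}).Finite :=
          ((A.image z).finite_toSet.image _).sdiff
        exact hfin.isClosed.compl_mem_nhds (by simp)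
      filter_upwards [h1.filter_mono nhdsWithin_le_nhds, h2.filter_mono nhdsWithin_le_nhds,
        self_mem_nhdsWithin] with v hv1 hv2 hv3
      have hv4 : pt (1 / 2) v ∉ A.image z := by
        intro h
        exact hv2 ⟨⟨pt (1 / 2) v, Finset.mem_coe.2 h, rfl⟩, hv3⟩
      have hre : |(pt (1 / 2) v).re - 1 / 2| ≤ 3 / 20 := by rw [ZP.pt_re]; norm_num
      have him' : |(pt (1 / 2) v).im - t| ≤ 1 / 2 := by rw [ZP.pt_im]; exact hv1.le
      have hv5 : riemannZeta (pt (1 / 2) v) ≠ 0 := fun h => hv4 ((hS _).2 ⟨h, hre, him'⟩)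
      have hv0 : 0 < v := by
        have := (abs_lt.1 hv1).1
        linarith
      have h3 := hEeq _ hre him' hv5
      have h4 := ZP.re_logDeriv_line hv0 hv5
      have h5 := re_sum_mir (A.image z) od (fun ρ hρ => by
        have h6 := (hS ρ).1 hρ
        refine ⟨(hS _).2 ⟨(zeta_mir (him ρ hρ)).2 h6.1, ?_, ?_⟩, od_mir (him ρ hρ)⟩
        · rw [mir_re, abs_le]
          have := abs_le.1 h6.2.1
          constructor <;> linarith [this.1, this.2]
        · rw [mir_im]; exact h6.2.2) (pt (1 / 2) v) hv4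
      have h6 := congrArg Complex.re h3
      rw [Complex.add_re, h5, ZP.pt_re, sub_self, zero_mul, zero_add] at h6
      simp only [hφ]
      linarith
    have h1 : Tendsto φ (𝓝[≠] u) (𝓝 (φ u)) := hφc.mono_left nhdsWithin_le_nhds
    have h2 : Tendsto φ (𝓝[≠] u) (𝓝 0) :=
      (tendsto_congr' (f₂ := fun _ => (0 : ℝ)) hφ0).2 tendsto_const_nhds
    have h3 := tendsto_nhds_unique h1 h2
    simp only [hφ] at h3
    linarith

end Pool.Agent.ZC
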