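import Pool.Agent.Lib.MP_af3d17_cn.CountBasic
import Pool.Agent.Lib.MP_af3d17_cn.Lift1
import Pool.Agent.Lib.MP_af3d17_cn.LocalExp
import Pool.Agent.Lib.MP_af3d17_cn.Mirror
import Pool.Agent.Lib.MP_af3d17_cn.Kernel
import Pool.Agent.Lib.MP_af3d17_cn.CIplus

/-!
Row CI5: Levinson-Montgomery.
-/

set_option autoImplicit false

namespace Pool.Agent.ZC

open Filter Topology Set
open Pool.Agent.ZP (pt Lam EE IsUpperZero IsOrdinateSeq pt_re pt_im)

private lemma lc_min {S : Set ℂ} (hS : S.Finite) (g : ℂ → ℝ) (hg : ∀ z ∈ S, 0 < g z) :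
    ∃ e > 0, ∀ z ∈ S, e ≤ g z := by
  rcases S.eq_empty_or_nonempty with h | h
  · exact ⟨1, one_pos, fun z hz => by rw [h] at hz; exact absurd hz (Set.notMem_empty z)⟩
  · obtain ⟨a, ha, hmin⟩ := Set.exists_min_image S g hS h
    exact ⟨g a, hg a ha, hmin⟩

private lemma lc_zeros {f : ℂ → ℂ} {a b c d : ℝ} (hf : AnalyticOnNhd ℂ f (Rcl a b c d))
    (h0 : ∃ s ∈ Rcl a b c d, f s ≠ 0) : {z | z ∈ Rcl a b c d ∧ f z = 0}.Finite := by
  refine Set.Finite.of_injOn (f := fun z => (z, 0)) (t := zset f (Rcl a b c d)) ?_ ?_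
    (zset_finite hf h0)
  · intro z hz
    refine ⟨hz.1, ?_⟩
    have h1 : analyticOrderAt f z ≠ 0 := (hf z hz.1).analyticOrderAt_ne_zero.2 hz.2
    simpa using pos_iff_ne_zero.2 h1
  · intro z _ z' _ h
    exact congrArg Prod.fst h

private lemma lc_cnt {f : ℂ → ℂ} {S S' : Set ℂ} (hs : S ⊆ S') (h : ∀ s ∈ S', s ∉ S → f s ≠ 0) :
    cnt f S' = cnt f S := by
  unfold cnt
  congr 1
  ext p
  constructor
  · rintro ⟨h1, h2⟩
    refine ⟨?_, h2⟩
    by_contra h3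
    have h4 := h _ h1 h3
    have h5 : analyticOrderAt f p.1 = 0 := analyticOrderAt_eq_zero.2 (Or.inr h4)
    rw [h5] at h2
    simp at h2
  · rintro ⟨h1, h2⟩
    exact ⟨hs h1, h2⟩

/-- the real part of the logarithmic derivative is negative slightly to the left of the line -/
private lemma lc_neg {C1 L δ η t : ℝ} {S : Finset ℂ} {E : ℂ → ℂ} (hδ : 0 < δ)
    (hη : 0 < η) (hη1 : η ≤ 1 / 20) (hηδ : η ≤ δ / 20) (hC1 : 0 ≤ C1) (hL : Real.log t ≤ L)
    (hηC : η * (C1 * L * (51 / 50 / δ ^ 2 + 1)) < 1 / 2)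
    (ht : 100 ≤ t)
    (hS : ∀ ρ, ρ ∈ S ↔ riemannZeta ρ = 0 ∧ |ρ.re - 1 / 2| ≤ 3 / 20 ∧ |ρ.im - t| ≤ 1 / 2)
    (hsum : (∑ ρ ∈ S, (od ρ : ℝ)) ≤ C1 * Real.log t)
    (hE : riemannZeta (pt (1 / 2 - η) t) ≠ 0 → logDeriv riemannZeta (pt (1 / 2 - η) t)
      = ∑ ρ ∈ S, (od ρ : ℂ) / (pt (1 / 2 - η) t - ρ) + E (pt (1 / 2 - η) t))
    (hE2 : ‖E (pt (1 / 2 - η) t) - E (pt (1 / 2) t)‖
      ≤ C1 * Real.log t * ‖pt (1 / 2 - η) t - pt (1 / 2) t‖)
    (hE3 : (E (pt (1 / 2) t)).re ≤ -(1 / 2))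
    (hoff : ∀ ρ ∈ S, ρ.re ≠ 1 / 2 → δ ≤ |ρ.re - 1 / 2|)
    (h0 : riemannZeta (pt (1 / 2 - η) t) ≠ 0) :
    (logDeriv riemannZeta (pt (1 / 2 - η) t)).re < 0 := by
  have hpos : ∀ ρ ∈ S, 0 < ρ.im := by
    intro ρ hρ
    have h1 := (abs_le.1 ((hS ρ).1 hρ).2.2).1
    linarith
  have hmir : ∀ ρ ∈ S, mir ρ ∈ S ∧ od (mir ρ) = od ρ := by
    intro ρ hρ
    obtain ⟨h1, h2, h3⟩ := (hS ρ).1 hρ
    refine ⟨(hS _).2 ⟨(zeta_mir (hpos ρ hρ)).2 h1, ?_, ?_⟩, od_mir (hpos ρ hρ)⟩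
    · have h4 : (mir ρ).re - 1 / 2 = -(ρ.re - 1 / 2) := by
        simp only [mir, Complex.sub_re, Complex.one_re, Complex.conj_re]
        ring
      rw [h4, abs_neg]
      exact h2
    · have h4 : (mir ρ).im = ρ.im := by
        simp [mir]
      rw [h4]
      exact h3
  have hs : pt (1 / 2 - η) t ∉ S := fun h => h0 ((hS _).1 h).1
  have h1 := re_sum_mir S od hmir (pt (1 / 2 - η) t) hs
  rw [hE h0, Complex.add_re, h1, pt_re]
  have hKK : ∀ ρ ∈ S, -(51 / 50 / δ ^ 2) ≤ KK ρ (pt (1 / 2 - η) t) := by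
    intro ρ hρ
    by_cases h2 : ρ.re = 1 / 2
    · rw [KK_line h2]
      have h3 : 0 ≤ 1 / ‖pt (1 / 2 - η) t - ρ‖ ^ 2 := by positivity
      have h4 : 0 ≤ 51 / 50 / δ ^ 2 := by positivity
      linarith
    · have h3 := hoff ρ hρ h2
      have h4 : |(pt (1 / 2 - η) t).re - 1 / 2| ≤ |ρ.re - 1 / 2| / 20 := by
        rw [pt_re, show 1 / 2 - η - 1 / 2 = -η by ring, abs_neg, abs_of_pos hη]
        linarith
      refine le_trans ?_ (KK_inside h2 h4)
      rw [neg_div, neg_le_neg_iff]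
      have h5 : δ ^ 2 ≤ (ρ.re - 1 / 2) ^ 2 := by
        rw [← sq_abs (ρ.re - 1 / 2)]
        exact pow_le_pow_left₀ hδ.le h3 2
      exact div_le_div_of_nonneg_left (by norm_num) (by positivity) h5
  have h2 : -(51 / 50 / δ ^ 2) * (C1 * L) ≤ ∑ ρ ∈ S, (od ρ : ℝ) * KK ρ (pt (1 / 2 - η) t) := by
    have h3 : ∑ ρ ∈ S, (od ρ : ℝ) * (-(51 / 50 / δ ^ 2))
        ≤ ∑ ρ ∈ S, (od ρ : ℝ) * KK ρ (pt (1 / 2 - η) t) :=
      Finset.sum_le_sum fun ρ hρ => mul_le_mul_of_nonneg_left (hKK ρ hρ) (Nat.cast_nonneg _)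
    rw [← Finset.sum_mul] at h3
    have h4 : (∑ ρ ∈ S, (od ρ : ℝ)) ≤ C1 * L :=
      hsum.trans (mul_le_mul_of_nonneg_left hL hC1)
    have h5 : 0 ≤ 51 / 50 / δ ^ 2 := by positivity
    have h6 := mul_le_mul_of_nonneg_left h4 h5
    linarith
  have h3 : (E (pt (1 / 2 - η) t)).re ≤ -(1 / 2) + C1 * L * η := by
    have h4 : ‖pt (1 / 2 - η) t - pt (1 / 2) t‖ = η := by
      have h5 : pt (1 / 2 - η) t - pt (1 / 2) t = ((-η : ℝ) : ℂ) := by
        apply Complex.ext <;> simp [pt]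
      rw [h5, Complex.norm_real, Real.norm_eq_abs, abs_neg, abs_of_pos hη]
    rw [h4] at hE2
    have h5 := Complex.re_le_norm (E (pt (1 / 2 - η) t) - E (pt (1 / 2) t))
    rw [Complex.sub_re] at h5
    have h6 : C1 * Real.log t * η ≤ C1 * L * η := by gcongr
    linarith
  have h4 := mul_le_mul_of_nonneg_left h2 hη.le
  have h5 : (1 / 2 - η - 1 / 2) * ∑ ρ ∈ S, (od ρ : ℝ) * KK ρ (pt (1 / 2 - η) t)
      = -(η * ∑ ρ ∈ S, (od ρ : ℝ) * KK ρ (pt (1 / 2 - η) t)) := by ring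
  rw [h5]
  linarith

/-- CI5: Levinson-Montgomery -/
theorem left_count : ∃ C T1 : ℝ, 0 < C ∧ 100 ≤ T1 ∧ ∀ c d : ℝ, T1 ≤ c → c < d → GenH c → GenH d →
    |(cnt (deriv riemannZeta) (Rc (-1) (1 / 2) c d) : ℝ) - cnt riemannZeta (Rc (-1) (1 / 2) c d)|
      ≤ C * Real.log d := by
  obtain ⟨C1, T1, hC1, hT1, hexp⟩ := local_exp
  obtain ⟨TL, hLam⟩ := Pool.Agent.ZP.Lam_lower 1
  obtain ⟨C2, T2, hC2, hT2, hCI⟩ := CIplus
  have hpi := Real.pi_pos
  refine ⟨C2 + Real.pi, max (max T1 T2) TL, by positivity,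
    hT1.trans ((le_max_left _ _).trans (le_max_left _ _)), ?_⟩
  intro c d hc hcd hGc hGd
  have hc1 : T1 ≤ c := ((le_max_left _ _).trans (le_max_left _ _)).trans hc
  have hc2 : T2 ≤ c := ((le_max_right _ _).trans (le_max_left _ _)).trans hc
  have hcL : TL ≤ c := (le_max_right _ _).trans hc
  have hc100 : 100 ≤ c := hT1.trans hc1
  have hlog : 1 ≤ Real.log d := by
    rw [Real.le_log_iff_exp_le (by linarith)]
    have := Real.exp_one_lt_d9
    linarith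
  -- the finitely many zeros
  set K := Rcl (7 / 20) (13 / 20) (c - 1 / 2) (d + 1 / 2) with hK
  have hKpos : ∀ s ∈ K, 0 < s.im := fun s hs => by
    have := hs.2.2.1
    linarith
  have hzan : AnalyticOnNhd ℂ riemannZeta K := fun s hs => Pool.Agent.ZP.zeta_analyticAt (hKpos s hs)
  have hcK : pt (1 / 2) c ∈ K := by
    refine ⟨?_, ?_, ?_, ?_⟩ <;> simp only [pt_re, pt_im] <;> linarith
  have hf1 := lc_zeros hzan ⟨_, hcK, (hGc (pt (1 / 2) c) rfl).1⟩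
  have hf2 := lc_zeros (f := deriv riemannZeta) (fun s hs => (hzan s hs).deriv)
    ⟨_, hcK, (hGc (pt (1 / 2) c) rfl).2⟩
  set Z : Set ℂ := {z | (z ∈ K ∧ (riemannZeta z = 0 ∨ deriv riemannZeta z = 0)) ∧ z.re ≠ 1 / 2}
    with hZ
  have hZfin : Z.Finite := by
    refine (hf1.union hf2).subset ?_
    rintro z ⟨⟨h1, h2 | h2⟩, -⟩
    · exact Or.inl ⟨h1, h2⟩
    · exact Or.inr ⟨h1, h2⟩
  obtain ⟨δ, hδ, hδZ⟩ := lc_min hZfin (fun z => |z.re - 1 / 2|)
    (fun z hz => abs_pos.2 (sub_ne_zero.2 hz.2))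
  have hM : 0 < C1 * Real.log d * (51 / 50 / δ ^ 2 + 1) := by positivity
  set M := C1 * Real.log d * (51 / 50 / δ ^ 2 + 1) with hMdef
  set η := min (min (1 / 20) (δ / 20)) (1 / (4 * M)) with hηdef
  have hη : 0 < η := lt_min (lt_min (by norm_num) (by positivity)) (by positivity)
  have hη1 : η ≤ 1 / 20 := (min_le_left _ _).trans (min_le_left _ _)
  have hη2 : η ≤ δ / 20 := (min_le_left _ _).trans (min_le_right _ _)
  have hη3 : η * M < 1 / 2 := by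
    have h1 : η ≤ 1 / (4 * M) := min_le_right _ _
    have h2 : η * M ≤ 1 / (4 * M) * M := mul_le_mul_of_nonneg_right h1 hM.le
    have h3 : 1 / (4 * M) * M = 1 / 4 := by field_simp
    linarith
  -- no zeros in the thin strip
  have hstrip : ∀ s : ℂ, 1 / 2 - η ≤ s.re → s.re < 1 / 2 → c ≤ s.im → s.im ≤ d →
      riemannZeta s ≠ 0 ∧ deriv riemannZeta s ≠ 0 := by
    intro s h1 h2 h3 h4
    have hsK : s ∈ K := ⟨by linarith, by linarith, by linarith, by linarith⟩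
    by_contra hcon
    have h5 : s ∈ Z := by
      refine ⟨⟨hsK, ?_⟩, h2.ne⟩
      by_contra h6
      rw [not_or] at h6
      exact hcon h6
    have h6 := hδZ s h5
    rw [abs_of_neg (by linarith)] at h6
    linarith
  have hsub : Rc (-1) (1 / 2 + -η) c d ⊆ Rc (-1) (1 / 2) c d :=
    fun s hs => ⟨hs.1, by have := hs.2.1; linarith, hs.2.2⟩
  have hout : ∀ s ∈ Rc (-1) (1 / 2) c d, s ∉ Rc (-1) (1 / 2 + -η) c d →
      riemannZeta s ≠ 0 ∧ deriv riemannZeta s ≠ 0 := by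
    intro s hs hs'
    refine hstrip s ?_ hs.2.1 hs.2.2.1.le hs.2.2.2.le
    by_contra h1
    push Not at h1
    exact hs' ⟨hs.1, by linarith, hs.2.2⟩
  have hcnt1 := lc_cnt (f := riemannZeta) hsub (fun s hs hs' => (hout s hs hs').1)
  have hcnt2 := lc_cnt (f := deriv riemannZeta) hsub (fun s hs hs' => (hout s hs hs').2)
  have hline : ∀ t ∈ Icc c d, riemannZeta (pt (1 / 2 + -η) t) ≠ 0 ∧
      deriv riemannZeta (pt (1 / 2 + -η) t) ≠ 0 := by
    intro t ht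
    refine hstrip _ ?_ ?_ ht.1 ht.2
    · simp only [pt_re]; linarith
    · simp only [pt_re]; linarith
  have h1 := hCI (-η) c d (by rw [abs_neg, abs_of_pos hη]; exact hη1) hc2 hcd hGc hGd hline
  have hV : |V (logDeriv riemannZeta) (1 / 2 + -η) c d| ≤ Real.pi := by
    refine V_neg hcd.le ?_ ?_
    · intro t ht
      have hz : AnalyticAt ℂ riemannZeta (pt (1 / 2 + -η) t) :=
        Pool.Agent.ZP.zeta_analyticAt (by simp only [pt_im]; linarith [ht.1])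
      exact hz.deriv.div hz (hline t ht).1
    · intro t ht
      have h0 := (hline t ht).1
      rw [← sub_eq_add_neg] at h0 ⊢
      obtain ⟨S, E, hS, hsum, hE, hLip, hre⟩ := hexp t (hc1.trans ht.1)
      have h2 : |(pt (1 / 2 - η) t).re - 1 / 2| ≤ 1 / 20 := by
        rw [pt_re, show 1 / 2 - η - 1 / 2 = -η by ring, abs_neg, abs_of_pos hη]
        exact hη1
      have h3 : |(pt (1 / 2 - η) t).im - t| ≤ 1 / 4 := by
        rw [pt_im, sub_self, abs_zero]; norm_num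
      have h4 : |(pt (1 / 2) t).re - 1 / 2| ≤ 1 / 20 := by
        rw [pt_re, sub_self, abs_zero]; norm_num
      have h5 : |(pt (1 / 2) t).im - t| ≤ 1 / 4 := by
        rw [pt_im, sub_self, abs_zero]; norm_num
      have ht0 : 0 < t := by linarith [ht.1]
      refine lc_neg hδ hη hη1 hη2 (by linarith) (Real.log_le_log ht0 ht.2) hη3
        (by linarith [ht.1]) hS hsum (hE _ h2 h3).2.2 (hLip _ _ h2 h3 h4 h5) ?_ ?_ h0
      · rw [hre t (by rw [sub_self, abs_zero]; norm_num)]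
        have h6 := hLam (pt (1 / 2) t) (by simp) (by simp only [pt_im]; linarith [ht.1])
        linarith
      · intro ρ hρ hρ2
        obtain ⟨h6, h7, h8⟩ := (hS ρ).1 hρ
        rw [abs_le] at h7 h8
        refine hδZ ρ ⟨⟨⟨by linarith, by linarith, by linarith [ht.1], by linarith [ht.2]⟩,
          Or.inl h6⟩, hρ2⟩
  rw [← hcnt1, ← hcnt2] at h1
  rw [abs_le] at h1 hV ⊢
  have hpi1 : 1 ≤ 2 * Real.pi := by linarith [Real.pi_gt_three]
  set D : ℝ := (cnt (deriv riemannZeta) (Rc (-1) (1 / 2) c d) : ℝ)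
    - cnt riemannZeta (Rc (-1) (1 / 2) c d) with hD
  have h6 : 2 * Real.pi * D ≤ (C2 + Real.pi) * Real.log d := by nlinarith [h1.2, hV.2]
  have h7 : -((C2 + Real.pi) * Real.log d) ≤ 2 * Real.pi * D := by nlinarith [h1.1, hV.1]
  have h8 : 0 ≤ (C2 + Real.pi) * Real.log d := by positivity
  constructor
  · by_contra hcon
    push Not at hcon
    have h9 : 2 * Real.pi * D < 2 * Real.pi * -((C2 + Real.pi) * Real.log d) :=
      mul_lt_mul_of_pos_left hcon (by positivity)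
    nlinarith
  · by_contra hcon
    push Not at hcon
    have h9 : 2 * Real.pi * ((C2 + Real.pi) * Real.log d) < 2 * Real.pi * D :=
      mul_lt_mul_of_pos_left hcon (by positivity)
    nlinarith

end Pool.Agent.ZC
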