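import Pool.Agent.Lib.MP_af3d17_cn.Defs

/-!
# Row VL0: existence of a continuous argument
-/

set_option autoImplicit false

namespace Pool.Agent.ZC

open Filter Topology Set
open Pool.Agent.ZP (pt Lam EE IsUpperZero IsOrdinateSeq)

private theorem hasDerivAt_pt_right (x y : ℝ) :
    HasDerivAt (fun y : ℝ => pt x y) Complex.I y := by
  have h1 : (fun y : ℝ => pt x y) = fun y : ℝ => (x : ℂ) + (y : ℂ) * Complex.I := by
    funext y
    apply Complex.ext <;> simp
  rw [h1]
  simpa using ((Complex.ofRealCLM.hasDerivAt (x := y)).mul_const Complex.I).const_add (x : ℂ)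

/-- VL0 -/
theorem exists_lift {f : ℂ → ℂ} {x c d : ℝ} (hcd : c ≤ d)
    (hf : ∀ y ∈ Icc c d, AnalyticAt ℂ f (pt x y)) (h0 : ∀ y ∈ Icc c d, f (pt x y) ≠ 0) :
    ∃ θ : ℝ → ℝ, IsLift (fun y => f (pt x y)) θ c d ∧
      ∀ y ∈ Icc c d, ∀ y' ∈ Icc c d, θ y' - θ y = V f x y y' := by
  have hc : c ∈ Icc c d := ⟨le_rfl, hcd⟩
  set L : ℝ → ℂ := fun y => logDeriv f (pt x y) with hL
  have hLc : ContinuousOn L (Icc c d) := by
    intro y hy
    have h1 : ContinuousAt (fun s => logDeriv f s) (pt x y) := by
      have h2 : ContinuousAt (fun s => deriv f s / f s) (pt x y) :=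
        (hf y hy).deriv.continuousAt.div (hf y hy).continuousAt (h0 y hy)
      exact h2
    exact (ContinuousAt.comp (f := fun y : ℝ => pt x y) (g := fun s => logDeriv f s) h1
      (hasDerivAt_pt_right x y).continuousAt).continuousWithinAt
  set L' : ℝ → ℂ := IccExtend hcd ((Icc c d).domRestrict L) with hL'
  have hL'c : Continuous L' := Continuous.Icc_extend' hLc.domRestrict
  have hLL' : ∀ y ∈ Icc c d, L' y = L y := fun y hy => by
    rw [hL', IccExtend_of_mem hcd _ hy]
    rfl
  set Φ : ℝ → ℂ := fun y => ∫ u in c..y, L' u with hΦ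
  have hΦd : ∀ y, HasDerivAt Φ (L' y) y := fun y =>
    intervalIntegral.integral_hasDerivAt_right (hL'c.intervalIntegrable _ _)
      (hL'c.stronglyMeasurableAtFilter _ _) hL'c.continuousAt
  have hΦV : ∀ y ∈ Icc c d, ∀ y' ∈ Icc c d, Φ y' - Φ y = ∫ u in y..y', L u := by
    intro y hy y' hy'
    have h1 : Φ y' - Φ y = ∫ u in y..y', L' u := by
      rw [hΦ]
      exact intervalIntegral.integral_interval_sub_left (hL'c.intervalIntegrable _ _)
        (hL'c.intervalIntegrable _ _)
    rw [h1]
    refine intervalIntegral.integral_congr fun u hu => hLL' u ?_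
    rcases le_total y y' with h | h
    · rw [uIcc_of_le h] at hu
      exact ⟨le_trans hy.1 hu.1, le_trans hu.2 hy'.2⟩
    · rw [uIcc_of_ge h] at hu
      exact ⟨le_trans hy'.1 hu.1, le_trans hu.2 hy.2⟩
  have hwd : ∀ y ∈ Icc c d, HasDerivAt (fun y : ℝ => f (pt x y))
      (deriv f (pt x y) * Complex.I) y := fun y hy =>
    (hf y hy).differentiableAt.hasDerivAt.comp y (hasDerivAt_pt_right x y)
  have hwc : ContinuousOn (fun y : ℝ => f (pt x y)) (Icc c d) := fun y hy =>
    (hwd y hy).continuousAt.continuousWithinAt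
  -- the formula
  have hform : ∀ y ∈ Icc c d, f (pt x y) = f (pt x c) * Complex.exp (Complex.I * Φ y) := by
    have hqd : ∀ y ∈ Icc c d,
        HasDerivAt (fun y => f (pt x y) * Complex.exp (-(Complex.I * Φ y))) 0 y := by
      intro y hy
      have h1 : HasDerivAt (fun y => Complex.exp (-(Complex.I * Φ y)))
          (Complex.exp (-(Complex.I * Φ y)) * (-(Complex.I * L' y))) y :=
        ((hΦd y).const_mul Complex.I).neg.cexp
      have h2 := (hwd y hy).mul h1
      have h3 : deriv f (pt x y) * Complex.I * Complex.exp (-(Complex.I * Φ y)) +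
          f (pt x y) * (Complex.exp (-(Complex.I * Φ y)) * (-(Complex.I * L' y))) = 0 := by
        rw [hLL' y hy, hL]
        simp only [logDeriv_apply]
        have := h0 y hy
        field_simp
        ring
      rw [h3] at h2
      exact h2
    have hconst := constant_of_has_deriv_right_zero
      (f := fun y => f (pt x y) * Complex.exp (-(Complex.I * Φ y))) (a := c) (b := d)
      (fun y hy => (hqd y hy).continuousAt.continuousWithinAt)
      (fun y hy => (hqd y ⟨hy.1, hy.2.le⟩).hasDerivWithinAt)
    intro y hy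
    have h1 := hconst y hy
    have h2 : Φ c = 0 := intervalIntegral.integral_same
    simp only [h2, mul_zero, neg_zero, Complex.exp_zero, mul_one] at h1
    rw [← h1, mul_assoc, ← Complex.exp_add, neg_add_cancel, Complex.exp_zero, mul_one]
  refine ⟨fun y => Complex.arg (f (pt x c)) + (Φ y).re, ⟨hwc, ?_, h0, ?_⟩, ?_⟩
  · refine continuousOn_const.add (Continuous.continuousOn ?_)
    exact Complex.continuous_re.comp (continuous_iff_continuousAt.2 fun y => (hΦd y).continuousAt)
  · intro y hy
    have h1 : f (pt x c) = ‖f (pt x c)‖ * Complex.exp (Complex.arg (f (pt x c)) * Complex.I) :=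
      (Complex.norm_mul_exp_arg_mul_I _).symm
    have h2 : ‖f (pt x y)‖ = ‖f (pt x c)‖ * Real.exp (-(Φ y).im) := by
      rw [hform y hy, norm_mul, Complex.norm_exp]
      simp
    have h3 : Complex.exp (Complex.I * Φ y) =
        Complex.exp (-(Φ y).im : ℝ) * Complex.exp ((Φ y).re * Complex.I) := by
      rw [← Complex.exp_add]
      congr 1
      apply Complex.ext <;> simp
    show f (pt x y) = ‖f (pt x y)‖ * _
    rw [h2, hform y hy, h3]
    nth_rewrite 1 [h1]
    push_cast
    rw [add_mul, Complex.exp_add]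
    ring
  · intro y hy y' hy'
    have := hΦV y hy y' hy'
    rw [V, ← this, Complex.sub_re]
    ring

end Pool.Agent.ZC
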