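import Pool.Agent.Lib.MP_af3d17_cn.Defs

/-!
# Row VL2: lifts and crossings of the imaginary axis
-/

set_option autoImplicit false

namespace Pool.Agent.ZC

open Filter Topology Set
open Pool.Agent.ZP (pt Lam EE IsUpperZero IsOrdinateSeq)

/-- intermediate values of `θ` where the cosine vanishes give different crossings -/
private lemma vl2_count {θ : ℝ → ℝ} {c d : ℝ} (hcd : c ≤ d) (hθ : ContinuousOn θ (Icc c d))
    {S : Set ℝ} (hfin : S.Finite) (hS : ∀ t ∈ Icc c d, Real.cos (θ t) = 0 → t ∈ S)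
    (v : ℕ → ℝ) (hinj : Function.Injective v) (n : ℕ)
    (hv : ∀ j < n, v j ∈ uIcc (θ c) (θ d) ∧ Real.cos (v j) = 0) : n ≤ S.ncard := by
  have h1 : ∀ j : ℕ, ∃ t : ℝ, j < n → t ∈ Icc c d ∧ θ t = v j := by
    intro j
    by_cases hj : j < n
    · have hsub := intermediate_value_uIcc (a := c) (b := d) (f := θ)
        (by rw [uIcc_of_le hcd]; exact hθ)
      obtain ⟨t, ht, hte⟩ := hsub (hv j hj).1
      rw [uIcc_of_le hcd] at ht
      exact ⟨t, fun _ => ⟨ht, hte⟩⟩
    · exact ⟨0, fun h => absurd h hj⟩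
  choose t ht using h1
  have hsub : (Finset.range n).image t ⊆ hfin.toFinset := by
    intro s hs
    rw [Finset.mem_image] at hs
    obtain ⟨j, hj, rfl⟩ := hs
    rw [Finset.mem_range] at hj
    rw [Set.Finite.mem_toFinset]
    obtain ⟨h2, h3⟩ := ht j hj
    exact hS _ h2 (by rw [h3]; exact (hv j hj).2)
  have hcard : ((Finset.range n).image t).card = n := by
    rw [Finset.card_image_of_injOn, Finset.card_range]
    intro i hi j hj hij
    rw [Finset.coe_range] at hi hj
    have h2 := (ht i hi).2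
    have h3 := (ht j hj).2
    apply hinj
    rw [← h2, ← h3]
    exact congrArg θ hij
  have h4 := Finset.card_le_card hsub
  rw [hcard, ← Set.ncard_eq_toFinset_card S hfin] at h4
  exact h4

private lemma vl2_cos {w : ℝ → ℂ} {θ : ℝ → ℝ} {c d : ℝ} (h : IsLift w θ c d) {t : ℝ}
    (ht : t ∈ Icc c d) : (w t).re = ‖w t‖ * Real.cos (θ t) := by
  conv_lhs => rw [h.eq t ht]
  rw [Complex.re_ofReal_mul, Complex.exp_ofReal_mul_I_re]

private lemma vl2_mem {w : ℝ → ℂ} {θ : ℝ → ℝ} {c d : ℝ} (h : IsLift w θ c d) :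
    ∀ t ∈ Icc c d, Real.cos (θ t) = 0 → t ∈ zr w c d := by
  intro t ht hc
  refine ⟨ht, ?_⟩
  rw [vl2_cos h ht, hc, mul_zero]

private lemma vl2_cos_val (l : ℤ) : Real.cos (Real.pi / 2 + Real.pi * l) = 0 := by
  rw [Real.cos_eq_zero_iff]
  exact ⟨l, by ring⟩

/-- VL2 -/
theorem lift_zeros {w : ℝ → ℂ} {θ : ℝ → ℝ} {c d : ℝ} (h : IsLift w θ c d) (hcd : c ≤ d)
    (hfin : (zr w c d).Finite) : |θ d - θ c| ≤ Real.pi * ((zr w c d).ncard + 1) := by
  have hpi := Real.pi_pos
  by_contra hcon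
  rw [not_le] at hcon
  set N := (zr w c d).ncard with hN
  set a := min (θ c) (θ d) with ha
  set b := max (θ c) (θ d) with hb
  have hab : b - a = |θ d - θ c| := by
    rw [ha, hb, max_sub_min_eq_abs]
  -- the first value
  set n0 : ℤ := ⌈(a - Real.pi / 2) / Real.pi⌉ with hn0
  have h1 : a ≤ Real.pi / 2 + Real.pi * n0 := by
    have h2 := Int.le_ceil ((a - Real.pi / 2) / Real.pi)
    rw [div_le_iff₀ hpi] at h2
    rw [← hn0] at h2
    linarith
  have h2 : Real.pi / 2 + Real.pi * n0 < a + Real.pi := by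
    have h3 := Int.ceil_lt_add_one ((a - Real.pi / 2) / Real.pi)
    rw [← hn0] at h3
    have h4 : Real.pi * (n0 : ℝ) < Real.pi * ((a - Real.pi / 2) / Real.pi + 1) :=
      mul_lt_mul_of_pos_left h3 hpi
    rw [mul_add, mul_div_cancel₀ _ hpi.ne'] at h4
    linarith
  have h3 := vl2_count hcd h.cθ hfin (vl2_mem h)
    (fun j : ℕ => Real.pi / 2 + Real.pi * ((n0 + (j : ℤ) : ℤ) : ℝ)) (by
      intro i j hij
      simp only at hij
      have h4 : ((n0 + (i : ℤ) : ℤ) : ℝ) = ((n0 + (j : ℤ) : ℤ) : ℝ) := by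
        have h5 : Real.pi * ((n0 + (i : ℤ) : ℤ) : ℝ) = Real.pi * ((n0 + (j : ℤ) : ℤ) : ℝ) := by
          linarith
        exact mul_left_cancel₀ hpi.ne' h5
      have h6 : n0 + (i : ℤ) = n0 + (j : ℤ) := by exact_mod_cast h4
      omega) (N + 1) (by
      intro j hj
      refine ⟨?_, vl2_cos_val _⟩
      have hj' : (j : ℝ) ≤ N := by
        have : j ≤ N := by omega
        exact_mod_cast this
      have h7 : Real.pi * (j : ℝ) ≤ Real.pi * N := mul_le_mul_of_nonneg_left hj' hpi.le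
      have h8 : 0 ≤ Real.pi * (j : ℝ) := by positivity
      rw [uIcc, mem_Icc]
      push_cast
      rw [← hab] at hcon
      constructor
      · show a ≤ _
        nlinarith
      · show _ ≤ b
        nlinarith)
  omega

theorem lift_zeros_neg {w : ℝ → ℂ} {θ : ℝ → ℝ} {c d : ℝ} (h : IsLift w θ c d) (hcd : c ≤ d)
    (hfin : (zr w c d).Finite) (hc : (w c).re < 0) (hd : (w d).re < 0) :
    |(θ d - Complex.arg (-w d)) - (θ c - Complex.arg (-w c))| ≤ Real.pi * (zr w c d).ncard := by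
  have hpi := Real.pi_pos
  -- the value of the argument
  have hval : ∀ t ∈ Icc c d, ∃ n : ℤ, θ t - Complex.arg (-w t) = Real.pi + 2 * Real.pi * n := by
    intro t ht
    have h0 : (‖w t‖ : ℂ) ≠ 0 := by
      have := h.ne t ht
      exact_mod_cast norm_ne_zero_iff.mpr this
    have h1 : (‖w t‖ : ℂ) * Complex.exp (θ t * Complex.I)
        = (‖w t‖ : ℂ) * Complex.exp ((Complex.arg (-w t) + Real.pi : ℝ) * Complex.I) := by
      rw [← h.eq t ht]
      push_cast
      rw [add_mul, Complex.exp_add, Complex.exp_pi_mul_I]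
      have h2 := Complex.norm_mul_exp_arg_mul_I (-w t)
      rw [norm_neg] at h2
      linear_combination h2
    have h2 := mul_left_cancel₀ h0 h1
    rw [Complex.exp_eq_exp_iff_exists_int] at h2
    obtain ⟨n, hn⟩ := h2
    refine ⟨n, ?_⟩
    have h3 := congrArg Complex.im hn
    simp at h3
    linarith
  obtain ⟨k, hk⟩ := hval c (left_mem_Icc.mpr hcd)
  obtain ⟨l, hl⟩ := hval d (right_mem_Icc.mpr hcd)
  have hac : |Complex.arg (-w c)| < Real.pi / 2 := by
    rw [Complex.abs_arg_lt_pi_div_two_iff]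
    left
    rw [Complex.neg_re]
    linarith
  have had : |Complex.arg (-w d)| < Real.pi / 2 := by
    rw [Complex.abs_arg_lt_pi_div_two_iff]
    left
    rw [Complex.neg_re]
    linarith
  rw [abs_lt] at hac had
  rw [hl, hk]
  have e1 : Real.pi + 2 * Real.pi * (l : ℝ) - (Real.pi + 2 * Real.pi * (k : ℝ))
      = 2 * Real.pi * ((l - k : ℤ) : ℝ) := by push_cast; ring
  rw [e1, abs_mul, abs_of_pos (by positivity : (0 : ℝ) < 2 * Real.pi)]
  have hmain : 2 * (l - k).natAbs ≤ (zr w c d).ncard := by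
    set q : ℤ := min k l with hq
    refine vl2_count hcd h.cθ hfin (vl2_mem h)
      (fun j : ℕ => Real.pi / 2 + Real.pi * ((2 * q + 1 + (j : ℤ) : ℤ) : ℝ)) ?_ _ ?_
    · intro i j hij
      simp only at hij
      have h4 : ((2 * q + 1 + (i : ℤ) : ℤ) : ℝ) = ((2 * q + 1 + (j : ℤ) : ℤ) : ℝ) := by
        have h5 : Real.pi * ((2 * q + 1 + (i : ℤ) : ℤ) : ℝ)
            = Real.pi * ((2 * q + 1 + (j : ℤ) : ℤ) : ℝ) := by linarith
        exact mul_left_cancel₀ hpi.ne' h5
      have h6 : 2 * q + 1 + (i : ℤ) = 2 * q + 1 + (j : ℤ) := by exact_mod_cast h4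
      omega
    · intro j hj
      refine ⟨?_, vl2_cos_val _⟩
      have h8 : 0 ≤ Real.pi * (j : ℝ) := by positivity
      rcases le_total k l with hkl | hkl
      · have hqk : q = k := min_eq_left hkl
        have hj' : (j : ℤ) + 1 ≤ 2 * (l - k) := by omega
        have hj'' : (j : ℝ) + 1 ≤ 2 * ((l : ℝ) - k) := by exact_mod_cast hj'
        have h9 := mul_le_mul_of_nonneg_left hj'' hpi.le
        rw [hqk]
        push_cast
        refine mem_uIcc.mpr (Or.inl ⟨?_, ?_⟩)
        · nlinarith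
        · nlinarith
      · have hqk : q = l := min_eq_right hkl
        have hj' : (j : ℤ) + 1 ≤ 2 * (k - l) := by omega
        have hj'' : (j : ℝ) + 1 ≤ 2 * ((k : ℝ) - l) := by exact_mod_cast hj'
        have h9 := mul_le_mul_of_nonneg_left hj'' hpi.le
        rw [hqk]
        push_cast
        refine mem_uIcc.mpr (Or.inr ⟨?_, ?_⟩)
        · nlinarith
        · nlinarith
  have h10 : (2 * ((l - k).natAbs : ℝ)) ≤ (zr w c d).ncard := by exact_mod_cast hmain
  have h11 : |((l - k : ℤ) : ℝ)| = ((l - k).natAbs : ℝ) := by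
    rw [← Int.cast_abs, Int.abs_eq_natAbs]
    rfl
  rw [h11]
  have h12 := mul_le_mul_of_nonneg_left h10 hpi.le
  linarith

end Pool.Agent.ZC
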