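import Pool.Agent.Lib.MP_af3d17_cn.Defs
import Pool.Agent.Lib.MP_af3d17_nt_h98.Count

/-! # SQ4: small gaps, zeros on the line and off the line -/

set_option autoImplicit false

namespace Pool.Agent.ZC

open Filter Topology Set
open Pool.Agent.ZP (pt Lam EE IsUpperZero IsOrdinateSeq)

namespace SQ4

private lemma upper_of_zero {ρ : ℂ} (h : riemannZeta ρ = 0) (him : 0 < ρ.im) : IsUpperZero ρ := by
  have h1 : ρ.re < 1 := by
    by_contra hcon
    exact riemannZeta_ne_zero_of_one_le_re (not_lt.1 hcon) h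
  refine ⟨h, ?_, h1, him⟩
  by_contra hcon
  rw [not_lt] at hcon
  have him' : (1 - ρ).im = -ρ.im := by simp
  have hre' : (1 - ρ).re = 1 - ρ.re := by simp
  have hn : ∀ n : ℕ, (1 - ρ) ≠ -n := by
    intro n hn
    have := congrArg Complex.im hn
    rw [him'] at this
    simp at this
    exact him.ne' this
  have h0 : (1 - ρ) ≠ 1 := by
    intro hn
    have := congrArg Complex.im hn
    rw [him'] at this
    simp at this
    exact him.ne' this
  have h2 := riemannZeta_one_sub hn h0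
  rw [sub_sub_cancel, h] at h2
  have h3 : riemannZeta (1 - ρ) ≠ 0 :=
    riemannZeta_ne_zero_of_one_le_re (by rw [hre']; linarith)
  have h4 : Complex.Gamma (1 - ρ) ≠ 0 := Complex.Gamma_ne_zero hn
  have h5 : Complex.cos (Real.pi * (1 - ρ) / 2) ≠ 0 := by
    rw [Ne, Complex.cos_eq_zero_iff]
    rintro ⟨k, hk⟩
    have h6 := congrArg Complex.im hk
    have h7 : ((Real.pi : ℂ) * (1 - ρ) / 2).im = Real.pi * (-ρ.im) / 2 := by
      rw [show (Real.pi : ℂ) * (1 - ρ) / 2 = ((Real.pi / 2 : ℝ) : ℂ) * (1 - ρ) by push_cast; ring,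
        Complex.im_ofReal_mul, him']
      ring
    have h8 : ((2 * (k : ℂ) + 1) * Real.pi / 2).im = 0 := by
      rw [show (2 * (k : ℂ) + 1) * Real.pi / 2 = (((2 * (k : ℝ) + 1) * Real.pi / 2 : ℝ) : ℂ) by
        push_cast; ring]
      exact Complex.ofReal_im _
    rw [h7, h8] at h6
    have := Real.pi_pos
    nlinarith [mul_pos this him]
  have h6 : (2 * (Real.pi : ℂ)) ^ (-(1 - ρ)) ≠ 0 := by
    rw [Ne, Complex.cpow_eq_zero_iff]
    rintro ⟨h7, -⟩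
    have : (Real.pi : ℂ) ≠ 0 := by exact_mod_cast Real.pi_pos.ne'
    exact this (by simpa using h7)
  have h7 := mul_ne_zero (mul_ne_zero (mul_ne_zero (mul_ne_zero (two_ne_zero (α := ℂ)) h6) h4) h5) h3
  exact h7 h2.symm

private lemma lt_order_iff (ρ : ℂ) (k : ℕ) :
    (k : ℕ∞) < analyticOrderAt riemannZeta ρ ↔ k < od ρ := by
  obtain ⟨m, hm⟩ := ENat.ne_top_iff_exists.1 (Pool.Agent.ZP.order_ne_top ρ)
  rw [od, ← hm, ENat.toNat_coe]
  exact_mod_cast Iff.rfl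

private lemma od_pos {ρ : ℂ} (h : IsUpperZero ρ) : 1 ≤ od ρ := by
  have h1 := Pool.Agent.ZP.order_pos h
  have h2 := (lt_order_iff ρ 0).1 (lt_of_lt_of_le (by norm_num) h1)
  omega

variable {γ : ℕ → ℝ}

open Classical in
/-- the number of indices at the height `t` -/
private lemma card_fiber (hγ : IsOrdinateSeq γ) {t : ℝ} (Z : Finset ℂ)
    (hZ : ∀ ρ, ρ ∈ Z ↔ IsUpperZero ρ ∧ ρ.im = t) :
    (Pool.Agent.ZP.finite_eq hγ t).toFinset.card = ∑ ρ ∈ Z, od ρ := by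
  have h1 : ((Pool.Agent.ZP.finite_eq hγ t).toFinset.card : ℕ∞) = ((∑ ρ ∈ Z, od ρ : ℕ) : ℕ∞) := by
    rw [← Set.encard_coe_eq_coe_finsetCard, Set.Finite.coe_toFinset, hγ.count]
    have h2 : {p : ℂ × ℕ | IsUpperZero p.1 ∧ p.1.im = t ∧
        (p.2 : ℕ∞) < analyticOrderAt riemannZeta p.1} =
        (((Z.sigma (fun ρ => Finset.range (od ρ))).map (Equiv.sigmaEquivProd ℂ ℕ).toEmbedding :
          Finset (ℂ × ℕ)) : Set (ℂ × ℕ)) := by
      ext ⟨ρ, k⟩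
      simp only [Set.mem_setOf_eq, Finset.coe_map, Set.mem_image, Finset.mem_coe,
        Finset.mem_sigma, Finset.mem_range, hZ, lt_order_iff]
      constructor
      · rintro ⟨h1, h2, h3⟩
        exact ⟨⟨ρ, k⟩, ⟨⟨h1, h2⟩, h3⟩, rfl⟩
      · rintro ⟨⟨σ, l⟩, ⟨⟨h1, h2⟩, h3⟩, h4⟩
        have h5 : (σ, l) = (ρ, k) := h4
        obtain ⟨rfl, rfl⟩ := Prod.mk.inj h5
        exact ⟨h1, h2, h3⟩
    rw [h2, Set.encard_coe_eq_coe_finsetCard, Finset.card_map, Finset.card_sigma]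
    simp
  exact_mod_cast h1

end SQ4

open Classical in
/-- SQ4: small gaps, zeros on the line and off the line. `Y` = ordinates of zeros on the line, `P` = small
gaps between consecutive zeros on the line, `O` = zeros off the line -/
theorem seq_small {γ : ℕ → ℝ} (hγ : IsOrdinateSeq γ) {c T x : ℝ} (hc : 1 < c) (hT : c ≤ T) (hx : 0 ≤ x)
    (hx1 : x ≤ 1) : ∃ (Y : Finset ℝ) (P : Finset (ℝ × ℝ)) (O : Finset ℂ),
    (∀ y, y ∈ Y ↔ c < y ∧ y ≤ T ∧ riemannZeta (pt (1 / 2) y) = 0) ∧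
    (∀ p, p ∈ P ↔ p.1 ∈ Y ∧ p.1 < p.2 ∧ p.2 ≤ p.1 + x ∧ riemannZeta (pt (1 / 2) p.2) = 0 ∧
      ∀ u ∈ Ioo p.1 p.2, riemannZeta (pt (1 / 2) u) ≠ 0) ∧
    (∀ ρ, ρ ∈ O ↔ riemannZeta ρ = 0 ∧ ρ.re ≠ 1 / 2 ∧ c - 1 ≤ ρ.im ∧ ρ.im ≤ T + 1) ∧
    (gapCount γ T x : ℝ) ≤ ∑ y ∈ Y, ((od (pt (1 / 2) y) : ℝ) - 1) + P.card
      + 2 * ∑ ρ ∈ O, (od ρ : ℝ) + {n | γ n ≤ c}.ncard := by
  -- the zeros
  set ZZ : Finset ℂ := (Pool.Agent.ZP.finite_zeros (T + 1)).toFinset with hZZ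
  have mZZ : ∀ ρ, ρ ∈ ZZ ↔ IsUpperZero ρ ∧ ρ.im ≤ T + 1 := by
    intro ρ
    rw [hZZ, Set.Finite.mem_toFinset]
    rfl
  set W : Finset ℂ := ZZ.filter (fun ρ => c < ρ.im ∧ ρ.im ≤ T) with hW
  have mW : ∀ ρ, ρ ∈ W ↔ IsUpperZero ρ ∧ c < ρ.im ∧ ρ.im ≤ T := by
    intro ρ
    rw [hW, Finset.mem_filter, mZZ]
    constructor
    · rintro ⟨⟨h1, h2⟩, h3⟩
      exact ⟨h1, h3⟩
    · rintro ⟨h1, h3⟩
      exact ⟨⟨h1, by linarith [h3.2]⟩, h3⟩
  set Y : Finset ℝ := (W.filter (fun ρ => ρ.re = 1 / 2)).image Complex.im with hY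
  have upl : ∀ {y : ℝ}, 0 < y → riemannZeta (pt (1 / 2) y) = 0 → IsUpperZero (pt (1 / 2) y) :=
    fun hy h => SQ4.upper_of_zero h hy
  have mY : ∀ y, y ∈ Y ↔ c < y ∧ y ≤ T ∧ riemannZeta (pt (1 / 2) y) = 0 := by
    intro y
    rw [hY, Finset.mem_image]
    constructor
    · rintro ⟨ρ, h1, rfl⟩
      rw [Finset.mem_filter, mW] at h1
      refine ⟨h1.1.2.1, h1.1.2.2, ?_⟩
      rw [show pt (1 / 2) ρ.im = ρ from Complex.ext h1.2.symm rfl]
      exact h1.1.1.1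
    · rintro ⟨h1, h2, h3⟩
      refine ⟨pt (1 / 2) y, ?_, rfl⟩
      rw [Finset.mem_filter, mW]
      exact ⟨⟨upl (by linarith) h3, h1, h2⟩, rfl⟩
  set Y' : Finset ℝ := (ZZ.filter (fun ρ => ρ.re = 1 / 2)).image Complex.im with hY'
  have mY' : ∀ y, 0 < y → y ≤ T + 1 → riemannZeta (pt (1 / 2) y) = 0 → y ∈ Y' := by
    intro y h1 h2 h3
    rw [hY', Finset.mem_image]
    refine ⟨pt (1 / 2) y, ?_, rfl⟩
    rw [Finset.mem_filter, mZZ]
    exact ⟨⟨upl h1 h3, h2⟩, rfl⟩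
  set P : Finset (ℝ × ℝ) := (Y ×ˢ Y').filter (fun p => p.1 ∈ Y ∧ p.1 < p.2 ∧ p.2 ≤ p.1 + x ∧
    riemannZeta (pt (1 / 2) p.2) = 0 ∧ ∀ u ∈ Ioo p.1 p.2, riemannZeta (pt (1 / 2) u) ≠ 0) with hP
  have mP : ∀ p, p ∈ P ↔ p.1 ∈ Y ∧ p.1 < p.2 ∧ p.2 ≤ p.1 + x ∧
      riemannZeta (pt (1 / 2) p.2) = 0 ∧ ∀ u ∈ Ioo p.1 p.2, riemannZeta (pt (1 / 2) u) ≠ 0 := by
    intro p
    rw [hP, Finset.mem_filter, Finset.mem_product]
    constructor
    · exact fun h => h.2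
    · intro h
      have h1 := (mY p.1).1 h.1
      exact ⟨⟨h.1, mY' p.2 (by linarith [h.2.1]) (by linarith [h.2.2.1]) h.2.2.2.1⟩, h⟩
  set O : Finset ℂ := ZZ.filter (fun ρ => ρ.re ≠ 1 / 2 ∧ c - 1 ≤ ρ.im) with hO
  have mO : ∀ ρ, ρ ∈ O ↔ riemannZeta ρ = 0 ∧ ρ.re ≠ 1 / 2 ∧ c - 1 ≤ ρ.im ∧ ρ.im ≤ T + 1 := by
    intro ρ
    rw [hO, Finset.mem_filter, mZZ]
    constructor
    · rintro ⟨⟨h1, h2⟩, h3, h4⟩
      exact ⟨h1.1, h3, h4, h2⟩
    · rintro ⟨h1, h2, h3, h4⟩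
      exact ⟨⟨SQ4.upper_of_zero h1 (by linarith), h4⟩, h2, h3⟩
  refine ⟨Y, P, O, mY, mP, mO, ?_⟩
  -- the indices
  set A : Finset ℕ := (Pool.Agent.ZP.finite_le hγ T).toFinset with hA
  have mA : ∀ n, n ∈ A ↔ γ n ≤ T := by
    intro n
    rw [hA, Set.Finite.mem_toFinset]
    rfl
  set TT : Finset ℝ := (A.filter (fun n => c < γ n)).image γ with hTT
  have mTT : ∀ t, t ∈ TT ↔ (c < t ∧ t ≤ T) ∧ ∃ n, γ n = t := by
    intro t
    rw [hTT, Finset.mem_image]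
    constructor
    · rintro ⟨n, h1, rfl⟩
      rw [Finset.mem_filter, mA] at h1
      exact ⟨⟨h1.2, h1.1⟩, n, rfl⟩
    · rintro ⟨⟨h1, h2⟩, n, rfl⟩
      exact ⟨n, by rw [Finset.mem_filter, mA]; exact ⟨h2, h1⟩, rfl⟩
  have hcount : gapCount γ T x = (A.filter (fun n => γ (n + 1) - γ n ≤ x)).card := by
    rw [gapCount, ← Set.ncard_coe_finset]
    congr 1
    ext n
    rw [Finset.coe_filter]
    show _ ↔ n ∈ A ∧ _
    rw [mA]
    rfl
  set N0 : Finset ℕ := A.filter (fun n => γ n ≤ c) with hN0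
  set Nz : Finset ℕ := A.filter (fun n => c < γ n ∧ γ (n + 1) = γ n) with hNz
  set N1 : Finset ℕ := A.filter (fun n => c < γ n ∧ γ n < γ (n + 1) ∧ γ (n + 1) ≤ γ n + x ∧
    riemannZeta (pt (1 / 2) (γ n)) ≠ 0) with hN1
  set N2 : Finset ℕ := A.filter (fun n => c < γ n ∧ γ n < γ (n + 1) ∧ γ (n + 1) ≤ γ n + x ∧
    riemannZeta (pt (1 / 2) (γ n)) = 0 ∧ riemannZeta (pt (1 / 2) (γ (n + 1))) = 0) with hN2
  set N3 : Finset ℕ := A.filter (fun n => c < γ n ∧ γ n < γ (n + 1) ∧ γ (n + 1) ≤ γ n + x ∧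
    riemannZeta (pt (1 / 2) (γ n)) = 0 ∧ riemannZeta (pt (1 / 2) (γ (n + 1))) ≠ 0) with hN3
  have hsplit : (A.filter (fun n => γ (n + 1) - γ n ≤ x)) ⊆ N0 ∪ (Nz ∪ (N1 ∪ (N2 ∪ N3))) := by
    intro n hn
    rw [Finset.mem_filter] at hn
    obtain ⟨h1, h2⟩ := hn
    simp only [Finset.mem_union, hN0, hNz, hN1, hN2, hN3, Finset.mem_filter]
    rcases le_or_gt (γ n) c with h3 | h3
    · exact Or.inl ⟨h1, h3⟩
    · right
      rcases (hγ.mono (Nat.le_succ n)).eq_or_lt with h4 | h4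
      · exact Or.inl ⟨h1, h3, h4.symm⟩
      · right
        by_cases h5 : riemannZeta (pt (1 / 2) (γ n)) = 0
        · right
          by_cases h6 : riemannZeta (pt (1 / 2) (γ (n + 1))) = 0
          · exact Or.inl ⟨h1, h3, h4, by linarith, h5, h6⟩
          · exact Or.inr ⟨h1, h3, h4, by linarith, h5, h6⟩
        · exact Or.inl ⟨h1, h3, h4, by linarith, h5⟩
  have hinj1 : ∀ m n : ℕ, γ m < γ (m + 1) → γ n < γ (n + 1) → γ m = γ n → m = n := by
    intro m n h1 h2 h3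
    rcases lt_trichotomy m n with h | h | h
    · have : γ (m + 1) ≤ γ n := hγ.mono h
      linarith
    · exact h
    · have : γ (n + 1) ≤ γ m := hγ.mono h
      linarith
  have hinj2 : ∀ m n : ℕ, γ m < γ (m + 1) → γ n < γ (n + 1) → γ (m + 1) = γ (n + 1) → m = n := by
    intro m n h1 h2 h3
    rcases lt_trichotomy m n with h | h | h
    · have : γ (m + 1) ≤ γ n := hγ.mono h
      linarith
    · exact h
    · have : γ (n + 1) ≤ γ m := hγ.mono h
      linarith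
  -- N0
  have c0 : N0.card ≤ {n | γ n ≤ c}.ncard := by
    rw [← Set.ncard_coe_finset]
    refine Set.ncard_le_ncard ?_ (Pool.Agent.ZP.finite_le hγ c)
    intro n hn
    rw [Finset.mem_coe, hN0, Finset.mem_filter] at hn
    exact hn.2
  -- N1
  have c1 : N1.card ≤ (TT.filter (fun t => riemannZeta (pt (1 / 2) t) ≠ 0)).card := by
    refine Finset.card_le_card_of_injOn γ ?_ ?_
    · intro n hn
      rw [Finset.mem_coe, hN1, Finset.mem_filter, mA] at hn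
      rw [Finset.mem_coe, Finset.mem_filter, mTT]
      exact ⟨⟨⟨hn.2.1, hn.1⟩, n, rfl⟩, hn.2.2.2.2⟩
    · intro m hm n hn h
      rw [Finset.mem_coe, hN1, Finset.mem_filter] at hm hn
      exact hinj1 m n hm.2.2.1 hn.2.2.1 h
  -- N2
  have c2 : N2.card ≤ P.card := by
    refine Finset.card_le_card_of_injOn (fun n => (γ n, γ (n + 1))) ?_ ?_
    · intro n hn
      rw [Finset.mem_coe, hN2, Finset.mem_filter, mA] at hn
      obtain ⟨h1, h2, h3, h4, h5, h6⟩ := hn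
      rw [Finset.mem_coe, mP]
      refine ⟨(mY _).2 ⟨h2, h1, h5⟩, h3, h4, h6, ?_⟩
      rintro u ⟨hu1, hu2⟩ hu
      have hu1' : γ n < u := hu1
      have hu2' : u < γ (n + 1) := hu2
      obtain ⟨m, hm⟩ := Pool.Agent.ZP.index_of_zeta hγ (t := u) (by linarith) hu
      have h7 : n < m := Pool.Agent.ZP.lt_index hγ (by rw [hm]; exact hu1')
      have h8 : m < n + 1 := Pool.Agent.ZP.lt_index hγ (by rw [hm]; exact hu2')
      omega
    · intro m hm n hn h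
      rw [Finset.mem_coe, hN2, Finset.mem_filter] at hm hn
      exact hinj1 m n hm.2.2.1 hn.2.2.1 (Prod.mk.inj h).1
  -- N3
  have c3 : N3.card ≤ O.card := by
    have hex : ∀ n : ℕ, ∃ ρ, IsUpperZero ρ ∧ ρ.im = γ (n + 1) :=
      fun n => Pool.Agent.ZP.exists_zero_of_index hγ (n + 1)
    choose f hf1 hf2 using hex
    refine Finset.card_le_card_of_injOn f ?_ ?_
    · intro n hn
      rw [Finset.mem_coe, hN3, Finset.mem_filter, mA] at hn
      obtain ⟨h1, h2, h3, h4, h5, h6⟩ := hn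
      rw [Finset.mem_coe, mO]
      refine ⟨(hf1 n).1, ?_, ?_, ?_⟩
      · intro h7
        apply h6
        rw [← hf2 n, show pt (1 / 2) (f n).im = f n from Complex.ext h7.symm rfl]
        exact (hf1 n).1
      · rw [hf2]; linarith
      · rw [hf2]; linarith
    · intro m hm n hn h
      rw [Finset.mem_coe, hN3, Finset.mem_filter] at hm hn
      refine hinj2 m n hm.2.2.1 hn.2.2.1 ?_
      rw [← hf2 m, ← hf2 n, h]
  -- Nz
  have cz : Nz.card + TT.card ≤ ∑ ρ ∈ W, od ρ := by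
    have h1 : Nz.card = ∑ t ∈ TT, (Nz.filter (fun n => γ n = t)).card := by
      refine Finset.card_eq_sum_card_fiberwise ?_
      intro n hn
      rw [Finset.mem_coe, hNz, Finset.mem_filter, mA] at hn
      rw [Finset.mem_coe, mTT]
      exact ⟨⟨hn.2.1, hn.1⟩, n, rfl⟩
    have h2 : TT.card = ∑ t ∈ TT, 1 := by rw [Finset.sum_const, smul_eq_mul, mul_one]
    have h3 : ∑ ρ ∈ W, od ρ = ∑ t ∈ TT, ∑ ρ ∈ W.filter (fun ρ => ρ.im = t), od ρ := by
      refine (Finset.sum_fiberwise_of_maps_to ?_ _).symm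
      intro ρ hρ
      rw [mW] at hρ
      rw [mTT]
      obtain ⟨n, hn⟩ := Pool.Agent.ZP.exists_index_of_zero hγ hρ.1
      exact ⟨hρ.2, n, hn⟩
    rw [h1, h2, h3, ← Finset.sum_add_distrib]
    refine Finset.sum_le_sum fun t ht => ?_
    rw [mTT] at ht
    obtain ⟨⟨ht1, ht2⟩, n0, hn0⟩ := ht
    have h4 : (Pool.Agent.ZP.finite_eq hγ t).toFinset.card
        = ∑ ρ ∈ W.filter (fun ρ => ρ.im = t), od ρ := by
      refine SQ4.card_fiber hγ _ fun ρ => ?_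
      rw [Finset.mem_filter, mW]
      constructor
      · rintro ⟨⟨h1, -, -⟩, h2⟩
        exact ⟨h1, h2⟩
      · rintro ⟨h1, h2⟩
        exact ⟨⟨h1, by rw [h2]; exact ht1, by rw [h2]; exact ht2⟩, h2⟩
    rw [← h4]
    set F := (Pool.Agent.ZP.finite_eq hγ t).toFinset with hF
    have mF : ∀ n, n ∈ F ↔ γ n = t := by
      intro n
      rw [hF, Set.Finite.mem_toFinset]
      rfl
    have hne : F.Nonempty := ⟨n0, (mF n0).2 hn0⟩
    have h5 : Nz.filter (fun n => γ n = t) ⊆ F.erase (F.max' hne) := by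
      intro n hn
      rw [Finset.mem_filter, hNz, Finset.mem_filter] at hn
      obtain ⟨⟨h6, h7, h8⟩, h9⟩ := hn
      rw [Finset.mem_erase, mF]
      refine ⟨?_, h9⟩
      intro h10
      have h11 : n + 1 ∈ F := (mF _).2 (h8.trans h9)
      have h12 := F.le_max' _ h11
      omega
    have h6 := Finset.card_le_card h5
    rw [Finset.card_erase_of_mem (F.max'_mem hne)] at h6
    have h7 : 1 ≤ F.card := hne.card_pos
    omega
  -- TT
  have hTTc : TT.card = Y.card + (TT.filter (fun t => riemannZeta (pt (1 / 2) t) ≠ 0)).card := by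
    have h1 : Y = TT.filter (fun t => riemannZeta (pt (1 / 2) t) = 0) := by
      ext y
      rw [mY, Finset.mem_filter, mTT]
      constructor
      · rintro ⟨h1, h2, h3⟩
        exact ⟨⟨⟨h1, h2⟩, Pool.Agent.ZP.index_of_zeta hγ (by linarith) h3⟩, h3⟩
      · rintro ⟨⟨⟨h1, h2⟩, -⟩, h3⟩
        exact ⟨h1, h2, h3⟩
    rw [h1]
    exact (Finset.card_filter_add_card_filter_not _).symm
  -- W
  have hWs : ∑ ρ ∈ W, od ρ ≤ ∑ y ∈ Y, od (pt (1 / 2) y) + ∑ ρ ∈ O, od ρ := by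
    rw [← Finset.sum_filter_add_sum_filter_not W (fun ρ => ρ.re = 1 / 2)]
    refine add_le_add (le_of_eq ?_) ?_
    · rw [hY, Finset.sum_image]
      · refine Finset.sum_congr rfl fun ρ hρ => ?_
        rw [Finset.mem_filter] at hρ
        rw [show pt (1 / 2) ρ.im = ρ from Complex.ext hρ.2.symm rfl]
      · intro ρ hρ σ hσ h
        rw [Finset.mem_coe, Finset.mem_filter] at hρ hσ
        exact Complex.ext (hρ.2.trans hσ.2.symm) h
    · refine Finset.sum_le_sum_of_subset ?_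
      intro ρ hρ
      rw [Finset.mem_filter, mW] at hρ
      rw [mO]
      exact ⟨hρ.1.1.1, hρ.2, by linarith [hρ.1.2.1], by linarith [hρ.1.2.2]⟩
  have hOs : O.card ≤ ∑ ρ ∈ O, od ρ := by
    rw [Finset.card_eq_sum_ones]
    refine Finset.sum_le_sum fun ρ hρ => ?_
    rw [mO] at hρ
    exact SQ4.od_pos (SQ4.upper_of_zero hρ.1 (by linarith [hρ.2.2.1]))
  have hcard : gapCount γ T x ≤ N0.card + (Nz.card + (N1.card + (N2.card + N3.card))) := by
    rw [hcount]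
    refine (Finset.card_le_card hsplit).trans ?_
    refine (Finset.card_union_le _ _).trans (Nat.add_le_add_left ?_ _)
    refine (Finset.card_union_le _ _).trans (Nat.add_le_add_left ?_ _)
    refine (Finset.card_union_le _ _).trans (Nat.add_le_add_left ?_ _)
    exact Finset.card_union_le _ _
  have hfin : gapCount γ T x + Y.card ≤ ∑ y ∈ Y, od (pt (1 / 2) y) + P.card
      + 2 * ∑ ρ ∈ O, od ρ + {n | γ n ≤ c}.ncard := by omega
  have hfin' : (gapCount γ T x : ℝ) + Y.card ≤ ∑ y ∈ Y, (od (pt (1 / 2) y) : ℝ) + P.card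
      + 2 * ∑ ρ ∈ O, (od ρ : ℝ) + {n | γ n ≤ c}.ncard := by exact_mod_cast hfin
  rw [Finset.sum_sub_distrib, Finset.sum_const, nsmul_eq_mul, mul_one]
  linarith

end Pool.Agent.ZC
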