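import Pool.Agent.Lib.MP_af3d17_cn.CountSum
import Pool.Agent.Lib.MP_af3d17_cn.Mirror

/-!
# HB2: number of zeros of `ζ` in a window
-/

set_option autoImplicit false

namespace Pool.Agent.ZC

open Filter Topology Set
open Pool.Agent.ZP (pt Lam EE IsUpperZero IsOrdinateSeq)

namespace HB2

/-- the disc of the local factorisation -/
private def D (t : ℝ) : Set ℂ := Metric.closedBall (pt 10 t) (97 / 10)

private theorem finite_D {t : ℝ} (ht : 100 ≤ t) : (zset riemannZeta (D t)).Finite := by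
  have h1 : D t ⊆ Rcl 0 20 (t - 10) (t + 10) := by
    intro s hs
    obtain ⟨h1, h2, h3, h4⟩ := Pool.Agent.ZP.mem_disc hs
    exact ⟨by linarith, by linarith, by linarith, by linarith⟩
  refine (zset_finite (a := 0) (b := 20) (c := t - 10) (d := t + 10) ?_ ?_).subset
    (CB.zset_mono h1)
  · intro s hs
    exact Pool.Agent.ZP.zeta_analyticAt (by linarith [hs.2.2.1])
  · refine ⟨pt 10 t, ⟨?_, ?_, ?_, ?_⟩, riemannZeta_ne_zero_of_one_le_re ?_⟩ <;>
      norm_num [Pool.Agent.ZP.pt_re, Pool.Agent.ZP.pt_im]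

private theorem cnt_D : ∃ C T1 : ℝ, 0 < C ∧ 100 ≤ T1 ∧ ∀ t ≥ T1,
    (cnt riemannZeta (D t) : ℝ) ≤ C * Real.log t := by
  obtain ⟨C, T1, hC, hT1, hloc⟩ := Pool.Agent.ZP.local_zeta
  refine ⟨C, T1, hC, hT1, fun t ht => ?_⟩
  obtain ⟨k, z, g, hk, hz, hg, hf, hg0, -⟩ := hloc t ht
  have h1 : cnt riemannZeta (D t) = k := by
    refine cnt_prod (g := g) (z := z) ?_ (fun i => (hz i).1) ?_
    · intro s hs
      exact ⟨hg s (Metric.closedBall_subset_closedBall (by norm_num) hs), hg0 s hs⟩
    · intro s hs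
      have h2 : Metric.ball (pt 10 t) (98 / 10) ∈ 𝓝 s := by
        refine Metric.isOpen_ball.mem_nhds ?_
        rw [Metric.mem_ball]
        have h3 : dist s (pt 10 t) ≤ 97 / 10 := hs
        linarith
      filter_upwards [h2] with w hw
      exact hf w (Metric.ball_subset_closedBall hw)
  rw [h1]
  exact hk

/-- the right half of the window -/
private def A (t : ℝ) : Set ℂ := {s | 1 / 2 ≤ s.re ∧ s.re < 1 ∧ t - 2 < s.im ∧ s.im < t + 2}

private theorem A_sub (t : ℝ) : A t ⊆ D (t - 1) ∪ D (t + 1) := by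
  rintro s ⟨h1, h2, h3, h4⟩
  have e : s = pt s.re s.im := Complex.ext (by simp) (by simp)
  rcases le_total s.im t with h | h
  · left
    rw [e]
    refine Pool.Agent.ZP.pt_mem_disc (by norm_num) ?_
    have e1 : (s.re - 10) ^ 2 ≤ (19 / 2) ^ 2 := by
      rw [sq_le_sq, abs_of_neg (by linarith), abs_of_pos (by norm_num)]
      linarith
    have e2 : (s.im - (t - 1)) ^ 2 ≤ 1 ^ 2 := by
      rw [sq_le_sq, abs_one, abs_le]
      constructor <;> linarith
    linarith
  · right
    rw [e]
    refine Pool.Agent.ZP.pt_mem_disc (by norm_num) ?_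
    have e1 : (s.re - 10) ^ 2 ≤ (19 / 2) ^ 2 := by
      rw [sq_le_sq, abs_of_neg (by linarith), abs_of_pos (by norm_num)]
      linarith
    have e2 : (s.im - (t + 1)) ^ 2 ≤ 1 ^ 2 := by
      rw [sq_le_sq, abs_one, abs_le]
      constructor <;> linarith
    linarith

private theorem finite_A {t : ℝ} (ht : 101 ≤ t) : (zset riemannZeta (A t)).Finite := by
  refine Finite.subset ?_ (CB.zset_mono (A_sub t))
  rw [CB.zset_union]
  exact (finite_D (by linarith)).union (finite_D (by linarith))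

private theorem cnt_A : ∃ C T1 : ℝ, 0 < C ∧ 101 ≤ T1 ∧ ∀ t ≥ T1,
    (cnt riemannZeta (A t) : ℝ) ≤ C * Real.log t := by
  obtain ⟨C, T1, hC, hT1, h⟩ := cnt_D
  refine ⟨3 * C, T1 + 1, by positivity, by linarith, fun t ht => ?_⟩
  have hfin : (zset riemannZeta (D (t - 1) ∪ D (t + 1))).Finite := by
    rw [CB.zset_union]
    exact (finite_D (by linarith)).union (finite_D (by linarith))
  have h1 : (cnt riemannZeta (A t) : ℝ) ≤
      cnt riemannZeta (D (t - 1)) + cnt riemannZeta (D (t + 1)) := by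
    exact_mod_cast (cnt_mono (A_sub t) hfin).trans (cnt_union_le _ _ _)
  have h2 := h (t - 1) (by linarith)
  have h3 := h (t + 1) (by linarith)
  have h4 : Real.log (t - 1) ≤ Real.log t := Real.log_le_log (by linarith) (by linarith)
  have h5 : Real.log (t + 1) ≤ 2 * Real.log t := by
    have e : 2 * Real.log t = Real.log (t ^ 2) := by
      rw [Real.log_pow]
      norm_num
    rw [e]
    exact Real.log_le_log (by linarith) (by nlinarith)
  have h6 := mul_le_mul_of_nonneg_left h4 hC.le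
  have h7 := mul_le_mul_of_nonneg_left h5 hC.le
  linarith

/-- reflection of the zeros in the critical line -/
private noncomputable def R (p : ℂ × ℕ) : ℂ × ℕ := (mir p.1, p.2)

private theorem mir_mir (s : ℂ) : mir (mir s) = s := by simp [mir]

private theorem R_inj : Function.Injective R := by
  rintro ⟨s, j⟩ ⟨s', j'⟩ h
  have h1 : mir s = mir s' := (Prod.mk.inj h).1
  have h2 : j = j' := (Prod.mk.inj h).2
  rw [h2, ← mir_mir s, h1, mir_mir]

private theorem order_mir' {s : ℂ} (h : 0 < s.im) :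
    analyticOrderAt riemannZeta (mir s) = analyticOrderAt riemannZeta s := by
  obtain ⟨n, hn⟩ := ENat.ne_top_iff_exists.1 (ZP.order_ne_top s)
  rw [order_mir h n hn.symm, hn]

private theorem zset_sub {t : ℝ} (ht : 2 ≤ t) : zset riemannZeta (Rc (-2) 3 (t - 2) (t + 2)) ⊆
    zset riemannZeta (A t) ∪ R ⁻¹' (zset riemannZeta (A t)) := by
  rintro ⟨s, j⟩ ⟨⟨h1, h2, h3, h4⟩, hj⟩
  have hj' : (j : ℕ∞) < analyticOrderAt riemannZeta s := hj
  have him : 0 < s.im := by
    have h3' : t - 2 < s.im := h3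
    linarith
  have hne : analyticOrderAt riemannZeta s ≠ 0 := (zero_le.trans_lt hj').ne'
  have hz : riemannZeta s = 0 := apply_eq_zero_of_analyticOrderAt_ne_zero hne
  rcases le_or_gt (1 / 2) s.re with h | h
  · left
    refine ⟨⟨h, ?_, h3, h4⟩, hj⟩
    by_contra h5
    exact riemannZeta_ne_zero_of_one_le_re (not_lt.1 h5) hz
  · right
    have hm : riemannZeta (mir s) = 0 := (zeta_mir him).2 hz
    have e1 : (mir s).re = 1 - s.re := by simp [mir]
    have e2 : (mir s).im = s.im := by simp [mir]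
    refine ⟨⟨?_, ?_, ?_, ?_⟩, ?_⟩
    · show 1 / 2 ≤ (mir s).re
      rw [e1]
      linarith
    · show (mir s).re < 1
      by_contra h5
      exact riemannZeta_ne_zero_of_one_le_re (not_lt.1 h5) hm
    · show t - 2 < (mir s).im
      rw [e2]
      exact h3
    · show (mir s).im < t + 2
      rw [e2]
      exact h4
    · show (j : ℕ∞) < analyticOrderAt riemannZeta (mir s)
      rw [order_mir' him]
      exact hj'

end HB2

open HB2

/-- HB2: number of zeros of `ζ` in a window -/
theorem window : ∃ C T1 : ℝ, 0 < C ∧ 100 ≤ T1 ∧ ∀ t ≥ T1,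
    (cnt riemannZeta (Rc (-2) 3 (t - 2) (t + 2)) : ℝ) ≤ C * Real.log t := by
  obtain ⟨C, T1, hC, hT1, h⟩ := cnt_A
  refine ⟨2 * C, T1, by positivity, by linarith, fun t ht => ?_⟩
  have hfin := finite_A (t := t) (by linarith)
  have hfin2 : (R ⁻¹' (zset riemannZeta (A t))).Finite := hfin.preimage R_inj.injOn
  have h1 : (R ⁻¹' (zset riemannZeta (A t))).ncard ≤ cnt riemannZeta (A t) := by
    rw [← ncard_image_of_injective _ R_inj]
    exact ncard_le_ncard (image_preimage_subset _ _) hfin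
  have h2 : cnt riemannZeta (Rc (-2) 3 (t - 2) (t + 2)) ≤
      cnt riemannZeta (A t) + cnt riemannZeta (A t) :=
    ((ncard_le_ncard (zset_sub (by linarith)) (hfin.union hfin2)).trans
      (ncard_union_le _ _)).trans (Nat.add_le_add_left h1 _)
  have h3 : (cnt riemannZeta (Rc (-2) 3 (t - 2) (t + 2)) : ℝ) ≤
      cnt riemannZeta (A t) + cnt riemannZeta (A t) := by exact_mod_cast h2
  have h4 := h t ht
  linarith

end Pool.Agent.ZC
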