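import Pool.Agent.Lib.MP_af3d17_cn.CountBasic
import Pool.Agent.Lib.MP_af3d17_cn.CountSum
import Pool.Agent.Lib.MP_af3d17_cn.Window
import Pool.Agent.Lib.MP_af3d17_cn.Mirror
import Pool.Agent.Lib.MP_af3d17_cn.GoodGap
import Pool.Agent.Lib.MP_af3d17_cn.BadGap
import Pool.Agent.Lib.MP_af3d17_cn.DerivLower
import Pool.Agent.Lib.MP_af3d17_cn.LeftCount
import Pool.Agent.Lib.MP_af3d17_cn.Generic
import Pool.Agent.Lib.MP_af3d17_cn.SeqSmall
import Pool.Agent.Lib.MP_af3d17_nt_h98.Count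

set_option autoImplicit false

namespace Pool.Agent.ZC

open Filter Topology Set
open Pool.Agent.ZP (pt Lam EE IsUpperZero IsOrdinateSeq)

variable {γ : ℕ → ℝ}

namespace P1

lemma zeta_analytic {s : ℂ} (hs : s ≠ 1) : AnalyticAt ℂ riemannZeta s := by
  have h2 : DifferentiableOn ℂ riemannZeta {1}ᶜ := fun s hs =>
    (differentiableAt_riemannZeta hs).differentiableWithinAt
  exact h2.analyticAt (isOpen_compl_singleton.mem_nhds hs)

lemma ne_one {s : ℂ} (h : 0 < s.im) : s ≠ 1 := by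
  rintro rfl
  simp at h

lemma zset_fin {a b c d : ℝ} (hb : 3 ≤ b) (ha : a ≤ 3) (hc : 0 < c) (hcd : c ≤ d) :
    (zset riemannZeta (Rcl a b c d)).Finite := by
  refine zset_finite (fun s hs => zeta_analytic (ne_one (hc.trans_le hs.2.2.1))) ?_
  refine ⟨pt 3 c, ⟨ha, hb, le_rfl, hcd⟩, ?_⟩
  exact riemannZeta_ne_zero_of_one_le_re (by simp)

lemma zset_fin_open {c d : ℝ} (hc : 0 < c) (hcd : c ≤ d) :
    (zset riemannZeta (Rc (-2) 3 c d)).Finite :=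
  (zset_fin (a := -2) (b := 3) le_rfl (by norm_num) hc hcd).subset fun _ hp =>
    ⟨⟨hp.1.1.le, hp.1.2.1.le, hp.1.2.2.1.le, hp.1.2.2.2.le⟩, hp.2⟩

lemma order_ne {ρ : ℂ} (hρ : riemannZeta ρ = 0) (h : 0 < ρ.im) : analyticOrderAt riemannZeta ρ ≠ 0 :=
  (zeta_analytic (ne_one h)).analyticOrderAt_ne_zero.2 hρ

lemma sum_le_cnt {S : Set ℂ} (W : Finset ℂ) (hW : ∀ ρ ∈ W, ρ ∈ S ∧ riemannZeta ρ = 0 ∧ 0 < ρ.im)
    (hfin : (zset riemannZeta S).Finite) : (∑ ρ ∈ W, (od ρ : ℝ)) ≤ cnt riemannZeta S := by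
  have h1 : cnt riemannZeta (W : Set ℂ) = ∑ z ∈ W, (analyticOrderAt riemannZeta z).toNat := by
    refine cnt_eq_sum W (fun z => ⟨fun h => ⟨h, ?_⟩, fun h => h.1⟩) fun z hz => ?_
    · exact order_ne (hW z h).2.1 (hW z h).2.2
    · exact Pool.Agent.ZP.order_ne_top z
  have h2 : cnt riemannZeta (W : Set ℂ) ≤ cnt riemannZeta S := cnt_mono (fun z hz => (hW z hz).1) hfin
  have h3 : (∑ ρ ∈ W, (od ρ : ℝ)) = (cnt riemannZeta (W : Set ℂ) : ℝ) := by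
    rw [h1]; push_cast; rfl
  rw [h3]
  exact_mod_cast h2

lemma mir_mir (ρ : ℂ) : mir (mir ρ) = ρ := by simp [mir]

lemma mir_re (ρ : ℂ) : (mir ρ).re = 1 - ρ.re := by simp [mir]
lemma mir_im (ρ : ℂ) : (mir ρ).im = ρ.im := by simp [mir]

lemma off_sum {c d T : ℝ} (hc : 3 < c) (hcT : c + 3 ≤ T) (hd1 : T - 1 < d) (O : Finset ℂ)
    (hO : ∀ ρ, ρ ∈ O ↔ riemannZeta ρ = 0 ∧ ρ.re ≠ 1 / 2 ∧ c - 1 ≤ ρ.im ∧ ρ.im ≤ T + 1) :
    (∑ ρ ∈ O, (od ρ : ℝ)) ≤ 2 * cnt riemannZeta (Rc (-1) (1 / 2) c d)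
      + cnt riemannZeta (Rc (-2) 3 (c - 2) (c + 2)) + cnt riemannZeta (Rc (-2) 3 (T - 2) (T + 2)) := by
  classical
  have him : ∀ ρ ∈ O, 0 < ρ.im := fun ρ h => by linarith [((hO ρ).1 h).2.2.1]
  have hst : ∀ ρ ∈ O, 0 < ρ.re ∧ ρ.re < 1 := fun ρ h => zeta_strip (him ρ h) ((hO ρ).1 h).1
  set O1 := O.filter (fun ρ => ρ.im < c + 2)
  set O2 := O.filter (fun ρ => T - 2 < ρ.im)
  set O3 := O.filter (fun ρ => c < ρ.im ∧ ρ.im < d ∧ ρ.re < 1 / 2)
  set O4 := O.filter (fun ρ => c < ρ.im ∧ ρ.im < d ∧ 1 / 2 < ρ.re)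
  have hsub : O ⊆ O1 ∪ (O2 ∪ (O3 ∪ O4)) := by
    intro ρ hρ
    obtain ⟨h1, h2, h3, h4⟩ := (hO ρ).1 hρ
    simp only [O1, O2, O3, O4, Finset.mem_union, Finset.mem_filter]
    rcases lt_or_ge ρ.im (c + 2) with h5 | h5
    · exact Or.inl ⟨hρ, h5⟩
    rcases lt_or_ge (T - 2) ρ.im with h6 | h6
    · exact Or.inr (Or.inl ⟨hρ, h6⟩)
    rcases lt_or_gt_of_ne h2 with h7 | h7
    · exact Or.inr (Or.inr (Or.inl ⟨hρ, by linarith, by linarith, h7⟩))
    · exact Or.inr (Or.inr (Or.inr ⟨hρ, by linarith, by linarith, h7⟩))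
  have hnn : ∀ ρ, (0 : ℝ) ≤ od ρ := fun ρ => Nat.cast_nonneg _
  have hun : ∀ A B : Finset ℂ, ∑ ρ ∈ A ∪ B, (od ρ : ℝ) ≤ ∑ ρ ∈ A, (od ρ : ℝ) + ∑ ρ ∈ B, (od ρ : ℝ) := by
    intro A B
    rw [← Finset.sum_union_inter]
    exact le_add_of_nonneg_right (Finset.sum_nonneg fun ρ _ => hnn ρ)
  have e0 : ∑ ρ ∈ O, (od ρ : ℝ) ≤ ∑ ρ ∈ O1, (od ρ : ℝ) + (∑ ρ ∈ O2, (od ρ : ℝ) +
      (∑ ρ ∈ O3, (od ρ : ℝ) + ∑ ρ ∈ O4, (od ρ : ℝ))) := by
    refine (Finset.sum_le_sum_of_subset_of_nonneg hsub fun ρ _ _ => hnn ρ).trans ?_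
    refine (hun _ _).trans ?_
    gcongr
    refine (hun _ _).trans ?_
    gcongr
    exact hun _ _
  have e1 : ∑ ρ ∈ O1, (od ρ : ℝ) ≤ cnt riemannZeta (Rc (-2) 3 (c - 2) (c + 2)) := by
    refine sum_le_cnt _ (fun ρ h => ?_) (zset_fin_open (by linarith) (by linarith))
    obtain ⟨h1, h2⟩ := Finset.mem_filter.1 h
    obtain ⟨h3, h4, h5, h6⟩ := (hO ρ).1 h1
    obtain ⟨h7, h8⟩ := hst ρ h1
    exact ⟨⟨by linarith, by linarith, by linarith, by linarith⟩, h3, him ρ h1⟩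
  have e2 : ∑ ρ ∈ O2, (od ρ : ℝ) ≤ cnt riemannZeta (Rc (-2) 3 (T - 2) (T + 2)) := by
    refine sum_le_cnt _ (fun ρ h => ?_) (zset_fin_open (by linarith) (by linarith))
    obtain ⟨h1, h2⟩ := Finset.mem_filter.1 h
    obtain ⟨h3, h4, h5, h6⟩ := (hO ρ).1 h1
    obtain ⟨h7, h8⟩ := hst ρ h1
    exact ⟨⟨by linarith, by linarith, by linarith, by linarith⟩, h3, him ρ h1⟩
  have hfL : (zset riemannZeta (Rc (-1) (1 / 2) c d)).Finite :=
    (zset_fin_open (c := c) (d := d) (by linarith) (by linarith)).subset fun p hp =>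
      ⟨⟨by linarith [hp.1.1], by linarith [hp.1.2.1], hp.1.2.2⟩, hp.2⟩
  have e3 : ∑ ρ ∈ O3, (od ρ : ℝ) ≤ cnt riemannZeta (Rc (-1) (1 / 2) c d) := by
    refine sum_le_cnt _ (fun ρ h => ?_) hfL
    obtain ⟨h1, h2, h2', h2''⟩ := Finset.mem_filter.1 h
    obtain ⟨h7, h8⟩ := hst ρ h1
    exact ⟨⟨by linarith, by linarith, by linarith, by linarith⟩, ((hO ρ).1 h1).1, him ρ h1⟩
  have e4 : ∑ ρ ∈ O4, (od ρ : ℝ) ≤ cnt riemannZeta (Rc (-1) (1 / 2) c d) := by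
    have h0 : ∑ ρ ∈ O4, (od ρ : ℝ) = ∑ ρ ∈ O4.image mir, (od ρ : ℝ) := by
      rw [Finset.sum_image (fun x _ y _ h => by rw [← mir_mir x, h, mir_mir])]
      refine Finset.sum_congr rfl fun ρ h => ?_
      rw [od_mir (him ρ (Finset.mem_filter.1 h).1)]
    rw [h0]
    refine sum_le_cnt _ (fun ρ h => ?_) hfL
    obtain ⟨ρ', h1, rfl⟩ := Finset.mem_image.1 h
    obtain ⟨h1, h2, h2', h2''⟩ := Finset.mem_filter.1 h1
    obtain ⟨h7, h8⟩ := hst ρ' h1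
    have h9 := him ρ' h1
    refine ⟨⟨?_, ?_, ?_, ?_⟩, (zeta_mir h9).2 ((hO ρ').1 h1).1, by rw [mir_im]; exact h9⟩
    · rw [mir_re]; linarith
    · rw [mir_re]; linarith
    · rw [mir_im]; linarith
    · rw [mir_im]; linarith
  linarith

end P1

open P1 in
theorem part_one (hγ : IsOrdinateSeq γ) : ∃ C : ℝ, 1 ≤ C ∧ ∀ T x : ℝ, C ≤ T → 0 ≤ x →
    C * x * (Real.log T) ^ 2 ≤ 1 →
    (gapCount γ T x : ℝ) ≤ C * (derivCount T (C * x ^ 2 * Real.log T) + Real.log T) := by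
  classical
  obtain ⟨K, T1, hK, hT1, h1⟩ := good_gap_zero
  obtain ⟨C2, T2, hC2, hT2, h2⟩ := left_count
  obtain ⟨C4, T4, hC4, hT4, h4⟩ := window
  set T0 : ℝ := max T1 (max T2 T4) with hT0
  have hT01 : T1 ≤ T0 := le_max_left _ _
  have hT02 : T2 ≤ T0 := (le_max_left _ _).trans (le_max_right _ _)
  have hT04 : T4 ≤ T0 := (le_max_right _ _).trans (le_max_right _ _)
  have hT0' : 100 ≤ T0 := hT1.trans hT01
  obtain ⟨c, ⟨hc1, hc2⟩, hgc, -⟩ := gen_height 0 T0 (T0 + 1) (by linarith) (by linarith)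
  set N0 : ℝ := ({n | γ n ≤ c}.ncard : ℝ) with hN0
  have hN0n : 0 ≤ N0 := Nat.cast_nonneg _
  refine ⟨T0 + K + N0 + 20 * C2 + 40 * C4 + 50, by linarith, fun T x hT hx hxT => ?_⟩
  set C : ℝ := T0 + K + N0 + 20 * C2 + 40 * C4 + 50 with hC
  have hCK : K ≤ C := by linarith
  have hC50 : 50 ≤ C := by linarith
  have hT150 : 150 ≤ T := by linarith
  have hcT : c + 3 ≤ T := by linarith
  have hlogT : 1 ≤ Real.log T := by
    rw [Real.le_log_iff_exp_le (by linarith)]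
    have := Real.exp_one_lt_d9
    linarith
  have hCx : C * x ≤ 1 := by
    have : C * x * 1 ≤ C * x * (Real.log T) ^ 2 := by
      gcongr
      nlinarith
    linarith
  have hx50 : x ≤ 1 / 50 := by
    have : 50 * x ≤ C * x := by gcongr
    linarith
  have hy0 : C * x ^ 2 * Real.log T ≤ 1 / 20 := by
    calc C * x ^ 2 * Real.log T ≤ C * x ^ 2 * (Real.log T) ^ 2 := by
          gcongr; nlinarith
      _ = x * (C * x * (Real.log T) ^ 2) := by ring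
      _ ≤ x * 1 := by gcongr
      _ ≤ 1 / 20 := by linarith
  have hKy0 : K * x ^ 2 * Real.log T ≤ C * x ^ 2 * Real.log T := by gcongr
  have hKy0' : 0 ≤ K * x ^ 2 * Real.log T := by positivity
  obtain ⟨d, ⟨hd1, hd2⟩, hgd, -⟩ := gen_height 0 (T - 1) T (by linarith) (by linarith)
  obtain ⟨Y, P, O, hY, hP, hO, hG⟩ := seq_small hγ (c := c) (T := T) (x := x) (by linarith)
    (by linarith) hx (by linarith)
  -- basic properties
  have hOim : ∀ ρ ∈ O, 0 < ρ.im := fun ρ h => by linarith [((hO ρ).1 h).2.2.1]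
  have hPdisj : ∀ p ∈ P, ∀ q ∈ P, p ≠ q → p.2 ≤ q.1 ∨ q.2 ≤ p.1 := by
    intro p hp q hq hne
    obtain ⟨a1, a2, a3, a4, a5⟩ := (hP p).1 hp
    obtain ⟨b1, b2, b3, b4, b5⟩ := (hP q).1 hq
    have ha := ((hY _).1 a1).2.2
    have hb := ((hY _).1 b1).2.2
    rcases lt_trichotomy p.1 q.1 with h | h | h
    · left
      by_contra hcon
      exact a5 q.1 ⟨h, not_le.1 hcon⟩ hb
    · exfalso
      apply hne
      refine Prod.ext h ?_
      rcases lt_trichotomy p.2 q.2 with h' | h' | h'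
      · exact absurd a4 (b5 p.2 ⟨by rw [← h]; exact a2, h'⟩)
      · exact h'
      · exact absurd b4 (a5 q.2 ⟨by rw [h]; exact b2, h'⟩)
    · right
      by_contra hcon
      exact b5 p.1 ⟨h, not_le.1 hcon⟩ ha
  have hbad := bad_count O (fun ρ h => ⟨((hO ρ).1 h).2.1, od_pos (hOim ρ h) ((hO ρ).1 h).1⟩) P
    (fun p hp => ((hP p).1 hp).2.1) hPdisj
  set Pg := P.filter (fun p => GoodGap O p.1 p.2) with hPg
  set Pb := P.filter (fun p => ¬ GoodGap O p.1 p.2) with hPb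
  have hcard : (P.card : ℝ) = Pg.card + Pb.card := by
    have := Finset.card_filter_add_card_filter_not (s := P) (fun p => GoodGap O p.1 p.2)
    rw [← this]
    push_cast
    rfl
  -- zeros of the derivative
  have hgood : ∀ p ∈ Pg, p.1 ∈ Y ∧ p.1 < p.2 ∧ riemannZeta (pt (1 / 2) p.2) = 0 ∧
      (∀ u ∈ Ioo p.1 p.2, riemannZeta (pt (1 / 2) u) ≠ 0) ∧
      ∃ s : ℂ, deriv riemannZeta s = 0 ∧ 1 / 2 < s.re ∧ s.re ≤ 1 / 2 + K * x ^ 2 * Real.log T ∧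
        p.1 < s.im ∧ s.im < p.2 := by
    intro p hp
    obtain ⟨hp1, hp2⟩ := Finset.mem_filter.1 hp
    obtain ⟨a1, a2, a3, a4, a5⟩ := (hP p).1 hp1
    obtain ⟨b1, b2, b3⟩ := (hY _).1 a1
    have hlog : Real.log p.1 ≤ Real.log T := Real.log_le_log (by linarith) b2
    have hlog0 : 0 ≤ Real.log p.1 := Real.log_nonneg (by linarith)
    have hd0 : 0 < p.2 - p.1 := by linarith
    have hdx : p.2 - p.1 ≤ x := by linarith
    refine ⟨a1, a2, a4, a5, ?_⟩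
    have k1 : (p.2 - p.1) * (Real.log p.1) ^ 2 * K ≤ 1 := by
      have e : x * (Real.log T) ^ 2 * C = C * x * (Real.log T) ^ 2 := by ring
      refine le_trans ?_ (e.le.trans hxT)
      gcongr
    have k2 : ∀ ρ : ℂ, riemannZeta ρ = 0 → ρ.re ≠ 1 / 2 → |ρ.re - 1 / 2| ≤ 3 / 20 →
        |ρ.im - p.1| ≤ 1 / 2 → ρ ∈ O := by
      intro ρ e1 e2 e3 e4
      have e5 := abs_le.1 e4
      exact (hO ρ).2 ⟨e1, e2, by linarith [e5.1], by linarith [e5.2]⟩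
    obtain ⟨s, c1, c2, c3, c4, c5⟩ := h1 O p.1 p.2 (by linarith) a2 k1 b3 a4 a5 k2
      (fun ρ hρ => ⟨((hO ρ).1 hρ).1, ((hO ρ).1 hρ).2.1⟩) hp2
    refine ⟨s, c1, c2, c3.le.trans ?_, c4, c5⟩
    gcongr
  have hlow := deriv_lower (c := c) (T := T) (y := K * x ^ 2 * Real.log T) (by linarith) (by linarith)
    hKy0' (by linarith) Y Pg (fun u hu => (hY u).1 hu) hgood
  have hmono : (derivCount T (K * x ^ 2 * Real.log T) : ℝ) ≤ derivCount T (C * x ^ 2 * Real.log T) := by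
    have : derivCount T (K * x ^ 2 * Real.log T) ≤ derivCount T (C * x ^ 2 * Real.log T) := by
      refine cnt_mono ?_ (derivSet_finite hy0)
      rintro s ⟨a1, a2, a3, a4⟩
      exact ⟨a1, by linarith, a3, a4⟩
    exact_mod_cast this
  -- Levinson-Montgomery
  have hLM := h2 c d (by linarith) (by linarith) hgc hgd
  have hlogd : Real.log d ≤ Real.log T := Real.log_le_log (by linarith) hd2.le
  have hLM' : (cnt riemannZeta (Rc (-1) (1 / 2) c d) : ℝ) ≤ cnt (deriv riemannZeta) (Rc (-1) (1 / 2) c T)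
      + C2 * Real.log T := by
    have a1 := (abs_le.1 hLM).1
    have a2 : cnt (deriv riemannZeta) (Rc (-1) (1 / 2) c d) ≤ cnt (deriv riemannZeta) (Rc (-1) (1 / 2) c T) := by
      refine cnt_mono ?_ ?_
      · rintro s ⟨b1, b2, b3, b4⟩
        exact ⟨b1, b2, b3, by linarith⟩
      · refine (derivSet_finite (T := T) (y := 1 / 20) le_rfl).subset fun p hp => ⟨?_, hp.2⟩
        exact ⟨hp.1.1, by linarith [hp.1.2.1], by linarith [hp.1.2.2.1], hp.1.2.2.2.le⟩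
    have a3 : (cnt (deriv riemannZeta) (Rc (-1) (1 / 2) c d) : ℝ) ≤
        cnt (deriv riemannZeta) (Rc (-1) (1 / 2) c T) := by exact_mod_cast a2
    have a4 : C2 * Real.log d ≤ C2 * Real.log T := by gcongr
    linarith
  have hoff := off_sum (by linarith) hcT hd1 O hO
  have w1 : (cnt riemannZeta (Rc (-2) 3 (c - 2) (c + 2)) : ℝ) ≤ C4 * Real.log T := by
    have h5 := h4 c (by linarith)
    have h7 : Real.log c ≤ Real.log T := Real.log_le_log (by linarith) (by linarith)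
    calc (cnt riemannZeta (Rc (-2) 3 (c - 2) (c + 2)) : ℝ) ≤ C4 * Real.log c := h5
      _ ≤ C4 * Real.log T := by gcongr
  have w2 := h4 T (by linarith)
  have hA : 0 ≤ ∑ y ∈ Y, ((od (pt (1 / 2) y) : ℝ) - 1) := by
    refine Finset.sum_nonneg fun y hy => ?_
    obtain ⟨b1, b2, b3⟩ := (hY _).1 hy
    have : 1 ≤ od (pt (1 / 2) y) := od_pos (by rw [Pool.Agent.ZP.pt_im]; linarith) b3
    have : (1 : ℝ) ≤ od (pt (1 / 2) y) := by exact_mod_cast this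
    linarith
  set A := ∑ y ∈ Y, ((od (pt (1 / 2) y) : ℝ) - 1)
  set L : ℝ := (cnt (deriv riemannZeta) (Rc (-1) (1 / 2) c T) : ℝ)
  set SO := ∑ ρ ∈ O, (od ρ : ℝ)
  set D : ℝ := (derivCount T (C * x ^ 2 * Real.log T) : ℝ) with hD
  have hD0 : 0 ≤ D := Nat.cast_nonneg _
  have hPg0 : (0 : ℝ) ≤ Pg.card := Nat.cast_nonneg _
  have f1 : SO ≤ 2 * (L + C2 * Real.log T) + 2 * (C4 * Real.log T) := by linarith only [hoff, hLM', w1, w2]
  have f2 : (gapCount γ T x : ℝ) ≤ A + Pg.card + 10 * SO + N0 := by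
    linarith only [hG, hcard, hbad]
  have f3 : A + Pg.card + L ≤ D + 1 := by linarith only [hlow, hmono]
  have f4 : (gapCount γ T x : ℝ) ≤ 20 * (D + 1) + 20 * (C2 * Real.log T) + 20 * (C4 * Real.log T) + N0 := by
    linarith only [f1, f2, f3, hA, hPg0]
  have f5 : C * (D + Real.log T) = C * D + (T0 * Real.log T + K * Real.log T + N0 * Real.log T
      + 20 * (C2 * Real.log T) + 40 * (C4 * Real.log T) + 50 * Real.log T) := by
    rw [hC]; ring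
  have f6 : 50 * D ≤ C * D := by gcongr
  have f7 : N0 ≤ N0 * Real.log T := le_mul_of_one_le_right hN0n hlogT
  have f8 : 0 ≤ T0 * Real.log T := by positivity
  have f9 : 0 ≤ K * Real.log T := by positivity
  have f10 : 0 ≤ C4 * Real.log T := by positivity
  linarith only [f4, f5, f6, f7, f8, f9, f10, hD0, hlogT]

end Pool.Agent.ZC
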