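import Pool.Agent.Lib.MP_af3d17_cn.SeqCount
import Pool.Agent.Lib.MP_af3d17_nt_h98.Count

/-!
# MP_af3d17_nt: row SQ2, isolated ordinates
-/

set_option autoImplicit false

namespace Pool.Agent.ZC

open Filter Topology Set
open Pool.Agent.ZP (pt Lam EE IsUpperZero IsOrdinateSeq)

variable {γ : ℕ → ℝ}

private lemma sg_fin (a b c d : ℝ) : (zset riemannZeta (Rc a b c d)).Finite := by
  have h1 : ((Icc a b ×ℂ Icc c d) ∩ riemannZetaZeros).Finite :=
    IsCompact.inter_riemannZetaZeros_finite (isCompact_Icc.reProdIm isCompact_Icc)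
  refine (h1.biUnion (t := fun ρ => {ρ} ×ˢ {k : ℕ | (k : ℕ∞) < analyticOrderAt riemannZeta ρ})
    fun ρ _ => ?_).subset ?_
  · refine (Set.finite_singleton ρ).prod ?_
    obtain ⟨k, hk⟩ := ENat.ne_top_iff_exists.1 (ZP.order_ne_top ρ)
    rw [← hk]
    refine (Set.finite_lt_nat k).subset fun m hm => ?_
    exact_mod_cast hm
  · rintro ⟨ρ, k⟩ ⟨h2, h3⟩
    rw [Set.mem_iUnion₂]
    refine ⟨ρ, ⟨?_, ?_⟩, rfl, h3⟩
    · rw [Complex.mem_reProdIm]
      obtain ⟨a1, a2, a3, a4⟩ := h2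
      exact ⟨⟨a1.le, a2.le⟩, ⟨a3.le, a4.le⟩⟩
    · exact apply_eq_zero_of_analyticOrderAt_ne_zero (pos_of_gt h3).ne'

private lemma sg_upper {ρ : ℂ} (h : 0 < ρ.im) (h0 : riemannZeta ρ = 0) : IsUpperZero ρ := by
  refine ⟨h0, ?_, ?_, h⟩
  · by_contra h1
    refine riemannZeta_ne_zero_of_one_le_re (s := 1 - (starRingEnd ℂ) ρ) ?_
      ((ZP.zeta_zero_iff h).mp h0)
    rw [Complex.sub_re, Complex.one_re, Complex.conj_re]
    linarith
  · by_contra h1
    exact riemannZeta_ne_zero_of_one_le_re (not_lt.mp h1) h0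

private lemma sg_finN (hγ : IsOrdinateSeq γ) (c d : ℝ) : {n | c < γ n ∧ γ n < d}.Finite :=
  (ZP.finite_le hγ d).subset fun _ hn => hn.2.le

private lemma sg_finG (hγ : IsOrdinateSeq γ) (T x : ℝ) :
    {n | γ n ≤ T ∧ γ (n + 1) - γ n ≤ x}.Finite :=
  (ZP.finite_le hγ T).subset fun _ hn => hn.1

/-- `n` is an isolated index -/
private def Iso (γ : ℕ → ℝ) (r : ℝ) (n : ℕ) : Prop :=
  r < γ (n + 1) - γ n ∧ ∀ m, m + 1 = n → r < γ n - γ m

private lemma sg_sep (hγ : IsOrdinateSeq γ) {r : ℝ} {n m : ℕ} (h : Iso γ r n) (hm : m ≠ n) :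
    r < |γ m - γ n| := by
  rcases lt_or_gt_of_ne hm with h1 | h1
  · obtain ⟨k, rfl⟩ : ∃ k, n = k + 1 := ⟨n - 1, by omega⟩
    have h2 := h.2 k rfl
    have h3 : γ m ≤ γ k := hγ.mono (by omega)
    have h4 := neg_abs_le (γ m - γ (k + 1))
    linarith
  · have h2 := h.1
    have h3 : γ (n + 1) ≤ γ m := hγ.mono h1
    have h4 := le_abs_self (γ m - γ n)
    linarith

private lemma sg_iso (hγ : IsOrdinateSeq γ) {r : ℝ} (hr : 0 < r) {n : ℕ} (h : Iso γ r n)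
    (h1 : 1 ≤ γ n) (hr1 : r ≤ 1) :
    riemannZeta (pt (1 / 2) (γ n)) = 0 ∧ od (pt (1 / 2) (γ n)) = 1 ∧
      ∀ ρ : ℂ, riemannZeta ρ = 0 → ρ ≠ pt (1 / 2) (γ n) → r ≤ |ρ.im - γ n| := by
  -- no two indices have the same value
  have hno : ∀ m : ℕ, γ m = γ n → γ (m + 1) = γ m → False := by
    intro m h2 h3
    by_cases h4 : m = n
    · subst h4
      have := h.1
      linarith
    · have h5 := sg_sep hγ h h4
      rw [h2, sub_self, abs_zero] at h5
      linarith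
  obtain ⟨ρ0, h2, h3⟩ := ZP.exists_zero_of_index hγ n
  have h4 : ¬ (ρ0.re ≠ 1 / 2 ∨ analyticOrderAt riemannZeta ρ0 ≠ 1) := by
    intro h5
    obtain ⟨m, h6, h7⟩ := ZP.exists_gap_zero hγ h2 h5
    exact hno m (h6.trans h3) h7
  push Not at h4
  have h5 : ρ0 = pt (1 / 2) (γ n) := by
    apply Complex.ext
    · rw [ZP.pt_re, h4.1]
    · rw [ZP.pt_im, h3]
  rw [h5] at h2 h4
  refine ⟨h2.1, ?_, ?_⟩
  · unfold od
    rw [h4.2]
    rfl
  · intro ρ hρ hne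
    rcases le_or_gt ρ.im 0 with h6 | h6
    · have := neg_abs_le (ρ.im - γ n)
      linarith
    · have h7 := sg_upper h6 hρ
      have h8 : ∃ m, m ≠ n ∧ γ m = ρ.im := by
        by_cases h9 : ρ.re = 1 / 2
        · obtain ⟨m, hm⟩ := ZP.exists_index_of_zero hγ h7
          refine ⟨m, ?_, hm⟩
          rintro rfl
          apply hne
          apply Complex.ext
          · rw [ZP.pt_re, h9]
          · rw [ZP.pt_im, hm]
        · obtain ⟨m, hm, hm'⟩ := ZP.exists_gap_zero hγ h7 (Or.inl h9)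
          refine ⟨m, ?_, hm⟩
          rintro rfl
          exact hno m rfl hm'
      obtain ⟨m, hm, hm'⟩ := h8
      rw [← hm']
      exact (sg_sep hγ h hm).le

/-- SQ2: all ordinates that are isolated by `r` are good -/
theorem seq_good (hγ : IsOrdinateSeq γ) : ∀ c d r : ℝ, 0 < c → 0 < r → r ≤ 1 → c + 1 ≤ d - 1 →
    ∃ Y : Finset ℝ,
    (∀ y ∈ Y, c + 1 ≤ y ∧ y ≤ d - 1 ∧ riemannZeta (pt (1 / 2) y) = 0 ∧ od (pt (1 / 2) y) = 1 ∧
      ∀ ρ : ℂ, riemannZeta ρ = 0 → ρ ≠ pt (1 / 2) y → r ≤ |ρ.im - y|) ∧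
    (cnt riemannZeta (Rc (-2) 3 c d) : ℝ) ≤ Y.card + 2 * gapCount γ d r
      + cnt riemannZeta (Rc (-2) 3 (c - 1) (c + 2)) + cnt riemannZeta (Rc (-2) 3 (d - 2) (d + 1)) + 2 := by
  classical
  intro c d r hc hr hr1 hcd
  -- the isolated indices
  have hGfin : {n | (c + 1 ≤ γ n ∧ γ n ≤ d - 1) ∧ Iso γ r n}.Finite :=
    (ZP.finite_le hγ d).subset fun n hn => by
      have := hn.1.2
      exact le_trans this (by linarith)
  have hinj : Set.InjOn γ {n | (c + 1 ≤ γ n ∧ γ n ≤ d - 1) ∧ Iso γ r n} := by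
    intro m hm n hn hmn
    by_contra hne
    have h1 := sg_sep hγ hn.2 hne
    rw [hmn, sub_self, abs_zero] at h1
    linarith
  refine ⟨hGfin.toFinset.image γ, ?_, ?_⟩
  · intro y hy
    rw [Finset.mem_image] at hy
    obtain ⟨n, hn, rfl⟩ := hy
    rw [Set.Finite.mem_toFinset] at hn
    obtain ⟨h1, h2, h3⟩ := sg_iso hγ hr hn.2 (by linarith [hn.1.1]) hr1
    exact ⟨hn.1.1, hn.1.2, h1, h2, h3⟩
  · have hcard : (hGfin.toFinset.image γ).card
        = {n | (c + 1 ≤ γ n ∧ γ n ≤ d - 1) ∧ Iso γ r n}.ncard := by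
      rw [Finset.card_image_of_injOn (by
        rw [Set.Finite.coe_toFinset]
        exact hinj), ← Set.ncard_eq_toFinset_card _ hGfin]
    rw [hcard, ← seq_count hγ hc.le]
    -- the five exceptional sets
    have hsub : {n | c < γ n ∧ γ n < d} ⊆
        {n | (c + 1 ≤ γ n ∧ γ n ≤ d - 1) ∧ Iso γ r n} ∪
        ({n | c < γ n ∧ γ n < c + 2} ∪ ({n | d - 2 < γ n ∧ γ n < d + 1} ∪
        ({n | γ n ≤ d ∧ γ (n + 1) - γ n ≤ r} ∪
          (fun m => m + 1) '' {n | γ n ≤ d ∧ γ (n + 1) - γ n ≤ r}))) := by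
      intro n hn
      by_cases h1 : c + 1 ≤ γ n
      swap
      · exact Or.inr (Or.inl ⟨hn.1, by linarith⟩)
      by_cases h2 : γ n ≤ d - 1
      swap
      · exact Or.inr (Or.inr (Or.inl ⟨by linarith, by linarith [hn.2]⟩))
      by_cases h3 : γ (n + 1) - γ n ≤ r
      · exact Or.inr (Or.inr (Or.inr (Or.inl ⟨by linarith, h3⟩)))
      by_cases h4 : ∀ m, m + 1 = n → r < γ n - γ m
      · exact Or.inl ⟨⟨h1, h2⟩, not_le.mp h3, h4⟩
      · push Not at h4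
        obtain ⟨m, hm, hm'⟩ := h4
        subst hm
        refine Or.inr (Or.inr (Or.inr (Or.inr ⟨m, ⟨?_, hm'⟩, rfl⟩)))
        have : γ m ≤ γ (m + 1) := hγ.mono (Nat.le_succ m)
        linarith
    have hfin2 := sg_finG hγ d r
    have k1 := Set.ncard_le_ncard hsub (hGfin.union ((sg_finN hγ c (c + 2)).union
      ((sg_finN hγ (d - 2) (d + 1)).union (hfin2.union (hfin2.image _)))))
    have k2 := Set.ncard_union_le {n | (c + 1 ≤ γ n ∧ γ n ≤ d - 1) ∧ Iso γ r n}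
      ({n | c < γ n ∧ γ n < c + 2} ∪ ({n | d - 2 < γ n ∧ γ n < d + 1} ∪
        ({n | γ n ≤ d ∧ γ (n + 1) - γ n ≤ r} ∪
          (fun m => m + 1) '' {n | γ n ≤ d ∧ γ (n + 1) - γ n ≤ r})))
    have k3 := Set.ncard_union_le {n | c < γ n ∧ γ n < c + 2}
      ({n | d - 2 < γ n ∧ γ n < d + 1} ∪ ({n | γ n ≤ d ∧ γ (n + 1) - γ n ≤ r} ∪
          (fun m => m + 1) '' {n | γ n ≤ d ∧ γ (n + 1) - γ n ≤ r}))
    have k4 := Set.ncard_union_le {n | d - 2 < γ n ∧ γ n < d + 1}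
      ({n | γ n ≤ d ∧ γ (n + 1) - γ n ≤ r} ∪
          (fun m => m + 1) '' {n | γ n ≤ d ∧ γ (n + 1) - γ n ≤ r})
    have k5 := Set.ncard_union_le {n | γ n ≤ d ∧ γ (n + 1) - γ n ≤ r}
      ((fun m => m + 1) '' {n | γ n ≤ d ∧ γ (n + 1) - γ n ≤ r})
    have k6 := Set.ncard_image_le (f := fun m : ℕ => m + 1) hfin2
    have k7 : {n | c < γ n ∧ γ n < c + 2}.ncard ≤
        cnt riemannZeta (Rc (-2) 3 (c - 1) (c + 2)) := by
      rw [seq_count hγ hc.le]
      refine cnt_mono ?_ (sg_fin _ _ _ _)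
      rintro s ⟨a1, a2, a3, a4⟩
      exact ⟨a1, a2, by linarith, a4⟩
    have k8 : {n | d - 2 < γ n ∧ γ n < d + 1}.ncard =
        cnt riemannZeta (Rc (-2) 3 (d - 2) (d + 1)) := seq_count hγ (by linarith)
    have k9 : gapCount γ d r = {n | γ n ≤ d ∧ γ (n + 1) - γ n ≤ r}.ncard := rfl
    rw [← k9] at k5 k6
    have k10 : {n | c < γ n ∧ γ n < d}.ncard ≤
        {n | (c + 1 ≤ γ n ∧ γ n ≤ d - 1) ∧ Iso γ r n}.ncard + 2 * gapCount γ d r
        + cnt riemannZeta (Rc (-2) 3 (c - 1) (c + 2))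
        + cnt riemannZeta (Rc (-2) 3 (d - 2) (d + 1)) + 2 := by omega
    exact_mod_cast k10

/-- SQ3 -/
theorem gapCount_le_add (hγ : IsOrdinateSeq γ) {T T' x : ℝ} (h : 1 ≤ T) (hT : T ≤ T') :
    gapCount γ T' x ≤ gapCount γ T x + cnt riemannZeta (Rc (-2) 3 (T - 1) (T' + 1)) := by
  rw [← seq_count hγ (by linarith : (0 : ℝ) ≤ T - 1)]
  have h1 : {n | γ n ≤ T' ∧ γ (n + 1) - γ n ≤ x} ⊆
      {n | γ n ≤ T ∧ γ (n + 1) - γ n ≤ x} ∪ {n | T - 1 < γ n ∧ γ n < T' + 1} := by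
    intro n hn
    by_cases h2 : γ n ≤ T
    · exact Or.inl ⟨h2, hn.2⟩
    · exact Or.inr ⟨by linarith, by linarith [hn.1]⟩
  exact (Set.ncard_le_ncard h1 ((sg_finG hγ T x).union (sg_finN hγ _ _))).trans
    (Set.ncard_union_le _ _)

theorem gapCount_mono (hγ : IsOrdinateSeq γ) {T x x' : ℝ} (h : x ≤ x') :
    gapCount γ T x ≤ gapCount γ T x' :=
  Set.ncard_le_ncard (fun _ hn => ⟨hn.1, hn.2.trans h⟩) (sg_finG hγ T x')

/-- right continuity at `0` -/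
theorem gapCount_zero (hγ : IsOrdinateSeq γ) (T : ℝ) : ∃ e > 0, ∀ x, 0 ≤ x → x ≤ e →
    gapCount γ T x = gapCount γ T 0 := by
  classical
  have h1 : ∀ F : Finset ℕ, ∃ e : ℝ, 0 < e ∧ ∀ n ∈ F, 0 < γ (n + 1) - γ n →
      e < γ (n + 1) - γ n := by
    intro F
    induction F using Finset.induction_on with
    | empty => exact ⟨1, one_pos, by simp⟩
    | insert a F _ ih =>
      obtain ⟨e, he, h2⟩ := ih
      by_cases h3 : 0 < γ (a + 1) - γ a
      · refine ⟨min e ((γ (a + 1) - γ a) / 2), lt_min he (by linarith), fun n hn h4 => ?_⟩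
        rcases Finset.mem_insert.mp hn with h5 | h5
        · subst h5
          exact lt_of_le_of_lt (min_le_right _ _) (by linarith)
        · exact lt_of_le_of_lt (min_le_left _ _) (h2 n h5 h4)
      · refine ⟨e, he, fun n hn h4 => ?_⟩
        rcases Finset.mem_insert.mp hn with h5 | h5
        · subst h5
          exact absurd h4 h3
        · exact h2 n h5 h4
  obtain ⟨e, he, h2⟩ := h1 (ZP.finite_le hγ T).toFinset
  refine ⟨e, he, fun x hx hxe => ?_⟩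
  unfold gapCount
  congr 1
  ext n
  constructor
  · rintro ⟨h3, h4⟩
    refine ⟨h3, ?_⟩
    by_contra h5
    have h6 := h2 n ((Set.Finite.mem_toFinset _).mpr h3) (not_le.mp h5)
    linarith
  · rintro ⟨h3, h4⟩
    exact ⟨h3, h4.trans hx⟩

end Pool.Agent.ZC
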