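import Pool.Agent.Lib.MP_af3d17_cn.Lift1

/-!
# Row VL3: one clockwise turn near a simple pole
-/

set_option autoImplicit false

namespace Pool.Agent.ZC

open Filter Topology Set
open Pool.Agent.ZP (pt Lam EE IsUpperZero IsOrdinateSeq)

private lemma vl3_mono {w : ℝ → ℂ} {θ : ℝ → ℝ} {c d c' d' : ℝ} (h : IsLift w θ c d)
    (hc : c ≤ c') (hd : d' ≤ d) : IsLift w θ c' d' := by
  have hsub : Icc c' d' ⊆ Icc c d := Icc_subset_Icc hc hd
  exact ⟨h.cw.mono hsub, h.cθ.mono hsub, fun t ht => h.ne t (hsub ht), fun t ht => h.eq t (hsub ht)⟩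

private lemma vl3_re (X v : ℝ) :
    (1 / ((X : ℂ) + Complex.I * ((v : ℝ) : ℂ))).re = X / (X ^ 2 + v ^ 2) := by
  rw [one_div, Complex.inv_re]
  have h1 : ((X : ℂ) + Complex.I * (v : ℂ)).re = X := by simp
  have h2 : Complex.normSq ((X : ℂ) + Complex.I * (v : ℂ)) = X ^ 2 + v ^ 2 := by
    rw [Complex.normSq_apply]
    simp
    ring
  rw [h1, h2]

private lemma vl3_im (X v : ℝ) :
    (1 / ((X : ℂ) + Complex.I * ((v : ℝ) : ℂ))).im = -v / (X ^ 2 + v ^ 2) := by
  rw [one_div, Complex.inv_im]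
  have h1 : ((X : ℂ) + Complex.I * (v : ℂ)).im = v := by simp
  have h2 : Complex.normSq ((X : ℂ) + Complex.I * (v : ℂ)) = X ^ 2 + v ^ 2 := by
    rw [Complex.normSq_apply]
    simp
    ring
  rw [h1, h2]

/-- VL3: one clockwise turn near a simple pole -/
theorem good_turn {w h : ℝ → ℂ} {θ : ℝ → ℝ} {y r x X : ℝ} (hx0 : 0 < x) (hx1 : x ≤ 1 / 4)
    (hX : X = x ^ 2) (hxr : x ≤ r) (hl : IsLift w θ (y - r) (y + r))
    (hw : ∀ t ∈ Icc (y - r) (y + r), w t = 1 / ((X : ℂ) + Complex.I * ((t - y : ℝ) : ℂ)) + h t)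
    (hh : ∀ t ∈ Icc (y - r) (y + r), ‖h t‖ ≤ 1 / (4 * x))
    (hre : ∀ t ∈ Icc (y - r) (y + r), (h t).re ≤ -2) :
    (w (y - r)).re < 0 ∧ (w (y + r)).re < 0 ∧
    θ (y + r) - Complex.arg (-w (y + r)) = θ (y - r) - Complex.arg (-w (y - r)) - 2 * Real.pi ∧
    ∃ t1 ∈ zr w (y - r) (y + r), ∃ t2 ∈ zr w (y - r) (y + r), t1 < t2 := by
  have hX0 : 0 < X := by rw [hX]; positivity
  have hr0 : 0 < r := lt_of_lt_of_le hx0 hxr
  -- real and imaginary parts
  have hwre : ∀ t ∈ Icc (y - r) (y + r), (w t).re = X / (X ^ 2 + (t - y) ^ 2) + (h t).re := by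
    intro t ht
    rw [hw t ht, Complex.add_re, vl3_re]
  have hwim : ∀ t ∈ Icc (y - r) (y + r), (w t).im = -(t - y) / (X ^ 2 + (t - y) ^ 2) + (h t).im := by
    intro t ht
    rw [hw t ht, Complex.add_im, vl3_im]
  -- far from the centre
  have hfar : ∀ t ∈ Icc (y - r) (y + r), x ≤ |t - y| → (w t).re < 0 := by
    intro t ht hxt
    have h1 : x ^ 2 ≤ (t - y) ^ 2 := by
      rw [← sq_abs (t - y)]
      exact pow_le_pow_left₀ hx0.le hxt 2
    have h2 : X / (X ^ 2 + (t - y) ^ 2) ≤ 1 := by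
      rw [div_le_one (by positivity)]
      nlinarith [sq_nonneg X]
    rw [hwre t ht]
    linarith [hre t ht]
  -- near the centre
  have hcen : ∀ t ∈ Icc (y - r) (y + r), |t - y| ≤ X → 0 < (w t).re := by
    intro t ht hxt
    have h1 : (t - y) ^ 2 ≤ X ^ 2 := by
      rw [← sq_abs (t - y)]
      exact pow_le_pow_left₀ (abs_nonneg _) hxt 2
    have h2 : 1 / (2 * X) ≤ X / (X ^ 2 + (t - y) ^ 2) := by
      rw [div_le_div_iff₀ (by positivity) (by positivity)]
      nlinarith
    have h3 : |(h t).re| ≤ 1 / (4 * x) := (Complex.abs_re_le_norm _).trans (hh t ht)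
    rw [abs_le] at h3
    have h4 : 1 / (4 * x) < 1 / (2 * X) := by
      rw [div_lt_div_iff₀ (by positivity) (by positivity), hX]
      nlinarith
    rw [hwre t ht]
    linarith [h3.1]
  -- the imaginary part
  have him : ∀ t ∈ Icc (y - r) (y + r), X ≤ |t - y| → |t - y| ≤ x →
      (t < y → 0 < (w t).im) ∧ (y < t → (w t).im < 0) := by
    intro t ht hXt htx
    have h3 : |(h t).im| ≤ 1 / (4 * x) := (Complex.abs_im_le_norm _).trans (hh t ht)
    rw [abs_le] at h3
    have h4 : X ^ 2 ≤ (t - y) ^ 2 := by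
      rw [← sq_abs (t - y)]
      exact pow_le_pow_left₀ hX0.le hXt 2
    have hpos : 0 < |t - y| := lt_of_lt_of_le hX0 hXt
    have h5 : 1 / (2 * x) ≤ |t - y| / (X ^ 2 + (t - y) ^ 2) := by
      rw [div_le_div_iff₀ (by positivity) (by positivity)]
      have h6 : (t - y) ^ 2 = |t - y| ^ 2 := (sq_abs _).symm
      rw [h6] at h4 ⊢
      nlinarith
    have h6 : 1 / (4 * x) < 1 / (2 * x) := by
      rw [div_lt_div_iff₀ (by positivity) (by positivity)]
      nlinarith
    constructor
    · intro hty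
      rw [hwim t ht]
      have h7 : |t - y| = -(t - y) := abs_of_neg (by linarith)
      rw [h7] at h5
      linarith [h3.1]
    · intro hty
      rw [hwim t ht]
      have h7 : |t - y| = t - y := abs_of_pos (by linarith)
      rw [h7] at h5
      have h8 : -(t - y) / (X ^ 2 + (t - y) ^ 2) = -((t - y) / (X ^ 2 + (t - y) ^ 2)) := by
        rw [neg_div]
      rw [h8]
      linarith [h3.2]
  have hXx : X ≤ x := by rw [hX]; nlinarith
  -- membership
  have m1 : y - r ∈ Icc (y - r) (y + r) := ⟨le_rfl, by linarith⟩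
  have m2 : y + r ∈ Icc (y - r) (y + r) := ⟨by linarith, le_rfl⟩
  have m3 : y - x ∈ Icc (y - r) (y + r) := ⟨by linarith, by linarith⟩
  have m4 : y + x ∈ Icc (y - r) (y + r) := ⟨by linarith, by linarith⟩
  have m5 : y ∈ Icc (y - r) (y + r) := ⟨by linarith, by linarith⟩
  have a3 : |y - x - y| = x := by
    have : y - x - y = -x := by ring
    rw [this, abs_neg, abs_of_pos hx0]
  have a4 : |y + x - y| = x := by
    have : y + x - y = x := by ring
    rw [this, abs_of_pos hx0]
  have r1 : (w (y - r)).re < 0 := by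
    apply hfar _ m1
    have : y - r - y = -r := by ring
    rw [this, abs_neg, abs_of_pos hr0]
    exact hxr
  have r2 : (w (y + r)).re < 0 := by
    apply hfar _ m2
    have : y + r - y = r := by ring
    rw [this, abs_of_pos hr0]
    exact hxr
  have r3 : (w (y - x)).re < 0 := hfar _ m3 a3.ge
  have r4 : (w (y + x)).re < 0 := hfar _ m4 a4.ge
  have r5 : 0 < (w y).re := hcen _ m5 (by rw [sub_self, abs_zero]; exact hX0.le)
  have i3 : 0 < (w (y - x)).im := (him _ m3 (by rw [a3]; exact hXx) a3.le).1 (by linarith)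
  have i4 : (w (y + x)).im < 0 := (him _ m4 (by rw [a4]; exact hXx) a4.le).2 (by linarith)
  -- the three pieces
  have p1 := lift_neg (vl3_mono hl (le_refl (y - r)) (by linarith : y - x ≤ y + r)) (by linarith)
    (fun t ht => by
      refine hfar t ⟨ht.1, by linarith [ht.2]⟩ ?_
      rw [abs_of_nonpos (by linarith [ht.2])]
      linarith [ht.2])
  have p3 := lift_neg (vl3_mono hl (by linarith : y - r ≤ y + x) (le_refl (y + r))) (by linarith)
    (fun t ht => by
      refine hfar t ⟨by linarith [ht.1], ht.2⟩ ?_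
      rw [abs_of_nonneg (by linarith [ht.1])]
      linarith [ht.1])
  have p2 := lift_slit (vl3_mono hl (by linarith : y - r ≤ y - x) (by linarith : y + x ≤ y + r))
    (by linarith) (fun t ht => by
      have mt : t ∈ Icc (y - r) (y + r) := ⟨by linarith [ht.1], by linarith [ht.2]⟩
      have htx : |t - y| ≤ x := by
        rw [abs_le]
        constructor <;> linarith [ht.1, ht.2]
      rw [Complex.mem_slitPlane_iff]
      by_cases hc : |t - y| ≤ X
      · left
        exact hcen t mt hc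
      · right
        rw [not_le] at hc
        have h1 := him t mt hc.le htx
        rcases lt_trichotomy t y with h2 | h2 | h2
        · exact (h1.1 h2).ne'
        · exfalso
          rw [h2, sub_self, abs_zero] at hc
          linarith
        · exact (h1.2 h2).ne)
  have q3 : Complex.arg (-w (y - x)) = Complex.arg (w (y - x)) - Real.pi :=
    Complex.arg_neg_eq_arg_sub_pi_of_im_pos i3
  have q4 : Complex.arg (-w (y + x)) = Complex.arg (w (y + x)) + Real.pi :=
    Complex.arg_neg_eq_arg_add_pi_of_im_neg i4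
  refine ⟨r1, r2, by linarith, ?_⟩
  -- the two crossings
  have hcre : ContinuousOn (fun t => (w t).re) (Icc (y - r) (y + r)) :=
    Complex.continuous_re.comp_continuousOn hl.cw
  have c1 : ContinuousOn (fun t => (w t).re) (Icc (y - x) y) :=
    hcre.mono (Icc_subset_Icc (by linarith) (by linarith))
  have c2 : ContinuousOn (fun t => (w t).re) (Icc y (y + x)) :=
    hcre.mono (Icc_subset_Icc (by linarith) (by linarith))
  obtain ⟨t1, ht1, ht1'⟩ := intermediate_value_Icc (by linarith : y - x ≤ y) c1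
    (⟨r3.le, r5.le⟩ : (0 : ℝ) ∈ Icc _ _)
  obtain ⟨t2, ht2, ht2'⟩ := intermediate_value_Icc' (by linarith : y ≤ y + x) c2
    (⟨r4.le, r5.le⟩ : (0 : ℝ) ∈ Icc _ _)
  have ht1y : t1 < y := by
    rcases lt_or_eq_of_le ht1.2 with h1 | h1
    · exact h1
    · exfalso
      rw [h1] at ht1'
      simp only at ht1'
      linarith
  refine ⟨t1, ⟨⟨by linarith [ht1.1], by linarith [ht1.2]⟩, ht1'⟩, t2,
    ⟨⟨by linarith [ht2.1], by linarith [ht2.2]⟩, ht2'⟩, lt_of_lt_of_le ht1y ht2.1⟩

end Pool.Agent.ZC
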