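import Pool.Agent.Lib.MP_af3d17_cn.Lift2

/-!
Row VL4: adding up the turns.
-/

set_option autoImplicit false

namespace Pool.Agent.ZC

open Filter Topology Set
open Pool.Agent.ZP (pt Lam EE IsUpperZero IsOrdinateSeq)

private lemma t2_sub {w : ℝ → ℂ} {θ : ℝ → ℝ} {c d c' d' : ℝ} (h : IsLift w θ c d) (hc : c ≤ c')
    (hd : d' ≤ d) : IsLift w θ c' d' :=
  have hs : Icc c' d' ⊆ Icc c d := Icc_subset_Icc hc hd
  ⟨h.cw.mono hs, h.cθ.mono hs, fun t ht => h.ne t (hs ht), fun t ht => h.eq t (hs ht)⟩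

private lemma t2_zr_sub {w : ℝ → ℂ} {c d c' d' : ℝ} (hc : c ≤ c') (hd : d' ≤ d) :
    zr w c' d' ⊆ zr w c d := fun _ ht => ⟨Icc_subset_Icc hc hd ht.1, ht.2⟩

private lemma t2_add {w : ℝ → ℂ} {c a e : ℝ} (hca : c ≤ a) (hae : a ≤ e) (hfin : (zr w c e).Finite)
    (ha : (w a).re < 0) : (zr w c a).ncard + (zr w a e).ncard ≤ (zr w c e).ncard := by
  have hd : Disjoint (zr w c a) (zr w a e) := by
    rw [Set.disjoint_left]
    intro t h1 h2
    have h3 : t = a := le_antisymm h1.1.2 h2.1.1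
    rw [h3] at h1
    exact ha.ne h1.2
  rw [← Set.ncard_union_eq hd (hfin.subset (t2_zr_sub le_rfl hae))
    (hfin.subset (t2_zr_sub hca le_rfl))]
  exact Set.ncard_le_ncard (Set.union_subset (t2_zr_sub le_rfl hae) (t2_zr_sub hca le_rfl)) hfin

private lemma t2_two {w : ℝ → ℂ} {a b : ℝ} (hfin : (zr w a b).Finite)
    (h2 : ∃ t1 ∈ zr w a b, ∃ t2 ∈ zr w a b, t1 < t2) : 2 ≤ (zr w a b).ncard := by
  obtain ⟨t1, h1, t2, h2, h3⟩ := h2
  have h4 : 1 < (zr w a b).ncard := (Set.one_lt_ncard hfin).2 ⟨t1, h1, t2, h2, h3.ne⟩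
  omega

private lemma t2_arg {z : ℂ} (h : z.re < 0) : |Complex.arg (-z)| ≤ Real.pi / 2 := by
  rw [Complex.abs_arg_le_pi_div_two_iff]
  simpa using h.le

/-- VL4: adding up -/
theorem turn_sum {w : ℝ → ℂ} {θ : ℝ → ℝ} {c d r : ℝ} (h : IsLift w θ c d) (hcd : c ≤ d) (hr : 0 < r)
    (hfin : (zr w c d).Finite) (Y : Finset ℝ) (hY1 : ∀ y ∈ Y, c ≤ y - r ∧ y + r ≤ d)
    (hY2 : ∀ y ∈ Y, ∀ y' ∈ Y, y < y' → y + r < y' - r)
    (hneg : ∀ y ∈ Y, (w (y - r)).re < 0 ∧ (w (y + r)).re < 0)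
    (hturn : ∀ y ∈ Y, θ (y + r) - Complex.arg (-w (y + r))
      = θ (y - r) - Complex.arg (-w (y - r)) - 2 * Real.pi)
    (h2 : ∀ y ∈ Y, ∃ t1 ∈ zr w (y - r) (y + r), ∃ t2 ∈ zr w (y - r) (y + r), t1 < t2) :
    θ d - θ c ≤ -(2 * Real.pi) * Y.card
      + Real.pi * ((zr w c d).ncard - 2 * Y.card) + 4 * Real.pi := by
  have hpi := Real.pi_pos
  have key : ∀ s : Finset ℝ, s ⊆ Y → ∀ e, c ≤ e → (∀ y ∈ s, y + r ≤ e) → e ≤ d → (w e).re < 0 →
      θ e - Complex.arg (-w e) ≤ θ c - 2 * Real.pi * s.card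
        + Real.pi * ((zr w c e).ncard - 2 * s.card) + 3 * Real.pi / 2 := by
    intro s
    induction s using Finset.induction_on_max with
    | empty =>
      intro _ e hce _ hed hwe
      have h1 := lift_zeros (t2_sub h le_rfl hed) hce (hfin.subset (t2_zr_sub le_rfl hed))
      have h3 := (abs_le.1 h1).2
      have h4 := (abs_le.1 (t2_arg hwe)).1
      simp only [Finset.card_empty, Nat.cast_zero, mul_zero, sub_zero]
      linarith
    | insert a s hmax ih =>
      intro hsub e hce hse hed hwe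
      have haY : a ∈ Y := hsub (Finset.mem_insert_self _ _)
      have has : a ∉ s := fun h5 => lt_irrefl a (hmax a h5)
      have hsY : s ⊆ Y := fun x hx => hsub (Finset.mem_insert_of_mem hx)
      obtain ⟨hy1, hy2⟩ := hY1 a haY
      obtain ⟨hn1, hn2⟩ := hneg a haY
      have hae : a + r ≤ e := hse a (Finset.mem_insert_self _ _)
      have h1 := ih hsY (a - r) hy1
        (fun y hy => (hY2 y (hsY hy) a haY (hmax y hy)).le) (by linarith) hn1
      have h3 := hturn a haY
      have h4 := lift_zeros_neg (t2_sub h (by linarith : c ≤ a + r) hed) hae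
        (hfin.subset (t2_zr_sub (by linarith) hed)) hn2 hwe
      have h5 := (abs_le.1 h4).2
      have hf1 : (zr w c e).Finite := hfin.subset (t2_zr_sub le_rfl hed)
      have h6 := t2_add (by linarith : c ≤ a + r) hae hf1 hn2
      have hf2 : (zr w c (a + r)).Finite := hfin.subset (t2_zr_sub le_rfl hy2)
      have h7 := t2_add hy1 (by linarith : a - r ≤ a + r) hf2 hn1
      have h8 := t2_two (hf2.subset (t2_zr_sub hy1 le_rfl)) (h2 a haY)
      have h9 : ((zr w c (a - r)).ncard : ℝ) + 2 + (zr w (a + r) e).ncard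
          ≤ (zr w c e).ncard := by
        have : (zr w c (a - r)).ncard + 2 + (zr w (a + r) e).ncard ≤ (zr w c e).ncard := by omega
        exact_mod_cast this
      have h10 := mul_le_mul_of_nonneg_left h9 hpi.le
      rw [Finset.card_insert_of_notMem has]
      push_cast
      linarith
  rcases Y.eq_empty_or_nonempty with hY | hY
  · subst hY
    have h1 := (abs_le.1 (lift_zeros h hcd hfin)).2
    simp only [Finset.card_empty, Nat.cast_zero, mul_zero, sub_zero]
    linarith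
  · set a := Y.max' hY with ha
    have haY : a ∈ Y := Y.max'_mem hY
    obtain ⟨hy1, hy2⟩ := hY1 a haY
    obtain ⟨hn1, hn2⟩ := hneg a haY
    have h1 := key Y (Finset.Subset.refl _) (a + r) (by linarith)
      (fun y hy => by have := Y.le_max' y hy; linarith) hy2 hn2
    have h3 := (abs_le.1 (lift_zeros (t2_sub h (by linarith : c ≤ a + r) le_rfl) hy2
      (hfin.subset (t2_zr_sub (by linarith) le_rfl)))).2
    have h4 := (abs_le.1 (t2_arg hn2)).2
    have h5 := t2_add (by linarith : c ≤ a + r) hy2 hfin hn2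
    have h6 : ((zr w c (a + r)).ncard : ℝ) + (zr w (a + r) d).ncard ≤ (zr w c d).ncard := by
      exact_mod_cast h5
    have h7 := mul_le_mul_of_nonneg_left h6 hpi.le
    linarith

end Pool.Agent.ZC
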