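import Pool.Agent.Lib.MP_af3d17_cn.Lift0
import Pool.Agent.Lib.MP_af3d17_cn.Turn1
import Pool.Agent.Lib.MP_af3d17_cn.Turn2
import Pool.Agent.Lib.MP_af3d17_cn.GoodExp

/-!
# MP_af3d17_nt: TB2, the turning bound
-/

set_option autoImplicit false

namespace Pool.Agent.ZC

open Filter Topology Set
open Pool.Agent.ZP (pt Lam EE IsUpperZero IsOrdinateSeq)

private theorem TB2_im (x y : ℝ) : (pt x y).im = y := by
  simp [pt]

private theorem TB2_re (x y : ℝ) : (pt x y).re = x := by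
  simp [pt]

private theorem TB2_log {d : ℝ} (hd : 100 ≤ d) : 4 ≤ Real.log d := by
  have h1 : Real.exp 4 ≤ 100 := by
    have h2 : Real.exp 1 < 2.7182818286 := Real.exp_one_lt_d9
    have h3 : Real.exp 4 = Real.exp 1 ^ 4 := by
      rw [← Real.exp_nat_mul]
      norm_num
    rw [h3]
    have h4 : Real.exp 1 ^ 4 ≤ (2.7182818286 : ℝ) ^ 4 :=
      pow_le_pow_left₀ (Real.exp_pos 1).le h2.le 4
    refine h4.trans ?_
    norm_num
  rw [Real.le_log_iff_exp_le (by linarith)]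
  linarith

/-- TB2 -/
theorem turn_bound : ∃ B T1 : ℝ, 1 ≤ B ∧ 100 ≤ T1 ∧ ∀ x c d : ℝ, 0 < x → T1 ≤ c → c < d →
    x * (Real.log d) ^ 2 * B ≤ 1 →
    (∀ t ∈ Icc c d, riemannZeta (pt (1 / 2 + x ^ 2) t) ≠ 0 ∧
      deriv riemannZeta (pt (1 / 2 + x ^ 2) t) ≠ 0) →
    (zr (fun t => logDeriv riemannZeta (pt (1 / 2 + x ^ 2) t)) c d).Finite →
    ∀ Y : Finset ℝ, (∀ y ∈ Y, c + 1 ≤ y ∧ y ≤ d - 1 ∧ riemannZeta (pt (1 / 2) y) = 0 ∧
      od (pt (1 / 2) y) = 1 ∧
      ∀ ρ : ℂ, riemannZeta ρ = 0 → ρ ≠ pt (1 / 2) y → B * x * Real.log d ≤ |ρ.im - y|) →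
    V (logDeriv riemannZeta) (1 / 2 + x ^ 2) c d ≤ -(2 * Real.pi) * Y.card
      + Real.pi * ((zr (fun t => logDeriv riemannZeta (pt (1 / 2 + x ^ 2) t)) c d).ncard
        - 2 * Y.card) + 4 * Real.pi := by
  obtain ⟨B, T1, hB, hT1, hexp⟩ := good_exp
  refine ⟨B, T1, hB, hT1, fun x c d hx hc hcd hxB hne hfin Y hY => ?_⟩
  set f : ℂ → ℂ := logDeriv riemannZeta with hf
  set w : ℝ → ℂ := fun t => f (pt (1 / 2 + x ^ 2) t) with hw
  set L : ℝ := Real.log d with hL
  set r : ℝ := B * x * L / 4 with hr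
  have hd100 : 100 ≤ d := by linarith
  have hL4 : 4 ≤ L := TB2_log hd100
  have hBL : 4 ≤ B * L := by nlinarith
  have hBxL : 0 < B * x * L := by positivity
  have hr0 : 0 < r := by
    rw [hr]
    linarith
  have hBxL1 : B * x * L ≤ 1 := by
    have h1 : B * x * L * 1 ≤ B * x * L * L := mul_le_mul_of_nonneg_left (by linarith) hBxL.le
    have h2 : B * x * L * L = x * L ^ 2 * B := by ring
    linarith
  have hr1 : r ≤ 1 := by
    rw [hr]
    linarith
  have hxr : x ≤ r := by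
    rw [hr]
    have h1 : 4 * x ≤ B * L * x := mul_le_mul_of_nonneg_right hBL hx.le
    have h2 : B * L * x = B * x * L := by ring
    linarith
  have hx1 : x ≤ 1 / 4 := by linarith
  -- the lift
  have hane : ∀ t ∈ Icc c d, pt (1 / 2 + x ^ 2) t ≠ 1 := by
    intro t ht h1
    have h2 := congrArg Complex.im h1
    rw [TB2_im, Complex.one_im] at h2
    have := ht.1
    linarith
  have hzan : ∀ s : ℂ, s ≠ 1 → AnalyticAt ℂ riemannZeta s := by
    intro s hs
    have h1 : DifferentiableOn ℂ riemannZeta {1}ᶜ := fun z hz =>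
      (differentiableAt_riemannZeta hz).differentiableWithinAt
    exact h1.analyticAt (isOpen_compl_singleton.mem_nhds hs)
  have hfan : ∀ t ∈ Icc c d, AnalyticAt ℂ f (pt (1 / 2 + x ^ 2) t) := by
    intro t ht
    have h1 := hzan _ (hane t ht)
    exact h1.deriv.div h1 (hne t ht).1
  have hf0 : ∀ t ∈ Icc c d, f (pt (1 / 2 + x ^ 2) t) ≠ 0 := by
    intro t ht
    rw [hf, logDeriv_apply]
    exact div_ne_zero (hne t ht).2 (hne t ht).1
  obtain ⟨θ, hθ, hV⟩ := exists_lift hcd.le hfan hf0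
  have hθ' : IsLift w θ c d := hθ
  -- one turn
  have hin : ∀ y ∈ Y, c ≤ y - r ∧ y + r ≤ d := by
    intro y hy
    obtain ⟨h1, h2, -⟩ := hY y hy
    exact ⟨by linarith, by linarith⟩
  have hturn := fun y (hy : y ∈ Y) => by
    obtain ⟨h1, h2, h3, h4, h5⟩ := hY y hy
    have hsub : Icc (y - r) (y + r) ⊆ Icc c d := Icc_subset_Icc (hin y hy).1 (hin y hy).2
    have hl : IsLift w θ (y - r) (y + r) :=
      ⟨hθ'.cw.mono hsub, hθ'.cθ.mono hsub, fun t ht => hθ'.ne t (hsub ht),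
        fun t ht => hθ'.eq t (hsub ht)⟩
    have hE := hexp y x d (by linarith) (by linarith) hx hxB h3 h4 h5
    exact good_turn (w := w)
      (h := fun t => w t - 1 / (((x ^ 2 : ℝ) : ℂ) + Complex.I * ((t - y : ℝ) : ℂ)))
      (θ := θ) (y := y) (r := r) (x := x) (X := x ^ 2) hx hx1 rfl hxr hl
      (fun t _ => by ring)
      (fun t ht => (hE t (by
        rw [abs_le]
        exact ⟨by linarith [ht.1], by linarith [ht.2]⟩)).2.1)
      (fun t ht => (hE t (by
        rw [abs_le]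
        exact ⟨by linarith [ht.1], by linarith [ht.2]⟩)).2.2)
  have hsum := turn_sum hθ' hcd.le hr0 hfin Y hin (fun y hy y' hy' hyy => by
      obtain ⟨-, -, -, -, h5⟩ := hY y hy
      obtain ⟨-, -, h3', -, -⟩ := hY y' hy'
      have h6 := h5 (pt (1 / 2) y') h3' (fun h => by
        have h7 := congrArg Complex.im h
        rw [TB2_im, TB2_im] at h7
        linarith)
      rw [TB2_im, abs_of_pos (by linarith)] at h6
      rw [hr]
      linarith)
    (fun y hy => ⟨(hturn y hy).1, (hturn y hy).2.1⟩) (fun y hy => (hturn y hy).2.2.1)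
    (fun y hy => (hturn y hy).2.2.2)
  have hVd := hV c ⟨le_rfl, hcd.le⟩ d ⟨hcd.le, le_rfl⟩
  rw [← hVd]
  exact hsum

end Pool.Agent.ZC
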