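import Pool.Agent.Lib.MP_af3d17_cn.CountSum
import Pool.Agent.Lib.MP_af3d17_cn.CountBasic
import Pool.Agent.Lib.MP_af3d17_cn.ArgPr
import Pool.Agent.Lib.MP_af3d17_cn.Lift1
import Pool.Agent.Lib.MP_af3d17_cn.FX
import Pool.Agent.Lib.MP_af3d17_cn.FXHor

/-!
# MP_af3d17_nt: CU3, the zeros of the real part of the logarithmic derivative on a vertical line
-/

set_option autoImplicit false

namespace Pool.Agent.ZC

open Filter Topology Set
open Pool.Agent.ZP (pt Lam EE IsUpperZero IsOrdinateSeq)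

namespace CU3

theorem zeta_an {s : ℂ} (hs : 0 < s.im) : AnalyticAt ℂ riemannZeta s := by
  have hs1 : s ≠ 1 := fun h => by
    rw [h, Complex.one_im] at hs
    exact lt_irrefl _ hs
  have h1 : DifferentiableOn ℂ riemannZeta {1}ᶜ := fun z hz =>
    (differentiableAt_riemannZeta hz).differentiableWithinAt
  exact h1.analyticAt (isOpen_compl_singleton.mem_nhds hs1)

theorem im_sub (X : ℝ) (s : ℂ) : (s - 2 * X).im = s.im := by
  simp

theorem re_sub (X : ℝ) (s : ℂ) : (s - 2 * X).re = s.re - 2 * X := by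
  simp

theorem shift_an (X : ℝ) (s : ℂ) : AnalyticAt ℂ (fun w : ℂ => w - 2 * X) s :=
  analyticAt_id.sub analyticAt_const

theorem zeta_shift_an (X : ℝ) {s : ℂ} (hs : 0 < s.im) :
    AnalyticAt ℂ (fun w => riemannZeta (w - 2 * X)) s := by
  have h1 : AnalyticAt ℂ riemannZeta (s - 2 * X) := zeta_an (by rw [im_sub]; exact hs)
  exact AnalyticAt.comp (g := riemannZeta) (f := fun w : ℂ => w - 2 * X) (x := s) h1 (shift_an X s)

theorem gX_an (X : ℝ) {s : ℂ} (hs : 0 < s.im) : AnalyticAt ℂ (gX X) s := by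
  have h0 : 0 < (s - 2 * X).im := by rw [im_sub]; exact hs
  have h1 : AnalyticAt ℂ (fun w : ℂ => deriv riemannZeta (w - 2 * X)) s :=
    AnalyticAt.comp (g := deriv riemannZeta) (f := fun w : ℂ => w - 2 * X) (x := s)
      (zeta_an h0).deriv (shift_an X s)
  have h2 : AnalyticAt ℂ (fun w : ℂ => Lam (w - 2 * X)) s :=
    AnalyticAt.comp (g := Lam) (f := fun w : ℂ => w - 2 * X) (x := s)
      (ZP.Lam_analytic h0) (shift_an X s)
  have h3 := zeta_shift_an X hs
  have h4 := zeta_an hs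
  exact ((h4.deriv.mul h3).sub (h4.mul h1)).sub ((h2.mul h4).mul h3)

/-- the shifted zeros -/
theorem cnt_shift {X a b c d : ℝ} (hc : 0 < c)
    (hfin : (zset riemannZeta (Rc (a - 2 * X) (b - 2 * X) c d)).Finite) :
    cnt (fun w => riemannZeta (w - 2 * X)) (Rc a b c d)
      ≤ cnt riemannZeta (Rc (a - 2 * X) (b - 2 * X) c d) := by
  unfold cnt
  refine Set.ncard_le_ncard_of_injOn (fun p : ℂ × ℕ => (p.1 - 2 * X, p.2)) ?_ ?_ hfin
  · rintro ⟨s, n⟩ ⟨⟨h1, h2, h3, h4⟩, h5⟩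
    dsimp only at h1 h2 h3 h4 h5 ⊢
    have hs : 0 < s.im := hc.trans h3
    refine ⟨⟨?_, ?_, ?_, ?_⟩, ?_⟩
    · dsimp only
      rw [re_sub]
      linarith
    · dsimp only
      rw [re_sub]
      linarith
    · dsimp only
      rw [im_sub]
      exact h3
    · dsimp only
      rw [im_sub]
      exact h4
    · dsimp only
      have h6 : analyticOrderAt (fun w => riemannZeta (w - 2 * X)) s
          = analyticOrderAt riemannZeta (s - 2 * X) := by
        have hd : deriv (fun w : ℂ => w - 2 * X) s ≠ 0 := by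
          rw [deriv_sub_const]
          simp
        exact analyticOrderAt_comp_of_deriv_ne_zero (f := riemannZeta) (shift_an X s) hd
      rw [← h6]
      exact h5
  · rintro ⟨s, n⟩ _ ⟨s', n'⟩ _ h
    simp only [Prod.mk.injEq, sub_left_inj] at h
    exact Prod.ext h.1 h.2

theorem zset_mono {f : ℂ → ℂ} {S S' : Set ℂ} (h : S ⊆ S') : zset f S ⊆ zset f S' :=
  fun _ hp => ⟨h hp.1, hp.2⟩

theorem Rc_sub (a b c d : ℝ) : Rc a b c d ⊆ Rcl a b c d :=
  fun _ hs => ⟨hs.1.le, hs.2.1.le, hs.2.2.1.le, hs.2.2.2.le⟩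

end CU3

open CU3

/-- CU3: zeros of `U` -/
theorem zeros_U : ∃ C T1 : ℝ, 0 < C ∧ 100 ≤ T1 ∧ ∀ X c d : ℝ, 0 < X → X ≤ 1 / 40 → T1 ≤ c → c < d →
    GenH c → GenH d → (∀ s : ℂ, s.im = c ∨ s.im = d → gX X s ≠ 0) →
    (∀ t ∈ Icc c d, riemannZeta (pt (1 / 2 + X) t) ≠ 0 ∧ deriv riemannZeta (pt (1 / 2 + X) t) ≠ 0) →
    (zr (fun t => logDeriv riemannZeta (pt (1 / 2 + X) t)) c d).Finite ∧
    ((zr (fun t => logDeriv riemannZeta (pt (1 / 2 + X) t)) c d).ncard : ℝ)
      ≤ 2 * cnt riemannZeta (Rc (-2) 3 c d) + C * Real.log d := by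
  obtain ⟨T2, hT2, hside⟩ := fX_sides
  obtain ⟨C, T3, hC, hT3, hhor⟩ := fX_hor
  refine ⟨C + 1, max T2 T3, by linarith, hT2.trans (le_max_left _ _), ?_⟩
  intro X c d hX hX1 hc hcd hGc hGd hg hline
  have hcT2 : T2 ≤ c := (le_max_left _ _).trans hc
  have hcT3 : T3 ≤ c := (le_max_right _ _).trans hc
  have hc0 : 0 < c := by linarith
  have hd0 : 0 < d := by linarith
  set a : ℝ := -2 + 2 * X with ha
  have hab : a < 3 := by rw [ha]; linarith
  set g : ℂ → ℂ := fun s => riemannZeta s * riemannZeta (s - 2 * X) with hgdef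
  have hpos : ∀ s ∈ Rcl a 3 c d, 0 < s.im := fun s hs => hc0.trans_le hs.2.2.1
  have hfan : AnalyticOnNhd ℂ (gX X) (Rcl a 3 c d) := fun s hs => gX_an X (hpos s hs)
  have hgan : AnalyticOnNhd ℂ g (Rcl a 3 c d) := fun s hs =>
    (zeta_an (hpos s hs)).mul (zeta_shift_an X (hpos s hs))
  have hfX : ∀ s, fX X s = gX X s / g s := fun s => rfl
  -- the sides
  have hs1 : ∀ y ∈ Icc c d, riemannZeta (pt a y) ≠ 0 ∧ riemannZeta (pt a y - 2 * X) ≠ 0 ∧
      (fX X (pt a y)).re < 0 := fun y hy =>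
    hside X hX.le hX1 (pt a y) (hcT2.trans hy.1) (Or.inr rfl)
  have hs2 : ∀ y ∈ Icc c d, riemannZeta (pt 3 y) ≠ 0 ∧ riemannZeta (pt 3 y - 2 * X) ≠ 0 ∧
      (fX X (pt 3 y)).re < 0 := fun y hy =>
    hside X hX.le hX1 (pt 3 y) (hcT2.trans hy.1) (Or.inl rfl)
  have hgne : ∀ s : ℂ, (fX X s).re < 0 → gX X s ≠ 0 := by
    intro s hs h0
    rw [hfX, h0, zero_div, Complex.zero_re] at hs
    exact lt_irrefl _ hs
  have hB1 : BNe (gX X) a 3 c d :=
    ⟨fun x _ => hg _ (Or.inl rfl), fun x _ => hg _ (Or.inr rfl),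
      fun y hy => hgne _ (hs1 y hy).2.2, fun y hy => hgne _ (hs2 y hy).2.2⟩
  have hB2 : BNe g a 3 c d :=
    ⟨fun x _ => mul_ne_zero (hGc _ rfl).1 (hGc _ (by rw [im_sub]; rfl)).1,
      fun x _ => mul_ne_zero (hGd _ rfl).1 (hGd _ (by rw [im_sub]; rfl)).1,
      fun y hy => mul_ne_zero (hs1 y hy).1 (hs1 y hy).2.1,
      fun y hy => mul_ne_zero (hs2 y hy).1 (hs2 y hy).2.1⟩
  have harg := arg_principle_div hab hcd hfan hgan hB1 hB2
  have hF : (fun s => gX X s / g s) = fX X := rfl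
  rw [hF] at harg
  -- the four sides
  have hH1 := hhor X c hX.le hX1 hcT3 fun s hs => ⟨hg s (Or.inl hs), (hGc s hs).1⟩
  have hH2 := hhor X d hX.le hX1 (hcT3.trans hcd.le) fun s hs => ⟨hg s (Or.inr hs), (hGd s hs).1⟩
  have hfXan : ∀ s : ℂ, 0 < s.im → g s ≠ 0 → AnalyticAt ℂ (fX X) s := by
    intro s hs h0
    have h1 : AnalyticAt ℂ g s := (zeta_an hs).mul (zeta_shift_an X hs)
    exact (gX_an X hs).div h1 h0
  have hV1 := V_neg (f := fX X) (x := 3) hcd.le
    (fun y hy => hfXan _ (hc0.trans_le hy.1) (hB2.right y hy)) fun y hy => (hs2 y hy).2.2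
  have hV2 := V_neg (f := fX X) (x := a) hcd.le
    (fun y hy => hfXan _ (hc0.trans_le hy.1) (hB2.left y hy)) fun y hy => (hs1 y hy).2.2
  have hlog : Real.log c ≤ Real.log d := Real.log_le_log hc0 hcd.le
  have hlogd : 1 ≤ Real.log d := by
    rw [Real.le_log_iff_exp_le hd0]
    have := Real.exp_one_lt_d9
    linarith
  -- finiteness
  have hmid : ∀ u v : ℝ, u ≤ v → pt u c ∈ Rcl u v c d := fun u v huv =>
    ⟨le_rfl, huv, le_rfl, hcd.le⟩
  have hfin1 : (zset (gX X) (Rcl a 3 c d)).Finite :=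
    zset_finite hfan ⟨pt a c, hmid _ _ hab.le, hg _ (Or.inl rfl)⟩
  have hfinz : ∀ u v : ℝ, u ≤ v → (zset riemannZeta (Rcl u v c d)).Finite := fun u v huv =>
    zset_finite (fun s hs => zeta_an (hc0.trans_le hs.2.2.1))
      ⟨pt u c, hmid _ _ huv, (hGc _ rfl).1⟩
  have hfins : (zset (fun w => riemannZeta (w - 2 * X)) (Rcl a 3 c d)).Finite :=
    zset_finite (fun s hs => zeta_shift_an X (hc0.trans_le hs.2.2.1))
      ⟨pt a c, hmid _ _ hab.le, (hGc _ (by rw [im_sub]; rfl)).1⟩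
  have hmul : cnt g (Rc a 3 c d)
      = cnt riemannZeta (Rc a 3 c d) + cnt (fun w => riemannZeta (w - 2 * X)) (Rc a 3 c d) :=
    cnt_mul (fun s hs => zeta_an (hc0.trans hs.2.2.1))
      (fun s hs => zeta_shift_an X (hc0.trans hs.2.2.1))
      ((hfinz a 3 hab.le).subset (zset_mono (Rc_sub _ _ _ _)))
      (hfins.subset (zset_mono (Rc_sub _ _ _ _)))
  have hbig : (zset riemannZeta (Rc (-2) 3 c d)).Finite :=
    (hfinz (-2) 3 (by norm_num)).subset (zset_mono (Rc_sub _ _ _ _))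
  have hc1 : cnt riemannZeta (Rc a 3 c d) ≤ cnt riemannZeta (Rc (-2) 3 c d) := by
    refine cnt_mono ?_ hbig
    rintro s ⟨h1, h2, h3, h4⟩
    exact ⟨by rw [ha] at h1; linarith, h2, h3, h4⟩
  have hsubs : Rc (a - 2 * X) (3 - 2 * X) c d ⊆ Rc (-2) 3 c d := by
    rintro s ⟨h1, h2, h3, h4⟩
    exact ⟨by rw [ha] at h1; linarith, by linarith, h3, h4⟩
  have hc2 : cnt (fun w => riemannZeta (w - 2 * X)) (Rc a 3 c d)
      ≤ cnt riemannZeta (Rc (-2) 3 c d) :=
    (cnt_shift hc0 (hbig.subset (zset_mono hsubs))).trans (cnt_mono hsubs hbig)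
  -- the count of the zeros of `gX`
  have hcg : (cnt (gX X) (Rc a 3 c d) : ℝ)
      ≤ 2 * cnt riemannZeta (Rc (-2) 3 c d) + (C + 1) * Real.log d := by
    have hcgR : (cnt g (Rc a 3 c d) : ℝ) ≤ 2 * cnt riemannZeta (Rc (-2) 3 c d) := by
      rw [hmul]
      push_cast
      have e1 : (cnt riemannZeta (Rc a 3 c d) : ℝ) ≤ cnt riemannZeta (Rc (-2) 3 c d) := by
        exact_mod_cast hc1
      have e2 : (cnt (fun w => riemannZeta (w - 2 * X)) (Rc a 3 c d) : ℝ)
          ≤ cnt riemannZeta (Rc (-2) 3 c d) := by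
        exact_mod_cast hc2
      linarith
    have hpi : 3 < Real.pi := Real.pi_gt_three
    have a1 := (abs_le.1 hH1).2
    have a2 := (abs_le.1 hH2).1
    have a3 := (abs_le.1 hV1).2
    have a4 := (abs_le.1 hV2).1
    have hCl : C * Real.log c ≤ C * Real.log d := mul_le_mul_of_nonneg_left hlog hC.le
    have h1 : 2 * Real.pi * ((cnt (gX X) (Rc a 3 c d) : ℝ) - cnt g (Rc a 3 c d))
        ≤ 2 * (C * Real.log d) + 2 * Real.pi := by
      rw [harg]
      linarith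
    have hCd : 0 ≤ C * Real.log d := by positivity
    have h2 : 2 * (C * Real.log d) + 2 * Real.pi ≤ 2 * Real.pi * ((C + 1) * Real.log d) := by
      have h3 : C * Real.log d ≤ Real.pi * (C * Real.log d) := by nlinarith
      have h4 : Real.pi ≤ Real.pi * Real.log d := by nlinarith
      nlinarith
    have h5 : (cnt (gX X) (Rc a 3 c d) : ℝ) - cnt g (Rc a 3 c d) ≤ (C + 1) * Real.log d := by
      have h6 := h1.trans h2
      exact le_of_mul_le_mul_left h6 (by positivity)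
    linarith
  -- the zeros of the real part are zeros of `gX`
  set Z := zr (fun t => logDeriv riemannZeta (pt (1 / 2 + X) t)) c d with hZ
  have hzero : ∀ t ∈ Z, gX X (pt (1 / 2 + X) t) = 0 := by
    intro t ht
    obtain ⟨h1, h2⟩ := ht
    have h3 : (logDeriv riemannZeta (pt (1 / 2 + X) t)).re = 0 := h2
    obtain ⟨h4, h5⟩ := fX_line (X := X) (hc0.trans_le h1.1) (hline t h1).1
    rw [h3, mul_zero, Complex.ofReal_zero, hfX] at h5
    rcases div_eq_zero_iff.1 h5 with h6 | h6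
    · exact h6
    · exact absurd h6 (mul_ne_zero (hline t h1).1 h4)
  have hmaps : ∀ t ∈ Z, (pt (1 / 2 + X) t, 0) ∈ zset (gX X) (Rc a 3 c d) := by
    intro t ht
    have h1 : t ∈ Icc c d := ht.1
    have h0 := hzero t ht
    have htc : t ≠ c := by
      rintro rfl
      exact hg _ (Or.inl rfl) h0
    have htd : t ≠ d := by
      rintro rfl
      exact hg _ (Or.inr rfl) h0
    refine ⟨⟨?_, ?_, lt_of_le_of_ne h1.1 htc.symm, lt_of_le_of_ne h1.2 htd⟩, ?_⟩
    · show a < 1 / 2 + X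
      rw [ha]
      linarith
    · show 1 / 2 + X < 3
      linarith
    · show ((0 : ℕ) : ℕ∞) < analyticOrderAt (gX X) (pt (1 / 2 + X) t)
      rw [Nat.cast_zero, pos_iff_ne_zero]
      intro h2
      rcases analyticOrderAt_eq_zero.1 h2 with h3 | h3
      · exact h3 (gX_an X (hc0.trans_le h1.1))
      · exact h3 h0
  have hinj : Set.InjOn (fun t : ℝ => ((pt (1 / 2 + X) t, 0) : ℂ × ℕ)) Z := by
    intro t _ t' _ h
    have h1 : pt (1 / 2 + X) t = pt (1 / 2 + X) t' := congrArg Prod.fst h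
    exact congrArg Complex.im h1
  have hfinR : (zset (gX X) (Rc a 3 c d)).Finite := hfin1.subset (zset_mono (Rc_sub _ _ _ _))
  have hZfin : Z.Finite := by
    refine Set.Finite.of_finite_image (hfinR.subset ?_) hinj
    rintro _ ⟨t, ht, rfl⟩
    exact hmaps t ht
  refine ⟨hZfin, ?_⟩
  have hle : Z.ncard ≤ cnt (gX X) (Rc a 3 c d) :=
    Set.ncard_le_ncard_of_injOn _ hmaps hinj hfinR
  have hleR : (Z.ncard : ℝ) ≤ cnt (gX X) (Rc a 3 c d) := by exact_mod_cast hle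
  linarith

end Pool.Agent.ZC
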