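import Pool.Agent.Lib.MP_af3d17_cn.CountBasic
import Pool.Agent.Lib.MP_af3d17_cn.Window
import Pool.Agent.Lib.MP_af3d17_cn.DerivLower
import Pool.Agent.Lib.MP_af3d17_cn.CIplus
import Pool.Agent.Lib.MP_af3d17_cn.ZerosU
import Pool.Agent.Lib.MP_af3d17_cn.TurnBound
import Pool.Agent.Lib.MP_af3d17_cn.Generic
import Pool.Agent.Lib.MP_af3d17_cn.SeqGood
import Pool.Agent.Lib.MP_af3d17_nt_h98.Count

set_option autoImplicit false

namespace Pool.Agent.ZC

open Filter Topology Set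
open Pool.Agent.ZP (pt Lam EE IsUpperZero IsOrdinateSeq)

variable {γ : ℕ → ℝ}

lemma log_add_two_le {T : ℝ} (hT : 2 ≤ T) : Real.log (T + 2) ≤ 2 * Real.log T := by
  rw [← Real.log_rpow (by linarith)]
  apply Real.log_le_log (by linarith)
  rw [show (2 : ℝ) = ((2 : ℕ) : ℝ) by norm_num, Real.rpow_natCast]
  push_cast
  nlinarith

lemma gapCount_mono_T (hfin : ∀ T : ℝ, {n | γ n ≤ T}.Finite) {T T' x : ℝ} (h : T ≤ T') :
    gapCount γ T x ≤ gapCount γ T' x := by
  refine Set.ncard_le_ncard (fun n hn => ⟨hn.1.trans h, hn.2⟩) ?_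
  exact (hfin T').subset fun n hn => hn.1

lemma derivCount_le_add {T y T0 X c d : ℝ} (h2 : y < X) (hX : X ≤ 1 / 20)
    (hc : c < T0 + 1) (hd : T < d) (hc0 : 0 ≤ c) :
    (derivCount T y : ℝ) ≤ (cnt (deriv riemannZeta) {s | -1 < s.re ∧ s.re ≤ 1 / 2 + 1 / 20 ∧
      0 < s.im ∧ s.im ≤ T0 + 1} : ℝ) + (cnt (deriv riemannZeta) (Rc (-1) (1 / 2 + X) c d) : ℝ) := by
  have hf1 : (zset (deriv riemannZeta) {s | -1 < s.re ∧ s.re ≤ 1 / 2 + 1 / 20 ∧ 0 < s.im ∧
      s.im ≤ T0 + 1}).Finite := derivSet_finite le_rfl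
  have hf2 : (zset (deriv riemannZeta) (Rc (-1) (1 / 2 + X) c d)).Finite := by
    refine (derivSet_finite (T := d) (y := 1 / 20) le_rfl).subset fun p hp => ⟨?_, hp.2⟩
    exact ⟨hp.1.1, by linarith [hp.1.2.1], by linarith [hp.1.2.2.1], hp.1.2.2.2.le⟩
  have h5 : derivCount T y ≤ cnt (deriv riemannZeta) ({s | -1 < s.re ∧ s.re ≤ 1 / 2 + 1 / 20 ∧
      0 < s.im ∧ s.im ≤ T0 + 1} ∪ Rc (-1) (1 / 2 + X) c d) := by
    refine cnt_mono ?_ ?_
    · rintro s ⟨hs1, hs2, hs3, hs4⟩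
      rcases le_or_gt s.im (T0 + 1) with h | h
      · exact Or.inl ⟨hs1, by linarith, hs3, h⟩
      · exact Or.inr ⟨hs1, by linarith, by linarith, by linarith⟩
    · refine (hf1.union hf2).subset ?_
      rintro p ⟨hp | hp, hp'⟩
      · exact Or.inl ⟨hp, hp'⟩
      · exact Or.inr ⟨hp, hp'⟩
  have h6 := cnt_union_le (deriv riemannZeta) {s | -1 < s.re ∧ s.re ≤ 1 / 2 + 1 / 20 ∧
      0 < s.im ∧ s.im ≤ T0 + 1} (Rc (-1) (1 / 2 + X) c d)
  rw [← Nat.cast_add]
  exact Nat.cast_le.2 (h5.trans h6)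

/-- the window counts in one form -/
theorem part_two' (hγ : IsOrdinateSeq γ) (hfin : ∀ T : ℝ, {n | γ n ≤ T}.Finite) :
    ∃ C B : ℝ, 1 ≤ C ∧ 1 ≤ B ∧ ∀ T x : ℝ, C ≤ T → 0 < x →
    x * (Real.log (T + 2)) ^ 2 * B ≤ 1 → GenX (x ^ 2) → ∀ y : ℝ, y < x ^ 2 →
    (derivCount T y : ℝ) ≤ 4 * gapCount γ T (B * x * Real.log (T + 2)) + C * Real.log T := by
  obtain ⟨C1, T1, hC1, hT1, h1⟩ := CIplus
  obtain ⟨C2, T2, hC2, hT2, h2⟩ := zeros_U
  obtain ⟨B, T3, hB, hT3, h3⟩ := turn_bound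
  obtain ⟨C4, T4, hC4, hT4, h4⟩ := window
  set T0 : ℝ := max (max T1 T2) (max T3 T4) with hT0
  have hT01 : T1 ≤ T0 := (le_max_left _ _).trans (le_max_left _ _)
  have hT02 : T2 ≤ T0 := (le_max_right _ _).trans (le_max_left _ _)
  have hT03 : T3 ≤ T0 := (le_max_left _ _).trans (le_max_right _ _)
  have hT04 : T4 ≤ T0 := (le_max_right _ _).trans (le_max_right _ _)
  have hT0' : 100 ≤ T0 := hT1.trans hT01
  set K0 : ℝ := (cnt (deriv riemannZeta) {s | -1 < s.re ∧ s.re ≤ 1 / 2 + 1 / 20 ∧ 0 < s.im ∧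
    s.im ≤ T0 + 1} : ℝ) with hK0
  have hK0n : 0 ≤ K0 := Nat.cast_nonneg _
  set C : ℝ := T0 + K0 + 2 * C1 + 2 * C2 + 50 * C4 + 50 with hC
  refine ⟨C, B, by linarith, hB, ?_⟩
  intro T x hCT hx hxB hgen y hy
  have hTT0 : T0 + 50 ≤ T := by linarith
  have hT150 : 150 ≤ T := by linarith
  have hlogT : 1 ≤ Real.log T := by
    rw [Real.le_log_iff_exp_le (by linarith)]
    have := Real.exp_one_lt_d9
    linarith
  have hlog2 : Real.log (T + 2) ≤ 2 * Real.log T := log_add_two_le (by linarith)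
  have hlogT2 : Real.log T ≤ Real.log (T + 2) := Real.log_le_log (by linarith) (by linarith)
  have hlog5 : 5 ≤ Real.log (T + 2) := by
    rw [Real.le_log_iff_exp_le (by linarith)]
    have h8 : Real.exp 5 = Real.exp 1 ^ 5 := by rw [← Real.exp_nat_mul]; norm_num
    have h9 := Real.exp_one_lt_d9
    have h10 : Real.exp 1 ^ 5 ≤ (2.7182818286 : ℝ) ^ 5 := by gcongr
    rw [h8]
    norm_num at h10 ⊢
    linarith
  have hxs : x ≤ 1 / 25 := by
    have h5 : 25 ≤ (Real.log (T + 2)) ^ 2 := by nlinarith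
    have h6 : x * 25 * 1 ≤ x * (Real.log (T + 2)) ^ 2 * B := by gcongr
    linarith
  have hX40 : x ^ 2 ≤ 1 / 40 := by nlinarith
  have hX0 : 0 < x ^ 2 := by positivity
  -- generic heights
  obtain ⟨c, ⟨hc1, hc2⟩, hgc, hgXc⟩ := gen_height (x ^ 2) T0 (T0 + 1) (by linarith) (by linarith)
  obtain ⟨d, ⟨hd1, hd2⟩, hgd, hgXd⟩ := gen_height (x ^ 2) (T + 1) (T + 2) (by linarith) (by linarith)
  have hcd : c < d := by linarith
  have hline : ∀ t ∈ Icc c d, riemannZeta (pt (1 / 2 + x ^ 2) t) ≠ 0 ∧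
      deriv riemannZeta (pt (1 / 2 + x ^ 2) t) ≠ 0 := fun t ht =>
    hgen _ rfl (by change 0 < t; linarith [ht.1])
  have hlogd : Real.log d ≤ Real.log (T + 2) := Real.log_le_log (by linarith) hd2.le
  have hlogd1 : 1 ≤ Real.log d := hlogT.trans (Real.log_le_log (by linarith) (by linarith))
  have hxd : x * (Real.log d) ^ 2 * B ≤ 1 := by
    refine le_trans ?_ hxB
    gcongr
  -- the identities
  have e1 := h1 (x ^ 2) c d (by rw [abs_of_pos hX0]; linarith) (by linarith) hcd hgc hgd hline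
  obtain ⟨hzfin, e2⟩ := h2 (x ^ 2) c d hX0 hX40 (by linarith) hcd hgc hgd
    (fun s hs => hs.elim (hgXc s) (hgXd s)) hline
  set r : ℝ := B * x * Real.log d with hr
  have hr0 : 0 < r := by positivity
  have hr1 : r ≤ 1 := by
    have : r ≤ x * (Real.log d) ^ 2 * B := by
      rw [hr]
      have : B * x * Real.log d * 1 ≤ B * x * Real.log d * Real.log d := by gcongr
      nlinarith
    linarith
  obtain ⟨Y, hY, e4⟩ := seq_good hγ c d r (by linarith) hr0 hr1 (by linarith)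
  have e3 := h3 x c d hx (by linarith) hcd hxd hline hzfin Y hY
  set m : ℝ := ((zr (fun t => logDeriv riemannZeta (pt (1 / 2 + x ^ 2) t)) c d).ncard : ℝ) with hm
  set N : ℝ := (cnt riemannZeta (Rc (-2) 3 c d) : ℝ) with hN
  set D : ℝ := (cnt (deriv riemannZeta) (Rc (-1) (1 / 2 + x ^ 2) c d) : ℝ) with hD
  have hza : ∀ a b c' d' : ℝ, 0 < c' → AnalyticOnNhd ℂ riemannZeta (Rcl a b c' d') := by
    intro a b c' d' hc' s hs
    have hs1 : s ≠ 1 := by
      rintro rfl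
      have := hs.2.2.1
      simp at this
      linarith
    have h2 : DifferentiableOn ℂ riemannZeta {1}ᶜ := fun s hs =>
      (differentiableAt_riemannZeta hs).differentiableWithinAt
    exact h2.analyticAt (isOpen_compl_singleton.mem_nhds hs1)
  have hsub : ∀ a b c' d' : ℝ, Rc a b c' d' ⊆ Rcl a b c' d' := fun a b c' d' s hs =>
    ⟨hs.1.le, hs.2.1.le, hs.2.2.1.le, hs.2.2.2.le⟩
  have hne3 : ∀ {c' d' : ℝ}, c' ≤ d' → ∃ s ∈ Rcl (-2) 3 c' d', riemannZeta s ≠ 0 := by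
    intro c' d' h
    refine ⟨pt 3 c', ⟨by simp; norm_num, le_rfl, le_rfl, h⟩, ?_⟩
    exact riemannZeta_ne_zero_of_one_le_re (by simp)
  have hzf : ∀ {c' d' : ℝ}, 0 < c' → c' ≤ d' → (zset riemannZeta (Rc (-2) 3 c' d')).Finite := by
    intro c' d' h h'
    exact (zset_finite (hza _ _ _ _ h) (hne3 h')).subset fun p hp => ⟨hsub _ _ _ _ hp.1, hp.2⟩
  have e5 : (cnt riemannZeta (Rc (-1) (1 / 2 + x ^ 2) c d) : ℝ) ≤ N := by
    rw [hN]
    have h5 : Rc (-1) (1 / 2 + x ^ 2) c d ⊆ Rc (-2) 3 c d := by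
      rintro s ⟨h5, h6, h7⟩
      exact ⟨by linarith, by linarith, h7⟩
    exact_mod_cast cnt_mono h5 (hzf (by linarith) hcd.le)
  -- windows
  have w1 : (cnt riemannZeta (Rc (-2) 3 (c - 1) (c + 2)) : ℝ) ≤ C4 * Real.log T := by
    have h5 := h4 c (by linarith)
    have h6 : cnt riemannZeta (Rc (-2) 3 (c - 1) (c + 2)) ≤ cnt riemannZeta (Rc (-2) 3 (c - 2) (c + 2)) :=
      cnt_mono (fun s hs => ⟨hs.1, hs.2.1, by linarith [hs.2.2.1], hs.2.2.2⟩)
        (hzf (by linarith) (by linarith))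
    have h7 : Real.log c ≤ Real.log T := Real.log_le_log (by linarith) (by linarith)
    calc (cnt riemannZeta (Rc (-2) 3 (c - 1) (c + 2)) : ℝ)
        ≤ cnt riemannZeta (Rc (-2) 3 (c - 2) (c + 2)) := by exact_mod_cast h6
      _ ≤ C4 * Real.log c := h5
      _ ≤ C4 * Real.log T := by gcongr
  have w2 : (cnt riemannZeta (Rc (-2) 3 (d - 2) (d + 1)) : ℝ) ≤ 2 * C4 * Real.log T := by
    have h5 := h4 d (by linarith)
    have h6 : cnt riemannZeta (Rc (-2) 3 (d - 2) (d + 1)) ≤ cnt riemannZeta (Rc (-2) 3 (d - 2) (d + 2)) :=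
      cnt_mono (fun s hs => ⟨hs.1, hs.2.1, hs.2.2.1, by linarith [hs.2.2.2]⟩)
        (hzf (by linarith) (by linarith))
    calc (cnt riemannZeta (Rc (-2) 3 (d - 2) (d + 1)) : ℝ)
        ≤ cnt riemannZeta (Rc (-2) 3 (d - 2) (d + 2)) := by exact_mod_cast h6
      _ ≤ C4 * Real.log d := h5
      _ ≤ C4 * (2 * Real.log T) := by gcongr; linarith
      _ = 2 * C4 * Real.log T := by ring
  have w3 : (cnt riemannZeta (Rc (-2) 3 (T - 1) (T + 2 + 1)) : ℝ) ≤ 2 * C4 * Real.log T := by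
    have h5 := h4 (T + 1) (by linarith)
    have h6 : cnt riemannZeta (Rc (-2) 3 (T - 1) (T + 2 + 1)) ≤
        cnt riemannZeta (Rc (-2) 3 (T + 1 - 2) (T + 1 + 2)) :=
      cnt_mono (fun s hs => ⟨hs.1, hs.2.1, by linarith [hs.2.2.1], by linarith [hs.2.2.2]⟩)
        (hzf (by linarith) (by linarith))
    have h7 : Real.log (T + 1) ≤ Real.log (T + 2) := Real.log_le_log (by linarith) (by linarith)
    calc (cnt riemannZeta (Rc (-2) 3 (T - 1) (T + 2 + 1)) : ℝ)
        ≤ cnt riemannZeta (Rc (-2) 3 (T + 1 - 2) (T + 1 + 2)) := by exact_mod_cast h6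
      _ ≤ C4 * Real.log (T + 1) := h5
      _ ≤ C4 * (2 * Real.log T) := by gcongr; linarith
      _ = 2 * C4 * Real.log T := by ring
  -- gap counts
  have g1 : (gapCount γ d r : ℝ) ≤ gapCount γ T (B * x * Real.log (T + 2)) + 2 * C4 * Real.log T := by
    have h5 : gapCount γ d r ≤ gapCount γ (T + 2) r := gapCount_mono_T hfin hd2.le
    have h6 : gapCount γ (T + 2) r ≤ gapCount γ (T + 2) (B * x * Real.log (T + 2)) :=
      gapCount_mono hγ (by rw [hr]; gcongr)
    have h7 := gapCount_le_add hγ (T := T) (T' := T + 2) (x := B * x * Real.log (T + 2))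
      (by linarith) (by linarith)
    have h8 : (gapCount γ d r : ℝ) ≤ gapCount γ T (B * x * Real.log (T + 2))
        + cnt riemannZeta (Rc (-2) 3 (T - 1) (T + 2 + 1)) := by
      exact_mod_cast h5.trans (h6.trans h7)
    linarith
  -- low zeros of the derivative
  have d1 : (derivCount T y : ℝ) ≤ K0 + D :=
    derivCount_le_add hy (by linarith) (by linarith) (by linarith) (by linarith)
  -- final
  have hpi := Real.pi_pos
  have hpi3 := Real.pi_gt_three
  have f1 : 2 * Real.pi * (D - N) ≤ V (logDeriv riemannZeta) (1 / 2 + x ^ 2) c d + C1 * Real.log d := by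
    have h5 := (abs_le.1 e1).2
    have h6 : 2 * Real.pi * (D - N) ≤ 2 * Real.pi * (D - (cnt riemannZeta (Rc (-1) (1 / 2 + x ^ 2) c d) : ℝ)) := by
      gcongr
    linarith
  have f2 : V (logDeriv riemannZeta) (1 / 2 + x ^ 2) c d ≤ -(2 * Real.pi) * Y.card
      + Real.pi * ((2 * N + C2 * Real.log d) - 2 * Y.card) + 4 * Real.pi := by
    refine e3.trans ?_
    gcongr
  have h5 : C1 * Real.log d ≤ 2 * Real.pi * (C1 * Real.log d) := by
    have h6 : 0 ≤ C1 * Real.log d := by positivity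
    have h7 : 0 ≤ (2 * Real.pi - 1) * (C1 * Real.log d) := mul_nonneg (by linarith) h6
    linarith
  have f3 : 2 * Real.pi * D ≤ 2 * Real.pi * (2 * (N - Y.card) + C2 / 2 * Real.log d + 2 + C1 * Real.log d) := by
    calc 2 * Real.pi * D = 2 * Real.pi * (D - N) + 2 * Real.pi * N := by ring
      _ ≤ (-(2 * Real.pi) * Y.card + Real.pi * ((2 * N + C2 * Real.log d) - 2 * Y.card) + 4 * Real.pi
          + 2 * Real.pi * (C1 * Real.log d)) + 2 * Real.pi * N := by
          linarith only [f1, f2, h5]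
      _ = _ := by ring
  have f4 : D ≤ 2 * (N - Y.card) + C2 / 2 * Real.log d + 2 + C1 * Real.log d :=
    le_of_mul_le_mul_left f3 (by positivity)
  have f5 : Real.log d ≤ 2 * Real.log T := hlogd.trans hlog2
  have f6 : C2 / 2 * Real.log d ≤ C2 * Real.log T := by
    calc C2 / 2 * Real.log d ≤ C2 / 2 * (2 * Real.log T) := by gcongr
      _ = _ := by ring
  have f7 : C1 * Real.log d ≤ 2 * (C1 * Real.log T) := by
    calc C1 * Real.log d ≤ C1 * (2 * Real.log T) := by gcongr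
      _ = _ := by ring
  have f8 : K0 ≤ K0 * Real.log T := le_mul_of_one_le_right hK0n hlogT
  have f9 : 0 ≤ T0 * Real.log T := by positivity
  have f10 : 0 ≤ C1 * Real.log T := by positivity
  have f11 : 0 ≤ C2 * Real.log T := by positivity
  have f12 : 0 ≤ C4 * Real.log T := by positivity
  have f13 : N - Y.card ≤ 2 * gapCount γ d r + C4 * Real.log T + 2 * C4 * Real.log T + 2 := by
    linarith only [e4, w1, w2]
  have f14 : D ≤ 4 * gapCount γ T (B * x * Real.log (T + 2)) + 14 * C4 * Real.log T + 6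
      + C2 * Real.log T + 2 * (C1 * Real.log T) := by
    linarith only [f13, f4, f6, f7, g1]
  have f15 : C * Real.log T = T0 * Real.log T + K0 * Real.log T + 2 * (C1 * Real.log T)
      + 2 * (C2 * Real.log T) + 50 * (C4 * Real.log T) + 50 * Real.log T := by
    rw [hC]; ring
  linarith only [f15, f14, f8, f9, f10, f11, f12, d1, hlogT]

lemma finite_gamma (hγ : IsOrdinateSeq γ) (T : ℝ) : {n | γ n ≤ T}.Finite :=
  Pool.Agent.ZP.finite_le hγ T

lemma exists_generic {x e : ℝ} (hx : 0 ≤ x) (he : x < e) : ∃ x', x < x' ∧ x' < e ∧ GenX (x' ^ 2) := by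
  obtain ⟨X, ⟨h1, h2⟩, h3⟩ := gen_line (x ^ 2) (e ^ 2) (by gcongr)
  refine ⟨√X, ?_, ?_, ?_⟩
  · rw [Real.lt_sqrt hx]; exact h1
  · rw [Real.sqrt_lt' (by linarith)]; exact h2
  · rw [Real.sq_sqrt (by nlinarith)]; exact h3

theorem part_two (hγ : IsOrdinateSeq γ) : ∃ C : ℝ, 1 ≤ C ∧ ∀ T x : ℝ, C ≤ T → 0 ≤ x →
    C * x * (Real.log T) ^ 2 ≤ 1 →
    (derivCount T (x ^ 2) : ℝ) ≤ C * (gapCount γ T (C * x * Real.log T) + Real.log T) := by
  have hfin := finite_gamma hγ
  obtain ⟨C0, B, hC0, hB, h⟩ := part_two' hγ hfin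
  refine ⟨max (8 * B) (C0 + 4), le_trans (by linarith) (le_max_left _ _), fun T x hT hx hxT => ?_⟩
  set C : ℝ := max (8 * B) (C0 + 4) with hC
  have hC8 : 8 * B ≤ C := le_max_left _ _
  have hC4 : C0 + 4 ≤ C := le_max_right _ _
  have hT4 : 5 ≤ T := by linarith
  have hlogT : 0 < Real.log T := Real.log_pos (by linarith)
  have hlog2 : Real.log (T + 2) ≤ 2 * Real.log T := log_add_two_le (by linarith)
  have hlog0 : 0 < Real.log (T + 2) := Real.log_pos (by linarith)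
  have key : ∀ g : ℝ, 0 ≤ g → 4 * g + C0 * Real.log T ≤ C * (g + Real.log T) := by
    intro g hg
    have h1 : 4 * g ≤ C * g := by gcongr; linarith
    have h2 : C0 * Real.log T ≤ C * Real.log T := by gcongr; linarith
    linarith
  rcases hx.eq_or_lt with hx0 | hx0
  · subst hx0
    obtain ⟨e, he, hg⟩ := gapCount_zero hγ T
    obtain ⟨x', h1, h2, h3⟩ := exists_generic (x := 0)
      (e := min (1 / (B * (Real.log (T + 2)) ^ 2)) (e / (B * Real.log (T + 2)))) le_rfl (by positivity)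
    have h4 : x' < 1 / (B * (Real.log (T + 2)) ^ 2) := h2.trans_le (min_le_left _ _)
    have h5 : x' < e / (B * Real.log (T + 2)) := h2.trans_le (min_le_right _ _)
    rw [lt_div_iff₀ (by positivity)] at h4 h5
    have h6 := h T x' (by linarith) h1 (by nlinarith) h3 (0 ^ 2) (by nlinarith)
    rw [hg (B * x' * Real.log (T + 2)) (by positivity) (by nlinarith)] at h6
    rw [mul_zero, zero_mul]
    exact h6.trans (key _ (Nat.cast_nonneg _))
  · obtain ⟨x', h1, h2, h3⟩ := exists_generic hx (show x < 2 * x by linarith)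
    have h0 : 0 < x' := by linarith
    have h4 : x' * (Real.log (T + 2)) ^ 2 * B ≤ 1 := by
      calc x' * (Real.log (T + 2)) ^ 2 * B ≤ (2 * x) * (2 * Real.log T) ^ 2 * B := by gcongr
        _ = (8 * B) * x * (Real.log T) ^ 2 := by ring
        _ ≤ C * x * (Real.log T) ^ 2 := by gcongr
        _ ≤ 1 := hxT
    have h6 := h T x' (by linarith) h0 h4 h3 (x ^ 2) (by gcongr)
    refine h6.trans (le_trans ?_ (key _ (Nat.cast_nonneg _)))
    have h7 : gapCount γ T (B * x' * Real.log (T + 2)) ≤ gapCount γ T (C * x * Real.log T) := by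
      refine gapCount_mono hγ ?_
      calc B * x' * Real.log (T + 2) ≤ B * (2 * x) * (2 * Real.log T) := by gcongr
        _ = 4 * B * x * Real.log T := by ring
        _ ≤ C * x * Real.log T := by gcongr; linarith
    have h8 : (gapCount γ T (B * x' * Real.log (T + 2)) : ℝ) ≤ gapCount γ T (C * x * Real.log T) := by
      exact_mod_cast h7
    linarith

end Pool.Agent.ZC
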