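import Pool.Agent.Lib.MP_af3d17_cn.Defs

/-!
# MP_af3d17_nt: zeros of an analytic function in a rectangle are taken out
-/

set_option autoImplicit false

namespace Pool.Agent.ZC

open Filter Topology Set
open Pool.Agent.ZP (pt Lam EE IsUpperZero IsOrdinateSeq)

private lemma exists_list (S : Finset ℂ) (n : ℂ → ℕ) : ∃ l : List ℂ, (∀ z ∈ l, z ∈ S) ∧
    ∀ w : ℂ, (l.map fun z => w - z).prod = ∏ u ∈ S, (w - u) ^ n u := by
  classical
  induction S using Finset.induction_on with
  | empty => exact ⟨[], by simp, by simp⟩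
  | insert u S hu ih =>
    obtain ⟨l, h1, h2⟩ := ih
    refine ⟨List.replicate (n u) u ++ l, ?_, ?_⟩
    · intro z hz
      rw [List.mem_append] at hz
      rcases hz with hz | hz
      · rw [List.eq_of_mem_replicate hz]
        exact Finset.mem_insert_self _ _
      · exact Finset.mem_insert_of_mem (h1 z hz)
    · intro w
      rw [List.map_append, List.prod_append, h2, List.map_replicate, List.prod_replicate,
        Finset.prod_insert hu]

private lemma rcl_eq (a b c d : ℝ) : Rcl a b c d = Icc a b ×ℂ Icc c d := by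
  ext s
  simp only [Rcl, mem_setOf_eq, Complex.mem_reProdIm, mem_Icc]
  tauto

private lemma rcl_compact (a b c d : ℝ) : IsCompact (Rcl a b c d) := by
  rw [rcl_eq]
  exact isCompact_Icc.reProdIm isCompact_Icc

private lemma rcl_convex (a b c d : ℝ) : Convex ℝ (Rcl a b c d) := by
  intro s hs t ht x y hx hy hxy
  obtain ⟨h1, h2, h3, h4⟩ := hs
  obtain ⟨h5, h6, h7, h8⟩ := ht
  have hy' : y = 1 - x := by linarith
  subst hy'
  refine ⟨?_, ?_, ?_, ?_⟩ <;>
    simp only [Complex.add_re, Complex.add_im, Complex.real_smul, Complex.mul_re, Complex.mul_im,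
      Complex.ofReal_re, Complex.ofReal_im, zero_mul, sub_zero, add_zero] <;> nlinarith

/-- R1 -/
theorem rect_factor {f : ℂ → ℂ} {a b c d : ℝ} (hab : a < b) (hcd : c < d)
    (hf : AnalyticOnNhd ℂ f (Rcl a b c d)) (h0 : BNe f a b c d) :
    ∃ (k : ℕ) (z : Fin k → ℂ) (g : ℂ → ℂ), (∀ i, z i ∈ Rc a b c d) ∧
      AnalyticOnNhd ℂ g (Rcl a b c d) ∧ (∀ s ∈ Rcl a b c d, g s ≠ 0) ∧
      (∀ s ∈ Rcl a b c d, f =ᶠ[𝓝 s] fun w => (∏ i, (w - z i)) * g w) := by
  set U : Set ℂ := Rcl a b c d with hU
  have hac : pt a c ∈ U := ⟨le_refl a, hab.le, le_refl c, hcd.le⟩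
  have hbd : pt b c ∈ U := ⟨hab.le, le_refl b, le_refl c, hcd.le⟩
  have hconn : IsPreconnected U := (rcl_convex a b c d).isPreconnected
  have hnt : U.Nontrivial := ⟨pt a c, hac, pt b c, hbd, fun h => by
    have := congrArg Complex.re h
    simp only [Pool.Agent.ZP.pt_re] at this
    exact hab.ne this⟩
  have hperf : Preperfect U := hconn.preperfect_of_nontrivial hnt
  have hmer : MeromorphicOn f U := hf.meromorphicOn
  have hzero : ∀ s ∈ U, f s = 0 → s ∈ Rc a b c d := by
    rintro s ⟨h1, h2, h3, h4⟩ hs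
    refine ⟨lt_of_le_of_ne h1 ?_, lt_of_le_of_ne h2 ?_, lt_of_le_of_ne h3 ?_,
      lt_of_le_of_ne h4 ?_⟩
    · intro h
      refine h0.left s.im ⟨h3, h4⟩ ?_
      rw [← hs]
      congr 1
      exact Complex.ext h rfl
    · intro h
      refine h0.right s.im ⟨h3, h4⟩ ?_
      rw [← hs]
      congr 1
      exact Complex.ext h.symm rfl
    · intro h
      refine h0.bot s.re ⟨h1, h2⟩ ?_
      rw [← hs]
      congr 1
      exact Complex.ext rfl h
    · intro h
      refine h0.top s.re ⟨h1, h2⟩ ?_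
      rw [← hs]
      congr 1
      exact Complex.ext rfl h.symm
  have hord0 : ∀ s ∈ U, f s ≠ 0 → meromorphicOrderAt f s = 0 := by
    intro s hs hfs
    rw [(hf s hs).meromorphicOrderAt_eq, (hf s hs).analyticOrderAt_eq_zero.2 hfs]
    rfl
  have hord : ∀ u : U, meromorphicOrderAt f u ≠ ⊤ := by
    refine (hmer.exists_meromorphicOrderAt_ne_top_iff_forall ⟨⟨_, hac⟩, hconn⟩).1 ⟨⟨_, hac⟩, ?_⟩
    rw [hord0 _ hac (h0.left c ⟨le_refl c, hcd.le⟩)]
    simp
  have hfin : (MeromorphicOn.divisor f U).support.Finite :=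
    (MeromorphicOn.divisor f U).finiteSupport (rcl_compact a b c d)
  obtain ⟨g, hg, hg0, hfg⟩ := MeromorphicOn.extract_zeros_poles hmer hord hfin
  have hD0 : ∀ u, 0 ≤ MeromorphicOn.divisor f U u :=
    fun u => MeromorphicOn.AnalyticOnNhd.divisor_nonneg hf u
  obtain ⟨l, hl1, hl2⟩ := exists_list hfin.toFinset fun u => (MeromorphicOn.divisor f U u).toNat
  have hprod : ∀ w, (∏ᶠ u, (w - u) ^ MeromorphicOn.divisor f U u) =
      ∏ i : Fin l.length, (w - l[i.1]) := by
    intro w
    rw [Fin.prod_univ_fun_getElem l (fun z => w - z), hl2,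
      finprod_eq_prod_of_mulSupport_subset (s := hfin.toFinset)]
    · refine Finset.prod_congr rfl fun u _ => ?_
      rw [← zpow_natCast, Int.toNat_of_nonneg (hD0 u)]
    · intro u
      contrapose
      simp_all
  refine ⟨l.length, fun i => l[i.1], g, ?_, hg, fun s hs => hg0 ⟨s, hs⟩, ?_⟩
  · intro i
    have h1 := hl1 l[i.1] (List.getElem_mem _)
    rw [Set.Finite.mem_toFinset, Function.mem_support] at h1
    have h2 : l[i.1] ∈ U := by
      by_contra h
      exact h1 (Function.locallyFinsuppWithin.apply_eq_zero_of_notMem _ h)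
    refine hzero _ h2 ?_
    by_contra h
    apply h1
    rw [MeromorphicOn.divisor_apply hmer h2, hord0 _ h2 h]
    rfl
  · intro s hs
    have hF : AnalyticAt ℂ (fun w => (∏ i : Fin l.length, (w - l[i.1])) * g w) s := by
      refine AnalyticAt.mul ?_ (hg s hs)
      exact Finset.analyticAt_fun_prod _ fun i _ => analyticAt_id.sub analyticAt_const
    have hfF : f =ᶠ[codiscreteWithin U] fun w => (∏ i : Fin l.length, (w - l[i.1])) * g w := by
      refine hfg.trans (Eventually.of_forall fun w => ?_)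
      rw [Function.FactorizedRational.finprod_eq_fun hfin]
      simp only [Pi.smul_apply', smul_eq_mul, hprod]
    have h1 := (hf s hs).meromorphicAt.eventuallyEq_nhdsNE_of_eventuallyEq_codiscreteWithin
      hF.meromorphicAt hs (hperf s hs) hfF
    exact ((hf s hs).continuousAt.eventuallyEq_nhds_iff_eventuallyEq_nhdsNE hF.continuousAt).1 h1

end Pool.Agent.ZC
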