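import Pool.Agent.Lib.MP_af3d17_cn.CountSum
import Pool.Agent.Lib.MP_af3d17_nt_h98.Count

/-! # SQ1: the sequence counts the zeros -/

set_option autoImplicit false

namespace Pool.Agent.ZC

open Filter Topology Set
open Pool.Agent.ZP (pt Lam EE IsUpperZero IsOrdinateSeq)

variable {γ : ℕ → ℝ}

namespace SQ1

private theorem zeta_strip {s : ℂ} (h : 0 < s.im) (h0 : riemannZeta s = 0) :
    0 < s.re ∧ s.re < 1 := by
  have hs1 : s ≠ 1 := by
    rintro rfl
    simp at h
  constructor
  · by_contra hre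
    rw [not_lt] at hre
    have hne : ∀ n : ℕ, (1 - s) ≠ -(n : ℂ) := by
      intro n hn
      have h1 := congrArg Complex.im hn
      simp at h1
      exact h.ne' h1
    have h1' : (1 - s) ≠ 1 := by
      intro h2
      have h3 := congrArg Complex.im h2
      simp at h3
      exact h.ne' h3
    have h2 := riemannZeta_one_sub hne h1'
    rw [sub_sub_cancel, h0] at h2
    have h3 : riemannZeta (1 - s) ≠ 0 := by
      apply riemannZeta_ne_zero_of_one_le_re
      rw [Complex.sub_re, Complex.one_re]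
      linarith
    have h4 : Complex.Gamma (1 - s) ≠ 0 := Complex.Gamma_ne_zero hne
    have h5 : Complex.cos (Real.pi * (1 - s) / 2) ≠ 0 := by
      rw [Complex.cos_ne_zero_iff]
      intro k hk
      have h6 := congrArg Complex.im hk
      have h7 : ((Real.pi : ℂ) * (1 - s) / 2).im = -(Real.pi * s.im / 2) := by
        simp
        ring
      have h8 : (((2 : ℂ) * k + 1) * Real.pi / 2).im = 0 := by
        have : ((2 : ℂ) * k + 1) * Real.pi / 2 = (((2 * k + 1) * Real.pi / 2 : ℝ) : ℂ) := by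
          push_cast
          ring
        rw [this, Complex.ofReal_im]
      rw [h7, h8] at h6
      have : 0 < Real.pi * s.im := mul_pos Real.pi_pos h
      linarith
    have h9 : (2 * (Real.pi : ℂ)) ^ (-(1 - s)) ≠ 0 := by
      have : (2 * (Real.pi : ℂ)) ≠ 0 := by
        simp [Real.pi_ne_zero]
      exact (Complex.cpow_ne_zero_iff_of_exponent_ne_zero (by
        intro h10
        have h11 := congrArg Complex.im h10
        simp at h11
        exact h.ne' h11)).2 this
    have h12 : (2 : ℂ) * (2 * (Real.pi : ℂ)) ^ (-(1 - s)) * Complex.Gamma (1 - s) *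
        Complex.cos (Real.pi * (1 - s) / 2) * riemannZeta (1 - s) ≠ 0 :=
      mul_ne_zero (mul_ne_zero (mul_ne_zero (mul_ne_zero two_ne_zero h9) h4) h5) h3
    exact h12 h2.symm
  · by_contra hre
    rw [not_lt] at hre
    exact riemannZeta_ne_zero_of_one_le_re hre h0

end SQ1

/-- SQ1 -/
theorem seq_count (hγ : IsOrdinateSeq γ) {c d : ℝ} (hc : 0 ≤ c) :
    {n | c < γ n ∧ γ n < d}.ncard = cnt riemannZeta (Rc (-2) 3 c d) := by
  classical
  have hA : ∀ p : ℂ × ℕ, p ∈ zset riemannZeta (Rc (-2) 3 c d) ↔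
      (IsUpperZero p.1 ∧ (p.2 : ℕ∞) < analyticOrderAt riemannZeta p.1) ∧
        c < p.1.im ∧ p.1.im < d := by
    rintro ⟨s, j⟩
    constructor
    · rintro ⟨⟨h1, h2, h3, h4⟩, h5⟩
      have hne : analyticOrderAt riemannZeta s ≠ 0 := (zero_le.trans_lt h5).ne'
      have hz : riemannZeta s = 0 := apply_eq_zero_of_analyticOrderAt_ne_zero hne
      have hs := SQ1.zeta_strip (hc.trans_lt h3) hz
      exact ⟨⟨⟨hz, hs.1, hs.2, hc.trans_lt h3⟩, h5⟩, h3, h4⟩
    · rintro ⟨⟨⟨hz, h1, h2, h3⟩, h5⟩, h6, h7⟩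
      exact ⟨⟨by show (-2 : ℝ) < s.re; linarith, by show s.re < 3; linarith, h6, h7⟩, h5⟩
  have hAfin : (zset riemannZeta (Rc (-2) 3 c d)).Finite := by
    refine ((ZP.finite_zeros d).biUnion
      (t := fun ρ => {ρ} ×ˢ {k : ℕ | (k : ℕ∞) < analyticOrderAt riemannZeta ρ})
      fun ρ _ => ?_).subset ?_
    · refine (finite_singleton ρ).prod ?_
      obtain ⟨k, hk⟩ := ENat.ne_top_iff_exists.1 (ZP.order_ne_top ρ)
      rw [← hk]
      refine (finite_Iio k).subset fun j hj => ?_
      have hj' : (j : ℕ∞) < (k : ℕ∞) := hj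
      exact_mod_cast hj'
    · intro p hp
      rw [hA] at hp
      rw [mem_iUnion₂]
      exact ⟨p.1, ⟨hp.1.1, hp.2.2.le⟩, mem_prod.2 ⟨rfl, hp.1.2⟩⟩
  have hBfin : {n | c < γ n ∧ γ n < d}.Finite :=
    (ZP.finite_le hγ d).subset fun n hn => hn.2.le
  set A := hAfin.toFinset with hAd
  set B := hBfin.toFinset with hBd
  set F : Finset ℝ := B.image γ ∪ A.image (fun p => p.1.im) with hF
  have hFm : ∀ t ∈ F, c < t ∧ t < d := by
    intro t ht
    rw [hF, Finset.mem_union, Finset.mem_image, Finset.mem_image] at ht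
    rcases ht with ⟨n, hn, rfl⟩ | ⟨p, hp, rfl⟩
    · rw [hBd, Finite.mem_toFinset] at hn
      exact hn
    · rw [hAd, Finite.mem_toFinset] at hp
      exact ((hA p).1 hp).2
  have hB1 : B.card = ∑ t ∈ F, (B.filter fun n => γ n = t).card :=
    Finset.card_eq_sum_card_fiberwise fun n hn =>
      Finset.mem_coe.2 (Finset.mem_union_left _ (Finset.mem_image_of_mem _ (Finset.mem_coe.1 hn)))
  have hA1 : A.card = ∑ t ∈ F, (A.filter fun p => p.1.im = t).card :=
    Finset.card_eq_sum_card_fiberwise fun p hp =>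
      Finset.mem_coe.2 (Finset.mem_union_right _
        (Finset.mem_image_of_mem (fun p : ℂ × ℕ => p.1.im) (Finset.mem_coe.1 hp)))
  have hfib : ∀ t ∈ F, (B.filter fun n => γ n = t).card = (A.filter fun p => p.1.im = t).card := by
    intro t ht
    obtain ⟨h1, h2⟩ := hFm t ht
    have e1 : ((B.filter fun n => γ n = t : Finset ℕ) : Set ℕ) = {n | γ n = t} := by
      ext n
      rw [Finset.mem_coe, Finset.mem_filter, hBd, Finite.mem_toFinset]
      constructor
      · rintro ⟨-, h⟩
        exact h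
      · intro h
        have h' : γ n = t := h
        exact ⟨⟨by rw [h']; exact h1, by rw [h']; exact h2⟩, h⟩
    have e2 : ((A.filter fun p => p.1.im = t : Finset (ℂ × ℕ)) : Set (ℂ × ℕ)) =
        {p : ℂ × ℕ | IsUpperZero p.1 ∧ p.1.im = t ∧
          (p.2 : ℕ∞) < analyticOrderAt riemannZeta p.1} := by
      ext p
      rw [Finset.mem_coe, Finset.mem_filter, hAd, Finite.mem_toFinset, hA]
      constructor
      · rintro ⟨⟨⟨h3, h4⟩, -⟩, h5⟩
        exact ⟨h3, h5, h4⟩
      · rintro ⟨h3, h5, h4⟩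
        exact ⟨⟨⟨h3, h4⟩, by rw [h5]; exact h1, by rw [h5]; exact h2⟩, h5⟩
    rw [← ncard_coe_finset, ← ncard_coe_finset, e1, e2, ncard_def, ncard_def, hγ.count]
  have h3 : B.card = A.card := by
    rw [hB1, hA1]
    exact Finset.sum_congr rfl hfib
  unfold cnt
  rw [ncard_eq_toFinset_card _ hBfin, ncard_eq_toFinset_card _ hAfin]
  exact h3

end Pool.Agent.ZC
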